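import Pool.Agent.P.MP_f475a8_pr.Cell

/-! Blocking events in rectangles of cells and their probabilities. -/

set_option autoImplicit false
open Function Classical

namespace Pool.Agent.P.MP_f475a8_pr

structure Band where
  φ : Cl → Cl
  A : ℕ
  B : ℕ
  b0 : ℕ
  b1 : ℕ

namespace Band
variable (β : Band)

def st : Finset (ℕ × ℕ) :=
  (Finset.range (β.A + 1) ×ˢ {β.B}) ∪ (({β.A - 1, β.A} : Finset ℕ) ×ˢ Finset.Ico (β.b1 - 1) (β.B + 1))

def reg (x : Cl) : Prop := ∃ c, Rc β.A β.B c ∧ x = β.φ c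

noncomputable def fam : Finset (List Cl) :=
  (β.st.biUnion (fun t => Fam (β.φ (t.1, t.2)) (t.2 - β.b0 - 2))).filter
    (fun γ => CL γ ∧ ∀ x ∈ γ, β.reg x)

def Blk (dead : Cl → Prop) : Prop := ∃ γ ∈ β.fam, ∀ x ∈ γ, dead x

structure Ok : Prop where
  hA : 1 ≤ β.A
  h1 : β.b0 + 3 ≤ β.b1
  h2 : β.b1 ≤ β.B + 1
  iso : ∀ x y, kadj (β.φ x) (β.φ y) ↔ kadj x y
  inj : Injective β.φ

theorem geo {k m n : ℕ} (h1 : k ≤ m) (h2 : m ≤ n) :
    ∑ b ∈ Finset.Ico m n, lam ^ (b - k) ≤ 50 * lam ^ (m - k) := by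
  have : ∑ b ∈ Finset.Ico m n, lam ^ (b - k) = 50 * (lam ^ (m - k) - lam ^ (n - k)) := by
    induction n, h2 using Nat.le_induction with
    | base => simp
    | succ n h ih =>
      rw [Finset.sum_Ico_succ_top h, ih, show n + 1 - k = (n - k) + 1 by omega, pow_succ]
      unfold lam; ring
  rw [this]
  have : 0 ≤ lam ^ (n - k) := by unfold lam; positivity
  linarith

theorem sum_fam (h : β.Ok) : ∑ γ ∈ β.fam, DD γ ≤
    320 * ((β.A + 1) * lam ^ (β.B - β.b0 - 2) + 100 * lam ^ (β.b1 - β.b0 - 3)) := by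
  have l0 : ∀ n, 0 ≤ lam ^ n := fun n => by unfold lam; positivity
  refine (Finset.sum_le_sum_of_subset_of_nonneg (Finset.filter_subset _ _)
    (fun _ _ _ => D_nonneg _ _)).trans ?_
  refine (sum_biUnion_le' _ _ _ (fun l => D_nonneg _ l)).trans ?_
  refine (Finset.sum_le_sum (fun t _ => sum_Fam _ _)).trans ?_
  rw [← Finset.mul_sum]
  refine mul_le_mul_of_nonneg_left ?_ (by norm_num)
  have h1 := Finset.sum_union_inter (s₁ := Finset.range (β.A + 1) ×ˢ {β.B})
    (s₂ := ({β.A - 1, β.A} : Finset ℕ) ×ˢ Finset.Ico (β.b1 - 1) (β.B + 1))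
    (f := fun t => lam ^ (t.2 - β.b0 - 2))
  have h2 : 0 ≤ ∑ t ∈ (Finset.range (β.A + 1) ×ˢ {β.B}) ∩
      (({β.A - 1, β.A} : Finset ℕ) ×ˢ Finset.Ico (β.b1 - 1) (β.B + 1)), lam ^ (t.2 - β.b0 - 2) :=
    Finset.sum_nonneg (fun _ _ => l0 _)
  have h3 : ∑ t ∈ Finset.range (β.A + 1) ×ˢ {β.B}, lam ^ (t.2 - β.b0 - 2) =
      (β.A + 1) * lam ^ (β.B - β.b0 - 2) := by
    rw [Finset.sum_product]; simp
  have h4 : ∑ t ∈ ({β.A - 1, β.A} : Finset ℕ) ×ˢ Finset.Ico (β.b1 - 1) (β.B + 1),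
      lam ^ (t.2 - β.b0 - 2) ≤ 100 * lam ^ (β.b1 - β.b0 - 3) := by
    have := h.h1
    have := h.h2
    have h5 := geo (k := β.b0 + 2) (m := β.b1 - 1) (n := β.B + 1) (by omega) (by omega)
    rw [show β.b1 - 1 - (β.b0 + 2) = β.b1 - β.b0 - 3 by omega] at h5
    rw [Finset.sum_product, Finset.sum_pair (by have := h.hA; omega)]
    simp only [Nat.sub_sub] at h5 ⊢
    linarith
  unfold st
  linarith

theorem white (h : β.Ok) {dead : Cl → Prop} (hb : ¬ β.Blk dead) :
    ∃ (n : ℕ) (p : ℕ → Cl), (p 0).1 = 0 ∧ (p n).1 = β.A ∧ β.b0 ≤ (p n).2 ∧ (p n).2 < β.b1 ∧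
      n ≤ (β.A + 1) * (β.B + 1) ∧ (∀ i < n, adj4 (p i) (p (i + 1)) ∧ (p i).1 < β.A) ∧
      ∀ i ≤ n, Rc β.A β.B (p i) ∧ ¬ dead (β.φ (p i)) := by
  rcases band_local h.hA h.h1 h.h2 (fun c => dead (β.φ c)) with H | ⟨m, p, a1, a2, a3, a4⟩
  · exact H
  exfalso
  have b1 : Chordless (β.φ ∘ p) m :=
    ⟨fun i hi => (h.iso _ _).2 (a1.adj i hi), fun i j a b e => a1.inj i j a b (h.inj e),
      fun i j a b e => a1.far i j a b ((h.iso _ _).1 e)⟩
  obtain ⟨r1, r2, r3, r4⟩ := (a2 0 (Nat.zero_le _)).1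
  obtain ⟨a, ha⟩ := Int.eq_ofNat_of_zero_le r1
  obtain ⟨b, hb'⟩ := Int.eq_ofNat_of_zero_le r3
  have := h.h1
  have := h.h2
  have := h.hA
  have hm : 2 + (b - β.b0 - 2) ≤ m := by omega
  refine hb ⟨rev (β.φ ∘ p) (2 + (b - β.b0 - 2)), Finset.mem_filter.2 ⟨Finset.mem_biUnion.2
    ⟨(a, b), ?_, ?_⟩, b1.CL _ hm, fun x hx => ?_⟩, fun x hx => ?_⟩
  · simp only [st, Finset.mem_union, Finset.mem_product, Finset.mem_range, Finset.mem_singleton,
      Finset.mem_insert, Finset.mem_Ico]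
    omega
  · have := b1.mem_Fam hm
    rwa [comp_apply, show p 0 = ((a : ℤ), (b : ℤ)) from Prod.ext ha hb'] at this
  · obtain ⟨j, hj, rfl⟩ := mem_rev.1 hx
    exact ⟨p j, (a2 j (by omega)).1, rfl⟩
  · obtain ⟨j, hj, rfl⟩ := mem_rev.1 hx
    exact (a2 j (by omega)).2

end Band

variable {V : Type} [DecidableEq V]

theorem multi_blk {R : Finset V} {ω : V → Bool} {dead : (V → Bool) → Cl → Prop}
    (hB : ∀ γ, CL γ → Ex R (fun η => if ∀ x ∈ γ, dead η x then 1 else 0) ω ≤ DD γ)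
    {ι : Type} (s : Finset ι) (β : ι → Band) {θ : ℝ} (hθ : ∀ i ∈ s, ∑ γ ∈ (β i).fam, DD γ ≤ θ)
    (hsep : ∀ i ∈ s, ∀ j ∈ s, i ≠ j → ∀ x y, (β i).reg x → (β j).reg y → ¬ kadj x y) :
    Ex R (fun η => if ∀ i ∈ s, (β i).Blk (dead η) then 1 else 0) ω ≤ θ ^ s.card := by
  suffices ∀ l0, CL l0 → (∀ i ∈ s, ∀ x, (β i).reg x → ∀ y ∈ l0, ¬ kadj x y) →
      Ex R (fun η => if (∀ x ∈ l0, dead η x) ∧ ∀ i ∈ s, (β i).Blk (dead η) then 1 else 0) ω ≤
        DD l0 * θ ^ s.card by
    have h := this [] trivial (by simp)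
    simp only [List.not_mem_nil, false_imp_iff, implies_true, true_and] at h
    by_cases hs : s.card = 0
    · rw [hs, pow_zero]
      exact Ex_le_const (fun _ _ => by split_ifs <;> norm_num)
    · obtain ⟨i, hi⟩ := Finset.card_pos.1 (Nat.pos_of_ne_zero hs)
      have : 0 ≤ θ := (Finset.sum_nonneg (fun _ _ => D_nonneg _ _)).trans (hθ i hi)
      exact h.trans (mul_le_of_le_one_left (by positivity) (D_le_one _ _))
  induction s using Finset.induction_on with
  | empty =>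
    intro l0 h _
    simpa using hB l0 h
  | insert a s ha ih =>
    intro l0 h1 h2
    have ih' := ih (fun i hi => hθ i (Finset.mem_insert_of_mem hi))
      (fun i hi j hj => hsep i (Finset.mem_insert_of_mem hi) j (Finset.mem_insert_of_mem hj))
    have hθ' := hθ a (Finset.mem_insert_self _ _)
    have θ0 : 0 ≤ θ := (Finset.sum_nonneg (fun _ _ => D_nonneg _ _)).trans hθ'
    calc _ ≤ Ex R (fun η => ∑ γ ∈ (β a).fam, if (∀ x ∈ γ ++ l0, dead η x) ∧
            ∀ i ∈ s, (β i).Blk (dead η) then (1 : ℝ) else 0) ω := by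
          refine Ex_mono (fun η => ?_) ω
          split_ifs with h
          · obtain ⟨γ, g1, g2⟩ := h.2 a (Finset.mem_insert_self _ _)
            refine le_trans (le_of_eq ?_) (Finset.single_le_sum
              (f := fun γ => if (∀ x ∈ γ ++ l0, dead η x) ∧
                ∀ i ∈ s, (β i).Blk (dead η) then (1 : ℝ) else 0)
              (fun _ _ => by split_ifs <;> norm_num) g1)
            rw [if_pos ⟨fun x hx => (List.mem_append.1 hx).elim (g2 x) (h.1 x),
              fun i hi => h.2 i (Finset.mem_insert_of_mem hi)⟩]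
          · exact Finset.sum_nonneg (fun _ _ => by split_ifs <;> norm_num)
      _ ≤ ∑ γ ∈ (β a).fam, DD γ * (DD l0 * θ ^ s.card) := by
          rw [Ex_sum]
          refine Finset.sum_le_sum (fun γ hγ => ?_)
          obtain ⟨g1, g2⟩ := (Finset.mem_filter.1 hγ).2
          have g3 : ∀ x ∈ γ, ∀ y ∈ l0, ¬ kadj x y := fun x hx =>
            h2 a (Finset.mem_insert_self _ _) x (g2 x hx)
          refine (ih' (γ ++ l0) (g1.append h1 g3) (fun i hi x hx y hy => ?_)).trans ?_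
          · rcases List.mem_append.1 hy with e | e
            · exact hsep i (Finset.mem_insert_of_mem hi) a (Finset.mem_insert_self _ _)
                (fun e => ha (e ▸ hi)) x y hx (g2 y e)
            · exact h2 i (Finset.mem_insert_of_mem hi) x hx y e
          · rw [← mul_assoc]
            exact mul_le_mul_of_nonneg_right (D_append_le g3) (by positivity)
      _ ≤ _ := by
          rw [← Finset.sum_mul, Finset.card_insert_of_notMem ha, pow_succ]
          have := mul_le_mul_of_nonneg_right hθ'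
            (mul_nonneg (D_nonneg (fun _ => True) l0) (pow_nonneg θ0 s.card))
          linarith

theorem half_fail {R : Finset V} {ω : V → Bool} {ι : Type} (J : Finset ι)
    (Fl : ι → (V → Bool) → Prop) {θ : ℝ} (h0 : 0 ≤ θ) (h1 : θ ≤ 1)
    (h : ∀ Z ⊆ J, Ex R (fun η => if ∀ i ∈ Z, Fl i η then 1 else 0) ω ≤ (θ ^ 2) ^ Z.card) :
    Ex R (fun η => if J.card ≤ 2 * (J.filter (fun i => Fl i η)).card then 1 else 0) ω ≤
      (2 * θ) ^ J.card := by
  calc _ ≤ Ex R (fun η => ∑ Z ∈ J.powerset.filter (fun Z => J.card ≤ 2 * Z.card),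
          if ∀ i ∈ Z, Fl i η then (1 : ℝ) else 0) ω := by
        refine Ex_mono (fun η => ?_) ω
        split_ifs with h
        · refine le_trans (le_of_eq ?_) (Finset.single_le_sum
            (f := fun Z => if ∀ i ∈ Z, Fl i η then (1 : ℝ) else 0)
            (fun _ _ => by split_ifs <;> norm_num) (a := J.filter (fun i => Fl i η))
            (Finset.mem_filter.2 ⟨Finset.mem_powerset.2 (Finset.filter_subset _ _), h⟩))
          rw [if_pos (fun i hi => (Finset.mem_filter.1 hi).2)]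
        · exact Finset.sum_nonneg (fun _ _ => by split_ifs <;> norm_num)
    _ ≤ ∑ Z ∈ J.powerset.filter (fun Z => J.card ≤ 2 * Z.card), θ ^ J.card := by
        rw [Ex_sum]
        refine Finset.sum_le_sum (fun Z hZ => ?_)
        obtain ⟨a, b⟩ := Finset.mem_filter.1 hZ
        refine (h Z (Finset.mem_powerset.1 a)).trans ?_
        rw [← pow_mul]
        exact pow_le_pow_of_le_one h0 h1 b
    _ ≤ ∑ Z ∈ J.powerset, θ ^ J.card :=
        Finset.sum_le_sum_of_subset_of_nonneg (Finset.filter_subset _ _)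
          (fun _ _ _ => by positivity)
    _ = _ := by rw [Finset.sum_const, Finset.card_powerset, mul_pow]; simp

theorem Ex_all_eq (R : Finset V) (c ω : V → Bool) :
    Ex R (fun η => if ∀ v ∈ R, η v = c v then (1 : ℝ) else 0) ω = (1 / 2) ^ R.card := by
  induction R using Finset.induction_on generalizing ω with
  | empty => simp [Ex_empty]
  | insert a R ha ih =>
    rw [Ex_insert, E1, Finset.card_insert_of_notMem ha, pow_succ]
    have key : ∀ b : Bool, Ex R (fun η => if ∀ v ∈ insert a R, η v = c v then (1 : ℝ) else 0)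
        (update ω a b) = (if b = c a then 1 else 0) * (1 / 2) ^ R.card := by
      intro b
      rw [← ih (update ω a b), ← Ex_mul]
      refine Ex_congr_of (fun η hη => ?_)
      simp only [Finset.forall_mem_insert, hη a ha, update_self]
      by_cases h : b = c a <;> simp [h]
    rw [key, key]
    cases c a <;> simp <;> ring

end Pool.Agent.P.MP_f475a8_pr
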