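import Pool.Agent.P.MP_f475a8_pr.Stage

/-! At density one half, reading a fixed word is the same as site percolation. -/

set_option autoImplicit false
open Function Classical

namespace Pool.Agent.P.MP_f475a8_pr

variable {V : Type}

/-- the letters `0, ..., l` of `ξ` are read along a self-avoiding path in `B` from a neighbour
of `v` to `x` -/
inductive Seen (adj : V → V → Prop) (v : V) (ω : V → Bool) (ξ : ℕ → Bool) : Set V → V → ℕ → Prop
  | base {B : Set V} {x : V} : adj v x → x ∈ B → ω x = ξ 0 → Seen adj v ω ξ B x 0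
  | step {B B' : Set V} {x y : V} {l : ℕ} : Seen adj v ω ξ B' x l → B' ⊆ B → y ∈ B → y ∉ B' →
      adj x y → ω y = ξ (l + 1) → Seen adj v ω ξ B y (l + 1)

variable {adj : V → V → Prop} {v : V} {ω : V → Bool} {ξ : ℕ → Bool}

theorem Seen.mono {B C : Set V} {x : V} {l : ℕ} (h : Seen adj v ω ξ B x l) (e : B ⊆ C) :
    Seen adj v ω ξ C x l := by
  cases h with
  | base a b c => exact Seen.base a (e b) c
  | step a b c d f g => exact Seen.step a (b.trans e) (e c) d f g

theorem Seen.mem {B : Set V} {x : V} {l : ℕ} (h : Seen adj v ω ξ B x l) : x ∈ B := by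
  cases h <;> assumption

theorem Seen.congr {ω' : V → Bool} {ξ' : ℕ → Bool} {B : Set V} {x : V} {l : ℕ}
    (h : Seen adj v ω ξ B x l) (h1 : ∀ y ∈ B, ω y = ω' y) (h2 : ∀ i ≤ l, ξ i = ξ' i) :
    Seen adj v ω' ξ' B x l := by
  induction h with
  | base a b c => exact Seen.base a b (by rw [← h1 _ b, c, h2 0 le_rfl])
  | step a b c d f g ih =>
    exact Seen.step (ih (fun y hy => h1 y (b hy)) (fun i hi => h2 i (by omega))) b c d f
      (by rw [← h1 _ c, g, h2 _ le_rfl])

theorem Seen.path {B : Set V} {x : V} {l : ℕ} (h : Seen adj v ω ξ B x l) :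
    ∃ γ : ℕ → V, adj v (γ 0) ∧ γ l = x ∧ (∀ i < l, adj (γ i) (γ (i + 1))) ∧
      (∀ i ≤ l, γ i ∈ B ∧ ω (γ i) = ξ i) ∧ ∀ i j, i < j → j ≤ l → γ i ≠ γ j := by
  induction h with
  | @base B x a b c =>
    exact ⟨fun _ => x, a, rfl, by simp, fun i hi => ⟨b, by rw [c, Nat.le_zero.1 hi]⟩, by omega⟩
  | @step B B' x y l a b c d f g ih =>
    obtain ⟨γ, h1, h2, h3, h4, h5⟩ := ih
    refine ⟨fun i => if i ≤ l then γ i else y, by simpa using h1, by simp, fun i hi => ?_,
      fun i hi => ?_, fun i j h1 h2 => ?_⟩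
    · by_cases e : i = l
      · subst e; simp [h2, f]
      · simp only [if_pos (show i ≤ l by omega), if_pos (show i + 1 ≤ l by omega)]
        exact h3 i (by omega)
    · by_cases e : i ≤ l
      · simp only [if_pos e]; exact ⟨b (h4 i e).1, (h4 i e).2⟩
      · simp only [if_neg e]; exact ⟨c, by rw [g, show i = l + 1 by omega]⟩
    · simp only [if_pos (show i ≤ l by omega)]
      split_ifs with e
      · exact h5 i j h1 e
      · exact fun e' => d (e' ▸ (h4 i (by omega)).1)

theorem Seen.height {f : V → ℤ} (hf : ∀ x y, adj x y → f y ≤ f x + 1) {B : Set V} {x : V} {l : ℕ}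
    (h : Seen adj v ω ξ B x l) : f x ≤ f v + l + 1 := by
  induction h with
  | base a b c => simpa using hf _ _ a
  | step a b c d e g ih => have := hf _ _ e; push_cast; omega

/-- the labels given by a breadth first search -/
noncomputable def lab (adj : V → V → Prop) (S : V → Prop) (l0 : V → ℕ) (R : Finset V)
    (η : V → Bool) : ℕ → V → Option ℕ
  | 0, x => if S x then some (l0 x) else none
  | d + 1, x => if lab adj S l0 R η d x ≠ none then lab adj S l0 R η d x else
      if h : x ∈ R ∧ ∃ l y, adj y x ∧ lab adj S l0 R η d y = some l ∧ (S y ∨ η y = true) then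
        some (h.2.choose + 1) else none

variable {S : V → Prop} {l0 : V → ℕ} {R : Finset V} {η : V → Bool}

theorem lab_stable {d d' l : ℕ} {x : V} (h : lab adj S l0 R η d x = some l) (e : d ≤ d') :
    lab adj S l0 R η d' x = some l := by
  induction e with
  | refl => exact h
  | step _ ih => rw [lab, if_pos (by rw [ih]; simp), ih]

theorem lab_conn {x : V} {n : ℕ} (h : Conn adj S R η x n) :
    (∃ l, lab adj S l0 R η n x = some l) ∧ (S x ∨ η x = true) := by
  induction h with
  | @base x n h => exact ⟨⟨l0 x, lab_stable (by rw [lab, if_pos h]) (Nat.zero_le n)⟩, Or.inl h⟩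
  | @step x y n _ a b c ih =>
    refine ⟨?_, Or.inr c⟩
    obtain ⟨⟨l, h1⟩, h2⟩ := ih
    rw [lab]
    split_ifs with g1 g2
    · exact Option.ne_none_iff_exists'.1 g1
    · exact ⟨_, rfl⟩
    · exact absurd ⟨b, l, x, a, h1, h2⟩ g2

theorem lab_congr {η' : V → Bool} {t : ℕ} (h : ∀ x l, lab adj S l0 R η t x = some l →
    lab adj S l0 R η' t x = some l → η x = η' x) :
    ∀ d ≤ t, lab adj S l0 R η d = lab adj S l0 R η' d := by
  intro d
  induction d with
  | zero => intro _; funext x; simp only [lab]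
  | succ d ih =>
    intro hd
    have e := ih (by omega)
    funext x
    have e2 : (fun l => ∃ y, adj y x ∧ lab adj S l0 R η d y = some l ∧ (S y ∨ η y = true)) =
        (fun l => ∃ y, adj y x ∧ lab adj S l0 R η' d y = some l ∧ (S y ∨ η' y = true)) := by
      funext l
      refine propext (exists_congr (fun y => and_congr_right (fun _ => ?_)))
      rw [← e]
      refine and_congr_right (fun g => ?_)
      rw [h y l (lab_stable g (by omega)) (lab_stable (e ▸ g) (by omega))]
    have key : ∀ p q : ℕ → Prop, p = q → (if h : x ∈ R ∧ ∃ l, p l then some (h.2.choose + 1)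
        else none) = (if h : x ∈ R ∧ ∃ l, q l then some (h.2.choose + 1) else none) := by
      rintro p q rfl; rfl
    rw [lab, lab, key _ _ e2, e]

theorem lab_seen {A : Set V} {L t : ℕ} (hA : ∀ x ∈ A, x ∉ R)
    (hS : ∀ x, S x → l0 x ≤ L ∧ Seen adj v ω ξ A x (l0 x))
    (hω : ∀ x ∈ R, ∀ l, lab adj S l0 R η t x = some l → η x = true → ω x = ξ l) :
    ∀ d ≤ t, ∀ x l, lab adj S l0 R η d x = some l → (S x ∨ η x = true) →
      l ≤ L + d ∧ Seen adj v ω ξ (A ∪ {y | y ∈ R ∧ lab adj S l0 R η d y ≠ none}) x l := by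
  intro d
  induction d with
  | zero =>
    intro _ x l h _
    rw [lab] at h
    split_ifs at h with g
    obtain rfl := Option.some.inj h
    exact ⟨(hS x g).1, (hS x g).2.mono Set.subset_union_left⟩
  | succ d ih =>
    intro hd x l h hx
    have sub : A ∪ {y | y ∈ R ∧ lab adj S l0 R η d y ≠ none} ⊆
        A ∪ {y | y ∈ R ∧ lab adj S l0 R η (d + 1) y ≠ none} := by
      refine Set.union_subset_union_right _ (fun y hy => ⟨hy.1, ?_⟩)
      obtain ⟨l, e⟩ := Option.ne_none_iff_exists'.1 hy.2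
      rw [lab_stable e (Nat.le_succ d)]; simp
    have h' := h
    rw [lab] at h
    split_ifs at h with g1 g2
    · obtain ⟨a, b⟩ := ih (by omega) x l h hx
      exact ⟨by omega, b.mono sub⟩
    · obtain rfl := Option.some.inj h
      obtain ⟨y, a1, a2, a3⟩ := g2.2.choose_spec
      obtain ⟨a, b⟩ := ih (by omega) y _ a2 a3
      refine ⟨by omega, b.step sub (Or.inr ⟨g2.1, by rw [h']; simp⟩) ?_ a1
        (hω x g2.1 _ (lab_stable h' hd) (hx.resolve_left (fun e => g1 ?_)))⟩
      · rintro (e | e)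
        · exact hA x e g2.1
        · exact g1 e.2
      · rw [lab_stable (show lab adj S l0 R η 0 x = some (l0 x) by rw [lab, if_pos e])
          (Nat.zero_le d)]
        simp

theorem bfs [DecidableEq V] {A : Set V} (hA : ∀ x ∈ A, x ∉ R) (L t : ℕ) (ω0 : V → Bool)
    (Q : (V → Prop) → Prop) (hQ : ∀ T T' : V → Prop, (∀ x, T x → T' x) → Q T → Q T') :
    Ex R (fun ω => if ¬ Q (fun x => ∃ l ≤ L + t, Seen adj v ω ξ (A ∪ R) x l) then 1 else 0) ω0 ≤
    Ex R (fun η => if ¬ Q (fun x => Conn adj (fun y => ∃ l ≤ L, Seen adj v ω0 ξ A y l) R η x t)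
      then 1 else 0) ω0 := by
  obtain ⟨S, hS⟩ : ∃ S : V → Prop, S = fun y => ∃ l ≤ L, Seen adj v ω0 ξ A y l := ⟨_, rfl⟩
  obtain ⟨l0, hl⟩ : ∃ l0 : V → ℕ, ∀ x, S x → l0 x ≤ L ∧ Seen adj v ω0 ξ A x (l0 x) := by
    refine ⟨fun x => if h : ∃ l ≤ L, Seen adj v ω0 ξ A x l then h.choose else 0, fun x h => ?_⟩
    rw [hS] at h
    simp only [dif_pos h]
    exact h.choose_spec
  rw [← hS]
  obtain ⟨Φ, hΦ⟩ : ∃ Φ : (R → Bool) → (R → Bool), ∀ σ x, Φ σ x =
      (lab adj S l0 R (ext R σ ω0) t x).elim (σ x) (fun l => σ x == ξ l) := ⟨_, fun _ _ => rfl⟩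
  have inj : Injective Φ := by
    have bb : ∀ a b c : Bool, (a == c) = (b == c) → a = b := by decide
    intro σ τ e
    have := lab_congr (adj := adj) (S := S) (l0 := l0) (R := R) (η := ext R σ ω0)
      (η' := ext R τ ω0) (t := t) (fun x l h1 h2 => by
        unfold ext
        split_ifs with h
        · have := congrFun e ⟨x, h⟩
          rw [hΦ, hΦ, h1, h2] at this
          exact bb _ _ _ this
        · rfl) t le_rfl
    funext x
    have h := congrFun e x
    rw [hΦ, hΦ, this] at h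
    cases g : lab adj S l0 R (ext R τ ω0) t x <;> rw [g] at h
    · exact h
    · exact bb _ _ _ h
  rw [Ex_eq_sum, Ex_eq_sum, ← (Finite.injective_iff_bijective.1 inj).sum_comp]
  refine div_le_div_of_nonneg_right (Finset.sum_le_sum (fun σ _ => ?_)) (by positivity)
  by_cases g : Q (fun x => Conn adj S R (ext R σ ω0) x t)
  · rw [if_neg (not_not.2 g), if_neg (not_not.2 (hQ _ _ (fun x hx => ?_) g))]
    obtain ⟨⟨l, h1⟩, h2⟩ := lab_conn (l0 := l0) hx
    obtain ⟨a, b⟩ := lab_seen (v := v) (ω := ext R (Φ σ) ω0) (ξ := ξ) (L := L) hA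
      (fun x h => ⟨(hl x h).1, (hl x h).2.congr (fun y hy => by simp [ext, hA y hy])
        (fun _ _ => rfl)⟩) (fun x hx l h1 h2 => by
        simp only [ext, dif_pos hx] at h2 ⊢
        rw [hΦ, h1, h2]; simp) t le_rfl x l h1 h2
    exact ⟨l, a, b.mono (Set.union_subset_union_right _ (fun y hy => hy.1))⟩
  · rw [if_pos g]
    split_ifs <;> norm_num

end Pool.Agent.P.MP_f475a8_pr
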