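import Pool.Agent.P.MP_f475a8_pr.Planar

/-! The exploration of a slab of the cubic lattice by tubes. -/

set_option autoImplicit false
open Function Classical

namespace Pool.Agent.P.MP_f475a8_pr

abbrev P3 := ℤ × ℤ × ℤ

def adj3 (p q : P3) : Prop :=
  ((q.1 = p.1 + 1 ∨ q.1 = p.1 - 1) ∧ q.2.1 = p.2.1 ∧ q.2.2 = p.2.2) ∨
  (q.1 = p.1 ∧ (q.2.1 = p.2.1 + 1 ∨ q.2.1 = p.2.1 - 1) ∧ q.2.2 = p.2.2) ∨
  (q.1 = p.1 ∧ q.2.1 = p.2.1 ∧ (q.2.2 = p.2.2 + 1 ∨ q.2.2 = p.2.2 - 1))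

abbrev Ent := ℕ × (ℕ → ℕ → Bool)

def off (δ : Fin 4) (u v : ℤ) : Cl := ![(u, v), (-v, u), (-u, -v), (v, -u)] δ

def pt (c : Cl) (δ : Fin 4) (u v z : ℤ) : P3 :=
  (3 * c.1 + 2 + (off δ u v).1, 3 * c.2 + 1 + (off δ u v).2, z)

def ht (lo h : ℕ) : ℤ := if lo < 17 then (lo : ℤ) + h else (lo : ℤ) + 16 - h

def site (c : Cl) (δ : Fin 4) (z0 : ℤ) (lo : ℕ) (a : ℕ × ℕ) : P3 :=
  pt c δ ((a.2 % 3 : ℕ) - 1) ((a.2 / 3 : ℕ) - 1) (z0 + ht lo a.1)

def Pe (e : Ent) (h v : ℕ) : Bool := decide (h < 17) && e.2 (if min e.1 34 < 17 then h else 16 - h) v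

def cnt (e : Ent) : ℕ := ∑ r ∈ Finset.range 17, pc (e.2 r)

def fidx (k : Fin 3) (v : ℕ) : ℕ := ![8 - v, 3 * v + 2, v] k

def child (e : Ent) (r : ℕ × (ℕ → ℕ)) (k : Fin 3) : Ent :=
  (if min e.1 34 < 17 then min e.1 34 + r.1 else min e.1 34 - r.1,
    fun i v => (r.2 (if min e.1 34 < 17 then r.1 + i else r.1 + 16 - i)).testBit (fidx k v))

noncomputable def cube (z0 : ℤ) (c : Cl) : Finset P3 :=
  Finset.Icc (3 * c.1 + 1) (3 * c.1 + 3) ×ˢ Finset.Icc (3 * c.2) (3 * c.2 + 2) ×ˢ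
    Finset.Icc z0 (z0 + 50)

theorem mem_cube {z0 : ℤ} {c : Cl} {p : P3} : p ∈ cube z0 c ↔ 3 * c.1 + 1 ≤ p.1 ∧
    p.1 ≤ 3 * c.1 + 3 ∧ 3 * c.2 ≤ p.2.1 ∧ p.2.1 ≤ 3 * c.2 + 2 ∧ z0 ≤ p.2.2 ∧ p.2.2 ≤ z0 + 50 := by
  simp [cube, and_assoc]

noncomputable def sys (z0 T : ℤ) (Bs : Finset Cl) : Sys P3 Ent where
  Bs := Bs
  real c := c.1 < T
  Rg c := if c.1 < T then cube z0 c else ∅
  out c δ e η := if c.1 < T then
      (out (Pe e) (eta (η ∘ site c δ z0 (min e.1 34))) 17 0).map (child e)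
    else if cnt e = 0 then none else some (fun _ => e)
  f e := F (cnt e)

theorem site_inj (c : Cl) (δ : Fin 4) (z0 : ℤ) (lo : ℕ) : Injective (site c δ z0 lo) := by
  rintro ⟨h, k⟩ ⟨h', k'⟩ e
  simp only [site, pt, ht, Prod.mk.injEq] at e ⊢
  fin_cases δ <;> simp [off] at e <;> split_ifs at e <;> omega

theorem site_mem (c : Cl) (δ : Fin 4) (z0 : ℤ) {lo h k : ℕ} (hl : lo ≤ 34) (hh : h < 34)
    (hk : k < 9) : site c δ z0 lo (h, k) ∈ cube z0 c := by
  rw [mem_cube]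
  simp only [site, pt, ht]
  fin_cases δ <;> simp [off] <;> split_ifs <;> omega

theorem Pe_high (e : Ent) (i v : ℕ) (h : 17 ≤ i) : Pe e i v = false := by
  simp [Pe, show ¬ i < 17 by omega]

theorem rem_Pe (e : Ent) : rem (Pe e) 0 = cnt e := by
  unfold rem cnt
  rw [← Finset.range_eq_Ico]
  by_cases h : min e.1 34 < 17
  · refine Finset.sum_congr rfl (fun i hi => ?_)
    simp only [pc, Pe, if_pos h, Finset.mem_range.1 hi, decide_true, Bool.true_and]
  · rw [← Finset.sum_range_reflect]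
    refine Finset.sum_congr rfl (fun i hi => ?_)
    have := Finset.mem_range.1 hi
    simp only [pc, Pe, if_neg h, show 17 - 1 - i < 17 by omega, decide_true, Bool.true_and,
      show 16 - (17 - 1 - i) = i by omega]

theorem bitn_eq (A k : ℕ) : bitn A k = (A.testBit k).toNat := by
  show A >>> k % 2 = _
  rw [Nat.toNat_testBit, Nat.shiftRight_eq_div_pow]

theorem cnt_child (e : Ent) (r : ℕ × (ℕ → ℕ)) (k : Fin 3) :
    cnt (child e r k) = ∑ i ∈ Finset.Ico r.1 (r.1 + 17), ![cN, cE, cS] k (r.2 i) := by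
  have key : ∀ A : ℕ, pc (fun v => A.testBit (fidx k v)) = ![cN, cE, cS] k A := by
    intro A
    fin_cases k <;> simp [pc, fidx, cN, cE, cS, bitn_eq]
  unfold cnt child
  simp only [key]
  rw [Finset.sum_Ico_eq_sum_range, Nat.add_sub_cancel_left]
  split_ifs
  · rfl
  · rw [← Finset.sum_range_reflect]
    refine Finset.sum_congr rfl (fun i hi => ?_)
    have := Finset.mem_range.1 hi
    rw [show r.1 + 16 - (17 - 1 - i) = r.1 + i by omega]

theorem Ex_site {c : Cl} {δ : Fin 4} {z0 : ℤ} {lo : ℕ} (hl : lo ≤ 34)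
    {g : (ℕ × ℕ → Bool) → ℝ} {β : ℝ} (h : Bd 0 g β) (ω : P3 → Bool) :
    Ex (cube z0 c) (fun η => g (η ∘ site c δ z0 lo)) ω ≤ β := by
  refine Ex_le_const_of_sub (A := (Up 0).image (site c δ z0 lo)) (fun p hp => ?_) (fun x => ?_) ω
  · obtain ⟨a, ha, rfl⟩ := Finset.mem_image.1 hp
    rw [mem_Up] at ha
    exact site_mem c δ z0 hl ha.2.1 ha.2.2
  · rw [Ex_map (site_inj c δ z0 lo)]
    exact h _

theorem sys_hyp (z0 T : ℤ) (Bs : Finset Cl) : (sys z0 T Bs).Hyp := by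
  refine ⟨fun c c' h => ?_, fun c δ e x y h => ?_, fun e => F_nonneg _, fun c δ e ω => ?_,
    fun c hc δ e jN jE jS ω => ?_⟩
  · simp only [sys]
    split_ifs
    · refine Finset.disjoint_left.2 (fun p h1 h2 => h ?_)
      rw [mem_cube] at h1 h2
      exact Prod.ext (by omega) (by omega)
    all_goals simp
  · simp only [sys] at h ⊢
    split_ifs with h1
    · rw [if_pos h1] at h
      rw [eta_congr (x := x ∘ site c δ z0 (min e.1 34)) (y := y ∘ site c δ z0 (min e.1 34))]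
      intro a ha
      rw [mem_Up] at ha
      exact h _ (site_mem c δ z0 (min_le_right _ _) ha.2.1 ha.2.2)
    · rfl
    · rfl
  · simp only [sys]
    by_cases h1 : c.1 < T
    · simp only [if_pos h1, Option.map_eq_none_iff]
      rw [← rem_Pe]
      exact Ex_site (min_le_right _ _) (rej_bound (Pe_high e)) ω
    · simp only [if_neg h1, Ex_empty]
      by_cases h2 : cnt e = 0
      · simp [h2, F_zero]
      · simp [h2, F_nonneg]
  · have h1 : c.1 < T := hc
    have key : ∀ o : Out, (sys z0 T Bs).Gm jN jE jS (o.map (child e)) =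
        (1 / 2 ^ 20) * Psi jN jE jS (2 ^ 20 * cJ jN jE jS) o := by
      intro o
      cases o with
      | none => simp only [Option.map_none, Sys.Gm, Psi]; ring
      | some r =>
        simp only [Option.map_some, Sys.Gm, Psi, Sys.ff, sys, cnt_child, FF]
        simp
    have := Ex_site (c := c) (δ := δ) (z0 := z0) (min_le_right e.1 34)
      (con_all jN jE jS (Pe_high e)) ω
    simp only [sys, if_pos h1] at key ⊢
    simp only [key, Ex_mul]
    exact le_trans (mul_le_mul_of_nonneg_left this (by positivity)) (le_of_eq (by ring))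

/-- the invariant of the entries -/
def PP (z0 T : ℤ) (Cn : P3 → ℕ → Prop) (base : ℕ) (c : Cl) (δ : Fin 4) (e : Ent) (n : ℕ) : Prop :=
  (T ≤ c.1 → δ = 0) ∧ e.1 ≤ 34 ∧ ∀ r < 17, ∀ v < 3, e.2 r v = true →
    Cn (pt c δ (-2) ((v : ℤ) - 1) (z0 + e.1 + r)) (base + 306 * n)

theorem sys_P {z0 T : ℤ} {Bs : Finset Cl} {Cn : P3 → ℕ → Prop} {η : P3 → Bool} {base : ℕ}
    (mono : ∀ x n, Cn x n → Cn x (n + 1))
    (step : ∀ c ∈ Bs, c.1 < T → ∀ x y n, Cn x n → adj3 x y → y ∈ cube z0 c → η y = true →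
      Cn y (n + 1))
    (c : Cl) (δ : Fin 4) (e : Ent) (n : ℕ) (ch : Fin 3 → Ent) (k : Fin 3)
    (h : PP z0 T Cn base c δ e n) (hc : c ∈ (sys z0 T Bs).Bs) (hr : (sys z0 T Bs).real c)
    (ho : (sys z0 T Bs).out c δ e η = some ch) :
    PP z0 T Cn base (c + dir (δ + tn k)) (δ + tn k) (ch k) (n + 1) := by
  have h1 : c.1 < T := hr
  obtain ⟨-, h2, h3⟩ := h
  simp only [sys, if_pos h1, Option.map_eq_some_iff, min_eq_left h2] at ho
  obtain ⟨r, ho, rfl⟩ := ho
  have cl : Closed (Pe e) (eta (η ∘ site c δ z0 e.1))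
      (fun h k l => Cn (site c δ z0 e.1 (h, k)) (base + 306 * n + l)) := by
    refine ⟨eta_lt _, fun h k l => mono _ _, fun h j k l hj hk a b d => ?_, fun h k l a d => ?_,
      fun h v hv a d => ?_⟩
    · obtain ⟨d1, d2, d3⟩ := testBit_eta d
      refine step c hc h1 _ _ _ a ?_ (site_mem c δ z0 h2 d1 d2) d3
      simp only [site, pt, adj3]
      unfold ladj at b
      fin_cases δ <;> simp [off] <;> omega
    · obtain ⟨d1, d2, d3⟩ := testBit_eta d
      refine step c hc h1 _ _ _ a ?_ (site_mem c δ z0 h2 d1 d2) d3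
      simp only [site, pt, adj3, ht]
      split_ifs <;> simp <;> omega
    · obtain ⟨d1, d2, d3⟩ := testBit_eta d
      simp only [Pe, Bool.and_eq_true, decide_eq_true_eq, min_eq_left h2] at a
      refine step c hc h1 _ _ _ (h3 _ (by split_ifs <;> omega) v hv a.2) ?_
        (site_mem c δ z0 h2 d1 d2) d3
      simp only [site, pt, adj3, ht]
      fin_cases δ <;> simp [off] <;> split_ifs <;> omega
  obtain ⟨g1, g2⟩ := cl.out 17 0 r ho
  refine ⟨fun hT => ?_, ?_, fun i hi v hv a => ?_⟩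
  · generalize δ + tn k = d at hT
    fin_cases d <;> simp [dir] at hT ⊢ <;> omega
  · simp only [child, min_eq_left h2]
    split_ifs <;> omega
  · simp only [child, min_eq_left h2] at a ⊢
    have := cl.mono' (g2 _ _ a) (show _ ≤ 306 by split_ifs <;> omega)
    rw [show base + 306 * (n + 1) = base + 306 * n + 306 by ring]
    convert this using 1
    simp only [site, pt, ht]
    fin_cases δ <;> fin_cases k <;> simp [off, tn, dir, fidx] <;> split_ifs <;> omega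

theorem sys_exit {z0 T : ℤ} {Bs : Finset Cl} {Cn : P3 → ℕ → Prop} {η : P3 → Bool} {base : ℕ}
    {c : Cl} {δ : Fin 4} {e : Ent} {n : ℕ} (h : PP z0 T Cn base c δ e n) (hc : c.1 = T)
    (ho : (sys z0 T Bs).out c δ e η ≠ none) :
    ∃ y z, 3 * c.2 ≤ y ∧ y ≤ 3 * c.2 + 2 ∧ z0 ≤ z ∧ z ≤ z0 + 50 ∧ Cn (3 * T, y, z) (base + 306 * n) := by
  obtain ⟨h1, h2, h3⟩ := h
  obtain rfl := h1 hc.ge
  simp only [sys, if_neg (show ¬ c.1 < T by omega)] at ho
  have : cnt e ≠ 0 := fun h => ho (if_pos h)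
  obtain ⟨r, hr, hp⟩ := Finset.exists_ne_zero_of_sum_ne_zero this
  have hr := Finset.mem_range.1 hr
  have : ∃ v < 3, e.2 r v = true := by
    unfold pc at hp
    by_contra hcon
    push Not at hcon
    have a := hcon 0 (by norm_num)
    have b := hcon 1 (by norm_num)
    have c := hcon 2 (by norm_num)
    simp only [ne_eq, Bool.not_eq_true] at a b c
    simp [a, b, c] at hp
  obtain ⟨v, hv, a⟩ := this
  refine ⟨3 * c.2 + v, z0 + e.1 + r, by omega, by omega, by omega, by omega, ?_⟩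
  convert h3 r hr v hv a using 1
  simp [pt, off]
  omega

end Pool.Agent.P.MP_f475a8_pr
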