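import Pool.Agent.P.MP_f475a8_pr.Bfs

/-! A periodic colouring in which every word can be read while steering. -/

set_option autoImplicit false

namespace Pool.Agent.P.MP_f475a8_pr

inductive WT where
  | L (c : ℕ) : WT
  | N (a b : WT) : WT

def mv (m : ℕ) (c : P3) : P3 :=
  if m = 0 then (c.1 + 1, c.2.1, c.2.2) else if m = 1 then (c.1, c.2.1 + 1, c.2.2) else
    if m = 2 then (c.1, c.2.1 - 1, c.2.2) else if m = 3 then (c.1, c.2.1, c.2.2 + 1) else
      (c.1, c.2.1, c.2.2 - 1)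

def colr (r : ℤ) : Bool := r % 8 == 0 || r % 8 == 1 || r % 8 == 2 || r % 8 == 4

def chkw (p sy sz : ℤ) : List Bool → ℕ → P3 → List P3 → Bool
  | [], _, cur, vis => vis.all (fun u => u.1 < cur.1) && 1 ≤ sy * cur.2.1 && 1 ≤ sz * cur.2.2
  | b :: w, code, cur, vis =>
    (colr (p + 4 * (mv (code % 5) cur).1 + (mv (code % 5) cur).2.1 + 2 * (mv (code % 5) cur).2.2)
      == b) && !(cur :: vis).contains (mv (code % 5) cur) &&
      chkw p sy sz w (code / 5) (mv (code % 5) cur) (cur :: vis)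

def chkT (p sy sz : ℤ) : WT → List Bool → Bool
  | WT.L c, w => w.length ≤ 9 && chkw p sy sz w c (0, 0, 0) []
  | WT.N a b, w => chkT p sy sz a (w ++ [false]) && chkT p sy sz b (w ++ [true])

section
open WT

def ct0 : WT :=
  (N (N (N (N (N (N (L 827) (N (L 10202) (L 3952))) (N (N (L 3327) (N (N (L 238127) (L 97077))
  (L 18952))) (N (L 5202) (N (L 20827) (L 57047))))) (N (N (N (N (L 19127) (N (L 253502) (L
  97252))) (N (L 57009) (N (L 128502) (L 213259)))) (N (N (L 42634) (L 21002)) (L 11384))) (N (N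
  (L 10127) (N (N (L 237627) (L 103877)) (L 25752))) (N (N (N (L 261377) (L 253877)) (L 27002))
  (N (N (L 250127) (L 128877)) (L 50752)))))) (N (N (L 459) (N (N (L 9527) (L 4209)) (L 1084)))
  (N (N (N (N (L 57402) (L 27034)) (L 11409)) (N (N (L 42534) (L 20837)) (L 11284))) (N (N (L
  10027) (L 5409)) (L 2284))))) (N (N (N (N (L 767) (N (L 10142) (L 3892))) (N (N (L 3267) (N (N
  (L 78267) (L 97017)) (L 18892))) (N (L 5142) (N (L 20767) (L 57004))))) (N (N (N (L 10217) (L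
  3967)) (L 842)) (N (N (L 3767) (N (N (L 78767) (L 97517)) (L 19392))) (N (L 3342) (N (L 18967)
  (L 51004)))))) (N (N (L 167) (N (N (L 3167) (L 3917)) (L 792))) (N (N (N (L 10417) (L 4167))
  (L 1042)) (N (N (L 10079) (N (N (L 91042) (L 103829)) (L 25704))) (N (L 3542) (N (L 19167) (L
  50704)))))))) (N (N (L 16) (N (N (L 380) (L 166)) (L 41))) (N (N (N (L 418) (L 406)) (L 43))
  (N (N (L 400) (L 206)) (L 81)))))

def ct1 : WT :=
  (N (N (N (L 9) (N (N (N (L 2652) (L 1784)) (L 534)) (L 34))) (N (N (L 29) (L 49)) (N (N (L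
  249) (N (L 2749) (L 874))) (N (L 229) (N (L 854) (N (L 3229) (L 10229))))))) (N (N (L 21) (N
  (N (L 505) (L 546)) (L 46))) (N (N (L 45) (N (L 545) (L 170))) (N (N (L 525) (L 606)) (L
  106)))))

def ct2 : WT :=
  (N (N (N (N (N (L 452) (N (L 2327) (L 2127))) (L 77)) (N (N (L 337) (N (L 2212) (L 1927))) (L
  87))) (N (L 17) (N (N (L 317) (N (L 2192) (N (L 6292) (L 8442)))) (L 67)))) (N (N (N (N (L
  460) (N (L 2335) (L 2135))) (L 85)) (N (N (L 340) (N (L 2215) (L 1935))) (N (L 265) (L 435))))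
  (N (L 13) (N (N (L 313) (N (L 2188) (N (L 6625) (L 10875)))) (L 63)))))

def ct3 : WT :=
  (N (N (N (N (L 122) (N (L 372) (N (L 2812) (L 2247)))) (L 22)) (N (N (L 74) (N (L 324) (N (L
  1254) (L 2199)))) (N (L 54) (N (L 374) (L 304))))) (N (N (N (N (N (L 3010) (N (L 9260) (N (L
  37605) (L 56135)))) (L 510)) (N (N (L 1821) (N (L 8071) (N (L 39280) (L 54946)))) (N (L 1605)
  (N (L 9321) (L 7855))))) (N (L 110) (N (N (L 2810) (L 3060)) (L 560)))) (N (N (N (N (L 3050)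
  (N (L 9300) (N (L 70300) (L 56175)))) (L 550)) (N (N (L 1850) (N (L 8100) (N (L 31350) (L
  54975)))) (N (L 1350) (N (L 9350) (L 7600))))) (N (L 70) (N (N (L 1570) (L 2820)) (L 320))))))

def ct4 : WT :=
  (N (N (N (N (N (L 168) (N (L 2043) (L 640))) (L 43)) (N (N (N (N (L 11380) (L 5130)) (L 2005))
  (N (N (N (L 50755) (L 50005)) (L 10130)) (L 1880))) (L 80))) (N (N (N (L 408) (L 158)) (L 33))
  (L 8))) (N (N (N (N (L 456) (L 206)) (L 81)) (N (N (N (L 2031) (L 2001)) (L 406)) (L 76))) (N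
  (N (N (L 416) (L 166)) (L 41)) (L 16))))

def ct5 : WT :=
  (N (N (N (N (N (L 174) (L 530)) (L 49)) (N (N (N (L 2730) (L 855)) (L 230)) (L 105))) (N (N (N
  (L 234) (N (L 3033) (L 2625))) (L 109)) (L 9))) (N (N (N (N (N (L 3026) (L 1151)) (L 526)) (N
  (N (N (L 5776) (L 8901)) (L 2651)) (L 172))) (N (L 106) (L 101))) (N (N (N (L 246) (N (L 3041)
  (L 696))) (L 121)) (L 21))))

def ct6 : WT :=
  (N (N (N (N (N (N (L 2190) (L 1265)) (L 315)) (L 65)) (N (N (L 318) (L 443)) (L 68))) (N (L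
  13) (N (L 63) (L 88)))) (N (N (N (N (N (L 2262) (L 1676)) (L 387)) (N (N (L 1687) (L 2176)) (L
  437))) (N (L 87) (N (L 212) (L 337)))) (N (L 17) (N (L 67) (L 92)))))

def ct7 : WT :=
  (N (N (N (N (N (L 564) (L 270)) (L 64)) (L 14)) (N (N (N (N (N (L 14100) (L 6750)) (L 1600))
  (L 350)) (N (L 560) (N (L 2750) (L 2810)))) (N (L 110) (N (L 360) (L 610))))) (N (N (N (N (L
  612) (L 237)) (L 112)) (L 22)) (N (N (N (N (N (L 14071) (L 6321)) (L 1571)) (L 321)) (N (L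
  552) (N (L 1177) (L 2802)))) (N (L 102) (N (L 352) (L 602))))))

def ct8 : WT :=
  (N (N (N (N (L 91) (L 41)) (L 16)) (N (N (N (L 406) (L 400)) (L 81)) (N (L 40) (N (L 165) (N
  (L 700) (L 2040)))))) (N (N (N (L 83) (L 33)) (L 8)) (N (N (N (N (L 2334) (L 1084)) (L 459))
  (N (N (N (L 10209) (L 10103)) (L 2084)) (N (L 1079) (N (L 4204) (N (L 17603) (L 51079)))))) (N
  (L 28) (N (L 153) (N (L 628) (L 2028)))))))

def ct9 : WT :=
  (N (N (N (N (N (L 605) (L 230)) (L 105)) (N (N (N (L 1155) (L 1780)) (L 530)) (N (N (L 2655)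
  (N (L 13780) (L 5780))) (N (L 2530) (N (L 8780) (L 15030)))))) (N (L 21) (N (L 106) (N (L 225)
  (L 606))))) (N (N (N (L 49) (N (L 608) (L 174))) (N (N (L 149) (L 249)) (N (L 172) (N (L 797)
  (N (L 5752) (L 13297)))))) (N (L 9) (N (L 34) (N (L 129) (L 534))))))

def ct10 : WT :=
  (N (N (N (N (L 85) (N (L 460) (N (N (L 10880) (L 14210)) (L 1710)))) (N (N (L 385) (L 435)) (N
  (N (L 1580) (N (L 10955) (N (L 26510) (L 42205)))) (N (L 2135) (N (L 8455) (L 11510)))))) (N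
  (N (L 65) (N (L 440) (N (N (L 10625) (L 14190)) (L 1690)))) (N (N (L 425) (N (L 1675) (N (L
  7925) (L 11050)))) (N (L 340) (N (L 2175) (L 1590)))))) (N (N (L 17) (N (L 67) (N (L 317) (L
  442)))) (N (N (L 53) (N (L 437) (N (L 1062) (L 1687)))) (N (L 87) (N (L 337) (L 462))))))

def ct11 : WT :=
  (N (N (N (N (L 110) (N (L 360) (N (L 1610) (L 2860)))) (N (N (L 510) (N (L 2810) (N (L 13760)
  (L 14060)))) (N (L 560) (N (L 1810) (L 3060))))) (N (N (L 70) (N (L 320) (N (L 1570) (L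
  2820)))) (N (N (L 550) (N (N (L 12550) (N (L 70050) (N (L 343800) (L 351300)))) (N (L 13800)
  (N (L 45050) (L 76300))))) (N (L 370) (N (N (L 6350) (L 14120)) (L 1620)))))) (N (N (L 22) (N
  (N (L 502) (N (L 2802) (N (L 13752) (L 14052)))) (N (L 552) (N (L 1802) (L 3052))))) (N (N (L
  54) (L 112)) (N (N (L 254) (N (L 2762) (N (L 5887) (L 14012)))) (N (L 512) (N (L 1762) (L
  3012)))))))

def ct12 : WT :=
  (N (N (N (N (L 33) (N (L 408) (L 158))) (L 8)) (N (N (N (N (L 765) (L 1090)) (L 140)) (N (N (N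
  (L 10215) (L 3140)) (L 840)) (L 215))) (N (L 80) (N (N (N (L 10455) (L 10155)) (L 1080)) (L
  455))))) (N (N (N (L 81) (N (L 456) (L 406))) (L 16)) (N (N (N (N (L 2296) (N (L 11671) (L
  10421))) (L 167)) (N (N (N (N (L 19176) (L 27301)) (L 3551)) (N (N (L 42671) (L 21051)) (L
  5426))) (N (L 1051) (N (L 4217) (L 10426))))) (N (L 76) (N (N (N (L 10451) (L 10151)) (L
  1076)) (L 451))))))

def ct13 : WT :=
  (N (N (N (N (N (L 170) (N (N (L 15033) (L 13295)) (L 795))) (L 45)) (N (N (N (L 2650) (L 725))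
  (N (N (L 12650) (L 13725)) (L 1225))) (N (L 525) (N (N (L 13150) (L 15525)) (L 3025))))) (N (N
  (N (L 230) (N (N (N (L 28980) (L 44605)) (L 13355)) (L 855))) (L 105)) (N (N (L 530) (N (N (L
  12630) (L 13655)) (L 1155))) (N (L 505) (N (N (L 13130) (L 15505)) (L 3005)))))) (N (N (N (L
  106) (L 29)) (N (N (L 506) (L 549)) (L 49))) (N (L 21) (N (N (L 526) (L 621)) (L 121)))))

def ct14 : WT :=
  (N (N (N (N (N (L 435) (L 318)) (L 68)) (N (N (L 335) (N (L 2210) (L 1925))) (L 85))) (N (N (L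
  63) (L 88)) (L 13))) (N (N (N (N (L 427) (N (L 2302) (L 1052))) (N (N (L 1566) (L 2191)) (L
  316))) (N (N (L 327) (N (L 2202) (L 1877))) (L 77))) (N (N (L 87) (L 92)) (L 17))))

def ct15 : WT :=
  (N (N (N (N (N (L 560) (N (L 1810) (L 2750))) (N (L 370) (N (L 2810) (L 2245)))) (N (N (L 360)
  (N (L 1610) (L 2550))) (L 110))) (N (N (N (N (N (L 14103) (N (L 45353) (L 69265))) (N (L 9105)
  (N (L 40355) (L 55980)))) (N (N (L 7855) (N (L 39105) (L 31605))) (L 1605))) (N (N (L 3063) (N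
  (L 8105) (L 6188))) (N (N (N (L 30938) (L 45105)) (L 15313)) (N (N (L 38855) (L 70105)) (L
  7605))))) (N (N (N (N (L 15315) (N (L 46565) (L 69005))) (N (N (L 75315) (N (L 201780) (L
  153440))) (N (L 76565) (N (L 232815) (L 196380))))) (N (N (L 9315) (N (L 40565) (L 64005))) (L
  3065))) (N (N (L 2863) (L 3113)) (L 613))))) (N (N (N (N (L 552) (L 324)) (L 74)) (N (N (L
  352) (N (L 1602) (L 2502))) (L 102))) (N (N (L 112) (L 122)) (L 22))))

def ct16 : WT :=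
  (N (N (N (L 16) (N (L 91) (L 81))) (N (N (L 76) (N (N (L 1876) (L 826)) (L 201))) (N (L 43) (N
  (L 168) (L 401))))) (N (N (N (N (L 459) (N (L 2334) (L 2084))) (N (N (L 2295) (N (N (L 47635)
  (L 21045)) (L 5420))) (N (N (N (N (L 287010) (L 135170)) (L 57045)) (N (N (L 212670) (L
  104185)) (L 56420))) (N (N (L 50135) (L 27045)) (L 11420))))) (N (N (N (N (L 3835) (N (L
  50710) (L 19460))) (N (L 11409) (N (L 25710) (L 42659)))) (N (N (L 8534) (L 4210)) (L 2284)))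
  (N (N (L 835) (N (N (L 15835) (L 19585)) (L 3960))) (N (N (N (L 52085) (L 20835)) (L 5210)) (N
  (N (L 50395) (L 25829)) (L 10204)))))) (N (N (L 80) (N (N (L 1900) (L 830)) (L 205))) (N (N (N
  (L 2090) (L 2030)) (L 215)) (N (N (L 2000) (L 1030)) (L 405))))))

def ct17 : WT :=
  (N (N (N (L 21) (N (L 121) (L 106))) (N (N (L 101) (N (N (L 2501) (L 2726)) (L 226))) (N (N (L
  172) (N (L 2651) (L 2526))) (N (N (L 1776) (L 3026)) (L 526))))) (N (N (L 9) (N (L 109) (L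
  34))) (N (N (L 105) (N (N (L 2525) (L 2730)) (L 230))) (N (L 49) (N (L 174) (L 530))))))

def ct18 : WT :=
  (N (N (N (N (L 92) (N (L 467) (L 427))) (L 17)) (N (N (L 68) (N (L 443) (L 387))) (N (L 53) (L
  87)))) (N (N (N (N (N (L 2260) (N (L 11635) (L 10635))) (L 385)) (N (N (L 1685) (N (L 11060)
  (L 9635))) (L 435))) (N (L 85) (N (N (L 1585) (N (L 10960) (N (L 31460) (L 42210)))) (L
  335)))) (N (N (N (N (L 2300) (N (L 11675) (L 10675))) (L 425)) (N (N (L 1700) (N (L 11075) (L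
  9675))) (N (L 1325) (L 2175)))) (N (L 65) (N (N (L 1565) (N (L 10940) (L 11314))) (L 315))))))

def ct19 : WT :=
  (N (N (N (N (N (L 602) (N (L 1852) (N (L 7521) (L 11227)))) (L 102)) (N (N (N (N (L 13821) (L
  8121)) (L 1321)) (N (N (L 8821) (N (L 40071) (L 30942))) (N (L 7856) (N (L 46321) (L
  39106))))) (N (L 321) (N (N (L 7821) (L 14071)) (L 1571))))) (N (L 22) (N (N (L 562) (L 612))
  (L 112)))) (N (N (N (N (L 610) (N (L 1860) (N (L 14060) (L 11235)))) (L 110)) (N (N (L 370) (N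
  (L 1620) (N (L 6270) (L 10995)))) (N (L 270) (N (L 1870) (L 1520))))) (N (L 14) (N (N (L 314)
  (L 564)) (L 64)))))

def ct20 : WT :=
  (N (N (N (N (N (N (L 2256) (L 1006)) (L 381)) (N (N (N (L 10131) (L 8256)) (L 2006)) (L 128)))
  (N (L 81) (L 28))) (N (N (N (N (L 2276) (L 1026)) (L 401)) (N (N (N (L 10151) (L 10001)) (L
  2026)) (L 376))) (L 16))) (N (N (N (N (N (L 840) (N (L 10215) (L 3200))) (L 215)) (N (N (N (N
  (L 56900) (L 25650)) (L 10025)) (N (N (N (L 253775) (L 250025)) (L 50650)) (L 9400))) (L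
  400))) (N (N (N (L 2040) (L 790)) (L 165)) (L 40))) (N (N (N (N (L 2280) (L 1030)) (L 405)) (N
  (N (N (L 10155) (L 10005)) (L 2030)) (L 380))) (N (N (N (L 2080) (L 830)) (L 205)) (L 80)))))

def ct21 : WT :=
  (N (N (N (N (N (L 606) (L 231)) (L 106)) (N (N (N (L 1156) (L 1781)) (L 531)) (L 29))) (N (N
  (N (L 546) (L 171)) (L 46)) (L 21))) (N (N (N (N (N (L 870) (L 2650)) (L 245)) (N (N (N (L
  13650) (L 4275)) (L 1150)) (L 525))) (N (N (N (L 1170) (N (L 15165) (L 13125))) (L 545)) (L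
  45))) (N (N (N (N (N (L 15130) (L 5755)) (L 2630)) (N (N (N (L 28880) (L 44505)) (L 13255)) (L
  860))) (N (L 530) (L 505))) (N (N (N (L 1230) (N (L 15205) (L 3480))) (L 605)) (L 105)))))

def ct22 : WT :=
  (N (N (N (N (N (L 438) (L 253)) (L 63)) (L 13)) (N (N (N (N (N (L 10941) (L 8376)) (L 1566))
  (L 316)) (N (L 343) (L 268))) (N (N (L 318) (L 568)) (L 68)))) (N (N (N (N (L 462) (L 325)) (L
  87)) (L 17)) (N (N (N (N (N (L 11310) (L 8380)) (L 1935)) (N (N (L 8435) (L 10880)) (L 2185)))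
  (N (L 435) (N (L 1060) (L 1685)))) (N (L 85) (N (L 335) (L 460))))))

def ct23 : WT :=
  (N (N (N (N (N (N (L 2804) (L 1254)) (L 304)) (L 54)) (N (N (N (N (N (L 70603) (L 33853)) (L
  8103)) (L 1853)) (N (L 2863) (N (L 15053) (L 14113)))) (N (L 613) (N (L 1863) (L 3113))))) (N
  (L 14) (N (L 64) (L 114)))) (N (N (N (N (N (L 2820) (L 1350)) (L 320)) (L 70)) (N (L 112) (N
  (L 550) (L 562)))) (N (L 22) (N (L 72) (L 122)))))

def ct24 : WT :=
  (N (N (N (N (N (L 451) (L 201)) (L 76)) (N (N (N (L 2026) (L 1651)) (L 401)) (N (L 167) (N (L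
  1901) (N (L 8151) (L 11276)))))) (N (L 16) (N (L 81) (N (L 331) (L 456))))) (N (N (N (N (L
  455) (L 205)) (L 80)) (N (N (N (L 2030) (L 2000)) (L 405)) (N (L 200) (N (L 825) (N (L 3500)
  (L 10200)))))) (N (L 8) (N (L 33) (N (L 140) (L 408))))))

def ct25 : WT :=
  (N (N (N (N (L 121) (L 46)) (L 21)) (N (N (N (L 231) (L 356)) (L 106)) (N (N (L 531) (N (L
  2756) (L 1156))) (N (L 506) (N (L 1756) (L 3006)))))) (N (N (N (L 109) (L 34)) (L 9)) (N (N (L
  49) (N (L 549) (L 174))) (N (L 45) (N (L 170) (N (L 645) (L 2670)))))))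

def ct26 : WT :=
  (N (N (N (L 17) (N (L 92) (N (N (L 2176) (L 2842)) (L 342)))) (N (N (L 77) (L 87)) (N (N (L
  316) (N (L 2191) (N (L 5302) (L 8441)))) (N (L 427) (N (L 1691) (L 2302)))))) (N (N (L 13) (N
  (L 88) (N (N (L 2125) (L 2838)) (L 338)))) (N (N (L 85) (N (L 335) (N (L 1585) (L 2210)))) (N
  (L 68) (N (L 435) (L 318))))))

def ct27 : WT :=
  (N (N (N (L 22) (N (L 72) (N (L 322) (L 572)))) (N (N (L 102) (N (L 562) (N (L 2752) (L
  2812)))) (N (L 112) (N (L 362) (L 612))))) (N (N (L 14) (N (L 64) (N (L 314) (L 564)))) (N (N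
  (L 110) (N (N (L 2510) (N (L 14010) (N (L 68760) (L 70260)))) (N (L 2760) (N (L 9010) (L
  15260))))) (N (L 74) (N (N (L 1270) (L 2824)) (L 324))))))

def ct28 : WT :=
  (N (N (N (N (N (L 165) (N (L 2040) (L 790))) (L 40)) (N (N (N (N (L 3825) (L 5450)) (L 700))
  (N (N (N (L 51075) (L 15700)) (L 4200)) (L 1075))) (N (L 400) (N (N (N (L 52275) (L 50775)) (L
  5400)) (L 2275))))) (N (N (N (L 405) (N (L 2280) (L 2030))) (L 80)) (N (N (N (N (L 11480) (L
  5417)) (L 835)) (N (N (N (L 51042) (L 17755)) (L 4167)) (L 1042))) (N (L 380) (N (N (N (L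
  52255) (L 50755)) (L 5380)) (L 2255)))))) (N (N (N (N (L 153) (L 218)) (L 28)) (N (N (N (L
  2043) (L 628)) (L 168)) (L 43))) (N (L 16) (N (N (N (L 2091) (L 2031)) (L 216)) (L 91)))))

def ct29 : WT :=
  (N (N (N (N (L 34) (N (N (N (L 13250) (L 3625)) (L 2659)) (L 159))) (L 9)) (N (N (N (L 530) (L
  145)) (N (N (L 2530) (L 2745)) (L 245))) (N (L 105) (N (N (L 2630) (L 3105)) (L 605))))) (N (N
  (N (L 46) (N (N (N (L 5796) (L 8921)) (L 2671)) (L 171))) (L 21)) (N (N (L 106) (N (N (L 2526)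
  (L 2731)) (L 231))) (N (L 101) (N (N (L 2626) (L 3101)) (L 601))))))

def ct30 : WT :=
  (N (N (N (N (L 87) (N (L 462) (L 425))) (N (N (L 315) (L 440)) (L 65))) (N (N (L 67) (N (L
  442) (L 385))) (L 17))) (N (N (N (N (N (N (L 10953) (L 6328)) (L 1578)) (L 328)) (N (N (L
  1593) (L 2218)) (L 343))) (N (L 68) (L 53))) (N (N (L 63) (N (L 438) (N (L 1063) (L 2176))))
  (L 13))))

def ct31 : WT :=
  (N (N (N (N (L 112) (N (L 362) (L 550))) (N (L 74) (N (L 562) (L 449)))) (N (N (L 72) (N (L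
  322) (L 510))) (L 22))) (N (N (N (N (N (N (N (L 70103) (L 38071)) (L 6821)) (N (N (L 45103) (N
  (L 201353) (L 166196))) (L 13853))) (N (L 1821) (N (L 8071) (L 11196)))) (N (N (L 1571) (N (L
  7821) (L 6321))) (L 321))) (N (N (N (N (N (L 70503) (L 37871)) (L 6621)) (N (N (L 38771) (N (L
  195021) (L 157521))) (L 7521))) (N (L 1621) (N (L 7871) (L 10996)))) (N (N (N (N (L 76503) (L
  40271)) (L 9021)) (N (N (L 37771) (N (L 194021) (L 156521))) (L 6521))) (N (N (L 7771) (L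
  14021)) (L 1521))))) (N (N (N (N (L 3063) (N (L 9313) (L 13801))) (N (N (L 15063) (N (L 40356)
  (L 30688))) (N (L 15313) (N (L 46563) (L 39276))))) (N (N (L 1863) (N (L 8113) (L 12801))) (L
  613))) (N (N (N (N (N (L 70251) (N (L 226501) (L 344001))) (N (L 46501) (N (L 351501) (L
  280876)))) (N (N (L 45251) (N (L 201501) (L 319001))) (L 14001))) (N (N (L 15263) (N (L 40501)
  (L 30888))) (N (N (N (L 154638) (L 225501)) (L 76513)) (N (N (L 194251) (L 350501)) (L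
  38001))))) (N (N (N (N (L 76566) (L 40351)) (L 9101)) (N (N (L 37851) (N (L 194101) (L
  320001))) (L 6601))) (N (N (L 7851) (L 14101)) (L 1601)))))))

end

theorem certs : chkT 0 1 1 ct0 [] = true ∧
    chkT 0 1 (-1) ct1 [] = true ∧
    chkT 0 (-1) 1 ct2 [] = true ∧
    chkT 0 (-1) (-1) ct3 [] = true ∧
    chkT 1 1 1 ct4 [] = true ∧
    chkT 1 1 (-1) ct5 [] = true ∧
    chkT 1 (-1) 1 ct6 [] = true ∧
    chkT 1 (-1) (-1) ct7 [] = true ∧
    chkT 2 1 1 ct8 [] = true ∧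
    chkT 2 1 (-1) ct9 [] = true ∧
    chkT 2 (-1) 1 ct10 [] = true ∧
    chkT 2 (-1) (-1) ct11 [] = true ∧
    chkT 3 1 1 ct12 [] = true ∧
    chkT 3 1 (-1) ct13 [] = true ∧
    chkT 3 (-1) 1 ct14 [] = true ∧
    chkT 3 (-1) (-1) ct15 [] = true ∧
    chkT 4 1 1 ct16 [] = true ∧
    chkT 4 1 (-1) ct17 [] = true ∧
    chkT 4 (-1) 1 ct18 [] = true ∧
    chkT 4 (-1) (-1) ct19 [] = true ∧
    chkT 5 1 1 ct20 [] = true ∧
    chkT 5 1 (-1) ct21 [] = true ∧
    chkT 5 (-1) 1 ct22 [] = true ∧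
    chkT 5 (-1) (-1) ct23 [] = true ∧
    chkT 6 1 1 ct24 [] = true ∧
    chkT 6 1 (-1) ct25 [] = true ∧
    chkT 6 (-1) 1 ct26 [] = true ∧
    chkT 6 (-1) (-1) ct27 [] = true ∧
    chkT 7 1 1 ct28 [] = true ∧
    chkT 7 1 (-1) ct29 [] = true ∧
    chkT 7 (-1) 1 ct30 [] = true ∧
    chkT 7 (-1) (-1) ct31 [] = true := by
  decide +kernel

theorem cert_exists {p sy sz : ℤ} (h0 : 0 ≤ p) (h8 : p < 8) (hy : sy = 1 ∨ sy = -1)
    (hz : sz = 1 ∨ sz = -1) : ∃ t, chkT p sy sz t [] = true := by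
  obtain ⟨a0, a1, a2, a3, a4, a5, a6, a7, a8, a9, a10, a11, a12, a13, a14, a15, a16, a17, a18, a19, a20, a21, a22, a23, a24, a25, a26, a27, a28, a29, a30, a31⟩ := certs
  interval_cases p <;> rcases hy with rfl | rfl <;> rcases hz with rfl | rfl <;>
    exact ⟨_, by assumption⟩

end Pool.Agent.P.MP_f475a8_pr
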