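import Pool.Agent.P.MP_f475a8_pr.Kern

set_option autoImplicit false

namespace Pool.Agent.P.MP_f475a8_pr

theorem check1 : rejChk = true := by decide +kernel

end Pool.Agent.P.MP_f475a8_pr
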