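import Pool.Agent.P.MP_f475a8_pr.Check1

set_option autoImplicit false

namespace Pool.Agent.P.MP_f475a8_pr

theorem check2 : conChk 3 (fun j => j == 0) (fun j => j == 1) (fun j => j == 2)
    (fun _ => 228799) = true := by decide +kernel

end Pool.Agent.P.MP_f475a8_pr
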