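import Pool.Agent.P.MP_f475a8_pr.Check2

set_option autoImplicit false

namespace Pool.Agent.P.MP_f475a8_pr

theorem check3 : conChk 4 (fun j => j != 1) (fun j => j != 2) (fun j => j != 0)
    (fun j => cond (j < 2) 63648 (cond (j == 2) 49924 17773)) = true := by decide +kernel

end Pool.Agent.P.MP_f475a8_pr
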