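import Pool.Agent.P.MP_f475a8_pr.Sound

/-! Weights of lists of cells, and the sum of the weights of chordless king paths. -/

set_option autoImplicit false

namespace Pool.Agent.P.MP_f475a8_pr

abbrev Cl := ℤ × ℤ

def kadj (x y : Cl) : Prop := x.1 - y.1 ≤ 1 ∧ y.1 - x.1 ≤ 1 ∧ x.2 - y.2 ≤ 1 ∧ y.2 - x.2 ≤ 1

def diag (x y : Cl) : Prop := (x.1 - y.1 = 1 ∨ x.1 - y.1 = -1) ∧ (x.2 - y.2 = 1 ∨ x.2 - y.2 = -1)

def vee (x y z : Cl) : Prop :=
  diag x y ∧ diag y z ∧ ¬ (x.1 - y.1 = y.1 - z.1 ∧ x.2 - y.2 = y.2 - z.2)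

instance (x y : Cl) : Decidable (kadj x y) := by unfold kadj; infer_instance
instance (x y : Cl) : Decidable (diag x y) := by unfold diag; infer_instance

theorem kadj.symm {x y : Cl} (h : kadj x y) : kadj y x := by unfold kadj at *; omega
theorem diag.symm {x y : Cl} (h : diag x y) : diag y x := by unfold diag at *; omega
theorem vee.symm {x y z : Cl} (h : vee x y z) : vee z y x := by unfold vee diag at *; omega
theorem diag.kadj {x y : Cl} (h : diag x y) : kadj x y := by
  unfold diag MP_f475a8_pr.kadj at *; omega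
theorem diag.ne {x y : Cl} (h : diag x y) : x ≠ y := by
  rintro rfl; unfold diag at h; omega
theorem kadj_refl (x : Cl) : kadj x x := by unfold kadj; omega

/-- tilings of the cells of a list which lie in `U`, with their weights -/
inductive Til (U : Cl → Prop) : List Cl → ℝ → Prop
  | nil : Til U [] 1
  | skip {x l w} : ¬ U x → Til U l w → Til U (x :: l) w
  | one {x l w} : U x → Til U l w → Til U (x :: l) (c1 * w)
  | two {x y l w} : U x → U y → diag x y → Til U l w → Til U (x :: y :: l) (c2 * w)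
  | three {x y z l w} : U x → U y → U z → vee x y z → Til U l w →
      Til U (x :: y :: z :: l) (c3 * w)

theorem c1_pos : 0 < c1 := by unfold c1; norm_num
theorem c2_pos : 0 < c2 := by unfold c2; norm_num
theorem c3_pos : 0 < c3 := by unfold c3; norm_num

theorem Til.bounds {U : Cl → Prop} {l : List Cl} {w : ℝ} (h : Til U l w) : 0 ≤ w ∧ w ≤ 1 := by
  induction h with
  | nil => norm_num
  | skip _ _ ih => exact ih
  | one _ _ ih => unfold c1; constructor <;> linarith [ih.1, ih.2]
  | two _ _ _ _ ih => unfold c2; constructor <;> linarith [ih.1, ih.2]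
  | three _ _ _ _ _ ih => unfold c3; constructor <;> linarith [ih.1, ih.2]

theorem Til_exists (U : Cl → Prop) (l : List Cl) : ∃ w, Til U l w := by
  induction l with
  | nil => exact ⟨_, Til.nil⟩
  | cons x l ih =>
    obtain ⟨w, h⟩ := ih
    by_cases e : U x
    · exact ⟨_, h.one e⟩
    · exact ⟨_, h.skip e⟩

noncomputable def D (U : Cl → Prop) (l : List Cl) : ℝ := sSup {w | Til U l w}

theorem Til.le_D {U : Cl → Prop} {l : List Cl} {w : ℝ} (h : Til U l w) : w ≤ D U l :=
  le_csSup ⟨1, fun _ h => h.bounds.2⟩ h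

theorem D_le {U : Cl → Prop} {l : List Cl} {B : ℝ} (h : ∀ w, Til U l w → w ≤ B) : D U l ≤ B :=
  csSup_le (Til_exists U l) h

theorem D_nonneg (U : Cl → Prop) (l : List Cl) : 0 ≤ D U l := by
  obtain ⟨w, h⟩ := Til_exists U l
  exact h.bounds.1.trans h.le_D

theorem D_le_one (U : Cl → Prop) (l : List Cl) : D U l ≤ 1 := D_le (fun _ h => h.bounds.2)

theorem mul_D_le {U : Cl → Prop} {l : List Cl} {c B : ℝ} (hc : 0 ≤ c)
    (h : ∀ w, Til U l w → c * w ≤ B) : c * D U l ≤ B := by
  rcases hc.eq_or_lt with rfl | hc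
  · obtain ⟨w, hw⟩ := Til_exists U l
    simpa using h w hw
  · rw [mul_comm, ← le_div_iff₀ hc]
    exact D_le (fun w hw => by rw [le_div_iff₀ hc, mul_comm]; exact h w hw)

theorem Til.congr {U U' : Cl → Prop} {l : List Cl} {w : ℝ} (h : Til U l w)
    (e : ∀ x ∈ l, U x ↔ U' x) : Til U' l w := by
  induction h with
  | nil => exact Til.nil
  | skip h1 _ ih =>
    exact (ih (fun x hx => e x (by simp [hx]))).skip (fun h => h1 ((e _ (by simp)).2 h))
  | one h1 _ ih => exact (ih (fun x hx => e x (by simp [hx]))).one ((e _ (by simp)).1 h1)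
  | two h1 h2 h3 _ ih =>
    exact (ih (fun x hx => e x (by simp [hx]))).two ((e _ (by simp)).1 h1) ((e _ (by simp)).1 h2) h3
  | three h1 h2 h3 h4 _ ih =>
    exact (ih (fun x hx => e x (by simp [hx]))).three ((e _ (by simp)).1 h1)
      ((e _ (by simp)).1 h2) ((e _ (by simp)).1 h3) h4

theorem D_congr {U U' : Cl → Prop} {l : List Cl} (e : ∀ x ∈ l, U x ↔ U' x) : D U l = D U' l :=
  le_antisymm (D_le (fun _ h => (h.congr e).le_D))
    (D_le (fun _ h => (h.congr (fun x hx => (e x hx).symm)).le_D))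

theorem Til.append {U : Cl → Prop} {l m : List Cl} {w v : ℝ} (h : Til U l w) (h' : Til U m v) :
    Til U (l ++ m) (w * v) := by
  induction h with
  | nil => simpa using h'
  | skip h1 _ ih => exact ih.skip h1
  | one h1 _ ih => rw [mul_assoc]; exact ih.one h1
  | two h1 h2 h3 _ ih => rw [mul_assoc]; exact ih.two h1 h2 h3
  | three h1 h2 h3 h4 _ ih => rw [mul_assoc]; exact ih.three h1 h2 h3 h4

theorem Til.split {U : Cl → Prop} {L : List Cl} {w : ℝ} (h : Til U L w) :
    ∀ l m, L = l ++ m → (∀ x ∈ l, ∀ y b, m = y :: b → U y → ¬ diag x y) →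
      ∃ w1 w2, Til U l w1 ∧ Til U m w2 ∧ w = w1 * w2 := by
  induction h with
  | nil =>
    intro l m e _
    obtain ⟨rfl, rfl⟩ := List.nil_eq_append_iff.1 e
    exact ⟨1, 1, Til.nil, Til.nil, by ring⟩
  | @skip x L w h1 h2 ih =>
    intro l m e hn
    cases l with
    | nil => exact ⟨1, w, Til.nil, by rw [List.nil_append] at e; rw [← e]; exact h2.skip h1, by ring⟩
    | cons a l =>
      simp only [List.cons_append, List.cons.injEq, List.nil_append] at e
      obtain ⟨rfl, e⟩ := e
      obtain ⟨w1, w2, a1, a2, a3⟩ := ih l m e (fun x hx => hn x (by simp [hx]))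
      exact ⟨w1, w2, a1.skip h1, a2, a3⟩
  | @one x L w h1 h2 ih =>
    intro l m e hn
    cases l with
    | nil => exact ⟨1, _, Til.nil, by rw [List.nil_append] at e; rw [← e]; exact h2.one h1, by ring⟩
    | cons a l =>
      simp only [List.cons_append, List.cons.injEq, List.nil_append] at e
      obtain ⟨rfl, e⟩ := e
      obtain ⟨w1, w2, a1, a2, a3⟩ := ih l m e (fun x hx => hn x (by simp [hx]))
      exact ⟨_, w2, a1.one h1, a2, by rw [a3]; ring⟩
  | @two x y L w h1 h2 h3 h4 ih =>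
    intro l m e hn
    match l, e, hn with
    | [], e, _ =>
      exact ⟨1, _, Til.nil, by rw [List.nil_append] at e; rw [← e]; exact h4.two h1 h2 h3, by ring⟩
    | [a], e, hn =>
      simp only [List.cons_append, List.cons.injEq, List.nil_append] at e
      obtain ⟨rfl, e⟩ := e
      exact absurd h3 (hn x (by simp) y L e.symm h2)
    | a :: b :: l, e, hn =>
      simp only [List.cons_append, List.cons.injEq, List.nil_append] at e
      obtain ⟨rfl, rfl, e⟩ := e
      obtain ⟨w1, w2, a1, a2, a3⟩ := ih l m e (fun x hx => hn x (by simp [hx]))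
      exact ⟨_, w2, a1.two h1 h2 h3, a2, by rw [a3]; ring⟩
  | @three x y z L w h1 h2 h3 h4 h5 ih =>
    intro l m e hn
    match l, e, hn with
    | [], e, _ =>
      exact ⟨1, _, Til.nil, by rw [List.nil_append] at e; rw [← e]; exact h5.three h1 h2 h3 h4,
        by ring⟩
    | [a], e, hn =>
      simp only [List.cons_append, List.cons.injEq, List.nil_append] at e
      obtain ⟨rfl, e⟩ := e
      exact absurd h4.1 (hn x (by simp) y (z :: L) e.symm h2)
    | [a, b], e, hn =>
      simp only [List.cons_append, List.cons.injEq, List.nil_append] at e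
      obtain ⟨rfl, rfl, e⟩ := e
      exact absurd h4.2.1 (hn y (by simp) z L e.symm h3)
    | a :: b :: c :: l, e, hn =>
      simp only [List.cons_append, List.cons.injEq, List.nil_append] at e
      obtain ⟨rfl, rfl, rfl, e⟩ := e
      obtain ⟨w1, w2, a1, a2, a3⟩ := ih l m e (fun x hx => hn x (by simp [hx]))
      exact ⟨_, w2, a1.three h1 h2 h3 h4, a2, by rw [a3]; ring⟩

theorem D_append_le {U : Cl → Prop} {l m : List Cl} (h : ∀ x ∈ l, ∀ y ∈ m, ¬ kadj x y) :
    D U (l ++ m) ≤ D U l * D U m := by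
  refine D_le (fun w hw => ?_)
  obtain ⟨w1, w2, a1, a2, rfl⟩ := hw.split l m rfl
    (fun x hx y b e _ hd => h x hx y (by simp [e]) hd.kadj)
  exact mul_le_mul a1.le_D a2.le_D a2.bounds.1 (D_nonneg _ _)

theorem Til.drop {U : Cl → Prop} {b l : List Cl} {w : ℝ} (hb : ∀ x ∈ b, ¬ U x)
    (h : Til U (b ++ l) w) : Til U l w := by
  induction b with
  | nil => exact h
  | cons x b ih =>
    refine ih (fun y hy => hb y (by simp [hy])) ?_
    have hx := hb x (by simp)
    rw [List.cons_append] at h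
    generalize b ++ l = m at h
    cases h with
    | skip _ h => exact h
    | one h => exact absurd h hx
    | two h => exact absurd h hx
    | three h => exact absurd h hx

theorem D_block {U U' : Cl → Prop} {l m b : List Cl} {x : Cl} {c : ℝ} (hc : 0 ≤ c)
    (hn : (l ++ (x :: b ++ m)).Nodup) (hU : ∀ y, U' y ↔ U y ∧ y ∉ x :: b)
    (hb : ∀ w, Til U m w → Til U (x :: b ++ m) (c * w)) :
    c * D U' (l ++ (x :: b ++ m)) ≤ D U (l ++ (x :: b ++ m)) := by
  refine mul_D_le hc (fun w hw => ?_)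
  obtain ⟨w1, w2, a1, a2, rfl⟩ := hw.split l (x :: b ++ m) rfl (fun _ _ y b' e hy => by
    obtain rfl : x = y := (List.cons.inj e).1
    exact absurd (List.mem_cons_self) ((hU x).1 hy).2)
  have a3 := Til.drop (b := x :: b) (fun y hy h => ((hU y).1 h).2 hy) a2
  obtain ⟨-, n2, n3⟩ := List.nodup_append.1 hn
  obtain ⟨-, -, n4⟩ := List.nodup_append.1 n2
  have a4 : Til U l w1 := a1.congr (fun y hy => by
    rw [hU]; exact ⟨fun h => h.1, fun h => ⟨h, fun e => n3 y hy y (List.mem_append_left _ e) rfl⟩⟩)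
  have a5 : Til U m w2 := a3.congr (fun y hy => by
    rw [hU]; exact ⟨fun h => h.1, fun h => ⟨h, fun e => n4 y e y hy rfl⟩⟩)
  have := (a4.append (hb _ a5)).le_D
  linarith [show c * (w1 * w2) = w1 * (c * w2) by ring]

/-- lists without repetition in which only consecutive cells can be king neighbours -/
def CL : List Cl → Prop
  | [] => True
  | x :: l => x ∉ l ∧ (∀ y ∈ l.tail, ¬ kadj x y) ∧ CL l

theorem CL.nodup {l : List Cl} (h : CL l) : l.Nodup := by
  induction l with
  | nil => simp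
  | cons x l ih => exact List.nodup_cons.2 ⟨h.1, ih h.2.2⟩

theorem CL.right {l m : List Cl} (h : CL (l ++ m)) : CL m := by
  induction l with
  | nil => exact h
  | cons x l ih => exact ih h.2.2

theorem CL.append {l m : List Cl} (hl : CL l) (hm : CL m) (h : ∀ x ∈ l, ∀ y ∈ m, ¬ kadj x y) :
    CL (l ++ m) := by
  induction l with
  | nil => exact hm
  | cons x l ih =>
    refine ⟨fun e => ?_, fun y hy => ?_, ih hl.2.2 (fun z hz => h z (by simp [hz]))⟩
    · rcases List.mem_append.1 e with e | e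
      · exact hl.1 e
      · exact h x (by simp) x e (kadj_refl x)
    · cases l with
      | nil => exact h x (by simp) y (List.mem_of_mem_tail hy)
      | cons z l =>
        rcases List.mem_append.1 (show y ∈ l ++ m from hy) with e | e
        · exact hl.2.1 y e
        · exact h x (by simp) y e

theorem CL.nbr {l m : List Cl} {x y : Cl} (h : CL (l ++ y :: m)) (hx : x ∈ l ++ y :: m)
    (hne : x ≠ y) (hk : kadj x y) : (∃ a, l = a ++ [x]) ∨ ∃ b, m = x :: b := by
  induction l with
  | nil =>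
    right
    cases m with
    | nil => simp [hne] at hx
    | cons z m =>
      rcases List.mem_cons.1 hx with e | e
      · exact absurd e hne
      · rcases List.mem_cons.1 e with e | e
        · exact ⟨m, by rw [e]⟩
        · exact absurd hk.symm (h.2.1 x e)
  | cons z l ih =>
    rcases List.mem_cons.1 hx with e | e
    · subst e
      cases l with
      | nil => exact Or.inl ⟨[], rfl⟩
      | cons u l => exact absurd hk (h.2.1 y (by simp))
    · rcases ih h.2.2 e with ⟨a, rfl⟩ | e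
      · exact Or.inl ⟨z :: a, rfl⟩
      · exact Or.inr e

theorem D_rem1 {U : Cl → Prop} {γ : List Cl} (h : CL γ) {x : Cl} (hx : x ∈ γ) (ux : U x) :
    c1 * D (fun y => U y ∧ y ≠ x) γ ≤ D U γ := by
  obtain ⟨l, m, rfl⟩ := List.append_of_mem hx
  exact D_block (b := []) c1_pos.le h.nodup (by simp) (fun w hw => hw.one ux)

theorem D_rem2 {U : Cl → Prop} {γ : List Cl} (h : CL γ) {x y : Cl} (hx : x ∈ γ) (hy : y ∈ γ)
    (ux : U x) (uy : U y) (hd : diag x y) :
    c2 * D (fun z => U z ∧ z ≠ x ∧ z ≠ y) γ ≤ D U γ := by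
  obtain ⟨l, m, rfl⟩ := List.append_of_mem hy
  rcases h.nbr hx hd.ne hd.kadj with ⟨a, rfl⟩ | ⟨b, rfl⟩
  · have := h.nodup
    rw [List.append_assoc] at this ⊢
    exact D_block (b := [y]) c2_pos.le this (by simp) (fun w hw => hw.two ux uy hd)
  · exact D_block (b := [x]) c2_pos.le h.nodup (by simp; tauto) (fun w hw => hw.two uy ux hd.symm)

theorem D_rem3 {U : Cl → Prop} {γ : List Cl} (h : CL γ) {x y z : Cl} (hx : x ∈ γ) (hy : y ∈ γ)
    (hz : z ∈ γ) (ux : U x) (uy : U y) (uz : U z) (hd : vee x y z) (hne : x ≠ z) :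
    c3 * D (fun u => U u ∧ u ≠ x ∧ u ≠ y ∧ u ≠ z) γ ≤ D U γ := by
  obtain ⟨l, m, rfl⟩ := List.append_of_mem hy
  rcases h.nbr hx hd.1.ne hd.1.kadj with ⟨a, rfl⟩ | ⟨b, rfl⟩
  · rcases h.nbr hz hd.2.1.symm.ne hd.2.1.symm.kadj with ⟨a', e⟩ | ⟨b, rfl⟩
    · exact absurd (List.append_inj_right' e rfl) (by simp [hne])
    · have := h.nodup
      rw [List.append_assoc] at this ⊢
      exact D_block (b := [y, z]) c3_pos.le this (by simp) (fun w hw => hw.three ux uy uz hd)
  · rcases h.nbr hz hd.2.1.symm.ne hd.2.1.symm.kadj with ⟨a', rfl⟩ | ⟨b, e⟩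
    · have := h.nodup
      rw [List.append_assoc] at this ⊢
      exact D_block (b := [y, x]) c3_pos.le this (by simp; tauto)
        (fun w hw => hw.three uz uy ux hd.symm)
    · exact absurd (List.cons.inj e).1 hne

theorem D_init {U : Cl → Prop} {g : Cl → ℝ} (h0 : ∀ x, 0 ≤ g x) (h1 : ∀ x, U x → g x ≤ 1)
    (h2 : ∀ x, ¬ U x → g x ≤ c1) (l : List Cl) :
    (l.map g).prod * D U l ≤ D (fun _ => True) l := by
  have hp : ∀ l : List Cl, 0 ≤ (l.map g).prod := fun l =>
    List.prod_nonneg (fun a ha => by obtain ⟨x, -, rfl⟩ := List.mem_map.1 ha; exact h0 x)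
  refine mul_D_le (hp l) (fun w hw => ?_)
  suffices ∃ w', Til (fun _ => True) l w' ∧ (l.map g).prod * w ≤ w' by
    obtain ⟨w', a, b⟩ := this
    exact b.trans a.le_D
  have key : ∀ {a p w w' c : ℝ}, 0 ≤ a → a ≤ 1 → 0 ≤ p → 0 ≤ w → 0 ≤ c → p * w ≤ w' →
      a * p * (c * w) ≤ c * w' := by
    intro a p w w' c a0 a1 p0 w0 c0 h
    have := mul_le_mul a1 h (mul_nonneg p0 w0) zero_le_one
    nlinarith
  induction hw with
  | nil => exact ⟨1, Til.nil, by simp⟩
  | @skip x l w a1 a2 ih =>
    obtain ⟨w', b1, b2⟩ := ih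
    refine ⟨_, b1.one trivial, ?_⟩
    rw [List.map_cons, List.prod_cons, mul_assoc]
    exact mul_le_mul (h2 x a1) b2 (mul_nonneg (hp l) a2.bounds.1) c1_pos.le
  | @one x l w a1 a2 ih =>
    obtain ⟨w', b1, b2⟩ := ih
    refine ⟨_, b1.one trivial, ?_⟩
    rw [List.map_cons, List.prod_cons]
    exact key (h0 x) (h1 x a1) (hp l) a2.bounds.1 c1_pos.le b2
  | @two x y l w a1 a2 a3 a4 ih =>
    obtain ⟨w', b1, b2⟩ := ih
    refine ⟨_, b1.two trivial trivial a3, ?_⟩
    rw [List.map_cons, List.prod_cons, List.map_cons, List.prod_cons, ← mul_assoc (g x)]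
    exact key (mul_nonneg (h0 x) (h0 y)) (mul_le_one₀ (h1 x a1) (h0 y) (h1 y a2)) (hp l)
      a4.bounds.1 c2_pos.le b2
  | @three x y z l w a1 a2 a3 a4 a5 ih =>
    obtain ⟨w', b1, b2⟩ := ih
    refine ⟨_, b1.three trivial trivial trivial a4, ?_⟩
    rw [List.map_cons, List.prod_cons, List.map_cons, List.prod_cons, List.map_cons,
      List.prod_cons, ← mul_assoc (g x), ← mul_assoc (g x * g y)]
    exact key (mul_nonneg (mul_nonneg (h0 x) (h0 y)) (h0 z))
      (mul_le_one₀ (mul_le_one₀ (h1 x a1) (h0 y) (h1 y a2)) (h0 z) (h1 z a3)) (hp l)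
      a5.bounds.1 c3_pos.le b2

theorem one_le_D {U : Cl → Prop} {l : List Cl} (h : ∀ x ∈ l, ¬ U x) : 1 ≤ D U l := by
  suffices Til U l 1 from this.le_D
  induction l with
  | nil => exact Til.nil
  | cons x l ih => exact (ih (fun y hy => h y (by simp [hy]))).skip (h x (by simp))

end Pool.Agent.P.MP_f475a8_pr
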