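import Mathlib

/-! Finite averaging over fair bits, with a base point. -/

set_option autoImplicit false
open Function

namespace Pool.Agent.P.MP_f475a8_pr

variable {V : Type*} [DecidableEq V]

/-- average over one coordinate -/
noncomputable def E1 (a : V) (f : (V → Bool) → ℝ) : (V → Bool) → ℝ :=
  fun ω => (f (update ω a true) + f (update ω a false)) / 2

/-- average over a list of coordinates -/
noncomputable def ExL : List V → ((V → Bool) → ℝ) → (V → Bool) → ℝ
  | [], f => f
  | a :: l, f => E1 a (ExL l f)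

theorem ExL_nil (f : (V → Bool) → ℝ) : ExL [] f = f := rfl
theorem ExL_cons (a : V) (l : List V) (f : (V → Bool) → ℝ) : ExL (a :: l) f = E1 a (ExL l f) := rfl

theorem ExL_append (l m : List V) (f : (V → Bool) → ℝ) : ExL (l ++ m) f = ExL l (ExL m f) := by
  induction l with
  | nil => rfl
  | cons a l ih => simp only [List.cons_append, ExL_cons, ih]

theorem E1_comm (a b : V) (f : (V → Bool) → ℝ) : E1 a (E1 b f) = E1 b (E1 a f) := by
  by_cases h : a = b
  · rw [h]
  · funext ω
    simp only [E1, update_comm h]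
    ring

theorem E1_idem (a : V) (f : (V → Bool) → ℝ) : E1 a (E1 a f) = E1 a f := by
  funext ω
  simp only [E1, update_idem]
  ring

theorem E1_ExL_comm (a : V) (l : List V) (f : (V → Bool) → ℝ) :
    E1 a (ExL l f) = ExL l (E1 a f) := by
  induction l with
  | nil => rfl
  | cons b l ih => rw [ExL_cons, ExL_cons, E1_comm, ih]

theorem E1_ExL_of_mem {a : V} {l : List V} (h : a ∈ l) (f : (V → Bool) → ℝ) :
    E1 a (ExL l f) = ExL l f := by
  induction l with
  | nil => simp at h
  | cons b l ih =>
    rw [ExL_cons]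
    rcases List.mem_cons.1 h with rfl | h
    · rw [E1_idem]
    · rw [E1_comm, ih h]

theorem ExL_ExL_of_subset {l m : List V} (h : ∀ a ∈ l, a ∈ m) (f : (V → Bool) → ℝ) :
    ExL l (ExL m f) = ExL m f := by
  induction l with
  | nil => rfl
  | cons a l ih =>
    rw [ExL_cons, ih (fun b hb => h b (List.mem_cons_of_mem _ hb)),
      E1_ExL_of_mem (h a List.mem_cons_self)]

theorem ExL_comm (l m : List V) (f : (V → Bool) → ℝ) : ExL l (ExL m f) = ExL m (ExL l f) := by
  induction l with
  | nil => rfl
  | cons a l ih => rw [ExL_cons, ih, E1_ExL_comm, ExL_cons]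

theorem ExL_congr_set {l m : List V} (h : ∀ a, a ∈ l ↔ a ∈ m) (f : (V → Bool) → ℝ) :
    ExL l f = ExL m f := by
  have h1 := ExL_ExL_of_subset (l := l) (m := m) (fun a ha => (h a).1 ha) f
  have h2 := ExL_ExL_of_subset (l := m) (m := l) (fun a ha => (h a).2 ha) f
  rw [← h2, ExL_comm, h1]

/-- monotonicity, comparing only on points which agree with the base point off the list -/
theorem ExL_le_of {l : List V} {f g : (V → Bool) → ℝ} {ω : V → Bool}
    (h : ∀ ω', (∀ a, a ∉ l → ω' a = ω a) → f ω' ≤ g ω') : ExL l f ω ≤ ExL l g ω := by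
  induction l generalizing ω with
  | nil => exact h ω (fun _ _ => rfl)
  | cons b l ih =>
    simp only [ExL_cons, E1]
    have key : ∀ c : Bool, ExL l f (update ω b c) ≤ ExL l g (update ω b c) := by
      intro c
      refine ih (fun ω' hω' => h ω' (fun a ha => ?_))
      have hab : a ≠ b := fun e => ha (e ▸ List.mem_cons_self)
      rw [hω' a (fun e => ha (List.mem_cons_of_mem _ e)), update_of_ne hab]
    have := key true
    have := key false
    linarith

theorem ExL_const (l : List V) (c : ℝ) (ω : V → Bool) : ExL l (fun _ => c) ω = c := by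
  induction l generalizing ω with
  | nil => rfl
  | cons b l ih => simp only [ExL_cons, E1, ih]; ring

theorem ExL_add (l : List V) (f g : (V → Bool) → ℝ) (ω : V → Bool) :
    ExL l (fun x => f x + g x) ω = ExL l f ω + ExL l g ω := by
  induction l generalizing ω with
  | nil => rfl
  | cons b l ih => simp only [ExL_cons, E1, ih]; ring

theorem ExL_mul (l : List V) (c : ℝ) (f : (V → Bool) → ℝ) (ω : V → Bool) :
    ExL l (fun x => c * f x) ω = c * ExL l f ω := by
  induction l generalizing ω with
  | nil => rfl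
  | cons b l ih => simp only [ExL_cons, E1, ih]; ring

theorem ExL_comp {W : Type*} [DecidableEq W] {φ : W → V} (hφ : Injective φ) (l : List W)
    (g : (W → Bool) → ℝ) (ω : V → Bool) :
    ExL (l.map φ) (fun x => g (x ∘ φ)) ω = ExL l g (ω ∘ φ) := by
  induction l generalizing ω with
  | nil => rfl
  | cons b l ih =>
    simp only [List.map_cons, ExL_cons, E1, ih, update_comp_eq_of_injective _ hφ]

/-- average over a finite set of coordinates -/
noncomputable def Ex (R : Finset V) (f : (V → Bool) → ℝ) : (V → Bool) → ℝ := ExL R.toList f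

theorem Ex_eq_ExL {R : Finset V} {l : List V} (h : ∀ a, a ∈ R ↔ a ∈ l) (f : (V → Bool) → ℝ) :
    Ex R f = ExL l f :=
  ExL_congr_set (fun a => by rw [Finset.mem_toList, h]) f

theorem Ex_empty (f : (V → Bool) → ℝ) : Ex ∅ f = f := by
  rw [Ex_eq_ExL (l := []) (by simp)]; rfl

theorem Ex_union (A B : Finset V) (f : (V → Bool) → ℝ) : Ex (A ∪ B) f = Ex A (Ex B f) := by
  rw [Ex_eq_ExL (l := A.toList ++ B.toList) (by simp), ExL_append]; rfl

theorem Ex_insert (a : V) (B : Finset V) (f : (V → Bool) → ℝ) :
    Ex (insert a B) f = E1 a (Ex B f) := by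
  rw [Ex_eq_ExL (l := a :: B.toList) (by simp)]; rfl

theorem Ex_le_of {R : Finset V} {f g : (V → Bool) → ℝ} {ω : V → Bool}
    (h : ∀ ω', (∀ a, a ∉ R → ω' a = ω a) → f ω' ≤ g ω') : Ex R f ω ≤ Ex R g ω :=
  ExL_le_of (fun ω' h' => h ω' (fun a ha => h' a (by simpa using ha)))

theorem Ex_congr_of {R : Finset V} {f g : (V → Bool) → ℝ} {ω : V → Bool}
    (h : ∀ ω', (∀ a, a ∉ R → ω' a = ω a) → f ω' = g ω') : Ex R f ω = Ex R g ω :=
  le_antisymm (Ex_le_of (fun ω' h' => (h ω' h').le)) (Ex_le_of (fun ω' h' => (h ω' h').ge))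

theorem Ex_mono {R : Finset V} {f g : (V → Bool) → ℝ} (h : ∀ x, f x ≤ g x) (ω : V → Bool) :
    Ex R f ω ≤ Ex R g ω := Ex_le_of (fun x _ => h x)

theorem Ex_const (R : Finset V) (c : ℝ) (ω : V → Bool) : Ex R (fun _ => c) ω = c :=
  ExL_const _ _ _

theorem Ex_le_const {R : Finset V} {f : (V → Bool) → ℝ} {c : ℝ} {ω : V → Bool}
    (h : ∀ ω', (∀ a, a ∉ R → ω' a = ω a) → f ω' ≤ c) : Ex R f ω ≤ c :=
  (Ex_le_of h).trans_eq (Ex_const R c ω)

theorem Ex_nonneg {R : Finset V} {f : (V → Bool) → ℝ} (h : ∀ x, 0 ≤ f x) (ω : V → Bool) :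
    0 ≤ Ex R f ω := (Ex_const R 0 ω).symm.trans_le (Ex_mono h ω)

theorem Ex_add (R : Finset V) (f g : (V → Bool) → ℝ) (ω : V → Bool) :
    Ex R (fun x => f x + g x) ω = Ex R f ω + Ex R g ω := ExL_add _ _ _ _

theorem Ex_mul (R : Finset V) (c : ℝ) (f : (V → Bool) → ℝ) (ω : V → Bool) :
    Ex R (fun x => c * f x) ω = c * Ex R f ω := ExL_mul _ _ _ _

theorem Ex_sum {ι : Type*} (s : Finset ι) (R : Finset V) (f : ι → (V → Bool) → ℝ)
    (ω : V → Bool) : Ex R (fun x => ∑ i ∈ s, f i x) ω = ∑ i ∈ s, Ex R (f i) ω := by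
  classical
  induction s using Finset.induction_on with
  | empty => simpa using Ex_const R 0 ω
  | insert a s ha ih => simp only [Finset.sum_insert ha, Ex_add, ih]

/-- tower property -/
theorem Ex_Ex_of_subset {A R : Finset V} (h : A ⊆ R) (f : (V → Bool) → ℝ) :
    Ex R (Ex A f) = Ex R f := by
  rw [← Ex_union, Finset.union_eq_left.2 h]

theorem Ex_le_of_sub {A R : Finset V} (h : A ⊆ R) {f g : (V → Bool) → ℝ}
    (hfg : ∀ x, Ex A f x ≤ g x) (ω : V → Bool) : Ex R f ω ≤ Ex R g ω := by
  rw [← Ex_Ex_of_subset h f]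
  exact Ex_mono hfg ω

theorem Ex_le_const_of_sub {A R : Finset V} (h : A ⊆ R) {f : (V → Bool) → ℝ} {c : ℝ}
    (hfg : ∀ x, Ex A f x ≤ c) (ω : V → Bool) : Ex R f ω ≤ c :=
  (Ex_le_of_sub h hfg ω).trans_eq (Ex_const R c ω)

/-- `f` depends only on the coordinates in `A` -/
def DepOn {β : Type*} (A : Set V) (f : (V → Bool) → β) : Prop :=
  ∀ x y, (∀ a ∈ A, x a = y a) → f x = f y

/-- a factor which does not depend on the averaged coordinates can be pulled out -/
theorem Ex_mul_left {R : Finset V} {A : Set V} {g : (V → Bool) → ℝ} (hg : DepOn A g)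
    (hA : ∀ a ∈ A, a ∉ R) (f : (V → Bool) → ℝ) (ω : V → Bool) :
    Ex R (fun x => g x * f x) ω = g ω * Ex R f ω := by
  rw [← Ex_mul]
  exact Ex_congr_of (fun ω' h => by rw [hg ω' ω (fun a ha => h a (hA a ha))])

theorem Ex_map {W : Type*} [DecidableEq W] {φ : W → V} (hφ : Injective φ) (R : Finset W)
    (g : (W → Bool) → ℝ) (ω : V → Bool) :
    Ex (R.image φ) (fun x => g (x ∘ φ)) ω = Ex R g (ω ∘ φ) := by
  rw [Ex_eq_ExL (l := R.toList.map φ) (by simp), ExL_comp hφ]; rfl

/-- product bound for functions of disjoint coordinate sets -/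
theorem Ex_prod_le {ι : Type*} (s : Finset ι) (R : ι → Finset V) (g : ι → (V → Bool) → ℝ)
    (δ : ι → ℝ) (hd : ∀ i ∈ s, ∀ j ∈ s, i ≠ j → ∃ A : Set V, DepOn A (g i) ∧ ∀ a ∈ A, a ∉ R j)
    (hg : ∀ i ∈ s, ∀ x, 0 ≤ g i x) (hδ : ∀ i ∈ s, ∀ x, Ex (R i) (g i) x ≤ δ i) (ω : V → Bool) :
    Ex (s.biUnion R) (fun x => ∏ i ∈ s, g i x) ω ≤ ∏ i ∈ s, δ i := by
  classical
  induction s using Finset.induction_on generalizing ω with
  | empty => simp [Ex_empty]
  | insert a s ha ih =>
    have ih' := ih (fun i hi j hj => hd i (Finset.mem_insert_of_mem hi) j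
      (Finset.mem_insert_of_mem hj)) (fun i hi => hg i (Finset.mem_insert_of_mem hi))
      (fun i hi => hδ i (Finset.mem_insert_of_mem hi))
    have hδ0 : ∀ i ∈ s, 0 ≤ δ i := fun i hi =>
      (Ex_nonneg (hg i (Finset.mem_insert_of_mem hi)) ω).trans
        (hδ i (Finset.mem_insert_of_mem hi) ω)
    rw [Finset.biUnion_insert, Ex_union, Finset.prod_insert ha]
    simp only [Finset.prod_insert ha]
    have hind : ∀ x y, (∀ v, v ∉ s.biUnion R → y v = x v) → g a y = g a x := by
      intro x y hxy
      -- change the coordinates one block at a time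
      have : ∀ t : Finset ι, t ⊆ s → ∀ y, (∀ v, v ∉ t.biUnion R → y v = x v) → g a y = g a x := by
        intro t
        induction t using Finset.induction_on with
        | empty =>
          intro _ y hy
          rw [show y = x from funext (fun v => hy v (by simp))]
        | insert b t hb iht =>
          intro hts y hy
          have hbs : b ∈ s := hts (Finset.mem_insert_self _ _)
          obtain ⟨A, hA, hA'⟩ := hd a (Finset.mem_insert_self _ _) b
            (Finset.mem_insert_of_mem hbs) (fun e => ha (e ▸ hbs))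
          have h1 := iht (fun i hi => hts (Finset.mem_insert_of_mem hi))
            (fun v => if v ∈ R b then x v else y v) (by
              intro v hv
              by_cases h : v ∈ R b
              · simp [h]
              · simp only [h, if_false]
                exact hy v (by
                  rw [Finset.biUnion_insert, Finset.mem_union]
                  exact fun e => e.elim h hv))
          rw [← h1]
          exact hA _ _ (fun v hv => by simp [hA' v hv])
      exact this s subset_rfl y hxy
    calc Ex (R a) (Ex (s.biUnion R) (fun x => g a x * ∏ i ∈ s, g i x)) ω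
        ≤ Ex (R a) (fun x => (∏ i ∈ s, δ i) * g a x) ω := by
          refine Ex_mono (fun x => ?_) ω
          have : Ex (s.biUnion R) (fun y => g a y * ∏ i ∈ s, g i y) x =
              g a x * Ex (s.biUnion R) (fun y => ∏ i ∈ s, g i y) x := by
            rw [← Ex_mul]
            exact Ex_congr_of (fun y hy => by rw [hind x y hy])
          rw [this, mul_comm]
          exact mul_le_mul_of_nonneg_right (ih' x) (hg a (Finset.mem_insert_self _ _) x)
      _ ≤ δ a * ∏ i ∈ s, δ i := by
          rw [Ex_mul, mul_comm]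
          exact mul_le_mul_of_nonneg_right (hδ a (Finset.mem_insert_self _ _) ω)
            (Finset.prod_nonneg hδ0)

/-- the configuration equal to `σ` on `R` and to `ω` elsewhere -/
def ext (R : Finset V) (σ : R → Bool) (ω : V → Bool) : V → Bool :=
  fun v => if h : v ∈ R then σ ⟨v, h⟩ else ω v

theorem Ex_eq_sum_powerset (R : Finset V) (f : (V → Bool) → ℝ) (ω : V → Bool) :
    Ex R f ω = (∑ T ∈ R.powerset, f (fun v => if v ∈ R then decide (v ∈ T) else ω v)) /
      2 ^ R.card := by
  induction R using Finset.induction_on generalizing ω with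
  | empty => simp [Ex_empty]
  | insert a R ha ih =>
    rw [Ex_insert, E1, ih, ih, Finset.sum_powerset_insert ha, Finset.card_insert_of_notMem ha,
      pow_succ]
    have h1 : ∀ T ∈ R.powerset, f (fun v => if v ∈ R then decide (v ∈ T) else update ω a true v) =
        f (fun v => if v ∈ insert a R then decide (v ∈ insert a T) else ω v) := by
      intro T _
      congr 1
      funext v
      by_cases h : v = a
      · subst h; simp [ha]
      · simp [h]
    have h2 : ∀ T ∈ R.powerset, f (fun v => if v ∈ R then decide (v ∈ T) else update ω a false v) =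
        f (fun v => if v ∈ insert a R then decide (v ∈ T) else ω v) := by
      intro T hT
      congr 1
      funext v
      by_cases h : v = a
      · subst h
        have : v ∉ T := fun e => ha (Finset.mem_powerset.1 hT e)
        simp [ha, this]
      · simp [h]
    rw [Finset.sum_congr rfl h1, Finset.sum_congr rfl h2]
    field_simp
    ring

theorem Ex_eq_sum (R : Finset V) (f : (V → Bool) → ℝ) (ω : V → Bool) :
    Ex R f ω = (∑ σ : R → Bool, f (ext R σ ω)) / 2 ^ R.card := by
  rw [Ex_eq_sum_powerset]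
  congr 1
  symm
  refine Finset.sum_bij (fun σ _ => R.filter (fun v => ext R σ ω v = true)) ?_ ?_ ?_ ?_
  · intro σ _; simp
  · intro σ _ τ _ h
    funext ⟨v, hv⟩
    have := congrArg (fun T => v ∈ T) h
    simp only [Finset.mem_filter, hv, true_and, ext, dif_pos, eq_iff_iff] at this
    exact Bool.eq_iff_iff.2 this
  · intro T hT
    refine ⟨fun v => decide (v.1 ∈ T), Finset.mem_univ _, ?_⟩
    ext v
    simp only [Finset.mem_filter, ext]
    constructor
    · rintro ⟨h1, h2⟩
      simpa [h1] using h2
    · intro h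
      have := Finset.mem_powerset.1 hT h
      exact ⟨this, by simp [this, h]⟩
  · intro σ _
    congr 1
    funext v
    by_cases h : v ∈ R
    · simp [ext, h]
    · simp [ext, h]

open MeasureTheory ProbabilityTheory in
/-- transfer to a probability space with independent fair bits -/
theorem measure_eq_Ex {Ω : Type*} [MeasurableSpace Ω] (μ : Measure Ω) [IsProbabilityMeasure μ]
    (X : V → Ω → Bool) (hm : ∀ v, Measurable (X v)) (hi : iIndepFun X μ)
    (hh : ∀ v, μ {ω | X v ω = true} = 1 / 2) (R : Finset V) (p : (V → Bool) → Prop)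
    [DecidablePred p] (hp : DepOn (R : Set V) p) (ω0 : V → Bool) :
    μ.real {ω | p (fun v => X v ω)} = Ex R (fun x => if p x then 1 else 0) ω0 := by
  classical
  have hb : ∀ v b, μ (X v ⁻¹' {b}) = 1 / 2 := by
    intro v b
    cases b
    · have : X v ⁻¹' {false} = {ω | X v ω = true}ᶜ := by ext; simp
      rw [this, prob_compl_eq_one_sub (show MeasurableSet {ω | X v ω = true} from
        hm v (measurableSet_singleton true)), hh]
      simp
    · exact hh v
  let C : (R → Bool) → Set Ω := fun σ => ⋂ v ∈ R, X v ⁻¹' {ext R σ ω0 v}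
  have hC : ∀ σ, μ (C σ) = (1 / 2) ^ R.card := by
    intro σ
    rw [hi.meas_biInter (S := R) (s := fun v => X v ⁻¹' {ext R σ ω0 v})
      (fun v _ => ⟨{ext R σ ω0 v}, measurableSet_singleton _, rfl⟩)]
    simp only [hb, Finset.prod_const]
  have hCm : ∀ σ, MeasurableSet (C σ) := fun σ =>
    Finset.measurableSet_biInter _ (fun v _ => hm v (measurableSet_singleton _))
  have hset : {ω | p (fun v => X v ω)} =
      ⋃ σ ∈ Finset.univ.filter (fun σ : R → Bool => p (ext R σ ω0)), C σ := by
    ext ω
    simp only [Set.mem_setOf_eq, Set.mem_iUnion, Finset.mem_filter, Finset.mem_univ, true_and, C,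
      Set.mem_iInter, Set.mem_preimage, Set.mem_singleton_iff, exists_prop]
    constructor
    · intro h
      refine ⟨fun v => X v ω, ?_, fun v hv => by simp [ext, hv]⟩
      rwa [hp (ext R (fun v => X v ω) ω0) (fun v => X v ω) (fun v hv => by
        simp [ext, Finset.mem_coe.1 hv])]
    · rintro ⟨σ, h1, h2⟩
      rwa [hp (fun v => X v ω) (ext R σ ω0) (fun v hv => h2 v (Finset.mem_coe.1 hv))]
  rw [hset, measureReal_biUnion_finset _ (fun σ _ => hCm σ), Ex_eq_sum]
  · rw [Finset.sum_filter, Finset.sum_div]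
    refine Finset.sum_congr rfl (fun σ _ => ?_)
    split_ifs
    · simp [Measure.real, hC]
    · simp
  · intro σ _ τ _ hne
    refine Set.disjoint_left.2 (fun ω h1 h2 => hne ?_)
    funext ⟨v, hv⟩
    simp only [C, Set.mem_iInter, Set.mem_preimage, Set.mem_singleton_iff] at h1 h2
    have := (h1 v hv).symm.trans (h2 v hv)
    simpa [ext, hv] using this

end Pool.Agent.P.MP_f475a8_pr
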