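import Pool.Agent.P.MP_f475a8_pr.Paths

/-! An abstract exploration of cells, with a supermartingale bound. -/

set_option autoImplicit false
open Function Classical

namespace Pool.Agent.P.MP_f475a8_pr

def dir : Fin 4 → Cl := ![(1, 0), (0, 1), (-1, 0), (0, -1)]

def tn : Fin 3 → Fin 4 := ![1, 0, 3]

def adj4 (x y : Cl) : Prop :=
  (y.1 = x.1 + 1 ∧ y.2 = x.2) ∨ (y.1 = x.1 - 1 ∧ y.2 = x.2) ∨
    (y.1 = x.1 ∧ y.2 = x.2 + 1) ∨ (y.1 = x.1 ∧ y.2 = x.2 - 1)

theorem adj4.symm {x y : Cl} (h : adj4 x y) : adj4 y x := by unfold adj4 at *; omega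

theorem adj4_cases {x y : Cl} (h : adj4 x y) (δ : Fin 4) :
    (∃ k, y = x + dir (δ + tn k)) ∨ y = x - dir δ := by
  have : ∃ d, y = x + dir d := by
    obtain ⟨a, b⟩ := x
    obtain ⟨c, d⟩ := y
    rcases h with ⟨h1, h2⟩ | ⟨h1, h2⟩ | ⟨h1, h2⟩ | ⟨h1, h2⟩ <;> simp only at h1 h2 <;> subst h1 h2
    · exact ⟨0, by simp [dir]⟩
    · exact ⟨2, by simp [dir, sub_eq_add_neg]⟩
    · exact ⟨1, by simp [dir]⟩
    · exact ⟨3, by simp [dir, sub_eq_add_neg]⟩
  obtain ⟨d, rfl⟩ := this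
  have key : ∀ d δ : Fin 4, (∃ k, d = δ + tn k) ∨ dir d = -dir δ := by decide
  rcases key d δ with ⟨k, rfl⟩ | e
  · exact Or.inl ⟨k, rfl⟩
  · exact Or.inr (by rw [e, sub_eq_add_neg])

inductive St (E : Type) where
  | un : St E
  | pe (δ : Fin 4) (e : E) (n : ℕ) : St E
  | de : St E
  | ac (δ : Fin 4) (e : E) (n : ℕ) : St E

structure Sys (V E : Type) where
  Bs : Finset Cl
  real : Cl → Prop
  Rg : Cl → Finset V
  out : Cl → Fin 4 → E → (V → Bool) → Option (Fin 3 → E)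
  f : E → ℝ

variable {V E : Type} [DecidableEq V] (S : Sys V E)

namespace Sys

def Sel (σ : Cl → St E) (t : Cl × Fin 4 × E × ℕ) : Prop :=
  t.1 ∈ S.Bs ∧ σ t.1 = St.pe t.2.1 t.2.2.1 t.2.2.2 ∧
    ∀ c δ e n, c ∈ S.Bs → σ c = St.pe δ e n → t.2.2.2 ≤ n

def Clm (σ : Cl → St E) (c x : Cl) : Prop := S.real c ∧ x ∈ S.Bs ∧ σ x = St.un

noncomputable def upd (σ : Cl → St E) (c : Cl) (δ : Fin 4) (e : E) (n : ℕ) :
    Option (Fin 3 → E) → Cl → St E
  | none => update σ c St.de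
  | some ch => fun x => if x = c then St.ac δ e n else
      if h : S.Clm σ c x ∧ ∃ k, x = c + dir (δ + tn k) then
        St.pe (δ + tn h.2.choose) (ch h.2.choose) (n + 1) else σ x

noncomputable def step (σ : Cl → St E) (η : V → Bool) : Cl → St E :=
  if h : ∃ t, S.Sel σ t then
    S.upd σ h.choose.1 h.choose.2.1 h.choose.2.2.1 h.choose.2.2.2
      (S.out h.choose.1 h.choose.2.1 h.choose.2.2.1 η) else σ

noncomputable def run : ℕ → (Cl → St E) → (V → Bool) → Cl → St E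
  | 0, σ, _ => σ
  | N + 1, σ, η => run N (S.step σ η) η

theorem step_cases (σ : Cl → St E) : ((∀ c δ e n, c ∈ S.Bs → σ c ≠ St.pe δ e n) ∧
    ∀ η, S.step σ η = σ) ∨ ∃ c δ e n, S.Sel σ (c, δ, e, n) ∧
      ∀ η, S.step σ η = S.upd σ c δ e n (S.out c δ e η) := by
  by_cases h : ∃ t, S.Sel σ t
  · exact Or.inr ⟨_, _, _, _, h.choose_spec, fun η => by rw [step, dif_pos h]; rfl⟩
  · refine Or.inl ⟨fun c δ e n hc e1 => h ?_, fun η => by rw [step, dif_neg h]⟩
    have ex : ∃ n, ∃ c δ e, c ∈ S.Bs ∧ σ c = St.pe δ e n := ⟨n, c, δ, e, hc, e1⟩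
    obtain ⟨c, δ, e, h1, h2⟩ := Nat.find_spec ex
    exact ⟨(c, δ, e, Nat.find ex), h1, h2, fun c' δ' e' n' a b => Nat.find_min' ex ⟨c', δ', e', a, b⟩⟩

theorem child_inj {c : Cl} {δ : Fin 4} {k k' : Fin 3} (h : c + dir (δ + tn k) = c + dir (δ + tn k')) :
    k = k' := by
  have key : ∀ (δ : Fin 4) (k k' : Fin 3), dir (δ + tn k) = dir (δ + tn k') → k = k' := by decide
  exact key δ k k' (add_left_cancel h)

theorem child_ne (c : Cl) (d : Fin 4) : c + dir d ≠ c := by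
  have key : ∀ d : Fin 4, dir d ≠ 0 := by decide
  exact fun h => key d (by simpa using h)

theorem upd_self (σ : Cl → St E) (c : Cl) (δ : Fin 4) (e : E) (n : ℕ) (ch : Fin 3 → E) :
    S.upd σ c δ e n (some ch) c = St.ac δ e n := by simp [upd]

theorem upd_child {σ : Cl → St E} {c : Cl} (δ : Fin 4) (e : E) (n : ℕ) (ch : Fin 3 → E)
    (k : Fin 3) (h : S.Clm σ c (c + dir (δ + tn k))) :
    S.upd σ c δ e n (some ch) (c + dir (δ + tn k)) = St.pe (δ + tn k) (ch k) (n + 1) := by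
  have h' : S.Clm σ c (c + dir (δ + tn k)) ∧ ∃ k', c + dir (δ + tn k) = c + dir (δ + tn k') :=
    ⟨h, k, rfl⟩
  simp only [upd]
  rw [if_neg (child_ne _ _), dif_pos h', ← child_inj h'.2.choose_spec]

theorem upd_other {σ : Cl → St E} {c x : Cl} (δ : Fin 4) (e : E) (n : ℕ) (ch : Fin 3 → E)
    (hx : x ≠ c) (h : ¬ (S.Clm σ c x ∧ ∃ k, x = c + dir (δ + tn k))) :
    S.upd σ c δ e n (some ch) x = σ x := by
  simp only [upd]
  rw [if_neg hx, dif_neg h]

noncomputable def g : St E → ℝ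
  | St.pe _ e _ => S.f e
  | St.ac _ _ _ => 0
  | _ => 1

noncomputable def M (γ : List Cl) (σ : Cl → St E) : ℝ :=
  (∏ x ∈ γ.toFinset, S.g (σ x)) * D (fun x => σ x = St.un) γ

noncomputable def ff (j : Bool) (e : E) : ℝ := if j = true then S.f e else 1

noncomputable def Gm (jN jE jS : Bool) : Option (Fin 3 → E) → ℝ
  | none => cJ jN jE jS
  | some ch => S.ff jN (ch 0) * S.ff jE (ch 1) * S.ff jS (ch 2)

structure Hyp : Prop where
  disj : ∀ c c', c ≠ c' → Disjoint (S.Rg c) (S.Rg c')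
  dep : ∀ c δ e, DepOn (S.Rg c : Set V) (S.out c δ e)
  f0 : ∀ e, 0 ≤ S.f e
  rej : ∀ c δ e ω, Ex (S.Rg c) (fun η => if S.out c δ e η = none then 1 else 0) ω ≤ S.f e
  con : ∀ c, S.real c → ∀ δ e jN jE jS ω,
    Ex (S.Rg c) (fun η => S.Gm jN jE jS (S.out c δ e η)) ω ≤ cJ jN jE jS

end Sys

theorem D_remove {U : Cl → Prop} {γ : List Cl} (h : CL γ) (c : Cl) (δ : Fin 4) (j : Fin 3 → Bool)
    (hj : ∀ k, j k = true → U (c + dir (δ + tn k)) ∧ c + dir (δ + tn k) ∈ γ) :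
    cJ (j 0) (j 1) (j 2) * D (fun x => U x ∧ ∀ k, j k = true → x ≠ c + dir (δ + tn k)) γ ≤
      D U γ := by
  have k1 : ∀ δ : Fin 4, diag (dir (δ + tn 0)) (dir (δ + tn 1)) ∧
      diag (dir (δ + tn 1)) (dir (δ + tn 2)) ∧
      ¬ ((dir (δ + tn 0)).1 - (dir (δ + tn 1)).1 = (dir (δ + tn 1)).1 - (dir (δ + tn 2)).1 ∧
        (dir (δ + tn 0)).2 - (dir (δ + tn 1)).2 = (dir (δ + tn 1)).2 - (dir (δ + tn 2)).2) := by
    decide
  have k2 : vee (c + dir (δ + tn 0)) (c + dir (δ + tn 1)) (c + dir (δ + tn 2)) := by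
    have := k1 δ
    simp only [vee, diag, Prod.fst_add, Prod.snd_add] at this ⊢
    omega
  have k3 : c + dir (δ + tn 0) ≠ c + dir (δ + tn 2) := fun e => absurd (Sys.child_inj e) (by decide)
  have h0 := hj 0
  have h1 := hj 1
  have h2 := hj 2
  simp only [Fin.forall_fin_succ, Fin.succ_zero_eq_one, Fin.succ_one_eq_two, IsEmpty.forall_iff,
    and_true]
  generalize c + dir (δ + tn 0) = x at *
  generalize c + dir (δ + tn 1) = y at *
  generalize c + dir (δ + tn 2) = z at *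
  generalize j 0 = a at *
  generalize j 1 = b at *
  generalize j 2 = d at *
  cases a <;> cases b <;> cases d <;> simp only [cJ, Bool.false_eq_true, false_imp_iff, true_and,
    and_true, forall_true_left] at *
  · simp
  · exact D_rem1 h h2.2 h2.1
  · exact D_rem1 h h1.2 h1.1
  · exact D_rem2 h h1.2 h2.2 h1.1 h2.1 k2.2.1
  · exact D_rem1 h h0.2 h0.1
  · have a1 := D_rem1 h h0.2 h0.1
    have a2 := D_rem1 (U := fun u => U u ∧ u ≠ x) h h2.2 ⟨h2.1, k3.symm⟩
    simp only [and_assoc] at a2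
    rw [mul_assoc]
    exact (mul_le_mul_of_nonneg_left a2 c1_pos.le).trans a1
  · exact D_rem2 h h0.2 h1.2 h0.1 h1.1 k2.1
  · exact D_rem3 h h0.2 h1.2 h2.2 h0.1 h1.1 h2.1 k2 k3

namespace Sys
variable {S}

theorem Hyp.g0 (H : S.Hyp) (s : St E) : 0 ≤ S.g s := by
  cases s <;> simp [g, H.f0]

theorem Hyp.one_step (H : S.Hyp) {γ : List Cl} (hγ : CL γ) {σ : Cl → St E} {c : Cl} {δ : Fin 4}
    {e : E} {n : ℕ} (hc : σ c = St.pe δ e n) (ω : V → Bool) :
    Ex (S.Rg c) (fun η => S.M γ (S.upd σ c δ e n (S.out c δ e η))) ω ≤ S.M γ σ := by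
  have hD : D (fun x => update σ c St.de x = St.un) γ = D (fun x => σ x = St.un) γ := by
    refine D_congr (fun x _ => ?_)
    by_cases h : x = c
    · subst h; simp [hc]
    · rw [update_of_ne h]
  by_cases hm : c ∈ γ
  · have hm' : c ∈ γ.toFinset := List.mem_toFinset.2 hm
    have key : ∀ o, S.M γ (S.upd σ c δ e n o) =
        ((∏ x ∈ γ.toFinset.erase c, S.g (σ x)) * D (fun x => σ x = St.un) γ) *
          if o = none then 1 else 0 := by
      intro o
      unfold M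
      rw [← Finset.mul_prod_erase _ _ hm']
      cases o with
      | none =>
        simp only [upd, update_self, g, one_mul, if_true, mul_one, hD]
        congr 1
        exact Finset.prod_congr rfl (fun x hx => by rw [update_of_ne (Finset.ne_of_mem_erase hx)])
      | some ch => simp [upd_self, g]
    simp only [key, Ex_mul]
    unfold M
    rw [← Finset.mul_prod_erase _ _ hm', hc, mul_assoc (S.g _), mul_comm]
    exact mul_le_mul_of_nonneg_right (H.rej c δ e ω)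
      (mul_nonneg (Finset.prod_nonneg (fun x _ => H.g0 _)) (D_nonneg _ _))
  · obtain ⟨j, hj⟩ : ∃ j : Fin 3 → Bool, ∀ k, j k = true ↔
        S.Clm σ c (c + dir (δ + tn k)) ∧ c + dir (δ + tn k) ∈ γ :=
      ⟨fun k => decide (S.Clm σ c (c + dir (δ + tn k)) ∧ c + dir (δ + tn k) ∈ γ), by simp⟩
    have hrem := D_remove (U := fun x => σ x = St.un) hγ c δ j
      (fun k hk => ⟨((hj k).1 hk).1.2.2, ((hj k).1 hk).2⟩)
    have hP : 0 ≤ ∏ x ∈ γ.toFinset, S.g (σ x) := Finset.prod_nonneg (fun x _ => H.g0 _)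
    have key : ∀ o, S.M γ (S.upd σ c δ e n o) ≤ (∏ x ∈ γ.toFinset, S.g (σ x)) *
        (D (fun x => σ x = St.un ∧ ∀ k, j k = true → x ≠ c + dir (δ + tn k)) γ *
          S.Gm (j 0) (j 1) (j 2) o + (D (fun x => σ x = St.un) γ - cJ (j 0) (j 1) (j 2) *
          D (fun x => σ x = St.un ∧ ∀ k, j k = true → x ≠ c + dir (δ + tn k)) γ)) := by
      intro o
      unfold M
      cases o with
      | none =>
        simp only [upd, hD, Gm]
        refine le_of_eq ?_
        congr 1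
        · exact Finset.prod_congr rfl (fun x hx => by
            rw [update_of_ne (fun e : x = c => hm (e ▸ List.mem_toFinset.1 hx))])
        · ring
      | some ch =>
        have cs : ∀ x ∈ γ, (∃ k, j k = true ∧ x = c + dir (δ + tn k) ∧ σ x = St.un ∧
            S.upd σ c δ e n (some ch) x = St.pe (δ + tn k) (ch k) (n + 1)) ∨
            ((∀ k, j k = true → x ≠ c + dir (δ + tn k)) ∧ S.upd σ c δ e n (some ch) x = σ x) := by
          intro x hx
          by_cases h : S.Clm σ c x ∧ ∃ k, x = c + dir (δ + tn k)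
          · obtain ⟨h, k, rfl⟩ := h
            exact Or.inl ⟨k, (hj k).2 ⟨h, hx⟩, rfl, h.2.2, S.upd_child δ e n ch k h⟩
          · refine Or.inr ⟨fun k hk e => h ⟨e ▸ ((hj k).1 hk).1, k, e⟩, ?_⟩
            exact S.upd_other δ e n ch (fun e => hm (e ▸ hx)) h
        have e1 : D (fun x => S.upd σ c δ e n (some ch) x = St.un) γ =
            D (fun x => σ x = St.un ∧ ∀ k, j k = true → x ≠ c + dir (δ + tn k)) γ := by
          refine D_congr (fun x hx => ?_)
          rcases cs x hx with ⟨k, a1, a2, a3, a4⟩ | ⟨a1, a2⟩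
          · rw [a4]
            exact ⟨fun h => by simp at h, fun h => absurd a2 (h.2 k a1)⟩
          · rw [a2]
            exact ⟨fun h => ⟨h, a1⟩, fun h => h.1⟩
        have e2 : ∏ x ∈ γ.toFinset, S.g (S.upd σ c δ e n (some ch) x) =
            ∏ x ∈ γ.toFinset, (S.g (σ x) *
              ∏ k, if x = c + dir (δ + tn k) then S.ff (j k) (ch k) else 1) := by
          refine Finset.prod_congr rfl (fun x hx => ?_)
          rcases cs x (List.mem_toFinset.1 hx) with ⟨k, a1, a2, a3, a4⟩ | ⟨a1, a2⟩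
          · rw [a4, a3, Finset.prod_eq_single k, if_pos a2]
            · simp [g, ff, a1]
            · intro k' _ hk
              rw [if_neg (fun e => hk (child_inj (e.symm.trans a2)))]
            · simp
          · rw [a2, Finset.prod_eq_one, mul_one]
            intro k _
            split_ifs with h
            · unfold ff
              rw [if_neg (fun hk => a1 k hk h)]
            · rfl
        have e3 : ∏ x ∈ γ.toFinset, ∏ k, (if x = c + dir (δ + tn k) then S.ff (j k) (ch k) else 1)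
            = S.Gm (j 0) (j 1) (j 2) (some ch) := by
          rw [Finset.prod_comm, Gm, ← Fin.prod_univ_three (fun k => S.ff (j k) (ch k))]
          refine Finset.prod_congr rfl (fun k _ => ?_)
          rw [Finset.prod_ite_eq']
          split_ifs with h
          · rfl
          · unfold ff
            rw [if_neg (fun hk => h (List.mem_toFinset.2 ((hj k).1 hk).2))]
        rw [e1, e2, Finset.prod_mul_distrib, e3, mul_assoc]
        refine mul_le_mul_of_nonneg_left ?_ hP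
        linarith
    refine (Ex_mono (fun η => key _) ω).trans ?_
    rw [Ex_mul, Ex_add, Ex_mul, Ex_const]
    refine mul_le_mul_of_nonneg_left ?_ hP
    have hcon : Ex (S.Rg c) (fun η => S.Gm (j 0) (j 1) (j 2) (S.out c δ e η)) ω ≤
        cJ (j 0) (j 1) (j 2) := by
      by_cases hr : S.real c
      · exact H.con c hr _ _ _ _ _ _
      · have : ∀ k, j k = false := fun k => by
          rw [← Bool.not_eq_true, hj]; exact fun h => hr h.1.1
        simp only [this]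
        refine Ex_le_const (fun η _ => ?_)
        cases S.out c δ e η <;> simp [Gm, cJ, ff]
    have := mul_le_mul_of_nonneg_left hcon
      (D_nonneg (fun x => σ x = St.un ∧ ∀ k, j k = true → x ≠ c + dir (δ + tn k)) γ)
    linarith

def Unp (s : St E) : Prop := s = St.un ∨ ∃ δ e n, s = St.pe δ e n

theorem unp_upd {σ : Cl → St E} {c x : Cl} {δ : Fin 4} {e : E} {n : ℕ} {o : Option (Fin 3 → E)}
    (h : Unp (S.upd σ c δ e n o x)) : x ≠ c ∧ Unp (σ x) := by
  have hx : x ≠ c := by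
    rintro rfl
    cases o <;> simp [upd, Unp] at h
  refine ⟨hx, ?_⟩
  cases o with
  | none => rwa [upd, update_of_ne hx] at h
  | some ch =>
    by_cases h' : S.Clm σ c x ∧ ∃ k, x = c + dir (δ + tn k)
    · exact Or.inl h'.1.2.2
    · rwa [S.upd_other δ e n ch hx h'] at h

theorem Hyp.dead_bound (H : S.Hyp) {γ : List Cl} (hγ : CL γ) (N : ℕ) :
    ∀ (σ : Cl → St E) (R : Finset V) (ω : V → Bool), (∀ c ∈ S.Bs, Unp (σ c) → S.Rg c ⊆ R) →
      Ex R (fun η => if ∀ x ∈ γ, S.run N σ η x = St.de then 1 else 0) ω ≤ S.M γ σ := by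
  induction N with
  | zero =>
    intro σ R ω _
    refine Ex_le_const (fun η _ => ?_)
    unfold M
    split_ifs with h
    · rw [Finset.prod_eq_one (fun x hx => by
        rw [show σ x = St.de from h x (List.mem_toFinset.1 hx)]; rfl), one_mul]
      exact one_le_D (fun x hx => by rw [show σ x = St.de from h x hx]; simp)
    · exact mul_nonneg (Finset.prod_nonneg (fun x _ => H.g0 _)) (D_nonneg _ _)
  | succ N ih =>
    intro σ R ω hR
    rcases S.step_cases σ with ⟨-, h⟩ | ⟨c, δ, e, n, h1, h⟩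
    · simp only [run, h]
      exact ih σ R ω hR
    · simp only [run, h]
      have hc : S.Rg c ⊆ R := hR c h1.1 (Or.inr ⟨δ, e, n, h1.2.1⟩)
      rw [← Finset.union_sdiff_of_subset hc, Ex_union]
      refine (Ex_mono (fun ω' => ?_) ω).trans (H.one_step hγ h1.2.1 ω)
      refine le_trans (le_of_eq (Ex_congr_of (fun η hη => ?_)))
        (ih (S.upd σ c δ e n (S.out c δ e ω')) (R \ S.Rg c) ω' (fun x hx hu => ?_))
      · rw [H.dep c δ e η ω' (fun a ha => hη a (fun e => (Finset.mem_sdiff.1 e).2 ha))]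
      · obtain ⟨a1, a2⟩ := unp_upd hu
        exact Finset.subset_sdiff.2 ⟨hR x hx a2, H.disj x c a1⟩

def Dp (s : St E) (n : ℕ) : Prop := ∃ δ e, s = St.pe δ e n ∨ s = St.ac δ e n

structure Iv (S : Sys V E) (η : V → Bool) (P : Cl → Fin 4 → E → ℕ → Prop) (σ0 σ : Cl → St E)
    (d : ℕ) : Prop where
  pe : ∀ c δ e n, σ c = St.pe δ e n → P c δ e n ∧ d ≤ n ∧ n ≤ d + 1 ∧ c ∈ S.Bs ∧
    (c - dir δ ∈ S.Bs → σ (c - dir δ) ≠ St.un)
  ac : ∀ c δ e n, σ c = St.ac δ e n → P c δ e n ∧ S.out c δ e η ≠ none ∧ n ≤ d ∧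
    (S.real c → ∀ c' ∈ S.Bs, adj4 c c' → σ c' ≠ St.un ∧ ∀ n', Dp (σ c') n' → n' ≤ n + 1)
  init : ∀ c, σ0 c ≠ St.un → σ c ≠ St.un ∧ ∀ n, Dp (σ c) n → n = 0

theorem Iv.dp {η : V → Bool} {P : Cl → Fin 4 → E → ℕ → Prop} {σ0 σ : Cl → St E} {d : ℕ}
    (I : Iv S η P σ0 σ d) {c : Cl} {n : ℕ} (h : Dp (σ c) n) : n ≤ d + 1 := by
  obtain ⟨δ, e, h | h⟩ := h
  · exact (I.pe _ _ _ _ h).2.2.1
  · exact (I.ac _ _ _ _ h).2.2.1.trans (Nat.le_succ _)

theorem Iv.step {η : V → Bool} {P : Cl → Fin 4 → E → ℕ → Prop}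
    (hP : ∀ c δ e n ch k, P c δ e n → c ∈ S.Bs → S.real c → S.out c δ e η = some ch →
      P (c + dir (δ + tn k)) (δ + tn k) (ch k) (n + 1))
    {σ0 σ : Cl → St E} {d : ℕ} (I : Iv S η P σ0 σ d) {c : Cl} {δ : Fin 4} {e : E} {n : ℕ}
    (hs : S.Sel σ (c, δ, e, n)) : Iv S η P σ0 (S.upd σ c δ e n (S.out c δ e η)) n := by
  obtain ⟨hc, hpe, hmin⟩ := hs
  simp only at hc hpe hmin
  obtain ⟨p1, p2, p3, -, p5⟩ := I.pe _ _ _ _ hpe
  -- the three kinds of cells
  have cs : ∀ x, (x = c ∧ (S.upd σ c δ e n (S.out c δ e η) x = St.de ∨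
      (S.upd σ c δ e n (S.out c δ e η) x = St.ac δ e n ∧ S.out c δ e η ≠ none))) ∨
      (x ≠ c ∧ S.upd σ c δ e n (S.out c δ e η) x = σ x ∧ (S.out c δ e η ≠ none →
        ¬ (S.Clm σ c x ∧ ∃ k, x = c + dir (δ + tn k)))) ∨
      (x ≠ c ∧ S.Clm σ c x ∧ ∃ k ch, S.out c δ e η = some ch ∧ x = c + dir (δ + tn k) ∧
        S.upd σ c δ e n (S.out c δ e η) x = St.pe (δ + tn k) (ch k) (n + 1)) := by
    intro x
    cases ho : S.out c δ e η with
    | none =>
      by_cases h : x = c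
      · exact Or.inl ⟨h, Or.inl (by simp [upd, h])⟩
      · exact Or.inr (Or.inl ⟨h, by rw [upd, update_of_ne h], fun e => absurd rfl e⟩)
    | some ch =>
      by_cases h : x = c
      · exact Or.inl ⟨h, Or.inr ⟨by rw [h, upd_self], by simp⟩⟩
      · by_cases h' : S.Clm σ c x ∧ ∃ k, x = c + dir (δ + tn k)
        · obtain ⟨h', k, rfl⟩ := h'
          exact Or.inr (Or.inr ⟨h, h', k, ch, rfl, rfl, S.upd_child δ e n ch k h'⟩)
        · exact Or.inr (Or.inl ⟨h, S.upd_other δ e n ch h h', fun _ => h'⟩)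
  generalize S.upd σ c δ e n (S.out c δ e η) = τ at cs
  have keep : ∀ x, σ x ≠ St.un → τ x ≠ St.un ∧ ∀ m, Dp (τ x) m → Dp (σ x) m := by
    intro x hx
    rcases cs x with ⟨rfl, a | ⟨a, -⟩⟩ | ⟨-, a, -⟩ | ⟨-, a, -⟩
    · rw [a]; simp [Dp]
    · rw [a, hpe]; simp [Dp]
    · rw [a]; exact ⟨hx, fun _ h => h⟩
    · exact absurd a.2.2 hx
  have top : ∀ x m, Dp (τ x) m → m ≤ n + 1 := by
    intro x m h
    by_cases hx : σ x = St.un
    · rcases cs x with ⟨rfl, -⟩ | ⟨-, a, -⟩ | ⟨-, -, k, ch, -, -, a⟩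
      · rw [hpe] at hx; simp at hx
      · rw [a, hx] at h; simp [Dp] at h
      · rw [a] at h; simp [Dp] at h; omega
    · have := I.dp ((keep x hx).2 m h); omega
  refine ⟨fun x δ' e' m hx => ?_, fun x δ' e' m hx => ?_, fun x hx => ?_⟩
  · rcases cs x with ⟨rfl, a | ⟨a, -⟩⟩ | ⟨-, a, -⟩ | ⟨-, a, k, ch, b1, rfl, b3⟩
    · rw [a] at hx; simp at hx
    · rw [a] at hx; simp at hx
    · rw [a] at hx
      obtain ⟨q1, q2, q3, q4, q5⟩ := I.pe _ _ _ _ hx
      exact ⟨q1, hmin _ _ _ _ q4 hx, by omega, q4, fun h => (keep _ (q5 h)).1⟩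
    · rw [b3] at hx
      obtain ⟨rfl, rfl, rfl⟩ := St.pe.inj hx
      refine ⟨hP _ _ _ _ _ _ p1 hc a.1 b1, by omega, le_rfl, a.2.1, fun _ => (keep _ ?_).1⟩
      rw [add_sub_cancel_right, hpe]; simp
  · rcases cs x with ⟨rfl, a | ⟨a, a'⟩⟩ | ⟨-, a, -⟩ | ⟨-, a, k, ch, b1, rfl, b3⟩
    · rw [a] at hx; simp at hx
    · rw [a] at hx
      obtain ⟨rfl, rfl, rfl⟩ := St.ac.inj hx
      refine ⟨p1, a', le_rfl, fun hr c' hc' hadj => ⟨?_, fun n' h => top _ _ h⟩⟩
      by_cases hu : σ c' = St.un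
      · rcases cs c' with ⟨rfl, -⟩ | ⟨-, -, b⟩ | ⟨-, -, k, ch, -, -, b⟩
        · rw [hpe] at hu; simp at hu
        · rcases adj4_cases hadj δ with h | rfl
          · exact absurd ⟨⟨hr, hc', hu⟩, h⟩ (b a')
          · exact absurd hu (p5 hc')
        · rw [b]; simp
      · exact (keep _ hu).1
    · rw [a] at hx
      obtain ⟨q1, q2, q3, q4⟩ := I.ac _ _ _ _ hx
      refine ⟨q1, q2, by omega, fun hr c' hc' hadj => ?_⟩
      obtain ⟨r1, r2⟩ := q4 hr c' hc' hadj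
      exact ⟨(keep _ r1).1, fun n' h => r2 _ ((keep _ r1).2 _ h)⟩
    · rw [b3] at hx; simp at hx
  · obtain ⟨r1, r2⟩ := I.init x hx
    exact ⟨(keep _ r1).1, fun n' h => r2 _ ((keep _ r1).2 _ h)⟩

theorem run_final {η : V → Bool} {P : Cl → Fin 4 → E → ℕ → Prop}
    (hP : ∀ c δ e n ch k, P c δ e n → c ∈ S.Bs → S.real c → S.out c δ e η = some ch →
      P (c + dir (δ + tn k)) (δ + tn k) (ch k) (n + 1)) {σ0 : Cl → St E} (N : ℕ) :
    ∀ σ d, Iv S η P σ0 σ d → (S.Bs.filter (fun c => Unp (σ c))).card ≤ N →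
      ∃ d, Iv S η P σ0 (S.run N σ η) d ∧ ∀ c δ e n, S.run N σ η c ≠ St.pe δ e n := by
  induction N with
  | zero =>
    intro σ d I h
    refine ⟨d, I, fun c δ e n hc => ?_⟩
    have : c ∈ S.Bs.filter (fun c => Unp (σ c)) :=
      Finset.mem_filter.2 ⟨(I.pe _ _ _ _ hc).2.2.2.1, Or.inr ⟨_, _, _, hc⟩⟩
    have := Finset.card_pos.2 ⟨_, this⟩
    omega
  | succ N ih =>
    intro σ d I h
    rcases S.step_cases σ with ⟨h1, h2⟩ | ⟨c, δ, e, n, h1, h2⟩
    · have : ∀ N, S.run N σ η = σ := by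
        intro N
        induction N with
        | zero => rfl
        | succ N ih => rw [run, h2, ih]
      rw [this]
      exact ⟨d, I, fun c δ e n hc => h1 c δ e n (I.pe _ _ _ _ hc).2.2.2.1 hc⟩
    · rw [run, h2]
      refine ih _ n (I.step hP h1) ?_
      have hc : c ∈ S.Bs.filter (fun c => Unp (σ c)) :=
        Finset.mem_filter.2 ⟨h1.1, Or.inr ⟨_, _, _, h1.2.1⟩⟩
      have := Finset.card_erase_of_mem hc
      refine le_trans (Finset.card_le_card (t := (S.Bs.filter (fun c => Unp (σ c))).erase c)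
        (fun x hx => ?_)) (by omega)
      obtain ⟨a1, a2⟩ := Finset.mem_filter.1 hx
      exact Finset.mem_erase.2 ⟨(unp_upd a2).1, Finset.mem_filter.2 ⟨a1, (unp_upd a2).2⟩⟩

def Ac (τ : Cl → St E) (c : Cl) (n : ℕ) : Prop := ∃ δ e m, τ c = St.ac δ e m ∧ m ≤ n

theorem final_props {η : V → Bool} {P : Cl → Fin 4 → E → ℕ → Prop}
    (hP : ∀ c δ e n ch k, P c δ e n → c ∈ S.Bs → S.real c → S.out c δ e η = some ch →
      P (c + dir (δ + tn k)) (δ + tn k) (ch k) (n + 1)) {σ0 : Cl → St E}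
    (h0 : ∀ c, σ0 c = St.un ∨
      ∃ δ e, σ0 c = St.pe δ e 0 ∧ c ∈ S.Bs ∧ c - dir δ ∉ S.Bs ∧ P c δ e 0) :
    (∀ c, σ0 c ≠ St.un → S.run S.Bs.card σ0 η c ≠ St.de → Ac (S.run S.Bs.card σ0 η) c 0) ∧
    (∀ c c' n, Ac (S.run S.Bs.card σ0 η) c n → S.real c → adj4 c c' → c' ∈ S.Bs →
      S.run S.Bs.card σ0 η c' ≠ St.de → Ac (S.run S.Bs.card σ0 η) c' (n + 1)) ∧
    (∀ c n, Ac (S.run S.Bs.card σ0 η) c n → ∃ δ e m, m ≤ n ∧ P c δ e m ∧ S.out c δ e η ≠ none) := by
  have I0 : Iv S η P σ0 σ0 0 := by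
    refine ⟨fun c δ e n h => ?_, fun c δ e n h => ?_, fun c h => ⟨h, fun n hn => ?_⟩⟩
    · rcases h0 c with a | ⟨δ', e', a1, a2, a3, a4⟩
      · rw [a] at h; simp at h
      · rw [a1] at h
        obtain ⟨rfl, rfl, rfl⟩ := St.pe.inj h
        exact ⟨a4, le_rfl, by omega, a2, fun h => absurd h a3⟩
    · rcases h0 c with a | ⟨δ', e', a, -⟩ <;> rw [a] at h <;> simp at h
    · rcases h0 c with a | ⟨δ', e', a, -⟩ <;> rw [a] at hn <;> simp [Dp] at hn
      exact hn.symm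
  obtain ⟨d, I, hf⟩ := run_final hP S.Bs.card σ0 0 I0 (Finset.card_filter_le _ _)
  generalize S.run S.Bs.card σ0 η = τ at I hf
  have key : ∀ c n, τ c ≠ St.un → τ c ≠ St.de → (∀ m, Dp (τ c) m → m ≤ n) → Ac τ c n := by
    intro c n h1 h2 h3
    cases h : τ c with
    | un => exact absurd h h1
    | de => exact absurd h h2
    | pe δ e m => exact absurd h (hf _ _ _ _)
    | ac δ e m => exact ⟨δ, e, m, h, h3 m ⟨δ, e, Or.inr h⟩⟩
  refine ⟨fun c h1 h2 => key c 0 (I.init c h1).1 h2 (fun m h => ((I.init c h1).2 m h).le),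
    ?_, ?_⟩
  · rintro c c' n ⟨δ, e, m, h1, h2⟩ hr ha hc hd
    obtain ⟨a1, a2⟩ := (I.ac _ _ _ _ h1).2.2.2 hr c' hc ha
    exact key c' _ a1 hd (fun m' h => (a2 m' h).trans (by omega))
  · rintro c n ⟨δ, e, m, h1, h2⟩
    exact ⟨δ, e, m, h2, (I.ac _ _ _ _ h1).1, (I.ac _ _ _ _ h1).2.1⟩

end Sys

end Pool.Agent.P.MP_f475a8_pr
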