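import Pool.Agent.P.MP_f475a8_pr.Main

/-! The almost sure statement. -/

set_option autoImplicit false
open Function Classical MeasureTheory ProbabilityTheory

namespace Pool.Agent.P.MP_f475a8_pr

def AllSeen (ω : P3 → Bool) : Prop :=
  ∀ ξ : ℕ → Bool, ∃ γ : ℕ → P3, Injective γ ∧ adj3 (0, 0, 0) (γ 0) ∧
    (∀ n, adj3 (γ n) (γ (n + 1))) ∧ ∀ n, ω (γ n) = ξ n

noncomputable def RegF (κ w0 u : ℕ) : Finset P3 := DzF (Xp κ w0 u) ((w0 + u) ^ 12 : ℕ)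

theorem mem_RegF {κ w0 u : ℕ} {q : P3} : q ∈ RegF κ w0 u ↔ q ∈ Reg κ w0 u := by
  rw [← Finset.mem_coe, RegF, coe_DzF, Reg]

def SB (κ w0 : ℕ) (ω : P3 → Bool) : Prop := ∀ q ∈ RegF κ w0 0, ω q = col q

theorem Reg_mono0 (κ w0 u : ℕ) : Reg κ w0 0 ⊆ Reg κ w0 u := by
  induction u with
  | zero => exact subset_rfl
  | succ u ih => exact ih.trans (Reg_mono κ w0 u)

theorem SB.good {κ w0 : ℕ} (hb : Big κ w0) {ω : P3 → Bool} (h : SB κ w0 ω) (ξ : ℕ → Bool) :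
    Gd κ w0 0 ξ ω := by
  have hκ : 17 ≤ κ := hb.ok.h1
  have h1 := hb.hX
  have h2 := hb.hY0
  have hN : w0 ^ 9 ≤ NN w0 := by unfold NN; nlinarith [Nat.zero_le (w0 ^ 9)]
  have key : ∀ i < w0 ^ 9, (0 : ℤ) ≤ 3 * (κ * i) + 18 ∧
      3 * (κ * i : ℤ) + 18 ≤ (3 * (κ * w0 ^ 9) : ℕ) := by
    intro i hi
    have : κ * (i + 1) ≤ κ * w0 ^ 9 := Nat.mul_le_mul_left _ hi
    have : 3 * (κ * i) + 18 ≤ 3 * (κ * w0 ^ 9) := by rw [mul_add] at this; omega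
    exact ⟨by positivity, by exact_mod_cast this⟩
  refine ⟨Finset.range (w0 ^ 9), by simp, fun j hj => ⟨(Finset.mem_range.1 hj).trans_le hN,
    Finset.range (w0 ^ 9), ?_, fun i hi => ⟨(Finset.mem_range.1 hi).trans_le hN, ?_⟩⟩⟩
  · rw [Finset.card_range]
    exact Nat.pow_le_pow_right hb.pos (by norm_num)
  · obtain ⟨y, z, l, a1, a2, a3, a4, a5, a6⟩ := switch (X := Xp κ w0 0) (d := 3 * (κ * w0 ^ 9))
      (Y := ((w0 + 0) ^ 12 : ℕ)) le_rfl (by exact_mod_cast h2) (fun q hq => h q (mem_RegF.2 hq)) ξ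
      (key i (Finset.mem_range.1 hi)) (key j (Finset.mem_range.1 hj))
    refine ⟨y, z, ⟨l, a1.trans h1, ?_⟩, ?_⟩
    · simpa [emb, par2, Reg] using a6
    · simp only [par]; omega

theorem Xp_ge (κ w0 u : ℕ) : u + 1 ≤ Xp κ w0 u := by
  induction u with
  | zero => simp only [Xp]; omega
  | succ u ih => simp only [Xp, Par.T]; omega

theorem allSeen_of_good {κ w0 : ℕ} (hw : 1 ≤ w0) {ω : P3 → Bool}
    (h : ∀ ξ u, Gd κ w0 u ξ ω) : AllSeen ω := by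
  intro ξ
  refine konig adj3_finite (fun u => ?_)
  obtain ⟨J, h1, h2⟩ := h ξ u
  obtain ⟨j, hj⟩ := Finset.card_pos.1 ((Nat.pow_pos (by omega)).trans_le h1)
  obtain ⟨I, h3, h4⟩ := (h2 j hj).2
  obtain ⟨i, hi⟩ := Finset.card_pos.1 ((Nat.pow_pos (by omega)).trans_le h3)
  obtain ⟨y, z, ⟨l, -, a⟩, -⟩ := (h4 i hi).2
  refine ⟨l, _, _, ?_, a⟩
  have := a.height (f := fun q => q.1) (fun x y h => by unfold adj3 at h; omega)
  have h5 := Xp_ge κ w0 u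
  generalize par2 u = b at this
  cases b <;> simp only [emb, cond_true, cond_false] at this <;> omega

variable {Ω : Type} [MeasurableSpace Ω] {μ : Measure Ω} [IsProbabilityMeasure μ]

structure Fair (μ : Measure Ω) {V : Type} (X : V → Ω → Bool) : Prop where
  hm : ∀ v, Measurable (X v)
  hi : iIndepFun X μ
  hh : ∀ v, μ {ω | X v ω = true} = 1 / 2

omit [IsProbabilityMeasure μ] in
theorem Fair.comp {V W : Type} {X : V → Ω → Bool} (h : Fair μ X) {g : W → V} (hg : Injective g) :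
    Fair μ (fun w => X (g w)) :=
  ⟨fun _ => h.hm _, h.hi.precomp hg, fun _ => h.hh _⟩

theorem stage_measure {X : P3 → Ω → Bool} (h : Fair μ X) {κ w0 u : ℕ} (hb : Big κ (w0 + u))
    (ξ : ℕ → Bool) :
    μ.real {ω | SB κ w0 (fun v => X v ω) ∧ Gd κ w0 u ξ (fun v => X v ω) ∧
      ¬ Gd κ w0 (u + 1) ξ (fun v => X v ω)} ≤
      (1 / 2) ^ ((w0 + u) ^ 5 * (w0 + u) ^ 9) * (1 / 2) ^ (RegF κ w0 0).card := by
  have sb : ∀ x y : P3 → Bool, (∀ q ∈ Reg κ w0 0, x q = y q) → (SB κ w0 x ↔ SB κ w0 y) :=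
    fun x y e => forall₂_congr (fun q hq => by rw [e q (mem_RegF.1 hq)])
  have gd : ∀ u, ∀ x y : P3 → Bool, (∀ q ∈ Reg κ w0 u, x q = y q) →
      (Gd κ w0 u ξ x ↔ Gd κ w0 u ξ y) := fun u x y e =>
    ⟨fun g => g.congr e (fun _ _ => rfl), fun g => g.congr (fun q hq => (e q hq).symm)
      (fun _ _ => rfl)⟩
  rw [measure_eq_Ex μ X h.hm h.hi h.hh (RegF κ w0 (u + 1))
    (fun x => SB κ w0 x ∧ Gd κ w0 u ξ x ∧ ¬ Gd κ w0 (u + 1) ξ x) (fun x y e => by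
      have e' : ∀ q ∈ Reg κ w0 (u + 1), x q = y q := fun q hq => e q (mem_RegF.2 hq)
      beta_reduce
      rw [sb x y (fun q hq => e' q (Reg_mono0 _ _ _ hq)),
        gd u x y (fun q hq => e' q (Reg_mono _ _ _ hq)), gd _ x y e']) (fun _ => true)]
  refine (Ex_le_of_sub (A := Rn κ w0 u) (fun q hq => mem_RegF.2 (Rn_facts hb hq).1)
    (g := fun x => (1 / 2) ^ ((w0 + u) ^ 5 * (w0 + u) ^ 9) *
      if ∀ q ∈ RegF κ w0 0, x q = col q then 1 else 0) (fun x => ?_) _).trans ?_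
  · have off : ∀ η : P3 → Bool, (∀ a, a ∉ Rn κ w0 u → η a = x a) →
        ∀ q ∈ Reg κ w0 u, η q = x q := fun η hη q hq => hη q (fun e => by
      have := (Rn_facts hb e).2
      have := hq.2.1
      omega)
    by_cases g : SB κ w0 x ∧ Gd κ w0 u ξ x
    · rw [if_pos (show ∀ q ∈ RegF κ w0 0, x q = col q from g.1), mul_one]
      exact (Ex_mono (fun η => ite_le_ite_of_imp (fun e => e.2.2)) x).trans (g.2.step hb)
    · refine Ex_le_const (fun η hη => ?_)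
      rw [if_neg (fun e => g ⟨(sb _ _ (fun q hq => off η hη q (Reg_mono0 _ _ _ hq))).1 e.1,
        (gd u _ _ (off η hη)).1 e.2.1⟩)]
      split_ifs <;> positivity
  · rw [Ex_mul]
    refine mul_le_mul_of_nonneg_left (Ex_le_const_of_sub (A := RegF κ w0 0)
      (fun q hq => mem_RegF.2 (Reg_mono0 _ _ _ (mem_RegF.1 hq))) (fun x => ?_) _) (by positivity)
    exact (Ex_all_eq _ _ _).le

theorem words_measure {X : P3 → Ω → Bool} (h : Fair μ X) {κ w0 u : ℕ} (hb : Big κ (w0 + u)) :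
    μ.real {ω | SB κ w0 (fun v => X v ω) ∧ ∃ ξ, Gd κ w0 u ξ (fun v => X v ω) ∧
      ¬ Gd κ w0 (u + 1) ξ (fun v => X v ω)} ≤
      (1 / 2) ^ (w0 + u) * (1 / 2) ^ (RegF κ w0 0).card := by
  obtain ⟨L, hL⟩ : ∃ L, L = (w0 + u + 1) ^ 13 + 1 := ⟨_, rfl⟩
  obtain ⟨ze, hz⟩ : ∃ ze : (Fin L → Bool) → ℕ → Bool, ∀ ξ : ℕ → Bool, ∀ i < L,
      ze (fun j => ξ j) i = ξ i :=
    ⟨fun σ i => if h : i < L then σ ⟨i, h⟩ else false, fun ξ i hi => by simp [hi]⟩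
  refine le_trans (measureReal_mono (s₂ := ⋃ σ : Fin L → Bool, {ω | SB κ w0 (fun v => X v ω) ∧
    Gd κ w0 u (ze σ) (fun v => X v ω) ∧ ¬ Gd κ w0 (u + 1) (ze σ) (fun v => X v ω)}) ?_) ?_
  · rintro ω ⟨h1, ξ, h2, h3⟩
    have : (w0 + u) ^ 13 ≤ (w0 + u + 1) ^ 13 := Nat.pow_le_pow_left (by omega) 13
    refine Set.mem_iUnion.2 ⟨fun j => ξ j, h1, h2.congr (fun _ _ => rfl)
      (fun i hi => (hz ξ i (by omega)).symm), fun e => h3 (e.congr (fun _ _ => rfl)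
      (fun i hi => hz ξ i (by rw [hL]; exact Nat.lt_succ_of_le hi)))⟩
  · refine (measureReal_iUnion_fintype_le _).trans
      ((Finset.sum_le_sum (fun σ _ => stage_measure h hb (ze σ))).trans ?_)
    rw [Finset.sum_const, nsmul_eq_mul, ← mul_assoc]
    refine mul_le_mul_of_nonneg_right ?_ (by positivity)
    have h1 := pow_le_pow_of_le_one (a := (1 / 2 : ℝ)) (by norm_num) (by norm_num) hb.hL
    rw [← hL, pow_add] at h1
    simp only [Finset.card_univ, Fintype.card_fun, Fintype.card_bool, Fintype.card_fin]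
    refine (mul_le_mul_of_nonneg_left h1 (by positivity)).trans (le_of_eq ?_)
    rw [← mul_assoc]
    push_cast
    rw [← mul_pow]; norm_num

theorem fail_measure {X : P3 → Ω → Bool} (h : Fair μ X) {κ w0 : ℕ} (hb : ∀ u, Big κ (w0 + u)) :
    μ.real {ω | SB κ w0 (fun v => X v ω) ∧ ¬ AllSeen (fun v => X v ω)} ≤
      2 * (1 / 2) ^ w0 * (1 / 2) ^ (RegF κ w0 0).card := by
  have hs : HasSum (fun u : ℕ => (1 / 2 : ℝ) ^ (w0 + u) * (1 / 2) ^ (RegF κ w0 0).card)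
      (2 * (1 / 2) ^ w0 * (1 / 2) ^ (RegF κ w0 0).card) := by
    have := (hasSum_geometric_two.mul_left ((1 / 2 : ℝ) ^ w0)).mul_right
      ((1 / 2) ^ (RegF κ w0 0).card)
    simpa only [pow_add, mul_comm _ (2 : ℝ)] using this
  refine ENNReal.toReal_le_of_le_ofReal (by positivity) ?_
  rw [← hs.tsum_eq, ENNReal.ofReal_tsum_of_nonneg (fun _ => by positivity) hs.summable]
  refine le_trans (measure_mono (t := ⋃ u : ℕ, {ω | SB κ w0 (fun v => X v ω) ∧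
    ∃ ξ, Gd κ w0 u ξ (fun v => X v ω) ∧ ¬ Gd κ w0 (u + 1) ξ (fun v => X v ω)}) ?_)
    ((measure_iUnion_le _).trans (ENNReal.tsum_le_tsum (fun u => ?_)))
  · rintro ω ⟨h1, h2⟩
    by_contra hc
    refine h2 (allSeen_of_good (κ := κ) (hb 0).pos (fun ξ u => ?_))
    induction u with
    | zero => exact h1.good (hb 0) ξ
    | succ u ih =>
      by_contra e
      exact hc (Set.mem_iUnion.2 ⟨u, h1, ξ, ih, e⟩)
  · rw [← ofReal_measureReal]
    exact ENNReal.ofReal_le_ofReal (words_measure h (hb u))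

theorem none_measure {X : P3 → Ω → Bool} (h : Fair μ X) (κ w0 I : ℕ) :
    μ.real {ω | ∀ i ∈ Finset.range I, ¬ SB κ w0
      (fun v => X (((0 : ℤ), (i * (2 * w0 ^ 12 + 1) : ℤ), (0 : ℤ)) + v) ω)} ≤
      (1 - (1 / 2) ^ (RegF κ w0 0).card) ^ I := by
  obtain ⟨τ, hτ⟩ : ∃ τ : ℕ → P3 → P3, ∀ i v, τ i v =
    ((0 : ℤ), (i * (2 * w0 ^ 12 + 1) : ℤ), (0 : ℤ)) + v := ⟨_, fun _ _ => rfl⟩
  have inj : ∀ i, Injective (τ i) := fun i x y e => by
    rw [hτ, hτ] at e; exact add_left_cancel e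
  have dep : ∀ i, ∀ x y : P3 → Bool, (∀ a ∈ (RegF κ w0 0).image (τ i), x a = y a) →
      (SB κ w0 (x ∘ τ i) ↔ SB κ w0 (y ∘ τ i)) := fun i x y e =>
    forall₂_congr (fun q hq => by
      rw [comp_apply, comp_apply, e _ (Finset.mem_image_of_mem _ hq)])
  simp only [← hτ]
  have := measure_eq_Ex μ X h.hm h.hi h.hh
    ((Finset.range I).biUnion (fun i => (RegF κ w0 0).image (τ i)))
    (fun x => ∀ i ∈ Finset.range I, ¬ SB κ w0 (x ∘ τ i)) (fun x y e => propext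
      (forall₂_congr (fun i hi => not_congr (dep i x y (fun a ha => e a
        (Finset.mem_coe.2 (Finset.mem_biUnion.2 ⟨i, hi, ha⟩))))))) (fun _ => true)
  refine this.trans_le ?_
  simp only [← Finset.prod_boole]
  conv_rhs => rw [← Finset.card_range I, ← Finset.prod_const]
  refine Ex_prod_le _ _ _ _ (fun i _ j _ e => ⟨(RegF κ w0 0).image (τ i), fun x y hxy =>
    if_congr (not_congr (dep i x y hxy)) rfl rfl, fun v h1 h2 => ?_⟩)
    (fun i _ x => by split_ifs <;> norm_num) (fun i _ x => ?_) _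
  · obtain ⟨a, ha, rfl⟩ := Finset.mem_image.1 (Finset.mem_coe.1 h1)
    obtain ⟨b, hb, e'⟩ := Finset.mem_image.1 h2
    rw [mem_RegF] at ha hb
    simp only [Reg, Dz, Set.mem_ofPred_eq, add_zero, Nat.cast_pow] at ha hb
    rw [hτ, hτ] at e'
    have e2 := congrArg (fun q : P3 => q.2.1) e'
    simp only [Prod.snd_add, Prod.fst_add] at e2
    have key : ∀ i j : ℕ, i < j → (i * (2 * w0 ^ 12 + 1) : ℤ) + (2 * w0 ^ 12 + 1) ≤
        j * (2 * w0 ^ 12 + 1) := by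
      intro i j h
      have : (i + 1) * (2 * w0 ^ 12 + 1) ≤ j * (2 * w0 ^ 12 + 1) := Nat.mul_le_mul_right _ h
      rw [add_mul, one_mul] at this
      exact_mod_cast this
    rcases lt_or_gt_of_ne e with e | e <;> have := key _ _ e <;> omega
  · have h1 := Ex_map (inj i) (RegF κ w0 0) (fun y => 1 + (-1) *
      if ∀ q ∈ RegF κ w0 0, y q = col q then (1 : ℝ) else 0) x
    rw [Ex_add (RegF κ w0 0), Ex_mul, Ex_const, Ex_all_eq] at h1
    refine le_trans (le_of_eq (Ex_congr_of (fun y _ => ?_))) (h1.le.trans (le_of_eq (by ring)))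
    by_cases g : SB κ w0 (y ∘ τ i)
    · rw [if_neg (not_not.2 g), if_pos (show ∀ q ∈ RegF κ w0 0, (y ∘ τ i) q = col q from g)]; ring
    · rw [if_pos g, if_neg (show ¬ ∀ q ∈ RegF κ w0 0, (y ∘ τ i) q = col q from g)]; ring

theorem main_P3 {X : P3 → Ω → Bool} (h : Fair μ X) :
    ∀ᵐ ω ∂μ, ∃ v : P3, AllSeen (fun q => X (v + q) ω) := by
  obtain ⟨κ, k1, k2⟩ := exists_kappa
  obtain ⟨w1, hw1⟩ := eventually_big k1 k2
  rw [ae_iff, ← measureReal_eq_zero_iff]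
  refine le_antisymm (le_of_forall_pos_le_add (fun ε hε => ?_)) measureReal_nonneg
  obtain ⟨Λ, hΛ⟩ := exists_nat_gt (2 / ε)
  have Λ0 : (0 : ℝ) < Λ := lt_trans (by positivity) hΛ
  obtain ⟨n, hn⟩ := exists_pow_lt_of_lt_one (x := ε / (4 * Λ)) (y := (1 / 2 : ℝ)) (by positivity)
    (by norm_num)
  obtain ⟨w0, hw0, hw⟩ : ∃ w0, w1 ≤ w0 ∧ (1 / 2 : ℝ) ^ w0 ≤ ε / (4 * Λ) :=
    ⟨w1 + n, by omega, (pow_le_pow_of_le_one (by norm_num) (by norm_num) (by omega)).trans hn.le⟩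
  obtain ⟨c, hc⟩ : ∃ c, c = (RegF κ w0 0).card := ⟨_, rfl⟩
  have h1 := none_measure h κ w0 (Λ * 2 ^ c)
  have h2 := fun i : ℕ => fail_measure (h.comp (add_right_injective
    (((0 : ℤ), (i * (2 * w0 ^ 12 + 1) : ℤ), (0 : ℤ)) : P3))) (κ := κ) (w0 := w0)
    (fun u => hw1 _ (by omega))
  rw [← hc] at h1 h2
  refine le_trans (measureReal_mono (s₂ := _ ∪ ⋃ i ∈ Finset.range (Λ * 2 ^ c), _) ?_)
    ((measureReal_union_le _ _).trans ((add_le_add h1 ((measureReal_biUnion_finset_le _ _).trans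
      (Finset.sum_le_sum (fun i _ => h2 i)))).trans ?_))
  · intro ω hω
    by_contra e
    rw [Set.mem_union, not_or] at e
    obtain ⟨e1, e2⟩ := e
    simp only [Set.mem_ofPred_eq, not_forall, not_not] at e1
    obtain ⟨i, hi, e1⟩ := e1
    exact e2 (Set.mem_biUnion hi ⟨e1, fun g => hω ⟨_, g⟩⟩)
  · have q : ((Λ * 2 ^ c : ℕ) : ℝ) * (1 / 2) ^ c = Λ := by
      push_cast
      rw [mul_assoc, ← mul_pow]; norm_num
    have q1 : (1 / 2 : ℝ) ^ c ≤ 1 := pow_le_one₀ (by norm_num) (by norm_num)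
    have a1 : (1 - (1 / 2 : ℝ) ^ c) ^ (Λ * 2 ^ c) ≤ ε / 2 := by
      have b1 : 1 - (1 / 2 : ℝ) ^ c ≤ Real.exp (-(1 / 2 : ℝ) ^ c) := by
        have := Real.add_one_le_exp (-(1 / 2 : ℝ) ^ c); linarith
      refine (pow_le_pow_left₀ (by linarith) b1 _).trans ?_
      rw [← Real.exp_nat_mul, mul_neg, q, Real.exp_neg]
      have := Real.add_one_le_exp (Λ : ℝ)
      rw [inv_le_comm₀ (Real.exp_pos _) (by positivity), inv_div]
      linarith
    rw [Finset.sum_const, Finset.card_range, nsmul_eq_mul, zero_add]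
    have a2 : ((Λ * 2 ^ c : ℕ) : ℝ) * (2 * (1 / 2) ^ w0 * (1 / 2) ^ c) = 2 * Λ * (1 / 2) ^ w0 := by
      conv_rhs => rw [← q]
      ring
    rw [le_div_iff₀ (by positivity)] at hw
    rw [a2]
    linarith

theorem main_thm (X : (Fin 3 → ℤ) → Ω → Bool) (h : Fair μ X) :
    ∀ᵐ ω ∂μ, ∃ v : Fin 3 → ℤ, ∀ ξ : ℕ → Bool, ∃ u : Fin 3 → ℤ, (∑ i, |u i - v i| = 1) ∧
      ∃ γ : ℕ → Fin 3 → ℤ, Function.Injective γ ∧ γ 0 = u ∧
        (∀ n, ∑ i, |γ (n + 1) i - γ n i| = 1) ∧ ∀ n, X (γ n) ω = ξ n := by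
  obtain ⟨φ, hφ⟩ : ∃ φ : P3 → Fin 3 → ℤ, ∀ q, φ q = ![q.1, q.2.1, q.2.2] := ⟨_, fun _ => rfl⟩
  have inj : Injective φ := by
    intro x y e
    rw [hφ, hφ] at e
    exact Prod.ext (congrFun e 0) (Prod.ext (congrFun e 1) (congrFun e 2))
  have ad : ∀ v p q : P3, adj3 p q → ∑ i, |φ (v + q) i - φ (v + p) i| = 1 := by
    intro v p q e
    simp only [hφ, Fin.sum_univ_three, Matrix.cons_val_zero, Matrix.cons_val_one, Matrix.cons_val,
      Prod.fst_add, Prod.snd_add, add_sub_add_left_eq_sub]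
    rcases e with ⟨e | e, a, b⟩ | ⟨a, e | e, b⟩ | ⟨a, b, e | e⟩ <;> rw [e, a, b] <;> simp
  filter_upwards [main_P3 (h.comp inj)] with ω ⟨v, hv⟩
  refine ⟨φ (v + (0, 0, 0)), fun ξ => ?_⟩
  obtain ⟨γ, h1, h2, h3, h4⟩ := hv ξ
  exact ⟨_, ad v _ _ h2, fun n => φ (v + γ n), inj.comp ((add_right_injective v).comp h1), rfl,
    fun n => ad v _ _ (h3 n), h4⟩

end Pool.Agent.P.MP_f475a8_pr
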