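import Pool.Agent.P.MP_f475a8_pr.Params

/-! The multi-scale argument and the union bound over words. -/

set_option autoImplicit false
open Function Classical MeasureTheory ProbabilityTheory

namespace Pool.Agent.P.MP_f475a8_pr

theorem konig {V : Type} {adj : V → V → Prop} (hfin : ∀ x, {y | adj x y}.Finite) {v : V}
    {ω : V → Bool} {ξ : ℕ → Bool} (h : ∀ n, ∃ l B x, n ≤ l ∧ Seen adj v ω ξ B x l) :
    ∃ γ : ℕ → V, Injective γ ∧ adj v (γ 0) ∧ (∀ n, adj (γ n) (γ (n + 1))) ∧ ∀ n, ω (γ n) = ξ n := by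
  choose l B x h1 h2 using h
  choose g a1 _ a3 a4 a5 using fun n => (h2 n).path
  have big : ∀ i, ∀ᶠ n in (Filter.hyperfilter ℕ : Filter ℕ), i ≤ l n := fun i =>
    Nat.hyperfilter_le_atTop ((Filter.eventually_ge_atTop i).mono (fun n hn => hn.trans (h1 n)))
  have pick : ∀ (i : ℕ) (y : V), (∀ᶠ n in (Filter.hyperfilter ℕ : Filter ℕ), adj y (g n i)) →
      ∃ z, ∀ᶠ n in (Filter.hyperfilter ℕ : Filter ℕ), g n i = z := by
    intro i y hy
    have : (⋃ z ∈ {z | adj y z}, {n | g n i = z}) ∈ Filter.hyperfilter ℕ :=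
      Filter.mem_of_superset hy (fun n hn => Set.mem_biUnion (x := g n i) hn rfl)
    obtain ⟨z, -, hz⟩ := (Ultrafilter.finite_biUnion_mem_iff (hfin y)).1 this
    exact ⟨z, hz⟩
  have ex : ∀ i, ∃ z, ∀ᶠ n in (Filter.hyperfilter ℕ : Filter ℕ), g n i = z := by
    intro i
    induction i with
    | zero => exact pick 0 v (Filter.Eventually.of_forall a1)
    | succ i ih =>
      obtain ⟨y, hy⟩ := ih
      exact pick _ y ((hy.and (big (i + 1))).mono (fun n hn => hn.1 ▸ a3 n i hn.2))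
  choose γ hγ using ex
  refine ⟨γ, fun i j e => ?_, ?_, fun i => ?_, fun i => ?_⟩
  · obtain ⟨n, ⟨b1, b2⟩, b3, b4⟩ := (((hγ i).and (hγ j)).and ((big i).and (big j))).exists
    rcases lt_trichotomy i j with h | h | h
    · exact absurd (b1.trans (e.trans b2.symm)) (a5 n i j h b4)
    · exact h
    · exact absurd (b2.trans (e.symm.trans b1.symm)) (a5 n j i h b3)
  · obtain ⟨n, b⟩ := (hγ 0).exists
    exact b ▸ a1 n
  · obtain ⟨n, ⟨b1, b2⟩, b3⟩ := (((hγ i).and (hγ (i + 1))).and (big (i + 1))).exists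
    exact b1 ▸ b2 ▸ a3 n i b3
  · obtain ⟨n, b1, b2⟩ := ((hγ i).and (big i)).exists
    exact b1 ▸ (a4 n i b2).2

theorem adj3_finite (x : P3) : {y | adj3 x y}.Finite := by
  refine (Par.box (x.1 - 1) (x.1 + 2) (x.2.1 - 1) (x.2.1 + 2) (x.2.2 - 1)
    (x.2.2 + 2)).finite_toSet.subset (fun y hy => ?_)
  simp only [Set.mem_ofPred_eq, adj3] at hy
  simp only [Finset.mem_coe, Par.mem_box]
  omega

def emb (X : ℤ) (b : Bool) (v : P3) : P3 :=
  cond b (X + v.1, v.2.2, v.2.1) (X + v.1, v.2.1, v.2.2)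

theorem emb_inj (X : ℤ) (b : Bool) : Injective (emb X b) := by
  intro x y e
  cases b <;> simp only [emb, cond_true, cond_false, Prod.ext_iff] at e ⊢ <;> omega

theorem emb_adj (X : ℤ) (b : Bool) (x y : P3) (h : adj3 x y) : adj3 (emb X b x) (emb X b y) := by
  cases b <;> simp only [emb, cond_true, cond_false, adj3] at h ⊢ <;> omega

def Xp (κ w0 : ℕ) : ℕ → ℕ
  | 0 => 9 * (3 * (κ * w0 ^ 9)) + 19
  | u + 1 => Xp κ w0 u + 3 * (par κ (w0 + u)).T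

def par2 : ℕ → Bool
  | 0 => false
  | u + 1 => !par2 u

noncomputable def DzF (X Y : ℤ) : Finset P3 := Par.box 0 (X + 1) (-Y) (Y + 1) (-Y) (Y + 1)

theorem coe_DzF (X Y : ℤ) : (DzF X Y : Set P3) = Dz X Y := by
  ext q
  simp only [DzF, Dz, Finset.mem_coe, Par.mem_box, Set.mem_ofPred_eq]
  omega

def Reg (κ w0 u : ℕ) : Set P3 := Dz (Xp κ w0 u) ((w0 + u) ^ 12 : ℕ)

def Gd (κ w0 u : ℕ) (ξ : ℕ → Bool) (ω : P3 → Bool) : Prop :=
  (par κ (w0 + u)).Dense ((w0 + u) ^ 9) ((w0 + u) ^ 8) (NN (w0 + u)) (fun y z =>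
    ∃ l ≤ (w0 + u) ^ 13, Seen adj3 (0, 0, 0) ω ξ (Reg κ w0 u)
      (emb (Xp κ w0 u) (par2 u) (0, y, z)) l)

theorem Dense_mono {p : Par} {M m N : ℕ} {S S' : ℤ → ℤ → Prop} (h : ∀ y z, S y z → S' y z)
    (H : p.Dense M m N S) : p.Dense M m N S' := by
  obtain ⟨J, h1, h2⟩ := H
  refine ⟨J, h1, fun j hj => ⟨(h2 j hj).1, ?_⟩⟩
  obtain ⟨I, h3, h4⟩ := (h2 j hj).2
  refine ⟨I, h3, fun i hi => ⟨(h4 i hi).1, ?_⟩⟩
  obtain ⟨y, z, a, b⟩ := (h4 i hi).2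
  exact ⟨y, z, h y z a, b⟩

theorem Gd.congr {κ w0 u : ℕ} {ξ ξ' : ℕ → Bool} {ω ω' : P3 → Bool} (H : Gd κ w0 u ξ ω)
    (h1 : ∀ y ∈ Reg κ w0 u, ω y = ω' y) (h2 : ∀ i ≤ (w0 + u) ^ 13, ξ i = ξ' i) :
    Gd κ w0 u ξ' ω' :=
  Dense_mono (fun _ _ ⟨l, a, b⟩ => ⟨l, a, b.congr h1 (fun i hi => h2 i (hi.trans a))⟩) H

noncomputable def Rn (κ w0 u : ℕ) : Finset P3 :=
  (par κ (w0 + u)).Rst.image (emb (Xp κ w0 u) (par2 u))

theorem Reg_mono (κ w0 u : ℕ) : Reg κ w0 u ⊆ Reg κ w0 (u + 1) := by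
  intro q hq
  have : (w0 + u) ^ 12 ≤ (w0 + (u + 1)) ^ 12 := Nat.pow_le_pow_left (by omega) 12
  simp only [Reg, Dz, Set.mem_ofPred_eq, Xp] at hq ⊢
  omega

theorem Rn_facts {κ w0 u : ℕ} (hb : Big κ (w0 + u)) {q : P3} (hq : q ∈ Rn κ w0 u) :
    q ∈ Reg κ w0 (u + 1) ∧ (Xp κ w0 u : ℤ) < q.1 := by
  obtain ⟨v, hv, rfl⟩ := Finset.mem_image.1 hq
  have h1 : (w0 + u) ^ 12 ≤ (w0 + (u + 1)) ^ 12 := Nat.pow_le_pow_left (by omega) 12
  have h2 := hb.hY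
  have h3 : ((κ * NN (w0 + u + 1) : ℕ) : ℤ) = κ * NN (w0 + u + 1) := by push_cast; rfl
  simp only [Par.Rst, Par.mem_box] at hv
  simp only [Reg, Dz, Set.mem_ofPred_eq, Xp]
  generalize (par κ (w0 + u)).T = T at *
  simp only [par, ← h3] at hv
  cases par2 u <;> simp only [emb, cond_true, cond_false] <;> omega

theorem ite_le_ite_of_imp {p q : Prop} [Decidable p] [Decidable q] (h : p → q) :
    (if p then (1 : ℝ) else 0) ≤ if q then 1 else 0 := by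
  split_ifs with h1 h2
  · exact le_rfl
  · exact absurd (h h1) h2
  · norm_num
  · exact le_rfl

theorem Gd.step {κ w0 u : ℕ} (hb : Big κ (w0 + u)) {ξ : ℕ → Bool} {ω0 : P3 → Bool}
    (H : Gd κ w0 u ξ ω0) :
    Ex (Rn κ w0 u) (fun ω => if ¬ Gd κ w0 (u + 1) ξ ω then 1 else 0) ω0 ≤
      (1 / 2) ^ ((w0 + u) ^ 5 * (w0 + u) ^ 9) := by
  have h1 := bfs (adj := adj3) (v := (0, 0, 0)) (ξ := ξ) (R := Rn κ w0 u) (A := Reg κ w0 u)
    (fun x hx e => by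
      have := (Rn_facts hb e).2
      have := hx.2.1
      omega) ((w0 + u) ^ 13) (par κ (w0 + u)).tt ω0
    (fun T => (par κ (w0 + u)).Dense ((w0 + u + 1) ^ 9) ((w0 + u + 1) ^ 8) (NN (w0 + u + 1))
      (fun a b => T (emb (Xp κ w0 u) (par2 u) (3 * (par κ (w0 + u)).T, b, a))))
    (fun T T' h => Dense_mono (fun _ _ => h _))
  have h2 := hb.ok.stage (M' := (w0 + u + 1) ^ 9) (m' := (w0 + u + 1) ^ 8)
    (θ := (1 / 2) ^ ((w0 + u) ^ 5 + 1)) (show NN (w0 + u) ≤ NN (w0 + u + 1) from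
      Nat.mul_le_mul (Nat.mul_le_mul_left _ (Nat.pow_le_pow_left (by omega) 9)) (by omega))
    hb.hr le_rfl hb.hm (by positivity) (pow_le_one₀ (by norm_num) (by norm_num)) hb.hθ H
    (ω0 ∘ emb (Xp κ w0 u) (par2 u))
  rw [← Ex_map (emb_inj _ _), show 2 * (1 / 2 : ℝ) ^ ((w0 + u) ^ 5 + 1) = (1 / 2) ^ ((w0 + u) ^ 5)
    by rw [pow_succ]; ring, ← pow_mul] at h2
  refine (Ex_mono (fun ω => ?_) ω0).trans (h1.trans ((Ex_mono (fun η => ?_) ω0).trans h2))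
  · refine ite_le_ite_of_imp (fun g e => g ?_)
    refine Dense_mono (fun y z ⟨l, a, b⟩ => ⟨l, a.trans hb.tt, ?_⟩) e
    convert b.mono (Set.union_subset (Reg_mono κ w0 u) (fun q hq => (Rn_facts hb hq).1)) using 1
    simp only [par2, Xp]
    cases par2 u <;> simp [emb]
  · refine ite_le_ite_of_imp (fun g e => g ?_)
    refine Dense_mono (fun y z h => ?_) e
    refine Conn.map (emb (Xp κ w0 u) (par2 u)) (emb_adj _ _) (fun x hx => ?_)
      (fun x hx => ⟨Finset.mem_image_of_mem _ hx, id⟩) h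
    rw [show x = (0, x.2.1, x.2.2) from Prod.ext hx.1 rfl]
    exact hx.2

end Pool.Agent.P.MP_f475a8_pr
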