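import Pool.Agent.P.MP_f475a8_pr.Switch

/-! The choice of the parameters. -/

set_option autoImplicit false
open Filter Topology

namespace Pool.Agent.P.MP_f475a8_pr

def NN (w : ℕ) : ℕ := 4 * w ^ 9 * (2 * w + 2)

def par (κ w : ℕ) : Par := ⟨κ, w, w ^ 5 + 2, NN (w + 1), 4 * (w + 1) ^ 9⟩

structure Big (κ w : ℕ) : Prop where
  ok : (par κ w).Ok
  tt : w ^ 13 + (par κ w).tt ≤ (w + 1) ^ 13
  hr : (par κ w).G * w ^ 6 ≤ w ^ 8
  hm : 8 * (w + 1) ^ 8 ≤ w ^ 9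
  hθ : (1 - Par.q0 κ / 2) ^ (w ^ 6) + (1 / 16) ^ (w ^ 5 + 2) + (1 / 2) ^ (4 * (w + 1) ^ 9) ≤
    ((1 / 2 : ℝ) ^ (w ^ 5 + 1)) ^ 2
  hL : (w + 1) ^ 13 + 1 + w ≤ w ^ 5 * w ^ 9
  hY : 3 * (κ * NN (w + 1) + w) ≤ w ^ 12
  hX : 9 * (9 * (3 * (κ * w ^ 9)) + 19) ≤ w ^ 13
  hY0 : 2 * (3 * (κ * w ^ 9)) + 20 ≤ w ^ 12
  pos : 1 ≤ w

theorem exists_kappa : ∃ κ : ℕ, 17 ≤ κ ∧ 320 * (100 * lam ^ (κ - 3)) ≤ 1 / 32 := by
  obtain ⟨n, hn⟩ := exists_pow_lt_of_lt_one (x := (1 / 1024000 : ℝ)) (y := lam) (by norm_num)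
    (by unfold lam; norm_num)
  refine ⟨n + 17, by omega, ?_⟩
  have := pow_le_pow_of_le_one (a := lam) (by unfold lam; norm_num) (by unfold lam; norm_num)
    (show n ≤ n + 17 - 3 by omega)
  linarith

theorem eventually_big {κ : ℕ} (h1 : 17 ≤ κ) (h2 : 320 * (100 * lam ^ (κ - 3)) ≤ 1 / 32) :
    ∃ w1 : ℕ, ∀ w, w1 ≤ w → Big κ w := by
  have l0 : 0 < lam := by unfold lam; norm_num
  have e1 : ∀ᶠ w : ℕ in atTop, (w : ℝ) ^ 11 * lam ^ w < 1 / 20480 :=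
    (tendsto_pow_const_mul_const_pow_of_abs_lt_one 11 (r := lam)
      (by rw [abs_of_pos l0]; unfold lam; norm_num)).eventually (gt_mem_nhds (by norm_num))
  obtain ⟨a, ha⟩ := eventually_atTop.1 e1
  have q0 : 0 < Par.q0 κ := by unfold Par.q0; positivity
  have q1 : Par.q0 κ ≤ 1 := by unfold Par.q0; exact pow_le_one₀ (by norm_num) (by norm_num)
  obtain ⟨b, hb⟩ := exists_nat_ge (12 / Par.q0 κ)
  refine ⟨max (max a b) (4000000 * κ + 10000), fun w hw => ?_⟩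
  have wa : a ≤ w := (le_max_left _ _).trans ((le_max_left _ _).trans hw)
  have wb : b ≤ w := (le_max_right _ _).trans ((le_max_left _ _).trans hw)
  have wc : 4000000 * κ + 10000 ≤ w := (le_max_right _ _).trans hw
  have w1 : 1 ≤ w := by omega
  have m : ∀ i j, i ≤ j → w ^ i ≤ w ^ j := fun i j h => Nat.pow_le_pow_right w1 h
  have up : ∀ c i, c ≤ w → c * w ^ i ≤ w ^ (i + 1) := fun c i h => by
    rw [pow_succ']; exact Nat.mul_le_mul_right _ h
  have s : ∀ i, (w + 1) ^ i ≤ 2 ^ i * w ^ i := fun i => by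
    rw [← mul_pow]; exact Nat.pow_le_pow_left (by omega) i
  have m1 : ∀ i, 1 ≤ w ^ i := fun i => Nat.one_le_pow _ _ w1
  have mw : ∀ i, 1 ≤ i → w ≤ w ^ i := fun i h => by simpa using m 1 i h
  have hT : (par κ w).T ≤ w ^ 7 := by
    have h3 : (w ^ 5 + 2) * (w + 1) ≤ (3 * w ^ 5) * (2 * w) :=
      Nat.mul_le_mul (by have := m1 5; omega) (by omega)
    have h4 : (3 * w ^ 5) * (2 * w) = 6 * w ^ 6 := by ring
    have : 7 * w ^ 6 ≤ w ^ 7 := up 7 6 (by omega)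
    have := m1 6
    simp only [Par.T, par]; omega
  have hN : NN (w + 1) ≤ 12288 * w ^ 10 := by
    have h3 : 4 * (w + 1) ^ 9 * (2 * (w + 1) + 2) ≤ 4 * (2 ^ 9 * w ^ 9) * (6 * w) :=
      Nat.mul_le_mul (Nat.mul_le_mul_left _ (s 9)) (by omega)
    have h4 : 4 * (2 ^ 9 * w ^ 9) * (6 * w) = 12288 * w ^ 10 := by ring
    unfold NN; omega
  have hκ : ∀ i, κ ≤ κ * w ^ i := fun i => Nat.le_mul_of_pos_right _ (m1 i)
  have hκ' : ∀ i, w ^ i ≤ κ * w ^ i := fun i => Nat.le_mul_of_pos_left _ (by omega)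
  have hκN : κ * NN (w + 1) ≤ 12288 * (κ * w ^ 10) := by
    have := Nat.mul_le_mul_left κ hN
    linarith
  have u10 : 4000000 * (κ * w ^ 10) ≤ w ^ 11 := by
    rw [← mul_assoc]; exact up _ _ (by omega)
  have u11 : 4000000 * (κ * w ^ 11) ≤ w ^ 12 := by
    rw [← mul_assoc]; exact up _ _ (by omega)
  have u9 : 4000000 * (κ * w ^ 9) ≤ w ^ 10 := by
    rw [← mul_assoc]; exact up _ _ (by omega)
  have hH : κ * NN (w + 1) + 2 * w ≤ 12290 * (κ * w ^ 10) := by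
    have := mw 10 (by norm_num); have := hκ' 10; omega
  refine ⟨⟨h1, by simp only [par]; omega, by simp only [par]; omega, ?_, ?_⟩, ?_, ?_, ?_, ?_, ?_,
    ?_, ?_, ?_, w1⟩
  · simp only [par, Par.G, NN]
    rw [mul_comm]
    exact Nat.mul_le_mul_left _ (by omega)
  · have h3 : (par κ w).T + (κ * NN (w + 1) + 2 * w) ≤ w ^ 11 := by
      have := m 7 10 (by norm_num); have := hκ' 10; omega
    have h4 : (((par κ w).T + (κ * NN (w + 1) + 2 * w) : ℕ) : ℝ) ≤ (w : ℝ) ^ 11 := by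
      exact_mod_cast h3
    have h5 : lam ^ (w - 3) ≤ 2 * lam ^ w := by
      have : lam ^ w = lam ^ (w - 3) * lam ^ 3 := by rw [← pow_add]; congr 1; omega
      rw [this]
      have : 1 ≤ 2 * lam ^ 3 := by unfold lam; norm_num
      nlinarith [pow_pos l0 (w - 3)]
    have h6 := mul_le_mul h4 h5 (pow_pos l0 _).le (by positivity)
    have := ha w wa
    simp only [par] at h6 ⊢
    nlinarith
  · have h3 : (par κ w).T * (κ + 2 * w) ≤ w ^ 7 * (3 * w) := Nat.mul_le_mul hT (by omega)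
    have h4 : w ^ 7 * (3 * w) = 3 * w ^ 8 := by ring
    have h5 : (κ * NN (w + 1) + 2 * w) * w ≤ 12290 * (κ * w ^ 10) * w := Nat.mul_le_mul_right _ hH
    have h6 : 12290 * (κ * w ^ 10) * w = 12290 * (κ * w ^ 11) := by ring
    have h7 : w ^ 13 + w ^ 12 ≤ (w + 1) ^ 13 := by
      have : w ^ 12 * (w + 1) ≤ (w + 1) ^ 12 * (w + 1) :=
        Nat.mul_le_mul_right _ (Nat.pow_le_pow_left (by omega) 12)
      calc _ = w ^ 12 * (w + 1) := by ring
        _ ≤ _ := this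
        _ = _ := by ring
    have := m 8 11 (by norm_num); have := hκ' 11; have := hκ 11
    have e : (par κ w).tt = 3 + 6 * κ + 306 * (2 * ((par κ w).T * (κ + 2 * w)) +
      (κ * NN (w + 1) + 2 * w) * w + 1) := rfl
    omega
  · have h3 : (2 * w + 2) * w ^ 6 ≤ (4 * w) * w ^ 6 := Nat.mul_le_mul_right _ (by omega)
    have h4 : (4 * w) * w ^ 6 = 4 * w ^ 7 := by ring
    have : 4 * w ^ 7 ≤ w ^ 8 := up 4 7 (by omega)
    simp only [par, Par.G]; omega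
  · have := s 8
    have : 2048 * w ^ 8 ≤ w ^ 9 := up 2048 8 (by omega)
    omega
  · have a1 : (1 - Par.q0 κ / 2) ^ (w ^ 6) ≤ (1 / 2 : ℝ) ^ (2 * (w ^ 5 + 1) + 2) := by
      have b1 : 1 - Par.q0 κ / 2 ≤ Real.exp (-(Par.q0 κ / 2)) := by
        have := Real.add_one_le_exp (-(Par.q0 κ / 2)); linarith
      have b2 : Real.exp (-1) ≤ 1 / 2 := by
        rw [Real.exp_neg, one_div]
        exact inv_anti₀ (by norm_num) (by have := Real.add_one_le_exp 1; linarith)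
      refine (pow_le_pow_left₀ (by linarith) b1 _).trans
        (le_trans ?_ (pow_le_pow_left₀ (Real.exp_pos _).le b2 _))
      rw [← Real.exp_nat_mul, ← Real.exp_nat_mul, Real.exp_le_exp]
      have b3 : 12 ≤ w * Par.q0 κ := by
        rw [← div_le_iff₀ q0]; exact hb.trans (by exact_mod_cast wb)
      have b4 : (1 : ℝ) ≤ (w : ℝ) ^ 5 := by exact_mod_cast m1 5
      push_cast
      rw [show (w : ℝ) ^ 6 = w ^ 5 * w by ring]
      nlinarith
    have a2 : (1 / 16 : ℝ) ^ (w ^ 5 + 2) ≤ (1 / 2 : ℝ) ^ (2 * (w ^ 5 + 1) + 2) := by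
      rw [show (1 / 16 : ℝ) = (1 / 2) ^ 4 by norm_num, ← pow_mul]
      exact pow_le_pow_of_le_one (by norm_num) (by norm_num) (by omega)
    have a3 : (1 / 2 : ℝ) ^ (4 * (w + 1) ^ 9) ≤ (1 / 2 : ℝ) ^ (2 * (w ^ 5 + 1) + 2) := by
      have := m 5 9 (by norm_num)
      have := Nat.pow_le_pow_left (show w ≤ w + 1 by omega) 9
      have := mw 5 (by norm_num)
      exact pow_le_pow_of_le_one (by norm_num) (by norm_num) (by omega)
    rw [← pow_mul, mul_comm _ 2]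
    rw [pow_add (1 / 2 : ℝ) (2 * (w ^ 5 + 1)) 2] at a1 a2 a3
    have : 0 ≤ (1 / 2 : ℝ) ^ (2 * (w ^ 5 + 1)) := by positivity
    linarith
  · have := s 13; have := m1 13; have := mw 13 (by norm_num)
    have : 8194 * w ^ 13 ≤ w ^ 14 := up 8194 13 (by omega)
    rw [show w ^ 5 * w ^ 9 = w ^ 14 by ring]; omega
  · have := m 11 12 (by norm_num); omega
  · have := m 10 13 (by norm_num); have := hκ 9; omega
  · have := m 10 12 (by norm_num); have := hκ 9; omega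

end Pool.Agent.P.MP_f475a8_pr
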