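import Pool.Agent.P.MP_f475a8_pr.Cert

/-! Steering in the periodic colouring. -/

set_option autoImplicit false

namespace Pool.Agent.P.MP_f475a8_pr

def col (q : P3) : Bool := colr (4 * q.1 + q.2.1 + 2 * q.2.2)

def Wd (ξ : ℕ → Bool) : ℕ → List Bool → Prop
  | _, [] => True
  | l, b :: w => b = ξ (l + 1) ∧ Wd ξ (l + 1) w

theorem Wd.append {ξ : ℕ → Bool} {w : List Bool} : ∀ {l : ℕ}, Wd ξ l w →
    Wd ξ l (w ++ [ξ (l + w.length + 1)]) := by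
  induction w with
  | nil => intro l _; exact ⟨rfl, trivial⟩
  | cons b w ih =>
    intro l h
    refine ⟨h.1, ?_⟩
    have := ih h.2
    rwa [show l + 1 + w.length + 1 = l + (b :: w).length + 1 by simp; ring] at this

theorem chkT_sound {p sy sz : ℤ} {ξ : ℕ → Bool} {l : ℕ} (t : WT) : ∀ w, chkT p sy sz t w = true →
    Wd ξ l w → ∃ w c, Wd ξ l w ∧ w.length ≤ 9 ∧ chkw p sy sz w c (0, 0, 0) [] = true := by
  induction t with
  | L c =>
    intro w h hw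
    simp only [chkT, Bool.and_eq_true, decide_eq_true_eq] at h
    exact ⟨w, c, hw, h.1, h.2⟩
  | N a b iha ihb =>
    intro w h hw
    simp only [chkT, Bool.and_eq_true] at h
    have := hw.append
    cases e : ξ (l + w.length + 1) <;> rw [e] at this
    · exact iha _ h.1 this
    · exact ihb _ h.2 this

def Dz (X Y : ℤ) : Set P3 :=
  {q | 0 ≤ q.1 ∧ q.1 ≤ X ∧ -Y ≤ q.2.1 ∧ q.2.1 ≤ Y ∧ -Y ≤ q.2.2 ∧ q.2.2 ≤ Y}

theorem mv_cases (m : ℕ) (c : P3) : mv m c = (c.1 + 1, c.2.1, c.2.2) ∨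
    mv m c = (c.1, c.2.1 + 1, c.2.2) ∨ mv m c = (c.1, c.2.1 - 1, c.2.2) ∨
    mv m c = (c.1, c.2.1, c.2.2 + 1) ∨ mv m c = (c.1, c.2.1, c.2.2 - 1) := by
  unfold mv; split_ifs <;> simp

theorem walk {X Y sy sz : ℤ} {ω : P3 → Bool} (hω : ∀ q ∈ Dz X Y, ω q = col q) {ξ : ℕ → Bool}
    {o : P3} (ho : 0 ≤ o.1) (w : List Bool) : ∀ (code : ℕ) (cur : P3) (vis : List P3) (l : ℕ),
    chkw ((4 * o.1 + o.2.1 + 2 * o.2.2) % 8) sy sz w code cur vis = true → Wd ξ l w →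
    Seen adj3 (0, 0, 0) ω ξ {q | q ∈ Dz X Y ∧ (q.1 < o.1 ∨ q - o ∈ cur :: vis)} (o + cur) l →
    o.1 + cur.1 < X → 0 ≤ cur.1 → ((0, 0, 0) : P3) ∈ cur :: vis →
    -Y + w.length ≤ o.2.1 + cur.2.1 → o.2.1 + cur.2.1 + w.length ≤ Y →
    -Y + w.length ≤ o.2.2 + cur.2.2 → o.2.2 + cur.2.2 + w.length ≤ Y →
    ∃ (q : P3) (l' : ℕ), l' ≤ l + w.length ∧ q.1 ≤ o.1 + cur.1 + w.length ∧
      o.2.1 + cur.2.1 - w.length ≤ q.2.1 ∧ q.2.1 ≤ o.2.1 + cur.2.1 + w.length ∧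
      o.2.2 + cur.2.2 - w.length ≤ q.2.2 ∧ q.2.2 ≤ o.2.2 + cur.2.2 + w.length ∧
      ((q.1 = X ∧ Seen adj3 (0, 0, 0) ω ξ (Dz X Y) q l') ∨
      (q.1 < X ∧ o.1 < q.1 ∧ 1 ≤ sy * (q.2.1 - o.2.1) ∧ 1 ≤ sz * (q.2.2 - o.2.2) ∧
        Seen adj3 (0, 0, 0) ω ξ {y | y ∈ Dz X Y ∧ (y.1 < q.1 ∨ y = q)} q l')) := by
  induction w with
  | nil =>
    intro code cur vis l h _ hs h1 h2 h3 _ _ _ _
    simp only [chkw, Bool.and_eq_true, decide_eq_true_eq, List.all_eq_true] at h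
    obtain ⟨⟨a1, a2⟩, a3⟩ := h
    refine ⟨o + cur, l, by simp, by simp, by simp, by simp, by simp, by simp,
      Or.inr ⟨h1, ?_, by simpa using a2, by simpa using a3, hs.mono ?_⟩⟩
    · rcases List.mem_cons.1 h3 with e | e
      · rw [← e] at a2; simp at a2
      · simpa using a1 _ e
    · rintro q ⟨b1, b2 | b2⟩
      · exact ⟨b1, Or.inl (by simp only [Prod.fst_add]; omega)⟩
      · rcases List.mem_cons.1 b2 with e | e
        · exact ⟨b1, Or.inr (by rw [← e]; simp)⟩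
        · have := a1 _ e
          exact ⟨b1, Or.inl (by simp only [Prod.fst_add, Prod.fst_sub] at this ⊢; omega)⟩
  | cons b w ih =>
    intro code cur vis l h hw hs h1 h2 h3 h4 h5 h6 h7
    simp only [chkw, Bool.and_eq_true, beq_iff_eq, Bool.not_eq_true', List.contains_eq_mem,
      decide_eq_false_iff_not] at h
    obtain ⟨⟨a1, a2⟩, a3⟩ := h
    have hm := mv_cases (code % 5) cur
    generalize mv (code % 5) cur = nx at *
    have hm' : adj3 (o + cur) (o + nx) ∧ cur.1 ≤ nx.1 ∧ nx.1 ≤ cur.1 + 1 ∧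
        cur.2.1 - 1 ≤ nx.2.1 ∧ nx.2.1 ≤ cur.2.1 + 1 ∧ cur.2.2 - 1 ≤ nx.2.2 ∧
        nx.2.2 ≤ cur.2.2 + 1 := by
      simp only [adj3, Prod.fst_add, Prod.snd_add]
      simp only [Prod.ext_iff] at hm
      omega
    simp only [List.length_cons, Nat.cast_add, Nat.cast_one] at h4 h5 h6 h7 ⊢
    have hD : o + nx ∈ Dz X Y := by
      simp only [Dz, Set.mem_ofPred_eq, Prod.fst_add, Prod.snd_add]; omega
    have hs' : Seen adj3 (0, 0, 0) ω ξ {q | q ∈ Dz X Y ∧ (q.1 < o.1 ∨ q - o ∈ nx :: cur :: vis)}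
        (o + nx) (l + 1) := by
      refine hs.step (fun q hq => ⟨hq.1, hq.2.imp id (List.mem_cons_of_mem _)⟩)
        ⟨hD, Or.inr (by simp)⟩ (fun e => ?_) hm'.1 ?_
      · rcases e.2 with e | e
        · simp only [Prod.fst_add] at e; omega
        · exact a2 (by simpa using e)
      · rw [hω _ hD, ← hw.1, ← a1]
        unfold col colr
        simp only [Prod.fst_add, Prod.snd_add]
        rw [show (4 * (o.1 + nx.1) + (o.2.1 + nx.2.1) + 2 * (o.2.2 + nx.2.2)) % 8 =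
          ((4 * o.1 + o.2.1 + 2 * o.2.2) % 8 + 4 * nx.1 + nx.2.1 + 2 * nx.2.2) % 8 by omega]
    by_cases e : o.1 + nx.1 < X
    · obtain ⟨q, l', b1, b2, b3, b4, b5, b6, b7⟩ := ih _ nx (cur :: vis) (l + 1) a3 hw.2 hs' e
        (by omega) (List.mem_cons_of_mem _ h3) (by omega) (by omega) (by omega) (by omega)
      exact ⟨q, l', by omega, by omega, by omega, by omega, by omega, by omega, b7⟩
    · refine ⟨o + nx, l + 1, by omega, ?_, ?_, ?_, ?_, ?_,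
        Or.inl ⟨?_, hs'.mono (fun q hq => hq.1)⟩⟩ <;> simp only [Prod.fst_add, Prod.snd_add] <;>
        omega

theorem switch {X d : ℕ} {Y : ℤ} (hX : 9 * d + 19 ≤ X) (hY : 2 * d + 20 ≤ Y) {ω : P3 → Bool}
    (hω : ∀ q ∈ Dz X Y, ω q = col q) (ξ : ℕ → Bool) {a b : ℤ} (ha : 0 ≤ a ∧ a ≤ d)
    (hb : 0 ≤ b ∧ b ≤ d) : ∃ (y z : ℤ) (l : ℕ), l ≤ 9 * X ∧ a - 18 ≤ y ∧ y ≤ a + 18 ∧
      b - 18 ≤ z ∧ z ≤ b + 18 ∧ Seen adj3 (0, 0, 0) ω ξ (Dz X Y) (X, y, z) l := by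
  by_contra hcon
  have key : ∀ j : ℕ, ∃ (q : P3) (l : ℕ), q.1 < X ∧ j ≤ q.1 ∧ q.1 ≤ 9 * j ∧ l ≤ 9 * j ∧
      ((a - 9 ≤ q.2.1 ∧ q.2.1 ≤ a + 9) ∨ (a - (d + 1 - j) ≤ q.2.1 ∧ q.2.1 ≤ a + (d + 1 - j))) ∧
      ((b - 9 ≤ q.2.2 ∧ q.2.2 ≤ b + 9) ∨ (b - (d + 1 - j) ≤ q.2.2 ∧ q.2.2 ≤ b + (d + 1 - j))) ∧
      Seen adj3 (0, 0, 0) ω ξ {y | y ∈ Dz X Y ∧ (y.1 < q.1 ∨ y = q)} q l := by
    intro j
    induction j with
    | zero =>
      have hD : ∀ s : ℤ, s = 1 ∨ s = -1 → ((0, s, 0) : P3) ∈ Dz X Y := by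
        intro s hs
        simp only [Dz, Set.mem_ofPred_eq]; omega
      cases e : ξ 0
      · refine ⟨(0, -1, 0), 0, by simp only; omega, by simp, by simp, by simp,
          by simp only; omega, by simp only; omega,
          Seen.base (by simp [adj3]) ⟨hD _ (by simp), Or.inr rfl⟩ ?_⟩
        rw [hω _ (hD _ (by simp)), e]; decide
      · refine ⟨(0, 1, 0), 0, by simp only; omega, by simp, by simp, by simp,
          by simp only; omega, by simp only; omega,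
          Seen.base (by simp [adj3]) ⟨hD _ (by simp), Or.inr rfl⟩ ?_⟩
        rw [hω _ (hD _ (by simp)), e]; decide
    | succ j ih =>
      obtain ⟨o, l, h1, h2, h3, h4, h5, h6, h7⟩ := ih
      obtain ⟨sy, hy⟩ : ∃ s : ℤ, (s = 1 ∧ o.2.1 ≤ a) ∨ (s = -1 ∧ a < o.2.1) := by
        by_cases e : o.2.1 ≤ a
        · exact ⟨1, Or.inl ⟨rfl, e⟩⟩
        · exact ⟨-1, Or.inr ⟨rfl, by omega⟩⟩
      obtain ⟨sz, hz⟩ : ∃ s : ℤ, (s = 1 ∧ o.2.2 ≤ b) ∨ (s = -1 ∧ b < o.2.2) := by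
        by_cases e : o.2.2 ≤ b
        · exact ⟨1, Or.inl ⟨rfl, e⟩⟩
        · exact ⟨-1, Or.inr ⟨rfl, by omega⟩⟩
      obtain ⟨t, ht⟩ := cert_exists (p := (4 * o.1 + o.2.1 + 2 * o.2.2) % 8) (sy := sy) (sz := sz)
        (by omega) (by omega) (by omega) (by omega)
      obtain ⟨w, c, w1, w2, w3⟩ := chkT_sound (ξ := ξ) (l := l) t [] ht trivial
      obtain ⟨q, l', b1, b2, b3, b4, b5, b6, b7⟩ := walk hω (o := o) (by omega) w c (0, 0, 0) [] l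
        w3 w1 (by
          rw [show o + (0, 0, 0) = o from add_zero o]
          refine h7.mono (fun q hq => ⟨hq.1, hq.2.imp id (fun e => ?_)⟩)
          rw [e, sub_self]; exact List.mem_cons_self) (by simp only; omega) le_rfl
        List.mem_cons_self (by simp only; omega) (by simp only; omega) (by simp only; omega)
        (by simp only; omega)
      simp only [add_zero] at b2 b3 b4 b5 b6
      rcases b7 with ⟨c1, c2⟩ | ⟨c1, c2, c3, c4, c5⟩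
      · refine absurd ⟨q.2.1, q.2.2, l', by omega, by omega, by omega, by omega, by omega, ?_⟩ hcon
        exact (show q = ((X : ℤ), q.2.1, q.2.2) from Prod.ext c1 rfl) ▸ c2
      · refine ⟨q, l', c1, by omega, by omega, by omega, ?_, ?_, c5⟩
        · rcases hy with ⟨rfl, e⟩ | ⟨rfl, e⟩ <;> omega
        · rcases hz with ⟨rfl, e⟩ | ⟨rfl, e⟩ <;> omega
  obtain ⟨q, l, h1, h2, -⟩ := key X
  omega

end Pool.Agent.P.MP_f475a8_pr
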