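import Pool.Agent.P.MP_f475a8_pr.Cert
import Pool.Agent.P.MP_f475a8_pr.Switch
import Pool.Agent.P.MP_f475a8_pr.Params
import Pool.Agent.P.MP_f475a8_pr.Main
import Pool.Agent.P.MP_f475a8_pr.Final

/-! All words are read along self-avoiding paths that start at one vertex and never return to it.
The steering argument is rerun with the walk started at the origin itself. -/

set_option autoImplicit false
open Function Classical MeasureTheory ProbabilityTheory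

namespace Pool.Agent.P.MP_f475a8_pr.BK
open Pool.Agent.P.MP_f475a8_pr

theorem walkB {X Y sy sz : ℤ} {ω : P3 → Bool} (hω : ∀ q ∈ Dz X Y, ω q = col q) {ξ : ℕ → Bool}
    {o : P3} (ho : 0 ≤ o.1) (w : List Bool) : ∀ (code : ℕ) (cur : P3) (vis : List P3) (l : ℕ),
    chkw ((4 * o.1 + o.2.1 + 2 * o.2.2) % 8) sy sz w code cur vis = true → Wd ξ l w →
    Seen adj3 (-1, 0, 0) ω ξ {q | q ∈ Dz X Y ∧ (q.1 < o.1 ∨ q - o ∈ cur :: vis)} (o + cur) l →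
    o.1 + cur.1 < X → 0 ≤ cur.1 → ((0, 0, 0) : P3) ∈ cur :: vis →
    -Y + w.length ≤ o.2.1 + cur.2.1 → o.2.1 + cur.2.1 + w.length ≤ Y →
    -Y + w.length ≤ o.2.2 + cur.2.2 → o.2.2 + cur.2.2 + w.length ≤ Y →
    ∃ (q : P3) (l' : ℕ), l' ≤ l + w.length ∧ q.1 ≤ o.1 + cur.1 + w.length ∧
      o.2.1 + cur.2.1 - w.length ≤ q.2.1 ∧ q.2.1 ≤ o.2.1 + cur.2.1 + w.length ∧
      o.2.2 + cur.2.2 - w.length ≤ q.2.2 ∧ q.2.2 ≤ o.2.2 + cur.2.2 + w.length ∧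
      ((q.1 = X ∧ Seen adj3 (-1, 0, 0) ω ξ (Dz X Y) q l') ∨
      (q.1 < X ∧ o.1 < q.1 ∧ 1 ≤ sy * (q.2.1 - o.2.1) ∧ 1 ≤ sz * (q.2.2 - o.2.2) ∧
        Seen adj3 (-1, 0, 0) ω ξ {y | y ∈ Dz X Y ∧ (y.1 < q.1 ∨ y = q)} q l')) := by
  induction w with
  | nil =>
    intro code cur vis l h _ hs h1 h2 h3 _ _ _ _
    simp only [chkw, Bool.and_eq_true, decide_eq_true_eq, List.all_eq_true] at h
    obtain ⟨⟨a1, a2⟩, a3⟩ := h
    refine ⟨o + cur, l, by simp, by simp, by simp, by simp, by simp, by simp,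
      Or.inr ⟨h1, ?_, by simpa using a2, by simpa using a3, hs.mono ?_⟩⟩
    · rcases List.mem_cons.1 h3 with e | e
      · rw [← e] at a2; simp at a2
      · simpa using a1 _ e
    · rintro q ⟨b1, b2 | b2⟩
      · exact ⟨b1, Or.inl (by simp only [Prod.fst_add]; omega)⟩
      · rcases List.mem_cons.1 b2 with e | e
        · exact ⟨b1, Or.inr (by rw [← e]; simp)⟩
        · have := a1 _ e
          exact ⟨b1, Or.inl (by simp only [Prod.fst_add, Prod.fst_sub] at this ⊢; omega)⟩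
  | cons b w ih =>
    intro code cur vis l h hw hs h1 h2 h3 h4 h5 h6 h7
    simp only [chkw, Bool.and_eq_true, beq_iff_eq, Bool.not_eq_true', List.contains_eq_mem,
      decide_eq_false_iff_not] at h
    obtain ⟨⟨a1, a2⟩, a3⟩ := h
    have hm := mv_cases (code % 5) cur
    generalize mv (code % 5) cur = nx at *
    have hm' : adj3 (o + cur) (o + nx) ∧ cur.1 ≤ nx.1 ∧ nx.1 ≤ cur.1 + 1 ∧
        cur.2.1 - 1 ≤ nx.2.1 ∧ nx.2.1 ≤ cur.2.1 + 1 ∧ cur.2.2 - 1 ≤ nx.2.2 ∧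
        nx.2.2 ≤ cur.2.2 + 1 := by
      simp only [adj3, Prod.fst_add, Prod.snd_add]
      simp only [Prod.ext_iff] at hm
      omega
    simp only [List.length_cons, Nat.cast_add, Nat.cast_one] at h4 h5 h6 h7 ⊢
    have hD : o + nx ∈ Dz X Y := by
      simp only [Dz, Set.mem_ofPred_eq, Prod.fst_add, Prod.snd_add]; omega
    have hs' : Seen adj3 (-1, 0, 0) ω ξ {q | q ∈ Dz X Y ∧ (q.1 < o.1 ∨ q - o ∈ nx :: cur :: vis)}
        (o + nx) (l + 1) := by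
      refine hs.step (fun q hq => ⟨hq.1, hq.2.imp id (List.mem_cons_of_mem _)⟩)
        ⟨hD, Or.inr (by simp)⟩ (fun e => ?_) hm'.1 ?_
      · rcases e.2 with e | e
        · simp only [Prod.fst_add] at e; omega
        · exact a2 (by simpa using e)
      · rw [hω _ hD, ← hw.1, ← a1]
        unfold col colr
        simp only [Prod.fst_add, Prod.snd_add]
        rw [show (4 * (o.1 + nx.1) + (o.2.1 + nx.2.1) + 2 * (o.2.2 + nx.2.2)) % 8 =
          ((4 * o.1 + o.2.1 + 2 * o.2.2) % 8 + 4 * nx.1 + nx.2.1 + 2 * nx.2.2) % 8 by omega]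
    by_cases e : o.1 + nx.1 < X
    · obtain ⟨q, l', b1, b2, b3, b4, b5, b6, b7⟩ := ih _ nx (cur :: vis) (l + 1) a3 hw.2 hs' e
        (by omega) (List.mem_cons_of_mem _ h3) (by omega) (by omega) (by omega) (by omega)
      exact ⟨q, l', by omega, by omega, by omega, by omega, by omega, by omega, b7⟩
    · refine ⟨o + nx, l + 1, by omega, ?_, ?_, ?_, ?_, ?_,
        Or.inl ⟨?_, hs'.mono (fun q hq => hq.1)⟩⟩ <;> simp only [Prod.fst_add, Prod.snd_add] <;>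
        omega

theorem switchB {X d : ℕ} {Y : ℤ} (hX : 9 * d + 19 ≤ X) (hY : 2 * d + 20 ≤ Y) {ω : P3 → Bool}
    (hω : ∀ q ∈ Dz X Y, ω q = col q) (ξ : ℕ → Bool) (h0 : ξ 0 = true) {a b : ℤ} (ha : 0 ≤ a ∧ a ≤ d)
    (hb : 0 ≤ b ∧ b ≤ d) : ∃ (y z : ℤ) (l : ℕ), l ≤ 9 * X ∧ a - 18 ≤ y ∧ y ≤ a + 18 ∧
      b - 18 ≤ z ∧ z ≤ b + 18 ∧ Seen adj3 (-1, 0, 0) ω ξ (Dz X Y) (X, y, z) l := by
  by_contra hcon
  have key : ∀ j : ℕ, ∃ (q : P3) (l : ℕ), q.1 < X ∧ j ≤ q.1 ∧ q.1 ≤ 9 * j ∧ l ≤ 9 * j ∧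
      ((a - 9 ≤ q.2.1 ∧ q.2.1 ≤ a + 9) ∨ (a - (d + 1 - j) ≤ q.2.1 ∧ q.2.1 ≤ a + (d + 1 - j))) ∧
      ((b - 9 ≤ q.2.2 ∧ q.2.2 ≤ b + 9) ∨ (b - (d + 1 - j) ≤ q.2.2 ∧ q.2.2 ≤ b + (d + 1 - j))) ∧
      Seen adj3 (-1, 0, 0) ω ξ {y | y ∈ Dz X Y ∧ (y.1 < q.1 ∨ y = q)} q l := by
    intro j
    induction j with
    | zero =>
      have hD : ((0, 0, 0) : P3) ∈ Dz X Y := by
        simp only [Dz, Set.mem_ofPred_eq]; omega
      refine ⟨(0, 0, 0), 0, by simp only; omega, by simp, by simp, by simp,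
        by simp only; omega, by simp only; omega,
        Seen.base (by simp [adj3]) ⟨hD, Or.inr rfl⟩ ?_⟩
      rw [hω _ hD, h0]; decide
    | succ j ih =>
      obtain ⟨o, l, h1, h2, h3, h4, h5, h6, h7⟩ := ih
      obtain ⟨sy, hy⟩ : ∃ s : ℤ, (s = 1 ∧ o.2.1 ≤ a) ∨ (s = -1 ∧ a < o.2.1) := by
        by_cases e : o.2.1 ≤ a
        · exact ⟨1, Or.inl ⟨rfl, e⟩⟩
        · exact ⟨-1, Or.inr ⟨rfl, by omega⟩⟩
      obtain ⟨sz, hz⟩ : ∃ s : ℤ, (s = 1 ∧ o.2.2 ≤ b) ∨ (s = -1 ∧ b < o.2.2) := by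
        by_cases e : o.2.2 ≤ b
        · exact ⟨1, Or.inl ⟨rfl, e⟩⟩
        · exact ⟨-1, Or.inr ⟨rfl, by omega⟩⟩
      obtain ⟨t, ht⟩ := cert_exists (p := (4 * o.1 + o.2.1 + 2 * o.2.2) % 8) (sy := sy) (sz := sz)
        (by omega) (by omega) (by omega) (by omega)
      obtain ⟨w, c, w1, w2, w3⟩ := chkT_sound (ξ := ξ) (l := l) t [] ht trivial
      obtain ⟨q, l', b1, b2, b3, b4, b5, b6, b7⟩ := walkB hω (o := o) (by omega) w c (0, 0, 0) [] l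
        w3 w1 (by
          rw [show o + (0, 0, 0) = o from add_zero o]
          refine h7.mono (fun q hq => ⟨hq.1, hq.2.imp id (fun e => ?_)⟩)
          rw [e, sub_self]; exact List.mem_cons_self) (by simp only; omega) le_rfl
        List.mem_cons_self (by simp only; omega) (by simp only; omega) (by simp only; omega)
        (by simp only; omega)
      simp only [add_zero] at b2 b3 b4 b5 b6
      rcases b7 with ⟨c1, c2⟩ | ⟨c1, c2, c3, c4, c5⟩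
      · refine absurd ⟨q.2.1, q.2.2, l', by omega, by omega, by omega, by omega, by omega, ?_⟩ hcon
        exact (show q = ((X : ℤ), q.2.1, q.2.2) from Prod.ext c1 rfl) ▸ c2
      · refine ⟨q, l', c1, by omega, by omega, by omega, ?_, ?_, c5⟩
        · rcases hy with ⟨rfl, e⟩ | ⟨rfl, e⟩ <;> omega
        · rcases hz with ⟨rfl, e⟩ | ⟨rfl, e⟩ <;> omega
  obtain ⟨q, l, h1, h2, -⟩ := key X
  omega

theorem konigB {V : Type} {adj : V → V → Prop} (hfin : ∀ x, {y | adj x y}.Finite) {v : V}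
    {ω : V → Bool} {ξ : ℕ → Bool} {D : Set V} (h : ∀ n, ∃ l x, n ≤ l ∧ Seen adj v ω ξ D x l) :
    ∃ γ : ℕ → V, Injective γ ∧ adj v (γ 0) ∧ (∀ n, adj (γ n) (γ (n + 1))) ∧
      ∀ n, γ n ∈ D ∧ ω (γ n) = ξ n := by
  choose l x h1 h2 using h
  choose g a1 _ a3 a4 a5 using fun n => (h2 n).path
  have big : ∀ i, ∀ᶠ n in (Filter.hyperfilter ℕ : Filter ℕ), i ≤ l n := fun i =>
    Nat.hyperfilter_le_atTop ((Filter.eventually_ge_atTop i).mono (fun n hn => hn.trans (h1 n)))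
  have pick : ∀ (i : ℕ) (y : V), (∀ᶠ n in (Filter.hyperfilter ℕ : Filter ℕ), adj y (g n i)) →
      ∃ z, ∀ᶠ n in (Filter.hyperfilter ℕ : Filter ℕ), g n i = z := by
    intro i y hy
    have : (⋃ z ∈ {z | adj y z}, {n | g n i = z}) ∈ Filter.hyperfilter ℕ :=
      Filter.mem_of_superset hy (fun n hn => Set.mem_biUnion (x := g n i) hn rfl)
    obtain ⟨z, -, hz⟩ := (Ultrafilter.finite_biUnion_mem_iff (hfin y)).1 this
    exact ⟨z, hz⟩
  have ex : ∀ i, ∃ z, ∀ᶠ n in (Filter.hyperfilter ℕ : Filter ℕ), g n i = z := by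
    intro i
    induction i with
    | zero => exact pick 0 v (Filter.Eventually.of_forall a1)
    | succ i ih =>
      obtain ⟨y, hy⟩ := ih
      exact pick _ y ((hy.and (big (i + 1))).mono (fun n hn => hn.1 ▸ a3 n i hn.2))
  choose γ hγ using ex
  refine ⟨γ, fun i j e => ?_, ?_, fun i => ?_, fun i => ?_⟩
  · obtain ⟨n, ⟨b1, b2⟩, b3, b4⟩ := (((hγ i).and (hγ j)).and ((big i).and (big j))).exists
    rcases lt_trichotomy i j with h | h | h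
    · exact absurd (b1.trans (e.trans b2.symm)) (a5 n i j h b4)
    · exact h
    · exact absurd (b2.trans (e.symm.trans b1.symm)) (a5 n j i h b3)
  · obtain ⟨n, b⟩ := (hγ 0).exists
    exact b ▸ a1 n
  · obtain ⟨n, ⟨b1, b2⟩, b3⟩ := (((hγ i).and (hγ (i + 1))).and (big (i + 1))).exists
    exact b1 ▸ b2 ▸ a3 n i b3
  · obtain ⟨n, b1, b2⟩ := ((hγ i).and (big i)).exists
    exact b1 ▸ a4 n i b2

def GdB (κ w0 u : ℕ) (ξ : ℕ → Bool) (ω : P3 → Bool) : Prop :=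
  (par κ (w0 + u)).Dense ((w0 + u) ^ 9) ((w0 + u) ^ 8) (NN (w0 + u)) (fun y z =>
    ∃ l ≤ (w0 + u) ^ 13, Seen adj3 (-1, 0, 0) ω ξ (Reg κ w0 u)
      (emb (Xp κ w0 u) (par2 u) (0, y, z)) l)

theorem GdB.congr {κ w0 u : ℕ} {ξ ξ' : ℕ → Bool} {ω ω' : P3 → Bool} (H : GdB κ w0 u ξ ω)
    (h1 : ∀ y ∈ Reg κ w0 u, ω y = ω' y) (h2 : ∀ i ≤ (w0 + u) ^ 13, ξ i = ξ' i) :
    GdB κ w0 u ξ' ω' :=
  Dense_mono (fun _ _ ⟨l, a, b⟩ => ⟨l, a, b.congr h1 (fun i hi => h2 i (hi.trans a))⟩) H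

theorem GdB.step {κ w0 u : ℕ} (hb : Big κ (w0 + u)) {ξ : ℕ → Bool} {ω0 : P3 → Bool}
    (H : GdB κ w0 u ξ ω0) :
    Ex (Rn κ w0 u) (fun ω => if ¬ GdB κ w0 (u + 1) ξ ω then 1 else 0) ω0 ≤
      (1 / 2) ^ ((w0 + u) ^ 5 * (w0 + u) ^ 9) := by
  have h1 := bfs (adj := adj3) (v := (-1, 0, 0)) (ξ := ξ) (R := Rn κ w0 u) (A := Reg κ w0 u)
    (fun x hx e => by
      have := (Rn_facts hb e).2
      have := hx.2.1
      omega) ((w0 + u) ^ 13) (par κ (w0 + u)).tt ω0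
    (fun T => (par κ (w0 + u)).Dense ((w0 + u + 1) ^ 9) ((w0 + u + 1) ^ 8) (NN (w0 + u + 1))
      (fun a b => T (emb (Xp κ w0 u) (par2 u) (3 * (par κ (w0 + u)).T, b, a))))
    (fun T T' h => Dense_mono (fun _ _ => h _))
  have h2 := hb.ok.stage (M' := (w0 + u + 1) ^ 9) (m' := (w0 + u + 1) ^ 8)
    (θ := (1 / 2) ^ ((w0 + u) ^ 5 + 1)) (show NN (w0 + u) ≤ NN (w0 + u + 1) from
      Nat.mul_le_mul (Nat.mul_le_mul_left _ (Nat.pow_le_pow_left (by omega) 9)) (by omega))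
    hb.hr le_rfl hb.hm (by positivity) (pow_le_one₀ (by norm_num) (by norm_num)) hb.hθ H
    (ω0 ∘ emb (Xp κ w0 u) (par2 u))
  rw [← Ex_map (emb_inj _ _), show 2 * (1 / 2 : ℝ) ^ ((w0 + u) ^ 5 + 1) = (1 / 2) ^ ((w0 + u) ^ 5)
    by rw [pow_succ]; ring, ← pow_mul] at h2
  refine (Ex_mono (fun ω => ?_) ω0).trans (h1.trans ((Ex_mono (fun η => ?_) ω0).trans h2))
  · refine ite_le_ite_of_imp (fun g e => g ?_)
    refine Dense_mono (fun y z ⟨l, a, b⟩ => ⟨l, a.trans hb.tt, ?_⟩) e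
    convert b.mono (Set.union_subset (Reg_mono κ w0 u) (fun q hq => (Rn_facts hb hq).1)) using 1
    simp only [par2, Xp]
    cases par2 u <;> simp [emb]
  · refine ite_le_ite_of_imp (fun g e => g ?_)
    refine Dense_mono (fun y z h => ?_) e
    refine Conn.map (emb (Xp κ w0 u) (par2 u)) (emb_adj _ _) (fun x hx => ?_)
      (fun x hx => ⟨Finset.mem_image_of_mem _ hx, id⟩) h
    rw [show x = (0, x.2.1, x.2.2) from Prod.ext hx.1 rfl]
    exact hx.2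

def AllSeenB (ω : P3 → Bool) : Prop :=
  ∀ ξ : ℕ → Bool, ∃ γ : ℕ → P3, Injective γ ∧ γ 0 = (0, 0, 0) ∧
    (∀ n, adj3 (γ n) (γ (n + 1))) ∧ ∀ n, ω (γ (n + 1)) = ξ n

theorem goodB {κ w0 : ℕ} (hb : Big κ w0) {ω : P3 → Bool} (h : SB κ w0 ω) (ξ : ℕ → Bool)
    (h0 : ξ 0 = true) :
    GdB κ w0 0 ξ ω := by
  have hκ : 17 ≤ κ := hb.ok.h1
  have h1 := hb.hX
  have h2 := hb.hY0
  have hN : w0 ^ 9 ≤ NN w0 := by unfold NN; nlinarith [Nat.zero_le (w0 ^ 9)]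
  have key : ∀ i < w0 ^ 9, (0 : ℤ) ≤ 3 * (κ * i) + 18 ∧
      3 * (κ * i : ℤ) + 18 ≤ (3 * (κ * w0 ^ 9) : ℕ) := by
    intro i hi
    have : κ * (i + 1) ≤ κ * w0 ^ 9 := Nat.mul_le_mul_left _ hi
    have : 3 * (κ * i) + 18 ≤ 3 * (κ * w0 ^ 9) := by rw [mul_add] at this; omega
    exact ⟨by positivity, by exact_mod_cast this⟩
  refine ⟨Finset.range (w0 ^ 9), by simp, fun j hj => ⟨(Finset.mem_range.1 hj).trans_le hN,
    Finset.range (w0 ^ 9), ?_, fun i hi => ⟨(Finset.mem_range.1 hi).trans_le hN, ?_⟩⟩⟩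
  · rw [Finset.card_range]
    exact Nat.pow_le_pow_right hb.pos (by norm_num)
  · obtain ⟨y, z, l, a1, a2, a3, a4, a5, a6⟩ := switchB (X := Xp κ w0 0) (d := 3 * (κ * w0 ^ 9))
      (Y := ((w0 + 0) ^ 12 : ℕ)) le_rfl (by exact_mod_cast h2) (fun q hq => h q (mem_RegF.2 hq)) ξ h0
      (key i (Finset.mem_range.1 hi)) (key j (Finset.mem_range.1 hj))
    refine ⟨y, z, ⟨l, a1.trans h1, ?_⟩, ?_⟩
    · simpa [emb, par2, Reg] using a6
    · simp only [par]; omega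

theorem allSeen_of_goodB {κ w0 : ℕ} (hw : 1 ≤ w0) {ω : P3 → Bool}
    (h : ∀ ξ : ℕ → Bool, ξ 0 = true → ∀ u, GdB κ w0 u ξ ω) : AllSeenB ω := by
  intro ξ
  obtain ⟨ζ, z0, z1⟩ : ∃ ζ : ℕ → Bool, ζ 0 = true ∧ ∀ n, ζ (n + 1) = ξ n :=
    ⟨fun n => Nat.casesOn n true ξ, rfl, fun _ => rfl⟩
  obtain ⟨γ, g1, g2, g3, g4⟩ := konigB (v := (-1, 0, 0)) (ω := ω) (ξ := ζ)
    (D := {q : P3 | 0 ≤ q.1}) adj3_finite (fun u => by
      obtain ⟨J, h1, h2⟩ := h ζ z0 u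
      obtain ⟨j, hj⟩ := Finset.card_pos.1 ((Nat.pow_pos (by omega)).trans_le h1)
      obtain ⟨I, h3, h4⟩ := (h2 j hj).2
      obtain ⟨i, hi⟩ := Finset.card_pos.1 ((Nat.pow_pos (by omega)).trans_le h3)
      obtain ⟨y, z, ⟨l, -, a⟩, -⟩ := (h4 i hi).2
      refine ⟨l, _, ?_, a.mono (fun q hq => hq.1)⟩
      have := a.height (f := fun q => q.1) (fun x y h => by unfold adj3 at h; omega)
      have h5 := Xp_ge κ w0 u
      generalize par2 u = b at this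
      cases b <;> simp only [emb, cond_true, cond_false] at this <;> omega)
  refine ⟨γ, g1, ?_, g3, fun n => by rw [(g4 (n + 1)).2, z1]⟩
  have a := (g4 0).1
  simp only [Set.mem_ofPred_eq] at a
  simp only [adj3] at g2
  exact Prod.ext (by simp only; omega) (Prod.ext (by simp only; omega) (by simp only; omega))

variable {Ω : Type} [MeasurableSpace Ω] {μ : Measure Ω} [IsProbabilityMeasure μ]

theorem stage_measureB {X : P3 → Ω → Bool} (h : Fair μ X) {κ w0 u : ℕ} (hb : Big κ (w0 + u))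
    (ξ : ℕ → Bool) :
    μ.real {ω | SB κ w0 (fun v => X v ω) ∧ GdB κ w0 u ξ (fun v => X v ω) ∧
      ¬ GdB κ w0 (u + 1) ξ (fun v => X v ω)} ≤
      (1 / 2) ^ ((w0 + u) ^ 5 * (w0 + u) ^ 9) * (1 / 2) ^ (RegF κ w0 0).card := by
  have sb : ∀ x y : P3 → Bool, (∀ q ∈ Reg κ w0 0, x q = y q) → (SB κ w0 x ↔ SB κ w0 y) :=
    fun x y e => forall₂_congr (fun q hq => by rw [e q (mem_RegF.1 hq)])
  have gd : ∀ u, ∀ x y : P3 → Bool, (∀ q ∈ Reg κ w0 u, x q = y q) →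
      (GdB κ w0 u ξ x ↔ GdB κ w0 u ξ y) := fun u x y e =>
    ⟨fun g => g.congr e (fun _ _ => rfl), fun g => g.congr (fun q hq => (e q hq).symm)
      (fun _ _ => rfl)⟩
  rw [measure_eq_Ex μ X h.hm h.hi h.hh (RegF κ w0 (u + 1))
    (fun x => SB κ w0 x ∧ GdB κ w0 u ξ x ∧ ¬ GdB κ w0 (u + 1) ξ x) (fun x y e => by
      have e' : ∀ q ∈ Reg κ w0 (u + 1), x q = y q := fun q hq => e q (mem_RegF.2 hq)
      beta_reduce
      rw [sb x y (fun q hq => e' q (Reg_mono0 _ _ _ hq)),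
        gd u x y (fun q hq => e' q (Reg_mono _ _ _ hq)), gd _ x y e']) (fun _ => true)]
  refine (Ex_le_of_sub (A := Rn κ w0 u) (fun q hq => mem_RegF.2 (Rn_facts hb hq).1)
    (g := fun x => (1 / 2) ^ ((w0 + u) ^ 5 * (w0 + u) ^ 9) *
      if ∀ q ∈ RegF κ w0 0, x q = col q then 1 else 0) (fun x => ?_) _).trans ?_
  · have off : ∀ η : P3 → Bool, (∀ a, a ∉ Rn κ w0 u → η a = x a) →
        ∀ q ∈ Reg κ w0 u, η q = x q := fun η hη q hq => hη q (fun e => by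
      have := (Rn_facts hb e).2
      have := hq.2.1
      omega)
    by_cases g : SB κ w0 x ∧ GdB κ w0 u ξ x
    · rw [if_pos (show ∀ q ∈ RegF κ w0 0, x q = col q from g.1), mul_one]
      exact (Ex_mono (fun η => ite_le_ite_of_imp (fun e => e.2.2)) x).trans (g.2.step hb)
    · refine Ex_le_const (fun η hη => ?_)
      rw [if_neg (fun e => g ⟨(sb _ _ (fun q hq => off η hη q (Reg_mono0 _ _ _ hq))).1 e.1,
        (gd u _ _ (off η hη)).1 e.2.1⟩)]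
      split_ifs <;> positivity
  · rw [Ex_mul]
    refine mul_le_mul_of_nonneg_left (Ex_le_const_of_sub (A := RegF κ w0 0)
      (fun q hq => mem_RegF.2 (Reg_mono0 _ _ _ (mem_RegF.1 hq))) (fun x => ?_) _) (by positivity)
    exact (Ex_all_eq _ _ _).le

theorem words_measureB {X : P3 → Ω → Bool} (h : Fair μ X) {κ w0 u : ℕ} (hb : Big κ (w0 + u)) :
    μ.real {ω | SB κ w0 (fun v => X v ω) ∧ ∃ ξ, GdB κ w0 u ξ (fun v => X v ω) ∧
      ¬ GdB κ w0 (u + 1) ξ (fun v => X v ω)} ≤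
      (1 / 2) ^ (w0 + u) * (1 / 2) ^ (RegF κ w0 0).card := by
  obtain ⟨L, hL⟩ : ∃ L, L = (w0 + u + 1) ^ 13 + 1 := ⟨_, rfl⟩
  obtain ⟨ze, hz⟩ : ∃ ze : (Fin L → Bool) → ℕ → Bool, ∀ ξ : ℕ → Bool, ∀ i < L,
      ze (fun j => ξ j) i = ξ i :=
    ⟨fun σ i => if h : i < L then σ ⟨i, h⟩ else false, fun ξ i hi => by simp [hi]⟩
  refine le_trans (measureReal_mono (s₂ := ⋃ σ : Fin L → Bool, {ω | SB κ w0 (fun v => X v ω) ∧
    GdB κ w0 u (ze σ) (fun v => X v ω) ∧ ¬ GdB κ w0 (u + 1) (ze σ) (fun v => X v ω)}) ?_) ?_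
  · rintro ω ⟨h1, ξ, h2, h3⟩
    have : (w0 + u) ^ 13 ≤ (w0 + u + 1) ^ 13 := Nat.pow_le_pow_left (by omega) 13
    refine Set.mem_iUnion.2 ⟨fun j => ξ j, h1, h2.congr (fun _ _ => rfl)
      (fun i hi => (hz ξ i (by omega)).symm), fun e => h3 (e.congr (fun _ _ => rfl)
      (fun i hi => hz ξ i (by rw [hL]; exact Nat.lt_succ_of_le hi)))⟩
  · refine (measureReal_iUnion_fintype_le _).trans
      ((Finset.sum_le_sum (fun σ _ => stage_measureB h hb (ze σ))).trans ?_)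
    rw [Finset.sum_const, nsmul_eq_mul, ← mul_assoc]
    refine mul_le_mul_of_nonneg_right ?_ (by positivity)
    have h1 := pow_le_pow_of_le_one (a := (1 / 2 : ℝ)) (by norm_num) (by norm_num) hb.hL
    rw [← hL, pow_add] at h1
    simp only [Finset.card_univ, Fintype.card_fun, Fintype.card_bool, Fintype.card_fin]
    refine (mul_le_mul_of_nonneg_left h1 (by positivity)).trans (le_of_eq ?_)
    rw [← mul_assoc]
    push_cast
    rw [← mul_pow]; norm_num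

theorem fail_measureB {X : P3 → Ω → Bool} (h : Fair μ X) {κ w0 : ℕ} (hb : ∀ u, Big κ (w0 + u)) :
    μ.real {ω | SB κ w0 (fun v => X v ω) ∧ ¬ AllSeenB (fun v => X v ω)} ≤
      2 * (1 / 2) ^ w0 * (1 / 2) ^ (RegF κ w0 0).card := by
  have hs : HasSum (fun u : ℕ => (1 / 2 : ℝ) ^ (w0 + u) * (1 / 2) ^ (RegF κ w0 0).card)
      (2 * (1 / 2) ^ w0 * (1 / 2) ^ (RegF κ w0 0).card) := by
    have := (hasSum_geometric_two.mul_left ((1 / 2 : ℝ) ^ w0)).mul_right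
      ((1 / 2) ^ (RegF κ w0 0).card)
    simpa only [pow_add, mul_comm _ (2 : ℝ)] using this
  refine ENNReal.toReal_le_of_le_ofReal (by positivity) ?_
  rw [← hs.tsum_eq, ENNReal.ofReal_tsum_of_nonneg (fun _ => by positivity) hs.summable]
  refine le_trans (measure_mono (t := ⋃ u : ℕ, {ω | SB κ w0 (fun v => X v ω) ∧
    ∃ ξ, GdB κ w0 u ξ (fun v => X v ω) ∧ ¬ GdB κ w0 (u + 1) ξ (fun v => X v ω)}) ?_)
    ((measure_iUnion_le _).trans (ENNReal.tsum_le_tsum (fun u => ?_)))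
  · rintro ω ⟨h1, h2⟩
    by_contra hc
    refine h2 (allSeen_of_goodB (κ := κ) (hb 0).pos (fun ξ h0 u => ?_))
    induction u with
    | zero => exact goodB (hb 0) h1 ξ h0
    | succ u ih =>
      by_contra e
      exact hc (Set.mem_iUnion.2 ⟨u, h1, ξ, ih, e⟩)
  · rw [← ofReal_measureReal]
    exact ENNReal.ofReal_le_ofReal (words_measureB h (hb u))

theorem main_P3B {X : P3 → Ω → Bool} (h : Fair μ X) :
    ∀ᵐ ω ∂μ, ∃ v : P3, AllSeenB (fun q => X (v + q) ω) := by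
  obtain ⟨κ, k1, k2⟩ := exists_kappa
  obtain ⟨w1, hw1⟩ := eventually_big k1 k2
  rw [ae_iff, ← measureReal_eq_zero_iff]
  refine le_antisymm (le_of_forall_pos_le_add (fun ε hε => ?_)) measureReal_nonneg
  obtain ⟨Λ, hΛ⟩ := exists_nat_gt (2 / ε)
  have Λ0 : (0 : ℝ) < Λ := lt_trans (by positivity) hΛ
  obtain ⟨n, hn⟩ := exists_pow_lt_of_lt_one (x := ε / (4 * Λ)) (y := (1 / 2 : ℝ)) (by positivity)
    (by norm_num)
  obtain ⟨w0, hw0, hw⟩ : ∃ w0, w1 ≤ w0 ∧ (1 / 2 : ℝ) ^ w0 ≤ ε / (4 * Λ) :=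
    ⟨w1 + n, by omega, (pow_le_pow_of_le_one (by norm_num) (by norm_num) (by omega)).trans hn.le⟩
  obtain ⟨c, hc⟩ : ∃ c, c = (RegF κ w0 0).card := ⟨_, rfl⟩
  have h1 := none_measure h κ w0 (Λ * 2 ^ c)
  have h2 := fun i : ℕ => fail_measureB (h.comp (add_right_injective
    (((0 : ℤ), (i * (2 * w0 ^ 12 + 1) : ℤ), (0 : ℤ)) : P3))) (κ := κ) (w0 := w0)
    (fun u => hw1 _ (by omega))
  rw [← hc] at h1 h2
  refine le_trans (measureReal_mono (s₂ := _ ∪ ⋃ i ∈ Finset.range (Λ * 2 ^ c), _) ?_)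
    ((measureReal_union_le _ _).trans ((add_le_add h1 ((measureReal_biUnion_finset_le _ _).trans
      (Finset.sum_le_sum (fun i _ => h2 i)))).trans ?_))
  · intro ω hω
    by_contra e
    rw [Set.mem_union, not_or] at e
    obtain ⟨e1, e2⟩ := e
    simp only [Set.mem_ofPred_eq, not_forall, not_not] at e1
    obtain ⟨i, hi, e1⟩ := e1
    exact e2 (Set.mem_biUnion hi ⟨e1, fun g => hω ⟨_, g⟩⟩)
  · have q : ((Λ * 2 ^ c : ℕ) : ℝ) * (1 / 2) ^ c = Λ := by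
      push_cast
      rw [mul_assoc, ← mul_pow]; norm_num
    have q1 : (1 / 2 : ℝ) ^ c ≤ 1 := pow_le_one₀ (by norm_num) (by norm_num)
    have a1 : (1 - (1 / 2 : ℝ) ^ c) ^ (Λ * 2 ^ c) ≤ ε / 2 := by
      have b1 : 1 - (1 / 2 : ℝ) ^ c ≤ Real.exp (-(1 / 2 : ℝ) ^ c) := by
        have := Real.add_one_le_exp (-(1 / 2 : ℝ) ^ c); linarith
      refine (pow_le_pow_left₀ (by linarith) b1 _).trans ?_
      rw [← Real.exp_nat_mul, mul_neg, q, Real.exp_neg]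
      have := Real.add_one_le_exp (Λ : ℝ)
      rw [inv_le_comm₀ (Real.exp_pos _) (by positivity), inv_div]
      linarith
    rw [Finset.sum_const, Finset.card_range, nsmul_eq_mul, zero_add]
    have a2 : ((Λ * 2 ^ c : ℕ) : ℝ) * (2 * (1 / 2) ^ w0 * (1 / 2) ^ c) = 2 * Λ * (1 / 2) ^ w0 := by
      conv_rhs => rw [← q]
      ring
    rw [le_div_iff₀ (by positivity)] at hw
    rw [a2]
    linarith

theorem main_thmB (X : (Fin 3 → ℤ) → Ω → Bool) (h : Fair μ X) :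
    ∀ᵐ ω ∂μ, ∃ v : Fin 3 → ℤ, ∀ ξ : ℕ → Bool,
      ∃ γ : ℕ → Fin 3 → ℤ, Function.Injective γ ∧ γ 0 = v ∧
        (∀ n, ∑ i, |γ (n + 1) i - γ n i| = 1) ∧ ∀ n, X (γ (n + 1)) ω = ξ n := by
  obtain ⟨φ, hφ⟩ : ∃ φ : P3 → Fin 3 → ℤ, ∀ q, φ q = ![q.1, q.2.1, q.2.2] := ⟨_, fun _ => rfl⟩
  have inj : Injective φ := by
    intro x y e
    rw [hφ, hφ] at e
    exact Prod.ext (congrFun e 0) (Prod.ext (congrFun e 1) (congrFun e 2))
  have ad : ∀ v p q : P3, adj3 p q → ∑ i, |φ (v + q) i - φ (v + p) i| = 1 := by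
    intro v p q e
    simp only [hφ, Fin.sum_univ_three, Matrix.cons_val_zero, Matrix.cons_val_one, Matrix.cons_val,
      Prod.fst_add, Prod.snd_add, add_sub_add_left_eq_sub]
    rcases e with ⟨e | e, a, b⟩ | ⟨a, e | e, b⟩ | ⟨a, b, e | e⟩ <;> rw [e, a, b] <;> simp
  filter_upwards [main_P3B (h.comp inj)] with ω ⟨v, hv⟩
  refine ⟨φ (v + (0, 0, 0)), fun ξ => ?_⟩
  obtain ⟨γ, h1, h2, h3, h4⟩ := hv ξ
  exact ⟨fun n => φ (v + γ n), inj.comp ((add_right_injective v).comp h1), by simp only [h2],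
    fun n => ad v _ _ (h3 n), h4⟩

end Pool.Agent.P.MP_f475a8_pr.BK
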