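/-! Definitions evaluated by the kernel: a dynamic programme over the states of one layer of a
3 by 3 tube, on vectors of 32 bit fields packed into natural numbers. -/

set_option autoImplicit false

namespace Pool.Agent.P.MP_f475a8_pr

inductive BT where
  | lf (n : Nat) : BT
  | nd (l r : BT) : BT

inductive Pth where
  | nil : Pth
  | z (p : Pth) : Pth
  | o (p : Pth) : Pth

inductive TT where
  | lf (p : Pth) : TT
  | nd (a b c : TT) : TT

/-- evaluate `n`, then continue -/
noncomputable def fo (n : Nat) (k : Nat → Bool) : Bool :=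
  Bool.rec (k n) (k n) (Nat.ble n 0)

/-- packing of `n` fields -/
noncomputable def pk (n : Nat) (x : Nat → Nat) : Nat :=
  Nat.rec 0 (fun i r => Nat.add r (Nat.shiftLeft (x i) (Nat.mul 32 i))) n

/-- the field number `i` -/
def fl (X i : Nat) : Nat := Nat.mod (Nat.shiftRight X (Nat.mul 32 i)) 4294967296

/-- full fields where `p` holds -/
noncomputable def mk (n : Nat) (p : Nat → Bool) : Nat :=
  pk n (fun i => cond (p i) 4294967295 0)

noncomputable def cst (n c : Nat) : Nat := pk n (fun _ => c)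

def spread (s om : Nat) : Nat :=
  Nat.land (Nat.lor (Nat.lor (Nat.lor (Nat.lor s (Nat.shiftLeft (Nat.land s 219) 1))
    (Nat.shiftRight (Nat.land s 438) 1)) (Nat.shiftLeft s 3)) (Nat.shiftRight s 3)) om

def clo0 (s om : Nat) : Nat :=
  spread (spread (spread (spread (spread (spread (spread (spread s om) om) om) om) om) om) om) om

def clo (s om : Nat) : Nat := clo0 (Nat.land s om) om

def bitn (A k : Nat) : Nat := Nat.mod (Nat.shiftRight A k) 2

def cN (A : Nat) : Nat := Nat.add (Nat.add (bitn A 8) (bitn A 7)) (bitn A 6)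
def cE (A : Nat) : Nat := Nat.add (Nat.add (bitn A 2) (bitn A 5)) (bitn A 8)
def cS (A : Nat) : Nat := Nat.add (Nat.add (bitn A 0) (bitn A 1)) (bitn A 2)

noncomputable def lk (p : Pth) : BT → Nat :=
  Pth.rec (motive := fun _ => BT → Nat)
    (fun t => BT.rec (motive := fun _ => Nat) (fun n => n) (fun _ _ _ _ => 0) t)
    (fun _ ih t => BT.rec (motive := fun _ => Nat) (fun n => n) (fun l _ _ _ => ih l) t)
    (fun _ ih t => BT.rec (motive := fun _ => Nat) (fun n => n) (fun _ r _ _ => ih r) t) p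

noncomputable def pthK (d : Nat) : Nat → (Pth → Bool) → Bool :=
  Nat.rec (motive := fun _ => Nat → (Pth → Bool) → Bool)
    (fun _ k => k Pth.nil)
    (fun _ ih B k => Bool.rec (ih (Nat.div B 2) (fun p => k (Pth.o p)))
      (ih (Nat.div B 2) (fun p => k (Pth.z p))) (Nat.beq (Nat.mod B 2) 0)) d

noncomputable def ttK (d : Nat) : (Nat → Nat → Nat) → (TT → Bool) → Bool :=
  Nat.rec (motive := fun _ => (Nat → Nat → Nat) → (TT → Bool) → Bool)
    (fun f k => fo (f 0 0) (fun B => pthK 9 B (fun p => k (TT.lf p))))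
    (fun _ ih f k =>
      ih (fun s om => f (Nat.mul 2 s) (Nat.mul 2 om)) (fun a =>
      ih (fun s om => f (Nat.mul 2 s) (Nat.succ (Nat.mul 2 om))) (fun b =>
      ih (fun s om => f (Nat.succ (Nat.mul 2 s)) (Nat.succ (Nat.mul 2 om))) (fun c =>
      k (TT.nd a b c))))) d

noncomputable def zipK (f : Nat → Nat → Nat) (s : BT) : BT → (BT → Bool) → Bool :=
  BT.rec (motive := fun _ => BT → (BT → Bool) → Bool)
    (fun a t k => BT.rec (motive := fun _ => Bool)
      (fun b => fo (f a b) (fun v => k (BT.lf v))) (fun _ _ _ _ => false) t)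
    (fun _ _ ihl ihr t k => BT.rec (motive := fun _ => Bool)
      (fun _ => false)
      (fun l r _ _ => ihl l (fun x => ihr r (fun y => k (BT.nd x y)))) t) s

/-- zip, with the index of the leaf -/
noncomputable def zipI (s : BT) : BT → (Nat → Nat → Nat → Nat) → (BT → Bool) → Bool :=
  BT.rec (motive := fun _ => BT → (Nat → Nat → Nat → Nat) → (BT → Bool) → Bool)
    (fun a t f k => BT.rec (motive := fun _ => Bool)
      (fun b => fo (f 0 a b) (fun v => k (BT.lf v))) (fun _ _ _ _ => false) t)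
    (fun _ _ ihl ihr t f k => BT.rec (motive := fun _ => Bool)
      (fun _ => false)
      (fun l r _ _ => ihl l (fun S => f (Nat.mul 2 S)) (fun x =>
        ihr r (fun S => f (Nat.succ (Nat.mul 2 S))) (fun y => k (BT.nd x y)))) t) s

noncomputable def cstK (d c : Nat) (k : BT → Bool) : Bool :=
  Nat.rec (motive := fun _ => (BT → Bool) → Bool) (fun k => k (BT.lf c))
    (fun _ ih k => ih (fun t => k (BT.nd t t))) d k

noncomputable def redK (T : BT) (t : TT) : (BT → Bool) → Bool :=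
  TT.rec (motive := fun _ => (BT → Bool) → Bool)
    (fun p k => fo (lk p T) (fun v => k (BT.lf v)))
    (fun _ _ _ iha ihb ihc k => iha (fun x => ihb (fun y => ihc (fun z =>
      zipK Nat.add x y (fun u => zipK Nat.add x z (fun v => k (BT.nd u v))))))) t

/-- combine the leaf `S` with the leaf obtained by setting the bit `b` -/
noncomputable def bsK (m : Nat → Nat → Nat) (b : Nat) : BT → (BT → Bool) → Bool :=
  Nat.rec (motive := fun _ => BT → (BT → Bool) → Bool)
    (fun t k => BT.rec (motive := fun _ => Bool) (fun _ => false)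
      (fun l r _ _ => zipK m l r (fun x => zipK m r r (fun y => k (BT.nd x y)))) t)
    (fun _ ih t k => BT.rec (motive := fun _ => Bool) (fun _ => false)
      (fun l r _ _ => ih l (fun x => ih r (fun y => k (BT.nd x y)))) t) b

noncomputable def iterK (f : BT → (BT → Bool) → Bool) (n : Nat) (t : BT) :
    (BT → Bool) → Bool :=
  Nat.rec (motive := fun _ => (BT → Bool) → Bool) (fun k => k t)
    (fun _ ih k => ih (fun u => f u k)) n

noncomputable def itn (f : Nat → Nat) (j X : Nat) : Nat := Nat.rec X (fun _ r => f r) j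

/-- fieldwise maximum; `H` has the value 2^31 in every field -/
def mx2 (H x d : Nat) : Nat :=
  Nat.add x (Nat.land d (Nat.sub (Nat.land d H) (Nat.shiftRight (Nat.land d H) 31)))

def mx (H x y : Nat) : Nat := mx2 H x (Nat.sub (Nat.add y H) x)

/-- fieldwise rounded up `x * c / 2^s` -/
def cdiv (R HM c s X : Nat) : Nat := Nat.shiftRight (Nat.land (Nat.add (Nat.mul X c) R) HM) s

def ush0 (sh M1 M2 X : Nat) : Nat :=
  Nat.add (Nat.land (Nat.shiftRight X sh) M1) (Nat.land X M2)

def ushY (R HM sh M1 M2 M3 X : Nat) : Nat :=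
  Nat.add (ush0 sh M1 M2 X) (cdiv R HM 1742 11 (Nat.land X M3))

def dig (st i : Nat) : Nat := i / st % 5

def acc3 (a b c : Nat) : Bool :=
  (4 ≤ b && 4 ≤ c) || (4 ≤ a && 4 ≤ b) || (4 ≤ a && 4 ≤ c) ||
  (1 ≤ a && 2 ≤ b && 4 ≤ c) || (4 ≤ a && 2 ≤ b && 1 ≤ c) ||
  (1 ≤ a && 4 ≤ b && 3 ≤ c) || (3 ≤ a && 4 ≤ b && 1 ≤ c) ||
  (2 ≤ a && 1 ≤ b && 4 ≤ c) || (4 ≤ a && 1 ≤ b && 2 ≤ c) ||
  (2 ≤ a && 2 ≤ b && 3 ≤ c) || (3 ≤ a && 2 ≤ b && 2 ≤ c) ||
  (2 ≤ a && 4 ≤ b && 2 ≤ c) || (3 ≤ a && 1 ≤ b && 3 ≤ c)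

def accI (i : Nat) : Bool := acc3 (dig 25 i) (dig 5 i) (dig 1 i)

def Ft (j : Nat) : Nat :=
  cond (j == 0) 65536 (cond (j == 1) 43504 (cond (j == 2) 32830 (cond (j == 3) 27322 23518)))

noncomputable def sh3 (fN fE fS : Nat → Nat) (B X : Nat) : Nat :=
  itn fS (cS B) (itn fE (cE B) (itn fN (cN B) X))

/-- averaging over the 512 states of a layer -/
noncomputable def avgK (tt : TT) (R HM : Nat) (T : BT) (k : BT → Bool) : Bool :=
  redK T tt (fun u => zipK (fun a _ => cdiv R HM 1 9 a) u u k)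

/-- the first phase; `m` is the combination used for an entry bit -/
noncomputable def ph1K (tt : TT) (n R HM death : Nat) (m : Nat → Nat → Nat) (Wt : BT)
    (s0 : Nat → Nat → Nat) (k : Nat → Bool) : Bool :=
  fo (mk n (fun i => !accI i)) (fun NA =>
  cstK 9 death (fun V0 =>
  iterK (fun V k => zipI V Wt
      (fun B v w => Bool.rec (Nat.add (s0 B (Nat.land v NA)) w) death (Nat.beq B 0)) (fun Vt =>
    avgK tt R HM Vt (fun G => bsK m 0 G (fun G => bsK m 3 G (fun G => bsK m 6 G k))))) 7 V0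
    (fun V => k (lk (Pth.z (Pth.z (Pth.z (Pth.z (Pth.z (Pth.z (Pth.z (Pth.z (Pth.z
      Pth.nil))))))))) V))))

noncomputable def s0K (n : Nat) (k : (Nat → Nat → Nat) → Bool) : Bool :=
  fo (mk n (fun i => dig 25 i < 4)) (fun A1 => fo (mk n (fun i => !(dig 25 i < 4))) (fun A2 =>
  fo (mk n (fun i => dig 5 i < 4)) (fun B1 => fo (mk n (fun i => !(dig 5 i < 4))) (fun B2 =>
  fo (mk n (fun i => dig 1 i < 4)) (fun C1 => fo (mk n (fun i => !(dig 1 i < 4))) (fun C2 =>
  k (sh3 (ush0 800 A1 A2) (ush0 160 B1 B2) (ush0 32 C1 C2))))))))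

noncomputable def uYK (n st : Nat) (p : Nat → Bool) (k : (Nat → Nat) → Bool) : Bool :=
  fo (mk n (fun i => dig st i < 4)) (fun M1 =>
  fo (mk n (fun i => !(dig st i < 4) && !p (i / 125))) (fun M2 =>
  fo (pk n (fun i => cond (!(dig st i < 4) && p (i / 125)) 2047 0)) (fun R =>
  fo (cst n 4294965248) (fun HM =>
  fo (mk n (fun i => !(dig st i < 4) && p (i / 125))) (fun M3 =>
  k (ushY R HM (32 * st) M1 M2 M3))))))

def FJ (p : Bool) (j : Nat) : Nat := cond p (Ft j) 65536

def psi (pN pE pS : Nat → Bool) (i : Nat) : Nat :=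
  (FJ (pN (i / 125)) (dig 25 i) * FJ (pE (i / 125)) (dig 5 i) * FJ (pS (i / 125)) (dig 1 i)
    + 268435455) / 268435456

noncomputable def allK (n : Nat) (p : Nat → Bool) : Bool :=
  Nat.rec true (fun i r => p i && r) n

/-- the check of the constraints on the products over sets of children -/
noncomputable def conChk (nt : Nat) (pN pE pS : Nat → Bool) (Th : Nat → Nat) : Bool :=
  ttK 9 clo0 (fun tt =>
  fo (cst (125 * nt) 511) (fun R => fo (cst (125 * nt) 4294966784) (fun HM =>
  fo (cst (125 * nt) 2147483648) (fun H =>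
  fo (pk (125 * nt) (psi pN pE pS)) (fun P =>
  fo (pk (125 * nt) (fun i => Th (i / 125))) (fun death =>
  fo (mk (125 * nt) accI) (fun AC =>
  s0K (125 * nt) (fun s0 =>
  uYK (125 * nt) 25 pN (fun fN => uYK (125 * nt) 5 pE (fun fE => uYK (125 * nt) 1 pS (fun fS =>
  cstK 9 P (fun U0 =>
  iterK (fun U k => zipI U U (fun B u _ => sh3 fN fE fS B u) (fun Vt => avgK tt R HM Vt k)) 10 U0
    (fun U => zipI U U (fun B u _ => Nat.land (sh3 fN fE fS B u) (s0 B AC)) (fun Wt =>
  ph1K tt (125 * nt) R HM death (mx H) Wt s0 (fun X =>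
  allK nt (fun j => Nat.ble (fl X (125 * j)) (Th j)))))))))))))))))

def jsh (H R HM Lo Hi y : Nat) : Nat :=
  mx H (Nat.shiftLeft (Nat.land y Lo) 4000) (cdiv R HM 1204 10 (Nat.land y Hi))

/-- the check of the rejection bound -/
noncomputable def rejChk : Bool :=
  ttK 9 clo0 (fun tt =>
  fo (cst 625 511) (fun R => fo (cst 625 4294966784) (fun HM =>
  fo (cst 625 2147483648) (fun H =>
  fo (pk 625 (fun i => Ft (i / 125))) (fun death =>
  fo (pk 625 (fun i => cond (500 ≤ i) 1023 0)) (fun R2 => fo (cst 625 4294966272) (fun HM2 =>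
  fo (mk 500 (fun _ => true)) (fun Lo => fo (mk 625 (fun i => 500 ≤ i)) (fun Hi =>
  s0K 625 (fun s0 =>
  cstK 9 0 (fun Wt =>
  ph1K tt 625 R HM death (fun x y => mx H x (jsh H R2 HM2 Lo Hi y)) Wt s0 (fun X =>
  allK 5 (fun j => Nat.ble (fl X (125 * j)) (Ft j))))))))))))))

end Pool.Agent.P.MP_f475a8_pr
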