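import Pool.Agent.P.MP_f475a8_pr.Vec
import Pool.Agent.P.MP_f475a8_pr.Ex

/-! The exploration of one tube, layer by layer. -/

set_option autoImplicit false
open Function

namespace Pool.Agent.P.MP_f475a8_pr

section
variable {V : Type*} [DecidableEq V]

def mkm : List V → (V → Bool) → ℕ
  | [], _ => 0
  | a :: l, x => 2 * mkm l x + (x a).toNat

theorem mkm_congr {l : List V} {x y : V → Bool} (h : ∀ a ∈ l, x a = y a) : mkm l x = mkm l y := by
  induction l with
  | nil => rfl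
  | cons a l ih =>
    rw [mkm, mkm, ih (fun b hb => h b (List.mem_cons_of_mem _ hb)), h a List.mem_cons_self]

theorem mkm_lt (l : List V) (x : V → Bool) : mkm l x < 2 ^ l.length := by
  induction l with
  | nil => simp [mkm]
  | cons a l ih =>
    have := Bool.toNat_le (x a)
    rw [mkm, List.length_cons, pow_succ]; omega

theorem ExL_mkm {l : List V} (hl : l.Nodup) (b : ℕ → ℝ) (ω : V → Bool) :
    ExL l (fun x => b (mkm l x)) ω = (∑ om ∈ Finset.range (2 ^ l.length), b om) / 2 ^ l.length := by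
  induction l generalizing b ω with
  | nil => simp [ExL, mkm]
  | cons a l ih =>
    obtain ⟨ha, hl⟩ := List.nodup_cons.1 hl
    have key : ∀ c : Bool, ExL l (fun x => b (mkm (a :: l) x)) (update ω a c) =
        ExL l (fun x => b (2 * mkm l x + c.toNat)) (update ω a c) := by
      intro c
      refine le_antisymm (ExL_le_of (fun y hy => ?_)) (ExL_le_of (fun y hy => ?_)) <;>
      rw [mkm, hy a ha, update_self]
    rw [ExL_cons, E1, key, key, ih hl (fun m => b (2 * m + true.toNat)),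
      ih hl (fun m => b (2 * m + false.toNat)), List.length_cons, sum_range_two_pow_succ, pow_succ]
    simp only [Bool.toNat_true, Bool.toNat_false, add_zero]
    field_simp
    ring

theorem testBit_mkm (g : ℕ → V) (n : ℕ) (x : V → Bool) (k : ℕ) :
    (mkm ((List.range n).map g) x).testBit k = (decide (k < n) && x (g k)) := by
  induction n generalizing g k with
  | zero => simp [mkm]
  | succ n ih =>
    rw [List.range_succ_eq_map, List.map_cons, List.map_map, mkm]
    cases k with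
    | zero =>
      rw [Nat.testBit_zero]
      cases x (g 0) <;> simp
    | succ k =>
      have := Bool.toNat_le (x (g 0))
      rw [Nat.testBit_succ, show (2 * mkm (List.map (g ∘ Nat.succ) (List.range n)) x +
        (x (g 0)).toNat) / 2 = mkm (List.map (g ∘ Nat.succ) (List.range n)) x by omega, ih]
      simp

end

def Lay (h : ℕ) : List (ℕ × ℕ) := (List.range 9).map (fun k => (h, k))

/-- the state of the layer `h` -/
def eta (x : ℕ × ℕ → Bool) (h : ℕ) : ℕ := if h < 34 then mkm (Lay h) x else 0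

def Up (h : ℕ) : Finset (ℕ × ℕ) := Finset.Ico h 34 ×ˢ Finset.range 9

theorem mem_Lay {h : ℕ} {a : ℕ × ℕ} : a ∈ Lay h ↔ a.1 = h ∧ a.2 < 9 := by
  obtain ⟨a, b⟩ := a
  simp only [Lay, List.mem_map, List.mem_range, Prod.mk.injEq]
  constructor
  · rintro ⟨k, h1, h2, h3⟩; omega
  · rintro ⟨h1, h2⟩; exact ⟨b, h2, h1.symm, rfl⟩

theorem mem_Up {h : ℕ} {a : ℕ × ℕ} : a ∈ Up h ↔ h ≤ a.1 ∧ a.1 < 34 ∧ a.2 < 9 := by
  simp [Up, and_assoc]

theorem eta_lt (x : ℕ × ℕ → Bool) (h : ℕ) : eta x h < 512 := by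
  unfold eta
  split_ifs
  · simpa [Lay] using mkm_lt (Lay h) x
  · norm_num

theorem testBit_eta {x : ℕ × ℕ → Bool} {h k : ℕ} (e : (eta x h).testBit k = true) :
    h < 34 ∧ k < 9 ∧ x (h, k) = true := by
  unfold eta at e
  split_ifs at e with h1
  · rw [Lay, testBit_mkm] at e
    simpa [h1] using e
  · simp at e

theorem eta_congr {x y : ℕ × ℕ → Bool} (h : ∀ a ∈ Up 0, x a = y a) : eta x = eta y := by
  funext i
  unfold eta
  split_ifs with h1
  · refine mkm_congr (fun a ha => h a ?_)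
    rw [mem_Lay] at ha
    rw [mem_Up]; omega
  · rfl

def Bd (h : ℕ) (g : (ℕ × ℕ → Bool) → ℝ) (β : ℝ) : Prop := ∀ x, Ex (Up h) g x ≤ β

theorem Bd.mono {h : ℕ} {g : (ℕ × ℕ → Bool) → ℝ} {β β' : ℝ} (H : Bd h g β) (e : β ≤ β') :
    Bd h g β' := fun x => (H x).trans e

theorem Bd_of_le {h : ℕ} {g : (ℕ × ℕ → Bool) → ℝ} {β : ℝ} (e : ∀ x, g x ≤ β) : Bd h g β :=
  fun _ => Ex_le_const (fun x _ => e x)

theorem Bd_step {h : ℕ} (hh : h < 34) (G : ℕ → (ℕ × ℕ → Bool) → ℝ) (b : ℕ → ℝ)
    (H : ∀ om < 512, Bd (h + 1) (G om) (b om)) :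
    Bd h (fun x => G (eta x h) x) ((∑ om ∈ Finset.range 512, b om) / 512) := by
  intro x
  have e : Up h = (Lay h).toFinset ∪ Up (h + 1) := by
    ext a
    simp only [Finset.mem_union, List.mem_toFinset, mem_Lay, mem_Up]; omega
  have hn : (Lay h).Nodup := List.nodup_range.map (fun a b e => by simpa using e)
  have h1 := ExL_mkm hn b x
  rw [show (Lay h).length = 9 by simp [Lay]] at h1
  norm_num at h1
  rw [e, Ex_union, ← h1, ← Ex_eq_ExL (R := (Lay h).toFinset) (by simp)]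
  refine Ex_mono (fun y => ?_) x
  have : Ex (Up (h + 1)) (fun x => G (eta x h) x) y = Ex (Up (h + 1)) (G (eta y h)) y := by
    refine Ex_congr_of (fun z hz => ?_)
    congr 1
    simp only [eta, if_pos hh]
    refine mkm_congr (fun a ha => hz a ?_)
    rw [mem_Lay] at ha
    rw [mem_Up]; omega
  rw [this]
  have h2 := H _ (eta_lt y h) y
  simpa only [eta, if_pos hh] using h2

theorem clo_lt (s om : ℕ) (h : om < 512) : clo s om < 512 :=
  lt_of_le_of_lt Nat.and_le_right h

def ob (q : Bool) (b A : ℕ) : ℕ := cond q (A ||| 2 ^ b) A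

/-- the seeds of a layer: the sites above active sites and the entry sites -/
def ent (p : ℕ → Bool) (A : ℕ) : ℕ := ob (p 0) 0 (ob (p 1) 3 (ob (p 2) 6 A))

def pc (p : ℕ → Bool) : ℕ := (p 0).toNat + (p 1).toNat + (p 2).toNat

theorem ob_lt (q : Bool) {b A : ℕ} (hb : b < 9) (hA : A < 512) : ob q b A < 512 := by
  cases q
  · exact hA
  · exact Nat.or_lt_two_pow (n := 9) hA (Nat.pow_lt_pow_right (by norm_num) hb)

abbrev Out := Option (ℕ × (ℕ → ℕ))

def ph2 (η : ℕ → ℕ) : ℕ → ℕ → ℕ → (ℕ → ℕ) → ℕ → ℕ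
  | 0, _, _, act => act
  | t + 1, h, A, act => ph2 η t (h + 1) (clo A (η h)) (update act h (clo A (η h)))

/-- one layer of the first phase, given the active set `B` of the layer -/
def ph1s (η : ℕ → ℕ) (kk : ℕ → Out) (h0 : ℕ) (nx : ℕ → ℕ → ℕ → ℕ → ℕ → (ℕ → ℕ) → Out)
    (h a b c : ℕ) (act : ℕ → ℕ) (B : ℕ) : Out :=
  if B = 0 then kk (h + 1) else
    if acc3 (min 4 (a + cN B)) (min 4 (b + cE B)) (min 4 (c + cS B)) = true then
      some (h0, ph2 η 10 (h + 1) B (update act h B))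
    else nx (h + 1) B (min 4 (a + cN B)) (min 4 (b + cE B)) (min 4 (c + cS B)) (update act h B)

def ph1 (P : ℕ → ℕ → Bool) (η : ℕ → ℕ) (kk : ℕ → Out) (h0 : ℕ) :
    ℕ → ℕ → ℕ → ℕ → ℕ → ℕ → (ℕ → ℕ) → Out
  | 0, h, _, _, _, _, _ => kk h
  | t + 1, h, A, a, b, c, act =>
    ph1s η kk h0 (ph1 P η kk h0 t) h a b c act (clo (ent (P h) A) (η h))

def out (P : ℕ → ℕ → Bool) (η : ℕ → ℕ) : ℕ → ℕ → Out
  | 0, _ => none
  | n + 1, h => if 17 ≤ h then none else ph1 P η (out P η n) h 7 h 0 0 0 0 (fun _ => 0)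

/-! ### Connectivity of the active sites -/

def ladj (j k : ℕ) : Prop :=
  (j + 1 = k ∧ j % 3 ≠ 2) ∨ (j = k + 1 ∧ j % 3 ≠ 0) ∨ j + 3 = k ∨ j = k + 3

theorem lt_of_testBit {s k : ℕ} (hs : s < 512) (h : s.testBit k = true) : k < 9 := by
  by_contra e
  rw [Nat.testBit_lt_two_pow (hs.trans_le
    (Nat.pow_le_pow_right (n := 2) (by norm_num) (show 9 ≤ k by omega)))] at h
  exact absurd h (by simp)

theorem testBit_spread {s om k : ℕ} (hs : s < 512) (h : (spread s om).testBit k = true) :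
    om.testBit k = true ∧ (s.testBit k = true ∨ ∃ j < 9, s.testBit j = true ∧ ladj j k) := by
  simp only [spread, Nat.land_eq, Nat.lor_eq, Nat.shiftLeft_eq', Nat.shiftRight_eq,
    Nat.testBit_and, Nat.testBit_or, Nat.testBit_shiftLeft, Nat.testBit_shiftRight,
    Bool.and_eq_true, Bool.or_eq_true, decide_eq_true_eq] at h
  have h1 : ∀ j < 9, Nat.testBit 219 j = true → j % 3 ≠ 2 := by decide
  have h2 : ∀ j < 9, Nat.testBit 438 j = true → j % 3 ≠ 0 := by decide
  refine ⟨h.2, ?_⟩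
  rcases h.1 with (((e | e) | e) | e) | e
  · exact Or.inl e
  · have := lt_of_testBit hs e.2.1
    exact Or.inr ⟨_, this, e.2.1, Or.inl ⟨by omega, h1 _ this e.2.2⟩⟩
  · have := lt_of_testBit hs e.1
    exact Or.inr ⟨_, this, e.1, Or.inr (Or.inl ⟨by omega, h2 _ this e.2⟩)⟩
  · have := lt_of_testBit hs e.2
    exact Or.inr ⟨_, this, e.2, Or.inr (Or.inr (Or.inl (by omega)))⟩
  · have := lt_of_testBit hs e
    exact Or.inr ⟨_, this, e, Or.inr (Or.inr (Or.inr (by omega)))⟩

theorem clo_conn {s om : ℕ} (hom : om < 512) (C : ℕ → ℕ → Prop) (l : ℕ)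
    (mono : ∀ k n, C k n → C k (n + 1))
    (lat : ∀ j k n, j < 9 → k < 9 → C j n → ladj j k → om.testBit k = true → C k (n + 1))
    (seed : ∀ k, s.testBit k = true → om.testBit k = true → C k l) :
    ∀ k, (clo s om).testBit k = true → C k (l + 8) := by
  have step : ∀ s l, s < 512 → (∀ k, s.testBit k = true → C k l) →
      spread s om < 512 ∧ ∀ k, (spread s om).testBit k = true → C k (l + 1) := by
    intro s l hs h
    have hlt : spread s om < 512 := lt_of_le_of_lt Nat.and_le_right hom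
    refine ⟨hlt, fun k hk => ?_⟩
    obtain ⟨h1, h2 | ⟨j, hj, h2, h3⟩⟩ := testBit_spread hs hk
    · exact mono _ _ (h k h2)
    · exact lat j k l hj (lt_of_testBit hlt hk) (h j h2) h3 h1
  have h0 : Nat.land s om < 512 ∧ ∀ k, (Nat.land s om).testBit k = true → C k l := by
    refine ⟨lt_of_le_of_lt Nat.and_le_right hom, fun k hk => ?_⟩
    rw [Nat.land_eq, Nat.testBit_and, Bool.and_eq_true] at hk
    exact seed k hk.1 hk.2
  have h1 := step _ _ h0.1 h0.2
  have h2 := step _ _ h1.1 h1.2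
  have h3 := step _ _ h2.1 h2.2
  have h4 := step _ _ h3.1 h3.2
  have h5 := step _ _ h4.1 h4.2
  have h6 := step _ _ h5.1 h5.2
  have h7 := step _ _ h6.1 h6.2
  exact (step _ _ h7.1 h7.2).2

theorem testBit_ob {q : Bool} {b A k : ℕ} (h : (ob q b A).testBit k = true) :
    A.testBit k = true ∨ (q = true ∧ k = b) := by
  cases q
  · exact Or.inl h
  · simp only [ob, cond_true, Nat.testBit_or, Bool.or_eq_true, Nat.testBit_two_pow,
      decide_eq_true_eq] at h
    exact h.imp id (fun e => ⟨rfl, e.symm⟩)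

theorem testBit_ent {p : ℕ → Bool} {A k : ℕ} (h : (ent p A).testBit k = true) :
    A.testBit k = true ∨ ∃ v < 3, p v = true ∧ k = 3 * v := by
  rcases testBit_ob h with h | h
  · rcases testBit_ob h with h | h
    · rcases testBit_ob h with h | h
      · exact Or.inl h
      · exact Or.inr ⟨2, by norm_num, h⟩
    · exact Or.inr ⟨1, by norm_num, h⟩
  · exact Or.inr ⟨0, by norm_num, h⟩

/-- a family of predicates which is closed under the moves inside the tube -/
structure Closed (P : ℕ → ℕ → Bool) (η : ℕ → ℕ) (C : ℕ → ℕ → ℕ → Prop) : Prop where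
  lt : ∀ h, η h < 512
  mono : ∀ h k n, C h k n → C h k (n + 1)
  lat : ∀ h j k n, j < 9 → k < 9 → C h j n → ladj j k → (η h).testBit k = true → C h k (n + 1)
  ver : ∀ h k n, C h k n → (η (h + 1)).testBit k = true → C (h + 1) k (n + 1)
  ent : ∀ h v, v < 3 → P h v = true → (η h).testBit (3 * v) = true → C h (3 * v) 1

theorem Closed.mono' {P : ℕ → ℕ → Bool} {η : ℕ → ℕ} {C : ℕ → ℕ → ℕ → Prop} (H : Closed P η C)
    {h k n m : ℕ} (e : C h k n) (hn : n ≤ m) : C h k m := by
  induction hn with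
  | refl => exact e
  | step _ ih => exact H.mono _ _ _ ih

def Good (C : ℕ → ℕ → ℕ → Prop) (act : ℕ → ℕ) : Prop :=
  ∀ h k, (act h).testBit k = true → C h k (9 * (h + 1))

/-- the active set `A` of the layer below `h` -/
def Pre (C : ℕ → ℕ → ℕ → Prop) (h A : ℕ) : Prop :=
  ∀ k, A.testBit k = true → ∃ h', h = h' + 1 ∧ C h' k (9 * h)

theorem Closed.layer {P : ℕ → ℕ → Bool} {η : ℕ → ℕ} {C : ℕ → ℕ → ℕ → Prop} (H : Closed P η C)
    {h A S : ℕ} {act : ℕ → ℕ} (hA : Pre C h A) (hact : Good C act)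
    (hS : ∀ k, S.testBit k = true → A.testBit k = true ∨ ∃ v < 3, P h v = true ∧ k = 3 * v) :
    Pre C (h + 1) (clo S (η h)) ∧ Good C (update act h (clo S (η h))) := by
  have key := clo_conn (s := S) (H.lt h) (C h) (9 * h + 1) (H.mono h) (H.lat h) (by
    intro k h1 h2
    rcases hS k h1 with e | ⟨v, hv, e, rfl⟩
    · obtain ⟨h', rfl, e'⟩ := hA k e
      exact H.ver _ _ _ e' h2
    · exact H.mono' (H.ent h v hv e h2) (by omega))
  refine ⟨fun k hk => ⟨h, rfl, key k hk⟩, fun i k hk => ?_⟩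
  by_cases e : i = h
  · subst e
    rw [update_self] at hk
    exact key k hk
  · rw [update_of_ne e] at hk
    exact hact i k hk

theorem Closed.ph2 {P : ℕ → ℕ → Bool} {η : ℕ → ℕ} {C : ℕ → ℕ → ℕ → Prop} (H : Closed P η C)
    (t : ℕ) : ∀ h A act, Pre C h A → Good C act → Good C (ph2 η t h A act) := by
  induction t with
  | zero => intro h A act _ e; exact e
  | succ t ih =>
    intro h A act h1 h2
    obtain ⟨h3, h4⟩ := H.layer h1 h2 (S := A) (fun k hk => Or.inl hk)
    exact ih _ _ _ h3 h4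

theorem Closed.ph1 {P : ℕ → ℕ → Bool} {η : ℕ → ℕ} {C : ℕ → ℕ → ℕ → Prop} (H : Closed P η C)
    (kk : ℕ → Out) (h0 : ℕ) (hh : h0 < 17)
    (hk : ∀ h r, kk h = some r → r.1 < 17 ∧ Good C r.2) (t : ℕ) :
    ∀ h A a b c act r, Pre C h A → Good C act → ph1 P η kk h0 t h A a b c act = some r →
      r.1 < 17 ∧ Good C r.2 := by
  induction t with
  | zero => intro h A a b c act r _ _ e; exact hk _ _ e
  | succ t ih =>
    intro h A a b c act r h1 h2 e
    obtain ⟨h3, h4⟩ := H.layer h1 h2 (S := MP_f475a8_pr.ent (P h) A) (fun k hk => testBit_ent hk)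
    rw [MP_f475a8_pr.ph1, ph1s] at e
    split_ifs at e
    · exact hk _ _ e
    · obtain rfl := Option.some.inj e
      exact ⟨hh, H.ph2 _ _ _ _ h3 h4⟩
    · exact ih _ _ _ _ _ _ _ h3 h4 e

theorem Closed.out {P : ℕ → ℕ → Bool} {η : ℕ → ℕ} {C : ℕ → ℕ → ℕ → Prop} (H : Closed P η C)
    (n : ℕ) : ∀ h r, out P η n h = some r → r.1 < 17 ∧ Good C r.2 := by
  induction n with
  | zero => intro h r e; exact absurd e (by simp [MP_f475a8_pr.out])
  | succ n ih =>
    intro h r e
    rw [MP_f475a8_pr.out] at e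
    split_ifs at e with h1
    exact H.ph1 _ h (by omega) ih 7 _ _ _ _ _ _ r (fun k hk => by simp at hk)
      (fun h k hk => by simp at hk) e

end Pool.Agent.P.MP_f475a8_pr
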