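import Pool.Agent.P.MP_f475a8_pr.Contour

/-! The total weight of chordless king paths decays geometrically. -/

set_option autoImplicit false

namespace Pool.Agent.P.MP_f475a8_pr

theorem sum_biUnion_le' {ι α : Type*} [DecidableEq α] (s : Finset ι) (t : ι → Finset α)
    (f : α → ℝ) (hf : ∀ a, 0 ≤ f a) :
    ∑ a ∈ s.biUnion t, f a ≤ ∑ i ∈ s, ∑ a ∈ t i, f a := by
  classical
  induction s using Finset.induction_on with
  | empty => simp
  | insert i s hi ih =>
    rw [Finset.biUnion_insert, Finset.sum_insert hi]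
    have h1 := Finset.sum_union_inter (s₁ := t i) (s₂ := s.biUnion t) (f := f)
    have h2 : 0 ≤ ∑ a ∈ t i ∩ s.biUnion t, f a := Finset.sum_nonneg (fun a _ => hf a)
    linarith

def dv : Fin 8 → Cl := ![(1, 0), (1, 1), (0, 1), (-1, 1), (-1, 0), (-1, -1), (0, -1), (1, -1)]

theorem exists_dv {a b : Cl} (h : kadj a b) (hne : a ≠ b) : ∃ d, b = a + dv d := by
  obtain ⟨a1, a2⟩ := a
  obtain ⟨b1, b2⟩ := b
  simp only [kadj] at h
  have hne' : ¬ (a1 = b1 ∧ a2 = b2) := by simpa using hne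
  have h1 : b1 = a1 + 1 ∨ b1 = a1 + 0 ∨ b1 = a1 + -1 := by omega
  have h2 : b2 = a2 + 1 ∨ b2 = a2 + 0 ∨ b2 = a2 + -1 := by omega
  rcases h1 with rfl | rfl | rfl <;> rcases h2 with rfl | rfl | rfl
  exacts [⟨1, rfl⟩, ⟨0, rfl⟩, ⟨7, rfl⟩, ⟨2, rfl⟩, absurd (by simp) hne', ⟨6, rfl⟩, ⟨3, rfl⟩,
    ⟨4, rfl⟩, ⟨5, rfl⟩]

def Ext : ℕ → Cl → Cl → Cl → List Cl → Finset (List Cl)
  | 0, x, y, z, r => {x :: y :: z :: r}
  | n + 1, x, y, z, r => Finset.univ.biUnion (fun d : Fin 8 =>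
      if ¬ kadj (x + dv d) y ∧ ¬ kadj (x + dv d) z then Ext n (x + dv d) x y (z :: r) else ∅)

def alw (d1 d2 d : Fin 8) : Bool := !kadj (dv d + dv d2) 0 && !kadj (dv d + dv d2 + dv d1) 0

def typ (d2 d : Fin 8) : Fin 3 :=
  if d.val % 2 = 0 then 0 else if d2.val % 2 = 1 ∧ d2 ≠ d then 2 else 1

def wW : Fin 3 → Fin 3 → ℕ :=
  ![![21820, 27862, 28002], ![21820, 21852, 28002], ![21820, 21852, 21866]]
def nq : Fin 3 → Fin 3 → Fin 3 := ![![0, 1, 1], ![0, 0, 2], ![0, 0, 0]]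
def R1 : Fin 3 → ℕ := ![459, 360, 360]
def R2 : Fin 3 → ℕ := ![1652, 1652, 1290]

def vE : Fin 8 → Fin 3 → ℕ := ![![692, 603, 603], ![1000, 941, 887], ![692, 603, 603],
  ![635, 582, 556], ![224, 224, 224], ![635, 582, 556], ![692, 603, 603], ![1000, 941, 887]]
def vO : Fin 8 → Fin 3 → ℕ := ![![692, 603, 603], ![1000, 941, 887], ![692, 603, 603],
  ![789, 737, 710], ![269, 224, 224], ![224, 224, 224], ![269, 224, 224], ![789, 737, 710]]

def vv (d1 d2 : Fin 8) (q : Fin 3) : ℕ :=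
  if d1.val % 2 = 0 then vE (d2 - d1) q else vO (d2 - d1 + 1) q

theorem aut_main : ∀ (d1 d2 : Fin 8) (q : Fin 3),
    (∑ d : Fin 8, if alw d1 d2 d = true then wW q (typ d2 d) * vv d2 d (nq q (typ d2 d)) else 0)
      ≤ 98000 * vv d1 d2 q := by decide +kernel

theorem vv_bd : ∀ (d1 d2 : Fin 8) (q : Fin 3), 224 ≤ vv d1 d2 q ∧ vv d1 d2 q ≤ 1000 := by
  decide +kernel

theorem aut_loc : ∀ (q t : Fin 3), 21820 ≤ wW q t ∧ (t ≠ 0 → 607 * R1 q ≤ 10 * wW q t) ∧
    (t = 2 → 1695 * R2 q ≤ 100 * wW q t) ∧ 10000000 ≤ R1 (nq q t) * wW q t ∧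
    (t ≠ 0 → 100000 * R1 q ≤ R2 (nq q t) * wW q t) := by decide +kernel

theorem typ_facts : ∀ d2 d : Fin 8, (diag (dv d) 0 → typ d2 d ≠ 0) ∧
    (diag (dv d) 0 → diag (dv d2) 0 → dv d ≠ dv d2 → typ d2 d = 2) := by decide +kernel

noncomputable def lam : ℝ := 98 / 100

noncomputable abbrev DD (l : List Cl) : ℝ := D (fun _ => True) l

theorem DD_cons {x y z : Cl} {r : List Cl} {B : ℝ} (h1 : c1 * DD (y :: z :: r) ≤ B)
    (h2 : diag x y → c2 * DD (z :: r) ≤ B) (h3 : vee x y z → c3 * DD r ≤ B) :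
    DD (x :: y :: z :: r) ≤ B := by
  refine D_le (fun w hw => ?_)
  cases hw with
  | skip h => exact absurd trivial h
  | one _ h => exact (mul_le_mul_of_nonneg_left h.le_D c1_pos.le).trans h1
  | two _ _ e h => exact (mul_le_mul_of_nonneg_left h.le_D c2_pos.le).trans (h2 e)
  | three _ _ _ e h => exact (mul_le_mul_of_nonneg_left h.le_D c3_pos.le).trans (h3 e)

theorem sum_Ext (n : ℕ) : ∀ (d1 d2 : Fin 8) (q : Fin 3) (z : Cl) (r : List Cl) (B : ℝ), 0 ≤ B →
    DD ((z + dv d1 + dv d2) :: (z + dv d1) :: z :: r) ≤ B →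
    DD ((z + dv d1) :: z :: r) ≤ R1 q / 100 * B →
    (diag (dv d2) 0 → DD (z :: r) ≤ R2 q / 100 * B) →
    ∑ l ∈ Ext n (z + dv d1 + dv d2) (z + dv d1) z r, DD l ≤ B * vv d1 d2 q / 224 * lam ^ n := by
  induction n with
  | zero =>
    intro d1 d2 q z r B hB h1 _ _
    have : (224 : ℝ) ≤ vv d1 d2 q := by exact_mod_cast (vv_bd d1 d2 q).1
    rw [Ext, Finset.sum_singleton, pow_zero, mul_one, le_div_iff₀ (by norm_num)]
    nlinarith
  | succ n ih =>
    intro d1 d2 q z r B hB h1 h2 h3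
    rw [Ext]
    refine (sum_biUnion_le' _ _ _ (fun l => D_nonneg _ l)).trans ?_
    have hl : 0 ≤ lam ^ n := by unfold lam; positivity
    have key : ∀ d : Fin 8, ∑ l ∈ (if ¬ kadj (z + dv d1 + dv d2 + dv d) (z + dv d1) ∧
        ¬ kadj (z + dv d1 + dv d2 + dv d) z then
        Ext n (z + dv d1 + dv d2 + dv d) (z + dv d1 + dv d2) (z + dv d1) (z :: r) else ∅), DD l ≤
        (B / 224 * lam ^ n / 100000) * ((if alw d1 d2 d = true then
          wW q (typ d2 d) * vv d2 d (nq q (typ d2 d)) else 0 : ℕ) : ℝ) := by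
      intro d
      have e : (¬ kadj (z + dv d1 + dv d2 + dv d) (z + dv d1) ∧
          ¬ kadj (z + dv d1 + dv d2 + dv d) z) ↔ alw d1 d2 d = true := by
        simp only [alw, kadj, Prod.fst_add, Prod.snd_add, Prod.fst_zero, Prod.snd_zero,
          Bool.and_eq_true, Bool.not_eq_true', decide_eq_false_iff_not]
        omega
      simp only [e]
      split_ifs
      · obtain ⟨a1, a2, a3, a4, a5⟩ := aut_loc q (typ d2 d)
        obtain ⟨t1, t2⟩ := typ_facts d2 d
        generalize typ d2 d = t at *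
        have b1 : (21820 : ℝ) ≤ wW q t := by exact_mod_cast a1
        have b4 : (10000000 : ℝ) ≤ R1 (nq q t) * wW q t := by exact_mod_cast a4
        have := ih d2 d (nq q t) (z + dv d1) (z :: r) (wW q t / 100000 * B) (by positivity)
          (DD_cons ?_ (fun hd => ?_) (fun hd => ?_)) ?_ (fun hd => ?_)
        · refine this.trans (le_of_eq ?_)
          push_cast; ring
        · unfold c1; nlinarith
        · have hd' : diag (dv d) 0 := by
            simp only [diag, Prod.fst_add, Prod.snd_add, Prod.fst_zero, Prod.snd_zero] at hd ⊢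
            omega
          have b2 : (607 : ℝ) * R1 q ≤ 10 * wW q t := by exact_mod_cast a2 (t1 hd')
          unfold c2; nlinarith
        · have hd' : diag (dv d) 0 ∧ diag (dv d2) 0 ∧ dv d ≠ dv d2 := by
            simp only [vee, diag, Prod.fst_add, Prod.snd_add, Prod.fst_zero, Prod.snd_zero, Ne,
              Prod.ext_iff] at hd ⊢
            omega
          have b3 : (1695 : ℝ) * R2 q ≤ 100 * wW q t := by
            exact_mod_cast a3 (t2 hd'.1 hd'.2.1 hd'.2.2)
          have := h3 hd'.2.1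
          unfold c3; nlinarith
        · nlinarith
        · have b5 : (100000 : ℝ) * R1 q ≤ R2 (nq q t) * wW q t := by exact_mod_cast a5 (t1 hd)
          nlinarith
      · simp
    refine (Finset.sum_le_sum (fun d _ => key d)).trans ?_
    rw [← Finset.mul_sum, ← Nat.cast_sum]
    refine (mul_le_mul_of_nonneg_left (Nat.cast_le.2 (aut_main d1 d2 q)) (by positivity)).trans
      (le_of_eq ?_)
    push_cast
    rw [pow_succ]; unfold lam; ring

/-- a finite family containing all chordless king paths with `n + 2` steps from `x` -/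
def Fam (x : Cl) (n : ℕ) : Finset (List Cl) :=
  Finset.univ.biUnion (fun d : Fin 8 × Fin 8 => Ext n (x + dv d.1 + dv d.2) (x + dv d.1) x [])

theorem sum_Fam (x : Cl) (n : ℕ) : ∑ l ∈ Fam x n, DD l ≤ 320 * lam ^ n := by
  refine (sum_biUnion_le' _ _ _ (fun l => D_nonneg _ l)).trans ?_
  have hl : 0 ≤ lam ^ n := by unfold lam; positivity
  have : ∀ d : Fin 8 × Fin 8, ∑ l ∈ Ext n (x + dv d.1 + dv d.2) (x + dv d.1) x [], DD l ≤
      5 * lam ^ n := by
    intro d
    refine (sum_Ext n d.1 d.2 0 x [] 1 zero_le_one (D_le_one _ _) ((D_le_one _ _).trans ?_)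
      (fun _ => (D_le_one _ _).trans ?_)).trans (mul_le_mul_of_nonneg_right ?_ hl)
    · simp [R1]; norm_num
    · simp [R2]; norm_num
    · have : (vv d.1 d.2 0 : ℝ) ≤ 1000 := by exact_mod_cast (vv_bd _ _ _).2
      linarith
  refine (Finset.sum_le_sum (fun d _ => this d)).trans (le_of_eq ?_)
  simp; ring

/-- the list `[p i, ..., p 0]` -/
def rev (p : ℕ → Cl) : ℕ → List Cl
  | 0 => [p 0]
  | i + 1 => p (i + 1) :: rev p i

theorem mem_rev {p : ℕ → Cl} {i : ℕ} {y : Cl} : y ∈ rev p i ↔ ∃ j ≤ i, y = p j := by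
  induction i with
  | zero => simp [rev]
  | succ i ih =>
    simp only [rev, List.mem_cons, ih]
    constructor
    · rintro (rfl | ⟨j, h, rfl⟩)
      · exact ⟨_, le_rfl, rfl⟩
      · exact ⟨j, by omega, rfl⟩
    · rintro ⟨j, h, rfl⟩
      rcases Nat.le_succ_iff.1 h with h | rfl
      · exact Or.inr ⟨j, h, rfl⟩
      · exact Or.inl rfl

structure Chordless (p : ℕ → Cl) (m : ℕ) : Prop where
  adj : ∀ i < m, kadj (p i) (p (i + 1))
  inj : ∀ i j, i < j → j ≤ m → p i ≠ p j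
  far : ∀ i j, i + 1 < j → j ≤ m → ¬ kadj (p i) (p j)

theorem Chordless.CL {p : ℕ → Cl} {m : ℕ} (h : Chordless p m) : ∀ i ≤ m, CL (rev p i) := by
  intro i
  induction i with
  | zero => intro _; simp [rev, MP_f475a8_pr.CL]
  | succ i ih =>
    intro hi
    refine ⟨fun e => ?_, fun y hy hk => ?_, ih (by omega)⟩
    · obtain ⟨j, h1, h2⟩ := mem_rev.1 e
      exact h.inj j (i + 1) (by omega) hi h2.symm
    · cases i with
      | zero => simp [rev] at hy
      | succ i =>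
        obtain ⟨j, h1, rfl⟩ := mem_rev.1 (show y ∈ rev p i from hy)
        exact h.far j (i + 1 + 1) (by omega) hi hk.symm

theorem Chordless.mem_Ext {p : ℕ → Cl} {m : ℕ} (h : Chordless p m) (n : ℕ) :
    ∀ i r, rev p i = p i :: r → i + 2 + n ≤ m →
      rev p (i + 2 + n) ∈ Ext n (p (i + 2)) (p (i + 1)) (p i) r := by
  induction n with
  | zero => intro i r e _; simp [Ext, rev, e]
  | succ n ih =>
    intro i r e hi
    obtain ⟨d, hd⟩ := exists_dv (h.adj (i + 2) (by omega)) (h.inj _ _ (by omega) (by omega))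
    rw [Ext, Finset.mem_biUnion]
    refine ⟨d, Finset.mem_univ _, ?_⟩
    rw [← hd, if_pos ⟨fun e => h.far _ _ (by omega) (by omega) e.symm,
      fun e => h.far _ _ (by omega) (by omega) e.symm⟩, show i + 2 + (n + 1) = i + 1 + 2 + n by ring]
    exact ih (i + 1) (p i :: r) (by rw [rev, e]) (by omega)

theorem Chordless.mem_Fam {p : ℕ → Cl} {m : ℕ} (h : Chordless p m) {n : ℕ} (hn : 2 + n ≤ m) :
    rev p (2 + n) ∈ Fam (p 0) n := by
  obtain ⟨d1, h1⟩ := exists_dv (h.adj 0 (by omega)) (h.inj _ _ (by omega) (by omega))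
  obtain ⟨d2, h2⟩ := exists_dv (h.adj 1 (by omega)) (h.inj _ _ (by omega) (by omega))
  have := h.mem_Ext n 0 [] rfl (by omega)
  rw [Fam, Finset.mem_biUnion]
  refine ⟨(d1, d2), Finset.mem_univ _, ?_⟩
  simp only [zero_add] at h1 this
  rw [← h1, ← h2]
  exact this

end Pool.Agent.P.MP_f475a8_pr
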