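import Pool.Agent.P.MP_f475a8_pr.Explore

/-! Planar duality in a rectangle of cells. -/

set_option autoImplicit false
open Relation Classical

namespace Pool.Agent.P.MP_f475a8_pr

theorem exists_short {α : Type*} (r : α → α → Prop) (U : α → Prop) {x y : α} (hx : U x)
    (h : ReflTransGen (fun a b => r a b ∧ U b) x y) :
    ∃ (n : ℕ) (p : ℕ → α), p 0 = x ∧ p n = y ∧ (∀ i < n, r (p i) (p (i + 1))) ∧
      (∀ i ≤ n, U (p i)) ∧ (∀ i j, i < j → j ≤ n → p i ≠ p j) ∧
      (∀ i j, i + 1 < j → j ≤ n → ¬ r (p i) (p j)) := by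
  have ex : ∃ n : ℕ, ∃ p : ℕ → α, p 0 = x ∧ p n = y ∧ (∀ i < n, r (p i) (p (i + 1))) ∧
      (∀ i ≤ n, U (p i)) := by
    induction h with
    | refl => exact ⟨0, fun _ => x, rfl, rfl, by simp, fun _ _ => hx⟩
    | @tail b c _ h ih =>
      obtain ⟨n, p, h1, h2, h3, h4⟩ := ih
      refine ⟨n + 1, fun i => if i ≤ n then p i else c, by simp [h1], by simp, fun i hi => ?_,
        fun i hi => ?_⟩
      · by_cases e : i = n
        · subst e; simp [h2, h.1]
        · simp only [if_pos (show i ≤ n by omega), if_pos (show i + 1 ≤ n by omega)]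
          exact h3 i (by omega)
      · by_cases e : i ≤ n
        · simp only [if_pos e]; exact h4 i e
        · simp only [if_neg e]; exact h.2
  obtain ⟨p, h1, h2, h3, h4⟩ := Nat.find_spec ex
  have hmin := fun m (h : m < Nat.find ex) => Nat.find_min ex h
  generalize Nat.find ex = n at *
  have cut : ∀ i s, 0 < s → i + s ≤ n → (i + s = n → p i = p n) →
      (i + s < n → r (p i) (p (i + s + 1))) → False := by
    intro i s hs a1 a2 a3
    refine hmin (n - s) (by omega) ⟨fun k => if k ≤ i then p k else p (k + s), by simp [h1], ?_,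
      fun k hk => ?_, fun k hk => ?_⟩
    · by_cases e : n - s ≤ i
      · simp only [if_pos e]
        rw [show n - s = i by omega, a2 (by omega), h2]
      · simp only [if_neg e]
        rw [show n - s + s = n by omega, h2]
    · rcases lt_trichotomy k i with e | rfl | e
      · simp only [if_pos e.le, if_pos (show k + 1 ≤ i by omega)]
        exact h3 k (by omega)
      · simp only [le_refl, if_true, if_neg (show ¬ k + 1 ≤ k by omega)]
        rw [show k + 1 + s = k + s + 1 by ring]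
        exact a3 (by omega)
      · simp only [if_neg (show ¬ k ≤ i by omega), if_neg (show ¬ k + 1 ≤ i by omega)]
        rw [show k + 1 + s = k + s + 1 by ring]
        exact h3 _ (by omega)
    · by_cases e : k ≤ i
      · simp only [if_pos e]; exact h4 k (by omega)
      · simp only [if_neg e]; exact h4 _ (by omega)
  refine ⟨n, p, h1, h2, h3, h4, fun i j a b e => ?_, fun i j a b e => ?_⟩
  · refine cut i (j - i) (by omega) (by omega) (fun h => ?_) (fun h => ?_)
    · rw [e, show j = n by omega]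
    · rw [e, show i + (j - i) = j by omega]; exact h3 j (by omega)
  · refine cut i (j - i - 1) (by omega) (by omega) (fun h => by omega) (fun h => ?_)
    rwa [show i + (j - i - 1) + 1 = j by omega]

def Rc (A B : ℕ) (c : Cl) : Prop := 0 ≤ c.1 ∧ c.1 ≤ A ∧ 0 ≤ c.2 ∧ c.2 ≤ B

noncomputable def ind (p : Prop) : ZMod 2 := if p then 1 else 0

theorem ind_false {p : Prop} (h : ¬ p) : ind p = 0 := if_neg h
theorem ind_true {p : Prop} (h : p) : ind p = 1 := if_pos h

theorem hex (A B : ℕ) (blk : Cl → Prop) :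
    (∃ x y : Cl, x.1 = 0 ∧ y.1 = A ∧ (Rc A B x ∧ ¬ blk x) ∧
      ReflTransGen (fun a b => adj4 a b ∧ (Rc A B b ∧ ¬ blk b)) x y) ∨
    (∃ x y : Cl, x.2 = B ∧ y.2 = 0 ∧ (Rc A B x ∧ blk x) ∧
      ReflTransGen (fun a b => kadj a b ∧ (Rc A B b ∧ blk b)) x y) := by
  by_contra hcon
  rw [not_or] at hcon
  obtain ⟨hw, hb⟩ := hcon
  obtain ⟨U, hU⟩ : ∃ U : Cl → Prop, ∀ c, U c ↔ c.1 = -1 ∨ ∃ x : Cl, x.1 = 0 ∧
    (Rc A B x ∧ ¬ blk x) ∧ ReflTransGen (fun a b => adj4 a b ∧ (Rc A B b ∧ ¬ blk b)) x c :=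
    ⟨_, fun _ => Iff.rfl⟩
  obtain ⟨C, hC⟩ : ∃ C : Cl → Prop, ∀ c, C c ↔ ∃ x : Cl, x.2 = B ∧ (Rc A B x ∧ blk x) ∧
    ReflTransGen (fun a b => kadj a b ∧ (Rc A B b ∧ blk b)) x c := ⟨_, fun _ => Iff.rfl⟩
  have c1 : ∀ c, C c → Rc A B c ∧ blk c := by
    intro c h
    obtain ⟨x, -, h1, h2⟩ := (hC c).1 h
    cases h2 with
    | refl => exact h1
    | tail _ h => exact h.2
  have c2 : ∀ c c', C c → kadj c c' → Rc A B c' ∧ blk c' → C c' := by
    intro c c' h a b
    obtain ⟨x, h0, h1, h2⟩ := (hC c).1 h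
    exact (hC c').2 ⟨x, h0, h1, h2.tail ⟨a, b⟩⟩
  have u1 : ∀ c, U c → ¬ C c := by
    intro c h hc
    rcases (hU c).1 h with e | ⟨x, -, h1, h2⟩
    · have := (c1 c hc).1.1; omega
    · cases h2 with
      | refl => exact h1.2 (c1 _ hc).2
      | tail _ h => exact h.2.2 (c1 _ hc).2
  have u2 : ∀ c c', U c → adj4 c c' → -1 ≤ c'.1 → c'.1 ≤ A → 0 ≤ c'.2 → c'.2 ≤ B →
      U c' ∨ (Rc A B c' ∧ blk c') := by
    intro c c' h a b1 b2 b3 b4
    by_cases e : c'.1 = -1
    · exact Or.inl ((hU _).2 (Or.inl e))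
    have hr : Rc A B c' := ⟨by omega, b2, b3, b4⟩
    by_cases hk : blk c'
    · exact Or.inr ⟨hr, hk⟩
    left
    rcases (hU c).1 h with e' | ⟨x, h0, h1, h2⟩
    · exact (hU _).2 (Or.inr ⟨c', by unfold adj4 at a; omega, ⟨hr, hk⟩, ReflTransGen.refl⟩)
    · exact (hU _).2 (Or.inr ⟨x, h0, h1, h2.tail ⟨a, hr, hk⟩⟩)
  have u3 : ∀ c : Cl, c.1 = A → ¬ U c := by
    intro c e h
    rcases (hU c).1 h with e' | ⟨x, h0, h1, h2⟩
    · omega
    · exact hw ⟨x, c, h0, e, h1, h2⟩
  have c3 : ∀ c : Cl, c.2 = 0 → ¬ C c := by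
    intro c e h
    obtain ⟨x, h0, h1, h2⟩ := (hC c).1 h
    exact hb ⟨x, c, h0, e, h1, h2⟩
  obtain ⟨e, he⟩ : ∃ e : Cl → Cl → ZMod 2, ∀ c c', e c c' = ind ((U c ∧ C c') ∨ (U c' ∧ C c)) :=
    ⟨_, fun _ _ => rfl⟩
  have e1 : ∀ c c', adj4 c c' → -1 ≤ c.1 → c.1 ≤ A → 0 ≤ c.2 → c.2 ≤ B → -1 ≤ c'.1 → c'.1 ≤ A →
      0 ≤ c'.2 → c'.2 ≤ B → (Rc A B c ∧ blk c → C c) → (Rc A B c' ∧ blk c' → C c') →
      e c c' = ind (U c') - ind (U c) := by
    intro c c' a b1 b2 b3 b4 b5 b6 b7 b8 k k'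
    have f1 := u1 c
    have f2 := u1 c'
    have f3 := fun h => u2 c c' h a b5 b6 b7 b8
    have f4 := fun h => u2 c' c h a.symm b1 b2 b3 b4
    rw [he]
    by_cases g : U c <;> by_cases g' : U c'
    · rw [ind_false (by tauto), ind_true g, ind_true g', sub_self]
    · rw [ind_true (by tauto), ind_false g', ind_true g]; decide
    · rw [ind_true (by tauto), ind_false g, ind_true g']; decide
    · rw [ind_false (by tauto), ind_false g, ind_false g']; decide
  have corner : ∀ a b : ℤ, 0 ≤ a → a ≤ A → 0 ≤ b → b < B →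
      e (a - 1, b + 1) (a, b + 1) - e (a - 1, b) (a, b) =
        e (a, b) (a, b + 1) - e (a - 1, b) (a - 1, b + 1) := by
    intro a b h1 h2 h3 h4
    by_cases hc : C (a - 1, b) ∨ C (a, b) ∨ C (a - 1, b + 1) ∨ C (a, b + 1)
    · have k : ∀ c : Cl, a - 1 ≤ c.1 → c.1 ≤ a → b ≤ c.2 → c.2 ≤ b + 1 →
          Rc A B c ∧ blk c → C c := by
        intro c g1 g2 g3 g4
        rcases hc with h | h | h | h <;> exact c2 _ _ h (by unfold kadj; simp only; omega)
      rw [e1, e1, e1, e1]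
      · generalize ind (U (a, b + 1)) = x
        generalize ind (U (a - 1, b + 1)) = y
        generalize ind (U (a, b)) = z
        generalize ind (U (a - 1, b)) = w
        revert x y z w; decide
      all_goals first
        | (apply k <;> simp only <;> omega)
        | (unfold adj4; simp)
        | (simp only; omega)
    · simp only [he]
      rw [ind_false (by tauto), ind_false (by tauto), ind_false (by tauto), ind_false (by tauto)]
  have row : ∀ b : ℕ, b ≤ B → ∑ a ∈ Finset.range (A + 1), e ((a : ℤ) - 1, b) (a, b) = 0 := by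
    intro b
    induction b with
    | zero =>
      intro _
      refine Finset.sum_eq_zero (fun a _ => ?_)
      rw [he, ind_false]
      rintro (h | h) <;> exact c3 _ rfl h.2
    | succ b ih =>
      intro hb
      have h1 := Finset.sum_range_sub (fun a : ℕ => e ((a : ℤ) - 1, b) ((a : ℤ) - 1, b + 1)) (A + 1)
      have h2 : ∑ a ∈ Finset.range (A + 1), (e ((a : ℤ) - 1, (b : ℤ) + 1) (a, b + 1) -
          e ((a : ℤ) - 1, b) (a, b)) = 0 := by
        rw [Finset.sum_congr rfl (fun (a : ℕ) ha => corner a b (by omega)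
          (by have := Finset.mem_range.1 ha; omega) (by omega) (by omega))]
        simp only [Nat.cast_add, Nat.cast_one, add_sub_cancel_right] at h1
        rw [h1, he, he, ind_false, ind_false, sub_self]
        · rintro (h | h) <;> have := (c1 _ h.2).1.1 <;> simp at this
        · rintro (h | h) <;> exact u3 _ rfl h.1
      rw [Finset.sum_sub_distrib, ih (by omega), sub_zero] at h2
      exact_mod_cast h2
  have h1 := row B le_rfl
  have h2 := Finset.sum_range_sub (fun a : ℕ => ind (U ((a : ℤ) - 1, B))) (A + 1)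
  simp only [Nat.cast_add, Nat.cast_one, add_sub_cancel_right] at h2
  rw [Finset.sum_congr rfl (fun (a : ℕ) ha => e1 ((a : ℤ) - 1, B) (a, B) (by unfold adj4; simp) (by simp only; omega)
    (by have := Finset.mem_range.1 ha; simp only; omega) (by simp) (by simp) (by simp only; omega)
    (by have := Finset.mem_range.1 ha; simp only; omega) (by simp) (by simp)
    (fun h => (hC _).2 ⟨_, rfl, h, ReflTransGen.refl⟩)
    (fun h => (hC _).2 ⟨_, rfl, h, ReflTransGen.refl⟩)), h2, ind_false (u3 _ rfl),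
    ind_true ((hU _).2 (Or.inl (by simp)))] at h1
  exact absurd h1 (by decide)

theorem band_local {A B b0 b1 : ℕ} (hA : 1 ≤ A) (h1 : b0 + 3 ≤ b1) (h2 : b1 ≤ B + 1)
    (dead : Cl → Prop) :
    (∃ (n : ℕ) (p : ℕ → Cl), (p 0).1 = 0 ∧ (p n).1 = A ∧ b0 ≤ (p n).2 ∧ (p n).2 < b1 ∧
      n ≤ (A + 1) * (B + 1) ∧ (∀ i < n, adj4 (p i) (p (i + 1)) ∧ (p i).1 < A) ∧
      ∀ i ≤ n, Rc A B (p i) ∧ ¬ dead (p i)) ∨
    (∃ (m : ℕ) (p : ℕ → Cl), Chordless p m ∧ (∀ i ≤ m, Rc A B (p i) ∧ dead (p i)) ∧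
      ((p 0).2 = B ∨ ((A : ℤ) - 1 ≤ (p 0).1 ∧ (b1 : ℤ) - 1 ≤ (p 0).2)) ∧ (p 0).2 - b0 ≤ m) := by
  rcases hex A B (fun c => dead c ∨ (c.1 = A ∧ (c.2 < b0 ∨ b1 ≤ c.2))) with
    ⟨x, y, a1, a2, a3, a4⟩ | ⟨x, y, a1, a2, a3, a4⟩
  · left
    obtain ⟨n, p, rfl, rfl, p3, p4, p5, -⟩ := exists_short adj4 _ a3 a4
    have ex : ∃ i, (p i).1 = A := ⟨n, a2⟩
    have hn : Nat.find ex ≤ n := Nat.find_min' ex a2
    have hcard : n + 1 ≤ (A + 1) * (B + 1) := by
      have := Finset.card_le_card_of_injOn (s := Finset.range (n + 1))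
        (t := Finset.Icc (0 : ℤ) A ×ˢ Finset.Icc (0 : ℤ) B) p (fun i hi => by
          have := (p4 i (by simpa [Nat.lt_succ_iff] using hi)).1
          unfold Rc at this
          simp only [Finset.coe_product, Finset.coe_Icc, Set.mem_prod, Set.mem_Icc]
          omega) (fun i hi j hj e => by
          simp only [Finset.coe_range, Set.mem_Iio] at hi hj
          rcases lt_trichotomy i j with h | h | h
          · exact absurd e (p5 i j h (by omega))
          · exact h
          · exact absurd e.symm (p5 j i h (by omega)))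
      simpa using this
    have q1 := Nat.find_spec ex
    have q2 := (p4 _ hn).2
    refine ⟨Nat.find ex, p, a1, q1, by omega, by omega, by omega, fun i hi => ⟨p3 i (by omega), ?_⟩,
      fun i hi => ⟨(p4 i (by omega)).1, fun h => (p4 i (by omega)).2 (Or.inl h)⟩⟩
    have := Nat.find_min ex hi
    have := (p4 i (by omega)).1.2.1
    omega
  · right
    obtain ⟨Rd, hR⟩ : ∃ Rd : Cl → Prop, ∀ c, Rd c ↔ ∃ s : Cl, (Rc A B s ∧ dead s) ∧
      (s.2 = B ∨ ((A : ℤ) - 1 ≤ s.1 ∧ (b1 : ℤ) - 1 ≤ s.2)) ∧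
      ReflTransGen (fun a b => kadj a b ∧ (Rc A B b ∧ dead b)) s c := ⟨_, fun _ => Iff.rfl⟩
    have inv : ∀ c, ReflTransGen (fun a b => kadj a b ∧ (Rc A B b ∧
        (dead b ∨ (b.1 = A ∧ (b.2 < b0 ∨ b1 ≤ b.2))))) x c →
        (c.1 = A ∧ b1 ≤ c.2) ∨ Rd c ∨ ∃ z, Rd z ∧ z.2 ≤ b0 := by
      intro c h
      induction h with
      | refl =>
        rcases a3.2 with h | h
        · exact Or.inr (Or.inl ((hR _).2 ⟨x, ⟨a3.1, h⟩, Or.inl a1, ReflTransGen.refl⟩))
        · left; omega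
      | @tail u v _ h ih =>
        obtain ⟨k, r, d⟩ := h
        have k' := k
        unfold kadj at k'
        rcases ih with ih | ih | ih
        · rcases d with d | d
          · exact Or.inr (Or.inl ((hR _).2 ⟨v, ⟨r, d⟩, Or.inr (by omega), ReflTransGen.refl⟩))
          · left; omega
        · rcases d with d | d
          · obtain ⟨s, s1, s2, s3⟩ := (hR _).1 ih
            exact Or.inr (Or.inl ((hR _).2 ⟨s, s1, s2, s3.tail ⟨k, r, d⟩⟩))
          · by_cases e : b1 ≤ v.2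
            · exact Or.inl ⟨d.1, e⟩
            · exact Or.inr (Or.inr ⟨u, ih, by omega⟩)
        · exact Or.inr (Or.inr ih)
    have : ∃ z, Rd z ∧ z.2 ≤ b0 := by
      rcases inv y a4 with h | h | h
      · omega
      · exact ⟨y, h, by omega⟩
      · exact h
    obtain ⟨z, hz, hz'⟩ := this
    obtain ⟨s, s1, s2, s3⟩ := (hR _).1 hz
    obtain ⟨m, p, rfl, rfl, p3, p4, p5, p6⟩ := exists_short kadj _ s1 s3
    refine ⟨m, p, ⟨p3, p5, p6⟩, p4, s2, ?_⟩
    have : ∀ i ≤ m, (p 0).2 - i ≤ (p i).2 := by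
      intro i
      induction i with
      | zero => simp
      | succ i ih =>
        intro hi
        have := ih (by omega)
        have := (p3 i (by omega)).2.2.1
        push_cast; omega
    have := this m le_rfl
    omega

theorem crossing {n m : ℕ} {p q : ℕ → Cl} {a0 a1 lo hi : ℤ}
    (hp : ∀ i < n, adj4 (p i) (p (i + 1))) (hp0 : (p 0).1 ≤ a0) (hpn : a1 ≤ (p n).1)
    (hpr : ∀ i ≤ n, lo ≤ (p i).2 ∧ (p i).2 ≤ hi)
    (hq : ∀ j < m, adj4 (q j) (q (j + 1))) (hq0 : (q 0).2 ≤ lo) (hqm : hi ≤ (q m).2)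
    (hqc : ∀ j ≤ m, a0 ≤ (q j).1 ∧ (q j).1 ≤ a1) : ∃ i ≤ n, ∃ j ≤ m, p i = q j := by
  by_contra hcon
  push Not at hcon
  obtain ⟨Q, hQ⟩ : ∃ Q : ℕ → Cl, ∀ j, Q j = if j ≤ m then q j else ((q m).1, (q m).2 + 1) :=
    ⟨_, fun _ => rfl⟩
  have Q0 : (Q 0).2 ≤ lo := by rw [hQ, if_pos (Nat.zero_le _)]; exact hq0
  have Qm : hi < (Q (m + 1)).2 := by rw [hQ, if_neg (by omega)]; simp only; omega
  have Qa : ∀ j < m + 1, adj4 (Q j) (Q (j + 1)) := by
    intro j hj
    rw [hQ, hQ, if_pos (by omega)]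
    split_ifs with h
    · exact hq j (by omega)
    · rw [show j = m by omega]; unfold adj4; simp
  have Qc : ∀ j, a0 ≤ (Q j).1 ∧ (Q j).1 ≤ a1 := by
    intro j
    rw [hQ]
    split_ifs with h
    · exact hqc j h
    · exact hqc m le_rfl
  have Qn : ∀ i ≤ n, ∀ j, ¬ ((Q j).1 = (p i).1 ∧ (Q j).2 = (p i).2) := by
    intro i hi j
    rw [hQ]
    split_ifs with h
    · exact fun e => hcon i hi j h (Prod.ext e.1.symm e.2.symm)
    · have := hpr i hi
      simp only; omega
  obtain ⟨w, hw⟩ : ∃ w : ℤ → ℤ → ZMod 2, ∀ a b, w a b = ∑ j ∈ Finset.range (m + 1),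
    ind (a < (Q j).1 ∧ a < (Q (j + 1)).1 ∧ ¬ ((Q j).2 ≤ b ↔ (Q (j + 1)).2 ≤ b)) :=
    ⟨_, fun _ _ => rfl⟩
  have H : ∀ a b, (∀ j, ¬ ((Q j).1 = a ∧ (Q j).2 = b)) → w (a - 1) b = w a b := by
    intro a b h
    rw [hw, hw]
    refine Finset.sum_congr rfl (fun j hj => ?_)
    have := Qa j (Finset.mem_range.1 hj)
    have := h j
    have := h (j + 1)
    congr 1
    unfold adj4 at *
    apply propext
    omega
  have Vv : ∀ a b, lo ≤ b → b + 1 ≤ hi → (∀ j, ¬ ((Q j).1 = a ∧ (Q j).2 = b + 1)) →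
      w a b = w a (b + 1) := by
    intro a b g1 g2 h
    have h1 := Finset.sum_range_sub (fun j => ind (a < (Q j).1 ∧ (Q j).2 = b + 1)) (m + 1)
    rw [ind_false (by omega), ind_false (by omega), sub_self] at h1
    rw [← sub_eq_zero, hw, hw, ← Finset.sum_sub_distrib, ← h1]
    refine Finset.sum_congr rfl (fun j hj => ?_)
    have := Qa j (Finset.mem_range.1 hj)
    have := h j
    have := h (j + 1)
    unfold adj4 ind at *
    split_ifs <;> first | decide | omega
  have inv : ∀ i ≤ n, w (p i).1 (p i).2 = w (p 0).1 (p 0).2 := by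
    intro i
    induction i with
    | zero => intro _; rfl
    | succ i ih =>
      intro hi
      rw [← ih (by omega)]
      have r1 := hpr i (by omega)
      have r2 := hpr (i + 1) hi
      have n1 := Qn i (by omega)
      have n2 := Qn (i + 1) hi
      rcases hp i (by omega) with ⟨e1, e2⟩ | ⟨e1, e2⟩ | ⟨e1, e2⟩ | ⟨e1, e2⟩
      · rw [← H _ _ n2, e1, e2, add_sub_cancel_right]
      · rw [e1, e2, H _ _ n1]
      · rw [e1, e2] at n2 ⊢
        exact (Vv _ _ r1.1 (by omega) n2).symm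
      · rw [e1, e2, Vv _ _ (by omega) (by omega) (by simpa using n1), sub_add_cancel]
  have h1 : w (p n).1 (p n).2 = 0 := by
    rw [hw]
    refine Finset.sum_eq_zero (fun j _ => ind_false ?_)
    have := Qc j
    omega
  have h2 : w ((p 0).1 - 1) (p 0).2 = 1 := by
    have h1 := Finset.sum_range_sub (fun j => ind ((Q j).2 ≤ (p 0).2)) (m + 1)
    have := hpr 0 (Nat.zero_le _)
    rw [ind_false (by omega), ind_true (by omega)] at h1
    rw [hw, show (1 : ZMod 2) = 0 - 1 by decide, ← h1]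
    refine Finset.sum_congr rfl (fun j hj => ?_)
    have := Qc j
    have := Qc (j + 1)
    unfold ind
    split_ifs <;> first | decide | omega
  rw [H _ _ (Qn 0 (Nat.zero_le _)), ← inv n le_rfl, h1] at h2
  exact absurd h2 (by decide)

end Pool.Agent.P.MP_f475a8_pr
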