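import Pool.Agent.P.MP_f475a8_pr.Bands

/-! Crossing of one slab. -/

set_option autoImplicit false
open Function Classical

namespace Pool.Agent.P.MP_f475a8_pr

/-- connection from `S` by open sites of `R` in at most `n` steps -/
inductive Conn {V : Type} (adj : V → V → Prop) (S : V → Prop) (R : Finset V) (η : V → Bool) :
    V → ℕ → Prop
  | base {x : V} (n : ℕ) : S x → Conn adj S R η x n
  | step {x y : V} {n : ℕ} : Conn adj S R η x n → adj x y → y ∈ R → η y = true →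
      Conn adj S R η y (n + 1)

theorem Conn.succ {V : Type} {adj : V → V → Prop} {S : V → Prop} {R : Finset V} {η : V → Bool}
    {x : V} {n : ℕ} (h : Conn adj S R η x n) : Conn adj S R η x (n + 1) := by
  induction h with
  | base n h => exact Conn.base _ h
  | step _ a b c ih => exact ih.step a b c

theorem Conn.mono {V : Type} {adj : V → V → Prop} {S : V → Prop} {R : Finset V} {η : V → Bool}
    {x : V} {n m : ℕ} (h : Conn adj S R η x n) (e : n ≤ m) : Conn adj S R η x m := by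
  induction e with
  | refl => exact h
  | step _ ih => exact ih.succ

theorem Conn.map {V W : Type} {adj : V → V → Prop} {S : V → Prop} {R : Finset V} {η : V → Bool}
    {adj' : W → W → Prop} {S' : W → Prop} {R' : Finset W} {η' : W → Bool} (φ : V → W)
    (h1 : ∀ x y, adj x y → adj' (φ x) (φ y)) (h2 : ∀ x, S x → S' (φ x))
    (h3 : ∀ x ∈ R, φ x ∈ R' ∧ (η x = true → η' (φ x) = true))
    {x : V} {n : ℕ} (h : Conn adj S R η x n) : Conn adj' S' R' η' (φ x) n := by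
  induction h with
  | base n h => exact Conn.base _ (h2 _ h)
  | step _ a b c ih => exact ih.step (h1 _ _ a) (h3 _ b).1 ((h3 _ b).2 c)

structure Par where
  κ : ℕ
  w : ℕ
  k : ℕ
  N : ℕ
  nn : ℕ

namespace Par
variable (p : Par)

def T : ℕ := p.k * (p.w + 1) + 1
def G : ℕ := 2 * p.w + 2
def tt : ℕ := 3 + 6 * p.κ + 306 * (2 * (p.T * (p.κ + 2 * p.w)) + (p.κ * p.N + 2 * p.w) * p.w + 1)

structure Ok : Prop where
  h1 : 17 ≤ p.κ
  h2 : p.κ ≤ p.w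
  h3 : 1 ≤ p.k
  h4 : p.G * p.nn ≤ p.N
  h5 : 320 * ((p.T + (p.κ * p.N + 2 * p.w) : ℕ) * lam ^ (p.w - 3) + 100 * lam ^ (p.κ - 3)) ≤ 1 / 16

noncomputable def Bs : Finset Cl :=
  Finset.Icc (1 : ℤ) p.T ×ˢ Finset.Ico (-(p.w : ℤ)) (p.κ * p.N + p.w)

noncomputable def box (a b c d e f : ℤ) : Finset P3 :=
  Finset.Ico a b ×ˢ Finset.Ico c d ×ˢ Finset.Ico e f

theorem mem_box {a b c d e f : ℤ} {v : P3} : v ∈ box a b c d e f ↔
    a ≤ v.1 ∧ v.1 < b ∧ c ≤ v.2.1 ∧ v.2.1 < d ∧ e ≤ v.2.2 ∧ v.2.2 < f := by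
  simp [box, and_assoc]

theorem mem_Bs {c : Cl} : c ∈ p.Bs ↔ 1 ≤ c.1 ∧ c.1 ≤ p.T ∧ -(p.w : ℤ) ≤ c.2 ∧
    c.2 < p.κ * p.N + p.w := by
  simp [Bs, and_assoc]

noncomputable def Rs (z0 : ℤ) : Finset P3 :=
  box 1 (3 * p.T + 1) (-3 * p.w) (3 * (p.κ * p.N + p.w)) z0 (z0 + 3 * p.κ)

noncomputable def R1 (z0 : ℤ) : Finset P3 :=
  box 4 (3 * p.T + 1) (-3 * p.w) (3 * (p.κ * p.N + p.w)) z0 (z0 + 3 * p.κ)

noncomputable def blk (z0 : ℤ) (i : ℕ) : Finset P3 :=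
  box 1 4 (3 * (p.κ * i)) (3 * (p.κ * i) + 3 * p.κ) z0 (z0 + 3 * p.κ)

def Forced (z0 : ℤ) (i : ℕ) (η : P3 → Bool) : Prop := ∀ v ∈ p.blk z0 i, η v = true

def hook (i : ℕ) : Band :=
  ⟨fun c => (p.T - 1 - c.1, p.κ * i - p.w + c.2), p.T - 1, p.κ + 2 * p.w - 1, p.w, p.w + p.κ⟩

def exit (i : ℕ) : Band :=
  ⟨fun c => (1 + c.1, p.κ * i - p.w + c.2), p.T - 1, p.κ + 2 * p.w - 1, p.w, p.w + p.κ⟩

def strip (j : ℕ) : Band :=
  ⟨fun c => (1 + j * (p.w + 1) + c.2, -p.w + c.1), p.κ * p.N + 2 * p.w - 1, p.w - 1, 0, p.w⟩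

noncomputable def σ0 (z0 : ℤ) (I : Finset ℕ) (η : P3 → Bool) (c : Cl) : St Ent :=
  if c.1 = 1 ∧ ∃ i ∈ I, p.Forced z0 i η ∧ (p.κ * i : ℤ) ≤ c.2 ∧ c.2 < p.κ * i + p.κ then
    St.pe 0 (0, fun _ _ => true) 0 else St.un

noncomputable def dead (z0 : ℤ) (I : Finset ℕ) (η : P3 → Bool) (c : Cl) : Prop :=
  (sys z0 p.T p.Bs).run p.Bs.card (p.σ0 z0 I η) η c = St.de

def Sq (S : ℤ → ℤ → Prop) (i j : ℕ) : Prop :=
  ∃ y z, S y z ∧ 3 * (p.κ * i : ℤ) ≤ y ∧ y < 3 * (p.κ * i) + 3 * p.κ ∧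
    3 * (p.κ * j : ℤ) ≤ z ∧ z < 3 * (p.κ * j) + 3 * p.κ

def Cn (S : ℤ → ℤ → Prop) (z0 : ℤ) (η : P3 → Bool) : P3 → ℕ → Prop :=
  Conn adj3 (fun v => v.1 = 0 ∧ S v.2.1 v.2.2) (p.Rs z0) η

variable {p}

theorem Ok.T_ge (h : p.Ok) : p.w + 2 ≤ p.T := by
  have := Nat.mul_le_mul_right (p.w + 1) h.h3
  unfold T; omega

theorem Ok.hook (h : p.Ok) (i : ℕ) : (p.hook i).Ok := by
  have := h.T_ge; have := h.h1; have := h.h2
  refine ⟨?_, ?_, ?_, fun x y => ?_, fun x y e => ?_⟩ <;> simp only [Par.hook] at *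
  · omega
  · omega
  · omega
  · simp only [kadj]; omega
  · simp only [Prod.mk.injEq] at e; exact Prod.ext (by omega) (by omega)

theorem Ok.exit (h : p.Ok) (i : ℕ) : (p.exit i).Ok := by
  have := h.T_ge; have := h.h1; have := h.h2
  refine ⟨?_, ?_, ?_, fun x y => ?_, fun x y e => ?_⟩ <;> simp only [Par.exit] at *
  · omega
  · omega
  · omega
  · simp only [kadj]; omega
  · simp only [Prod.mk.injEq] at e; exact Prod.ext (by omega) (by omega)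

theorem Ok.strip (h : p.Ok) (i : ℕ) : (p.strip i).Ok := by
  have := h.T_ge; have := h.h1; have := h.h2
  refine ⟨?_, ?_, ?_, fun x y => ?_, fun x y e => ?_⟩ <;> simp only [Par.strip] at *
  · omega
  · omega
  · omega
  · simp only [kadj]; omega
  · simp only [Prod.mk.injEq] at e; exact Prod.ext (by omega) (by omega)

theorem Ok.sum (h : p.Ok) {β : Band} (hβ : β.Ok) (a1 : β.A + 1 ≤ p.T + (p.κ * p.N + 2 * p.w))
    (a2 : p.w - 3 ≤ β.B - β.b0 - 2) (a3 : p.κ - 3 ≤ β.b1 - β.b0 - 3) :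
    ∑ γ ∈ β.fam, DD γ ≤ 1 / 16 := by
  refine (β.sum_fam hβ).trans (le_trans ?_ h.h5)
  have l0 : 0 ≤ lam := by unfold lam; norm_num
  have l1 : lam ≤ 1 := by unfold lam; norm_num
  have b1 := pow_le_pow_of_le_one l0 l1 a2
  have b2 := pow_le_pow_of_le_one l0 l1 a3
  have b3 : (β.A + 1 : ℝ) ≤ (p.T + (p.κ * p.N + 2 * p.w) : ℕ) := by exact_mod_cast a1
  have := mul_le_mul b3 b1 (pow_nonneg l0 _) (by positivity)
  linarith

theorem along {τ : Cl → St Ent} {W : Cl → Prop}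
    (hB : ∀ c c' n, Sys.Ac τ c n → W c → adj4 c c' → W c' → Sys.Ac τ c' (n + 1))
    {q : ℕ → Cl} {n : ℕ} (h1 : ∀ i < n, adj4 (q i) (q (i + 1))) (h2 : ∀ i ≤ n, W (q i))
    {i m : ℕ} (hi : i ≤ n) (h : Sys.Ac τ (q i) m) : ∀ j ≤ n, Sys.Ac τ (q j) (m + n) := by
  have mono : ∀ c a b, Sys.Ac τ c a → a ≤ b → Sys.Ac τ c b := by
    rintro c a b ⟨δ, e, m, g1, g2⟩ g
    exact ⟨δ, e, m, g1, g2.trans g⟩
  have up : ∀ d, i + d ≤ n → Sys.Ac τ (q (i + d)) (m + d) := by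
    intro d
    induction d with
    | zero => exact fun _ => h
    | succ d ih =>
      intro hd
      exact hB _ _ _ (ih (by omega)) (h2 _ (by omega)) (h1 _ (by omega)) (h2 _ hd)
  have dn : ∀ d, d ≤ i → Sys.Ac τ (q (i - d)) (m + d) := by
    intro d
    induction d with
    | zero => exact fun _ => h
    | succ d ih =>
      intro hd
      have := (h1 (i - (d + 1)) (by omega)).symm
      rw [show i - (d + 1) + 1 = i - d by omega] at this
      exact hB _ _ _ (ih (by omega)) (h2 _ (by omega)) this (h2 _ (by omega))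
  intro j hj
  by_cases e : i ≤ j
  · have := up (j - i) (by omega)
    rw [show i + (j - i) = j by omega] at this
    exact mono _ _ _ this (by omega)
  · have := dn (i - j) (by omega)
    rw [show i - (i - j) = j by omega] at this
    exact mono _ _ _ this (by omega)

theorem forced_conn {S : ℤ → ℤ → Prop} {i j : ℕ} {η : P3 → Bool} (hi : i < p.N)
    (hS : p.Sq S i j) (hF : p.Forced (3 * (p.κ * j)) i η) (hT : 1 ≤ p.T) {y z : ℤ}
    (h1 : 3 * (p.κ * i : ℤ) ≤ y) (h2 : y < 3 * (p.κ * i) + 3 * p.κ)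
    (h3 : 3 * (p.κ * j : ℤ) ≤ z) (h4 : z < 3 * (p.κ * j) + 3 * p.κ) :
    p.Cn S (3 * (p.κ * j)) η (3, y, z) (3 + 6 * p.κ) := by
  obtain ⟨y0, z0, a0, a1, a2, a3, a4⟩ := hS
  have hiN : (p.κ * i : ℤ) + p.κ ≤ p.κ * p.N := by
    have : p.κ * (i + 1) ≤ p.κ * p.N := Nat.mul_le_mul_left _ hi
    rw [mul_add, mul_one] at this
    exact_mod_cast this
  have hi0 : (0 : ℤ) ≤ p.κ * i := by positivity
  have st : ∀ u v n, p.Cn S (3 * (p.κ * j)) η u n → adj3 u v → v ∈ p.blk (3 * (p.κ * j)) i →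
      p.Cn S (3 * (p.κ * j)) η v (n + 1) := by
    intro u v n a b c
    refine Conn.step a b ?_ (hF v c)
    simp only [blk, Rs, mem_box] at c ⊢
    omega
  have c0 : p.Cn S (3 * (p.κ * j)) η (0, y0, z0) 0 := Conn.base _ ⟨rfl, a0⟩
  have c1 := st _ (1, y0, z0) _ c0 (by simp [adj3]) (by simp only [blk, mem_box]; omega)
  have c2 := st _ (2, y0, z0) _ c1 (by simp [adj3]) (by simp only [blk, mem_box]; omega)
  have c3 := st _ (3, y0, z0) _ c2 (by simp [adj3]) (by simp only [blk, mem_box]; omega)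
  have key : ∀ d : ℕ, ∀ y z : ℤ, 3 * (p.κ * i : ℤ) ≤ y → y < 3 * (p.κ * i) + 3 * p.κ →
      3 * (p.κ * j : ℤ) ≤ z → z < 3 * (p.κ * j) + 3 * p.κ →
      (y - y0).natAbs + (z - z0).natAbs ≤ d → p.Cn S (3 * (p.κ * j)) η (3, y, z) (3 + d) := by
    intro d
    induction d with
    | zero =>
      intro y z _ _ _ _ h
      rw [show y = y0 by omega, show z = z0 by omega]
      exact c3
    | succ d ih =>
      intro y z b1 b2 b3 b4 h
      have hv : ((3, y, z) : P3) ∈ p.blk (3 * (p.κ * j)) i := by simp only [blk, mem_box]; omega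
      rcases lt_trichotomy y y0 with e | e | e
      · exact st _ _ _ (ih (y + 1) z (by omega) (by omega) b3 b4 (by omega)) (by simp [adj3]) hv
      · rcases lt_trichotomy z z0 with e' | e' | e'
        · exact st _ _ _ (ih y (z + 1) b1 b2 (by omega) (by omega) (by omega)) (by simp [adj3]) hv
        · exact (ih y z b1 b2 b3 b4 (by omega)).succ
        · exact st _ _ _ (ih y (z - 1) b1 b2 (by omega) (by omega) (by omega)) (by simp [adj3]) hv
      · exact st _ _ _ (ih (y - 1) z (by omega) (by omega) b3 b4 (by omega)) (by simp [adj3]) hv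
  exact key (6 * p.κ) y z h1 h2 h3 h4 (by omega)

theorem Ok.determ (h : p.Ok) {S : ℤ → ℤ → Prop} {j : ℕ} {I : Finset ℕ}
    (hI : ∀ i ∈ I, i < p.N ∧ p.Sq S i j) {η : P3 → Bool} {i1 : ℕ} (hi1 : i1 ∈ I)
    (hF : p.Forced (3 * (p.κ * j)) i1 η)
    (b1 : ¬ (p.hook i1).Blk (p.dead (3 * (p.κ * j)) I η)) {j2 : ℕ} (hj2 : j2 < p.k)
    (b2 : ¬ (p.strip j2).Blk (p.dead (3 * (p.κ * j)) I η)) {i3 : ℕ} (hi3 : i3 < p.N)
    (b3 : ¬ (p.exit i3).Blk (p.dead (3 * (p.κ * j)) I η)) :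
    p.Sq (fun y z => p.Cn S (3 * (p.κ * j)) η (3 * p.T, y, z) p.tt) i3 j := by
  have hT := h.T_ge
  have hκ := h.h1
  have hw := h.h2
  have hN : ∀ i < p.N, (p.κ * i : ℤ) + p.κ ≤ p.κ * p.N ∧ (0 : ℤ) ≤ p.κ * i := by
    intro i hi
    have : p.κ * (i + 1) ≤ p.κ * p.N := Nat.mul_le_mul_left _ hi
    rw [mul_add, mul_one] at this
    exact ⟨by exact_mod_cast this, by positivity⟩
  obtain ⟨pA, pB, pC⟩ := Sys.final_props (S := sys (3 * (p.κ * j)) p.T p.Bs) (η := η)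
    (P := PP (3 * (p.κ * j)) p.T (p.Cn S (3 * (p.κ * j)) η) (3 + 6 * p.κ))
    (fun c δ e n ch k => sys_P (Cn := p.Cn S (3 * (p.κ * j)) η) (η := η)
      (fun _ _ => Conn.succ) (fun c hc hr x y n a b d e => by
      refine Conn.step a b ?_ e
      rw [mem_cube] at d
      rw [mem_Bs] at hc
      simp only [Rs, mem_box]
      omega) c δ e n ch k) (σ0 := p.σ0 (3 * (p.κ * j)) I η) (fun c => by
      unfold σ0
      split_ifs with hc
      · obtain ⟨c1, i, c2, c3, c4, c5⟩ := hc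
        have := hN i (hI i c2).1
        refine Or.inr ⟨_, _, rfl, ?_, ?_, fun _ => rfl, Nat.zero_le _, fun r hr v hv _ => ?_⟩
        · exact p.mem_Bs.2 (by omega)
        · exact fun e => by have := (p.mem_Bs.1 e).1; simp [dir] at this; omega
        · have := forced_conn (hI i c2).1 (hI i c2).2 c3 (by omega) (y := 3 * c.2 + v)
            (z := 3 * (p.κ * j) + r) (by omega) (by omega) (by omega) (by omega)
          rw [mul_zero, add_zero]
          convert this using 1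
          simp [pt, off]; omega
      · exact Or.inl rfl)
  unfold dead at b1 b2 b3
  change ∀ c, _ → (sys _ _ _).run p.Bs.card _ _ _ ≠ _ → Sys.Ac ((sys _ _ _).run p.Bs.card _ _) _ _
    at pA
  change ∀ (c c' : Cl) n, Sys.Ac ((sys _ _ _).run p.Bs.card _ _) _ _ → c.1 < p.T → _ → c' ∈ p.Bs →
    (sys _ _ _).run p.Bs.card _ _ _ ≠ _ → Sys.Ac ((sys _ _ _).run p.Bs.card _ _) _ _ at pB
  change ∀ c n, Sys.Ac ((sys _ _ _).run p.Bs.card _ _) _ _ → _ at pC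
  generalize (sys (3 * (p.κ * j)) p.T p.Bs).run p.Bs.card (p.σ0 (3 * (p.κ * j)) I η) η = τ
    at b1 b2 b3 pA pB pC
  obtain ⟨n1, p1, a1, a2, a3, a4, a5, a6, a7⟩ := (p.hook i1).white (h.hook i1) b1
  obtain ⟨n2, p2, c1, c2, -, -, c5, c6, c7⟩ := (p.strip j2).white (h.strip j2) b2
  obtain ⟨n3, p3, d1, d2, d3, d4, d5, d6, d7⟩ := (p.exit i3).white (h.exit i3) b3
  simp only [Par.hook, Par.strip, Par.exit, Rc] at a2 a3 a4 a5 a6 a7 c2 c5 c6 c7 d2 d3 d4 d5 d6 d7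
  have e1 := hN i1 (hI i1 hi1).1
  have e3 := hN i3 hi3
  have e2 : (j2 * (p.w + 1) : ℤ) + (p.w + 1) + 1 ≤ p.T ∧ (0 : ℤ) ≤ j2 * (p.w + 1) := by
    have : (j2 + 1) * (p.w + 1) ≤ p.k * (p.w + 1) := Nat.mul_le_mul_right _ hj2
    rw [add_mul, one_mul] at this
    unfold T
    exact ⟨by exact_mod_cast Nat.add_le_add_right this 1, by positivity⟩
  have e4 : ((p.κ * p.N + 2 * p.w - 1 : ℕ) : ℤ) = p.κ * p.N + 2 * p.w - 1 := by
    rw [Nat.cast_sub (by omega)]; push_cast; ring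
  rw [e4] at c2 c6 c7
  have hW := fun (c c' : Cl) n (a : Sys.Ac τ c n) (b : c.1 < p.T ∧ c ∈ p.Bs ∧ τ c ≠ St.de) (d : adj4 c c')
    (e : c'.1 < p.T ∧ c' ∈ p.Bs ∧ τ c' ≠ St.de) => pB c c' n a b.1 d e.2.1 e.2.2
  obtain ⟨n1, rfl⟩ : ∃ m, n1 = m + 1 := ⟨n1 - 1, by
    rcases Nat.eq_zero_or_pos n1 with rfl | e <;> omega⟩
  obtain ⟨n3, rfl⟩ : ∃ m, n3 = m + 1 := ⟨n3 - 1, by
    rcases Nat.eq_zero_or_pos n3 with rfl | e <;> omega⟩
  -- the three paths in the coordinates of the slab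
  obtain ⟨q1, hq1⟩ : ∃ q : ℕ → Cl, ∀ i, q i =
    (p.T - 1 - (p1 (n1 - i)).1, p.κ * i1 - p.w + (p1 (n1 - i)).2) := ⟨_, fun _ => rfl⟩
  obtain ⟨q2, hq2⟩ : ∃ q : ℕ → Cl, ∀ i, q i =
    (1 + j2 * (p.w + 1) + (p2 i).2, -p.w + (p2 i).1) := ⟨_, fun _ => rfl⟩
  obtain ⟨q3, hq3⟩ : ∃ q : ℕ → Cl, ∀ i, q i =
    (1 + (p3 i).1, p.κ * i3 - p.w + (p3 i).2) := ⟨_, fun _ => rfl⟩
  have f1 : ∀ i < n1, adj4 (q1 i) (q1 (i + 1)) := by
    intro i hi
    have := (a6 (n1 - (i + 1)) (by omega)).1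
    rw [show n1 - (i + 1) + 1 = n1 - i by omega] at this
    simp only [hq1, adj4] at this ⊢; omega
  have f2 : ∀ i < n2, adj4 (q2 i) (q2 (i + 1)) := by
    intro i hi
    have := (c6 i hi).1
    simp only [hq2, adj4] at this ⊢; omega
  have f3 : ∀ i < n3 + 1, adj4 (q3 i) (q3 (i + 1)) := by
    intro i hi
    have := (d6 i hi).1
    simp only [hq3, adj4] at this ⊢; omega
  have g1 : ∀ i ≤ n1, (q1 i).1 < p.T ∧ q1 i ∈ p.Bs ∧ τ (q1 i) ≠ St.de := by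
    intro i hi
    have := a7 (n1 - i) (by omega)
    have := (a6 (n1 - i) (by omega)).2
    rw [mem_Bs, hq1]
    simp only
    exact ⟨by omega, by omega, (a7 (n1 - i) (by omega)).2⟩
  have g2 : ∀ i ≤ n2, (q2 i).1 < p.T ∧ q2 i ∈ p.Bs ∧ τ (q2 i) ≠ St.de := by
    intro i hi
    have := c7 i hi
    rw [mem_Bs, hq2]
    simp only
    exact ⟨by omega, by omega, (c7 i hi).2⟩
  have g3 : ∀ i ≤ n3, (q3 i).1 < p.T ∧ q3 i ∈ p.Bs ∧ τ (q3 i) ≠ St.de := by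
    intro i hi
    have := d7 i (by omega)
    have := (d6 i (by omega)).2
    rw [mem_Bs, hq3]
    simp only
    exact ⟨by omega, by omega, (d7 i (by omega)).2⟩
  have s1 : (q1 0).1 = 1 ∧ (p.κ * i1 : ℤ) ≤ (q1 0).2 ∧ (q1 0).2 < p.κ * i1 + p.κ := by
    have := a6 n1 (by omega)
    simp only [hq1, adj4, Nat.sub_zero] at this ⊢; omega
  have s3 : (q3 n3).1 = p.T - 1 := by
    have := d6 n3 (by omega)
    simp only [hq3, adj4] at this ⊢; omega
  have cr : ∀ (n : ℕ) (q : ℕ → Cl), (∀ i < n, adj4 (q i) (q (i + 1))) → (q 0).1 = 1 →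
      (q n).1 = p.T - 1 → (∀ i ≤ n, q i ∈ p.Bs) → ∃ i ≤ n, ∃ j ≤ n2, q i = q2 j := by
    intro n q x1 x2 x3 x4
    refine crossing (a0 := 1 + j2 * (p.w + 1)) (a1 := j2 * (p.w + 1) + p.w) (lo := -p.w)
      (hi := p.κ * p.N + p.w - 1) x1 (by omega) (by omega) (fun i hi => ?_) f2 ?_ ?_
      (fun i hi => ?_)
    · have := p.mem_Bs.1 (x4 i hi); omega
    · rw [hq2]; simp only; omega
    · rw [hq2]; simp only; omega
    · have := c7 i hi
      rw [hq2]; simp only; omega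
  have A1 := along hW f1 g1 (Nat.zero_le _) (pA (q1 0) (by
    unfold σ0
    rw [if_pos ⟨s1.1, i1, hi1, hF, s1.2⟩]; simp) (g1 0 (Nat.zero_le _)).2.2)
  obtain ⟨u1, hu1, v1, hv1, x1⟩ := cr n1 q1 f1 s1.1 (by rw [hq1, Nat.sub_self]; simp only; omega)
    (fun i hi => (g1 i hi).2.1)
  have A2 := along hW f2 g2 hv1 (x1 ▸ A1 u1 hu1)
  obtain ⟨u3, hu3, v3, hv3, x3⟩ := cr n3 q3 (fun i hi => f3 i (by omega))
    (by rw [hq3]; simp only; omega) s3 (fun i hi => (g3 i hi).2.1)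
  have A3 := along hW (fun i hi => f3 i (by omega)) g3 hu3 (x3 ▸ A2 v3 hv3)
  have A4 := pB _ (q3 (n3 + 1)) _ (A3 n3 le_rfl) (g3 n3 le_rfl).1 (f3 n3 (by omega))
    (by rw [mem_Bs, hq3]; simp only; omega) (by rw [hq3]; exact (d7 _ le_rfl).2)
  obtain ⟨δ, e, m, y1, y2, y3⟩ := pC _ _ A4
  obtain ⟨y, z, z1, z2, z3, z4, z5⟩ := sys_exit y2 (by rw [hq3]; simp only; omega) y3
  rw [hq3] at z1 z2
  simp only at z1 z2
  refine ⟨y, z, z5.mono ?_, by omega, by omega, by omega, by omega⟩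
  unfold tt
  rw [show p.T - 1 + 1 = p.T by omega, show p.κ + 2 * p.w - 1 + 1 = p.κ + 2 * p.w by omega] at a5 d5
  rw [show p.κ * p.N + 2 * p.w - 1 + 1 = p.κ * p.N + 2 * p.w by omega,
    show p.w - 1 + 1 = p.w by omega] at c5
  omega

end Par

end Pool.Agent.P.MP_f475a8_pr
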