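import Mathlib
import Pool.Agent.P.MP_f475a8_pr.Kern

/-! Packed vectors. -/

set_option autoImplicit false

namespace Pool.Agent.P.MP_f475a8_pr

theorem fo_eq (n : ℕ) (k : ℕ → Bool) : fo n k = k n := by
  unfold fo; cases Nat.ble n 0 <;> rfl

theorem fl_def (X i : ℕ) : fl X i = X / 2 ^ (32 * i) % 2 ^ 32 := by
  show (X >>> (32 * i)) % 4294967296 = _
  rw [Nat.shiftRight_eq_div_pow]; rfl

theorem fl_lt (X i : ℕ) : fl X i < 2 ^ 32 := by
  rw [fl_def]; exact Nat.mod_lt _ (by positivity)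

theorem pk_zero (x : ℕ → ℕ) : pk 0 x = 0 := rfl

theorem pk_succ (n : ℕ) (x : ℕ → ℕ) : pk (n + 1) x = pk n x + x n * 2 ^ (32 * n) := by
  show pk n x + (x n) <<< (32 * n) = _
  rw [Nat.shiftLeft_eq]

theorem pk_congr {n : ℕ} {x y : ℕ → ℕ} (h : ∀ i < n, x i = y i) : pk n x = pk n y := by
  induction n with
  | zero => rfl
  | succ n ih => rw [pk_succ, pk_succ, ih (fun i hi => h i (by omega)), h n (by omega)]

theorem pk_add (n : ℕ) (x y : ℕ → ℕ) : pk n x + pk n y = pk n (fun i => x i + y i) := by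
  induction n with
  | zero => rfl
  | succ n ih => rw [pk_succ, pk_succ, pk_succ, ← ih]; ring

theorem pk_mul (n : ℕ) (x : ℕ → ℕ) (c : ℕ) : pk n x * c = pk n (fun i => x i * c) := by
  induction n with
  | zero => simp [pk_zero]
  | succ n ih => rw [pk_succ, pk_succ, ← ih]; ring

theorem pk_lt {n : ℕ} {x : ℕ → ℕ} (h : ∀ i < n, x i < 2 ^ 32) : pk n x < 2 ^ (32 * n) := by
  induction n with
  | zero => simp [pk_zero]
  | succ n ih =>
    have h1 := ih (fun i hi => h i (by omega))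
    have h2 := h n (by omega)
    rw [pk_succ, show 32 * (n + 1) = 32 + 32 * n by ring, pow_add]
    have : (x n + 1) * 2 ^ (32 * n) ≤ 2 ^ 32 * 2 ^ (32 * n) := Nat.mul_le_mul_right _ h2
    nlinarith

theorem fl_of_lt {n X : ℕ} (h : X < 2 ^ (32 * n)) {i : ℕ} (hi : n ≤ i) : fl X i = 0 := by
  rw [fl_def, Nat.div_eq_of_lt (h.trans_le (Nat.pow_le_pow_right (by norm_num) (by omega))),
    Nat.zero_mod]

theorem fl_add_high (A a : ℕ) {n i : ℕ} (hi : i < n) : fl (A + a * 2 ^ (32 * n)) i = fl A i := by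
  obtain ⟨m, rfl⟩ : ∃ m, n = i + 1 + m := ⟨n - (i + 1), by omega⟩
  rw [fl_def, fl_def, show a * 2 ^ (32 * (i + 1 + m)) =
    (a * 2 ^ (32 * m) * 2 ^ 32) * 2 ^ (32 * i) by ring, Nat.add_mul_div_right _ _ (by positivity),
    Nat.add_mul_mod_self_right]

theorem fl_pk {n : ℕ} {x : ℕ → ℕ} (h : ∀ i < n, x i < 2 ^ 32) (i : ℕ) :
    fl (pk n x) i = if i < n then x i else 0 := by
  split_ifs with hi
  · induction n with
    | zero => omega
    | succ n ih =>
      rw [pk_succ]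
      rcases Nat.lt_succ_iff_lt_or_eq.1 hi with h1 | rfl
      · rw [fl_add_high _ _ h1, ih (fun i hi => h i (by omega)) h1]
      · rw [fl_def, Nat.add_mul_div_right _ _ (by positivity),
          Nat.div_eq_of_lt (pk_lt (fun j hj => h j (by omega))), zero_add,
          Nat.mod_eq_of_lt (h i hi)]
  · exact fl_of_lt (pk_lt h) (by omega)

theorem pk_fl_mod (n X : ℕ) : pk n (fl X) = X % 2 ^ (32 * n) := by
  induction n with
  | zero => simp [pk_zero, Nat.mod_one]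
  | succ n ih =>
    rw [pk_succ, ih, fl_def, show 32 * (n + 1) = 32 * n + 32 by ring, pow_add, Nat.mod_mul]
    ring

theorem pk_fl {n X : ℕ} (h : X < 2 ^ (32 * n)) : pk n (fl X) = X := by
  rw [pk_fl_mod, Nat.mod_eq_of_lt h]

theorem fl_land (X Y i : ℕ) : fl (Nat.land X Y) i = fl X i &&& fl Y i := by
  rw [fl_def, fl_def, fl_def, Nat.land_eq, Nat.and_div_two_pow, Nat.and_mod_two_pow]

theorem fl_shr (X m i : ℕ) : fl (Nat.shiftRight X (32 * m)) i = fl X (i + m) := by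
  show fl (X >>> (32 * m)) i = _
  rw [fl_def, fl_def, Nat.shiftRight_eq_div_pow, Nat.div_div_eq_div_mul, ← pow_add]
  congr 3; ring

theorem fl_shl (X m i : ℕ) :
    fl (Nat.shiftLeft X (32 * m)) i = if i < m then 0 else fl X (i - m) := by
  show fl (X <<< (32 * m)) i = _
  rw [Nat.shiftLeft_eq]
  split_ifs with h
  · have := fl_add_high 0 X h
    rw [zero_add] at this
    rw [this]; simp [fl_def]
  · obtain ⟨j, rfl⟩ : ∃ j, i = m + j := ⟨i - m, by omega⟩
    rw [fl_def, fl_def, Nat.add_sub_cancel_left, show 32 * (m + j) = 32 * j + 32 * m by ring,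
      pow_add, Nat.mul_div_mul_right _ _ (by positivity)]

/-- a vector of `n` fields, all at most `b` -/
def Sm (n b X : ℕ) : Prop := X < 2 ^ (32 * n) ∧ ∀ i, fl X i ≤ b

theorem Sm.mono {n b b' X : ℕ} (h : Sm n b X) (hb : b ≤ b') : Sm n b' X :=
  ⟨h.1, fun i => (h.2 i).trans hb⟩

theorem Sm.of_lt {n b X : ℕ} (h : X < 2 ^ (32 * n)) (hb : ∀ i < n, fl X i ≤ b) : Sm n b X :=
  ⟨h, fun i => by
    by_cases hi : i < n
    · exact hb i hi
    · rw [fl_of_lt h (by omega)]; exact Nat.zero_le _⟩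

theorem Sm_pk {n b : ℕ} {x : ℕ → ℕ} (h : ∀ i < n, x i ≤ b) (hb : b < 2 ^ 32) : Sm n b (pk n x) :=
  Sm.of_lt (pk_lt (fun i hi => (h i hi).trans_lt hb)) (fun i hi => by
    rw [fl_pk (fun i hi => (h i hi).trans_lt hb), if_pos hi]; exact h i hi)

/-- any natural number equal to a packing -/
theorem of_eq_pk {n X : ℕ} {x : ℕ → ℕ} (e : X = pk n x) (h : ∀ i < n, x i < 2 ^ 32) :
    X < 2 ^ (32 * n) ∧ ∀ i < n, fl X i = x i := by
  subst e
  exact ⟨pk_lt h, fun i hi => by rw [fl_pk h, if_pos hi]⟩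

theorem add_spec {n X Y : ℕ} (hX : X < 2 ^ (32 * n)) (hY : Y < 2 ^ (32 * n))
    (h : ∀ i < n, fl X i + fl Y i < 2 ^ 32) :
    Nat.add X Y < 2 ^ (32 * n) ∧ ∀ i < n, fl (Nat.add X Y) i = fl X i + fl Y i := by
  refine of_eq_pk ?_ h
  rw [← pk_add, pk_fl hX, pk_fl hY]; rfl

theorem sub_spec {n X Y : ℕ} (hX : X < 2 ^ (32 * n)) (hY : Y < 2 ^ (32 * n))
    (h : ∀ i < n, fl Y i ≤ fl X i) :
    Nat.sub X Y < 2 ^ (32 * n) ∧ ∀ i < n, fl (Nat.sub X Y) i = fl X i - fl Y i := by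
  refine of_eq_pk ?_ (fun i _ => (Nat.sub_le _ _).trans_lt (fl_lt _ _))
  have : pk n (fun i => fl X i - fl Y i) + Y = X := by
    conv_lhs => rw [← pk_fl hY]
    rw [pk_add]
    conv_rhs => rw [← pk_fl hX]
    exact pk_congr (fun i hi => by
      have := h i hi
      simp only [pk_fl hY]
      omega)
  show X - Y = _
  omega

theorem mul_spec {n X c : ℕ} (hX : X < 2 ^ (32 * n)) (h : ∀ i < n, fl X i * c < 2 ^ 32) :
    Nat.mul X c < 2 ^ (32 * n) ∧ ∀ i < n, fl (Nat.mul X c) i = fl X i * c := by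
  refine of_eq_pk ?_ h
  rw [← pk_mul, pk_fl hX]; rfl

theorem shr_spec {n X s : ℕ} (hX : X < 2 ^ (32 * n)) (h : ∀ i < n, 2 ^ s ∣ fl X i) :
    Nat.shiftRight X s < 2 ^ (32 * n) ∧ ∀ i < n, fl (Nat.shiftRight X s) i = fl X i / 2 ^ s := by
  refine of_eq_pk ?_ (fun i _ => (Nat.div_le_self _ _).trans_lt (fl_lt _ _))
  have : pk n (fun i => fl X i / 2 ^ s) * 2 ^ s = X := by
    rw [pk_mul]
    conv_rhs => rw [← pk_fl hX]
    exact pk_congr (fun i hi => Nat.div_mul_cancel (h i hi))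
  show X >>> s = _
  rw [Nat.shiftRight_eq_div_pow]
  conv_lhs => rw [← this]
  rw [Nat.mul_div_cancel _ (by positivity)]

theorem land_lt {n X : ℕ} (Y : ℕ) (hX : X < 2 ^ (32 * n)) : Nat.land X Y < 2 ^ (32 * n) :=
  lt_of_le_of_lt Nat.and_le_left hX

theorem land_lt' {n Y : ℕ} (X : ℕ) (hY : Y < 2 ^ (32 * n)) : Nat.land X Y < 2 ^ (32 * n) :=
  lt_of_le_of_lt Nat.and_le_right hY

theorem mk_lt (n : ℕ) (p : ℕ → Bool) : mk n p < 2 ^ (32 * n) :=
  pk_lt (fun i _ => by cases p i <;> simp)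

theorem fl_mk (n : ℕ) (p : ℕ → Bool) (i : ℕ) :
    fl (mk n p) i = if i < n ∧ p i = true then 2 ^ 32 - 1 else 0 := by
  unfold mk
  rw [fl_pk (fun i _ => by cases p i <;> simp)]
  by_cases h : i < n <;> cases p i <;> simp [h]

theorem fl_land_mk (X n : ℕ) (p : ℕ → Bool) (i : ℕ) :
    fl (Nat.land X (mk n p)) i = if i < n ∧ p i = true then fl X i else 0 := by
  rw [fl_land, fl_mk]
  split_ifs
  · exact Nat.and_two_pow_sub_one_of_lt_two_pow (fl_lt _ _)
  · simp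

theorem cst_lt (n : ℕ) {c : ℕ} (h : c < 2 ^ 32) : cst n c < 2 ^ (32 * n) := pk_lt (fun _ _ => h)

theorem fl_cst {n c : ℕ} (h : c < 2 ^ 32) {i : ℕ} (hi : i < n) : fl (cst n c) i = c := by
  unfold cst
  rw [fl_pk (fun _ _ => h), if_pos hi]

theorem and_high {x s : ℕ} (hs : s ≤ 32) (hx : x < 2 ^ 32) :
    x &&& (2 ^ 32 - 2 ^ s) = x / 2 ^ s * 2 ^ s := by
  obtain ⟨t, ht⟩ : ∃ t, 32 = t + s := ⟨32 - s, by omega⟩
  have e : 2 ^ 32 - 2 ^ s = (2 ^ t - 1) * 2 ^ s := by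
    rw [Nat.sub_mul, ← pow_add, ← ht, one_mul]
  rw [e]
  refine Nat.eq_of_testBit_eq (fun j => ?_)
  rw [Nat.testBit_and, Nat.testBit_mul_two_pow, Nat.testBit_mul_two_pow,
    Nat.testBit_two_pow_sub_one, Nat.testBit_div_two_pow]
  by_cases h : s ≤ j
  · simp only [h, decide_true, Bool.true_and, Nat.sub_add_cancel h]
    by_cases h2 : j - s < t
    · simp [h2]
    · have : x.testBit j = false :=
        Nat.testBit_lt_two_pow (hx.trans_le (Nat.pow_le_pow_right (by norm_num) (by omega)))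
      simp [this]
  · simp [h]

theorem cdiv_spec {n R c s X : ℕ} (hs : s ≤ 32) (hX : X < 2 ^ (32 * n))
    (hR : R < 2 ^ (32 * n)) (h : ∀ i < n, fl X i * c + fl R i < 2 ^ 32) :
    cdiv R (cst n (2 ^ 32 - 2 ^ s)) c s X < 2 ^ (32 * n) ∧
      ∀ i < n, fl (cdiv R (cst n (2 ^ 32 - 2 ^ s)) c s X) i = (fl X i * c + fl R i) / 2 ^ s := by
  obtain ⟨h1, h2⟩ := mul_spec (c := c) hX (fun i hi => by have := h i hi; omega)
  obtain ⟨h3, h4⟩ := add_spec h1 hR (fun i hi => by rw [h2 i hi]; exact h i hi)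
  have h5 : ∀ i < n, fl (Nat.land (Nat.add (Nat.mul X c) R) (cst n (2 ^ 32 - 2 ^ s))) i =
      (fl X i * c + fl R i) / 2 ^ s * 2 ^ s := by
    intro i hi
    rw [fl_land, fl_cst (Nat.sub_lt (by positivity) (by positivity)) hi,
      and_high hs (fl_lt _ _), h4 i hi, h2 i hi]
  obtain ⟨h6, h7⟩ := shr_spec (s := s) (land_lt (cst n (2 ^ 32 - 2 ^ s)) h3)
    (fun i hi => by rw [h5 i hi]; exact Dvd.intro_left _ rfl)
  refine ⟨h6, fun i hi => ?_⟩
  unfold cdiv
  rw [h7 i hi, h5 i hi, Nat.mul_div_cancel _ (by positivity)]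

theorem mx_spec {n X Y : ℕ} (hX : X < 2 ^ (32 * n)) (hY : Y < 2 ^ (32 * n))
    (h1 : ∀ i < n, fl X i < 2 ^ 31) (h2 : ∀ i < n, fl Y i < 2 ^ 31) :
    mx (cst n 2147483648) X Y < 2 ^ (32 * n) ∧
      ∀ i < n, fl (mx (cst n 2147483648) X Y) i = max (fl X i) (fl Y i) := by
  have hH : ∀ i < n, fl (cst n 2147483648) i = 2147483648 := fun i hi => fl_cst (by norm_num) hi
  have hHl : cst n 2147483648 < 2 ^ (32 * n) := cst_lt n (by norm_num)
  obtain ⟨a1, a2⟩ := add_spec hY hHl (fun i hi => by have := h2 i hi; rw [hH i hi]; omega)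
  obtain ⟨b1, b2⟩ := sub_spec a1 hX (fun i hi => by
    have := h1 i hi; rw [a2 i hi, hH i hi]; omega)
  unfold mx mx2
  generalize Nat.sub (Nat.add Y (cst n 2147483648)) X = d at b1 b2
  have c2 : ∀ i < n, fl (Nat.land d (cst n 2147483648)) i = fl d i / 2 ^ 31 * 2 ^ 31 := by
    intro i hi
    rw [fl_land, hH i hi]
    exact and_high (s := 31) (by norm_num) (fl_lt _ _)
  have c1 := land_lt (cst n 2147483648) b1
  generalize Nat.land d (cst n 2147483648) = t at c1 c2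
  obtain ⟨d1, d2⟩ := shr_spec (s := 31) c1 (fun i hi => by
    rw [c2 i hi]; exact Dvd.intro_left _ rfl)
  obtain ⟨e1, e2⟩ := sub_spec c1 d1 (fun i hi => by rw [d2 i hi]; exact Nat.div_le_self _ _)
  have f2 : ∀ i < n, fl (Nat.land d (Nat.sub t (Nat.shiftRight t 31))) i = fl Y i - fl X i := by
    intro i hi
    have g1 := h1 i hi
    have g2 := h2 i hi
    rw [fl_land, e2 i hi, d2 i hi, c2 i hi, b2 i hi, a2 i hi, hH i hi]
    by_cases h : fl X i ≤ fl Y i
    · have : (fl Y i + 2147483648 - fl X i) / 2 ^ 31 = 1 := by omega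
      rw [this]
      have := Nat.and_two_pow_sub_one_eq_mod (fl Y i + 2147483648 - fl X i) 31
      norm_num at this ⊢
      omega
    · have : (fl Y i + 2147483648 - fl X i) / 2 ^ 31 = 0 := by omega
      rw [this]
      simp
      omega
  obtain ⟨g1, g2⟩ := add_spec hX (land_lt (Nat.sub t (Nat.shiftRight t 31)) b1) (fun i hi => by
    have g1 := h1 i hi
    have g2 := h2 i hi
    rw [f2 i hi]; omega)
  refine ⟨g1, fun i hi => ?_⟩
  rw [g2 i hi, f2 i hi]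
  omega

end Pool.Agent.P.MP_f475a8_pr
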