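import Pool.Agent.P.MP_f475a8_pr.Local
import Pool.Agent.P.MP_f475a8_pr.Check3

/-! Soundness of the dynamic programme. -/

set_option autoImplicit false
open Function

namespace Pool.Agent.P.MP_f475a8_pr

def rem (P : ℕ → ℕ → Bool) (h : ℕ) : ℕ := ∑ i ∈ Finset.Ico h 17, pc (P i)

theorem rem_step {P : ℕ → ℕ → Bool} (hP : ∀ i v, 17 ≤ i → P i v = false) (h : ℕ) :
    rem P h = rem P (h + 1) + pc (P h) := by
  unfold rem
  by_cases e : h < 17
  · rw [Finset.sum_eq_sum_Ico_succ_bot e, add_comm]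
  · rw [Finset.Ico_eq_empty (by omega), Finset.Ico_eq_empty (by omega)]
    simp [pc, hP h _ (by omega)]

def Inv (h0 h : ℕ) (act : ℕ → ℕ) (a b c : ℕ) : Prop :=
  a ≤ ∑ i ∈ Finset.Ico h0 h, cN (act i) ∧ b ≤ ∑ i ∈ Finset.Ico h0 h, cE (act i) ∧
    c ≤ ∑ i ∈ Finset.Ico h0 h, cS (act i)

theorem sum_update_Ico (g : ℕ → ℕ) {h0 h : ℕ} (hh : h0 ≤ h) (act : ℕ → ℕ) (B : ℕ) :
    ∑ i ∈ Finset.Ico h0 (h + 1), g (update act h B i) =
      ∑ i ∈ Finset.Ico h0 h, g (act i) + g B := by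
  rw [Finset.sum_Ico_succ_top hh, update_self]
  congr 1
  refine Finset.sum_congr rfl (fun i hi => ?_)
  rw [update_of_ne (Finset.mem_Ico.1 hi).2.ne]

theorem Inv.step {h0 h : ℕ} {act : ℕ → ℕ} {a b c : ℕ} (H : Inv h0 h act a b c) (hh : h0 ≤ h)
    (B : ℕ) : Inv h0 (h + 1) (update act h B) (a + cN B) (b + cE B) (c + cS B) := by
  obtain ⟨h1, h2, h3⟩ := H
  refine ⟨?_, ?_, ?_⟩ <;> rw [sum_update_Ico _ hh] <;> omega

theorem Inv.mono {h0 h : ℕ} {act : ℕ → ℕ} {a b c a' b' c' : ℕ} (H : Inv h0 h act a b c)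
    (ha : a' ≤ a) (hb : b' ≤ b) (hc : c' ≤ c) : Inv h0 h act a' b' c' :=
  ⟨ha.trans H.1, hb.trans H.2.1, hc.trans H.2.2⟩

noncomputable def val (tp : ℕ → ℕ) (wt : ℕ → ℝ) (X N a b c : ℕ) : ℝ :=
  fl X (ix (tp N) a b c) * wt N

def Mok (nt : ℕ) (tp : ℕ → ℕ) (wt : ℕ → ℝ) (bs : ℕ → ℕ) (m : ℕ → ℕ → ℕ) : Prop :=
  ∀ j < 21, ∀ X Y, Sm (125 * nt) (bs j) X → Sm (125 * nt) (bs j) Y →
    Sm (125 * nt) (bs (j + 1)) (m X Y) ∧ ∀ N a b c, a ≤ 4 → b ≤ 4 → c ≤ 4 →
      val tp wt X N a b c ≤ val tp wt (m X Y) N a b c ∧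
      val tp wt Y N a b c ≤ val tp wt (m X Y) (N + 1) a b c

structure Scen (tp : ℕ → ℕ) (wt : ℕ → ℝ) (death : ℕ) (Wt : BT) (P : ℕ → ℕ → Bool)
    (kk : (ℕ × ℕ → Bool) → ℕ → Out) (h0 : ℕ) (Ψ : Out → ℝ) : Prop where
  hP : ∀ i v, 17 ≤ i → P i v = false
  hh : h0 < 17
  restart : ∀ h, h0 < h → ∀ a b c, a ≤ 4 → b ≤ 4 → c ≤ 4 →
    Bd h (fun x => Ψ (kk x h)) (val tp wt death (rem P h) a b c)
  accept : ∀ h B a b c act N, h0 ≤ h → h < h0 + 7 → B < 512 → a ≤ 4 → b ≤ 4 → c ≤ 4 →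
    acc3 (min 4 (a + cN B)) (min 4 (b + cE B)) (min 4 (c + cS B)) = true → Inv h0 h act a b c →
    Bd (h + 1) (fun x => Ψ (some (h0, ph2 (eta x) 10 (h + 1) B (update act h B))))
      (val tp wt (get Wt B) N a b c)

theorem bit_step {nt : ℕ} {tp : ℕ → ℕ} {wt : ℕ → ℝ} {bs : ℕ → ℕ} {m : ℕ → ℕ → ℕ}
    (hm : Mok nt tp wt bs m) {j : ℕ} (hj : j < 21) {G : BT} (hG : Full 9 G)
    (hs : ∀ S < 512, Sm (125 * nt) (bs j) (get G S)) {bt : ℕ} (hbt : bt < 9) {k : BT → Bool}
    (h : bsK m bt G k = true) : ∃ u, Full 9 u ∧ (∀ S < 512, Sm (125 * nt) (bs (j + 1)) (get u S)) ∧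
      (∀ S < 512, ∀ (q : Bool) N a b c, a ≤ 4 → b ≤ 4 → c ≤ 4 →
        val tp wt (get G (ob q bt S)) N a b c ≤ val tp wt (get u S) (N + q.toNat) a b c) ∧
      k u = true := by
  obtain ⟨u, hu, eu, h⟩ := bsK_spec m bt 9 G k hG h
  have key := fun S hS => hm j hj _ _ (hs S hS) (hs _ (ob_lt true hbt hS))
  refine ⟨u, hu, fun S hS => by rw [eu]; exact (key S hS).1, fun S hS q N a b c ha hb hc => ?_, h⟩
  rw [eu]
  cases q
  · exact ((key S hS).2 N a b c ha hb hc).1
  · exact ((key S hS).2 N a b c ha hb hc).2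

theorem ph1K_spec {tt : TT} (htt : TOk 9 clo0 tt) {nt : ℕ} {tp : ℕ → ℕ} {wt : ℕ → ℝ}
    {bs : ℕ → ℕ} {m : ℕ → ℕ → ℕ} (htp : ∀ N, tp N < nt) (hwt : ∀ N, 0 ≤ wt N)
    (hm : Mok nt tp wt bs m) (hbs : ∀ j ≤ 21, bs 0 ≤ bs j ∧ bs j < 2 ^ 22)
    {s0 : ℕ → ℕ → ℕ} (hs0 : S0ok nt s0) {death : ℕ} (hd : Sm (125 * nt) (bs 0) death)
    {Wt : BT} (hW : ∀ B < 512, Sm (125 * nt) (bs 0) (get Wt B) ∧ ∀ t a b c, t < nt → a ≤ 4 →
      b ≤ 4 → c ≤ 4 → ¬ acc3 (min 4 (a + cN B)) (min 4 (b + cE B)) (min 4 (c + cS B)) = true →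
      fl (get Wt B) (ix t a b c) = 0) {k : ℕ → Bool}
    (h : ph1K tt (125 * nt) (cst (125 * nt) 511) (cst (125 * nt) 4294966784) death m Wt s0 k
      = true) :
    ∃ X, k X = true ∧ ∀ P kk h0 Ψ, Scen tp wt death Wt P kk h0 Ψ →
      Bd h0 (fun x => Ψ (ph1 P (eta x) (kk x) h0 7 h0 0 0 0 0 (fun _ => 0)))
        (val tp wt X (rem P h0) 0 0 0) := by
  unfold ph1K at h
  rw [fo_eq] at h
  obtain ⟨V0, hV0, eV0, h⟩ := cstK_spec _ _ _ h
  refine Exists.elim (iterK_spec _ V0 (fun t u => Full 9 u ∧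
    (∀ A < 512, Sm (125 * nt) (bs (3 * t)) (get u A)) ∧
    ∀ P kk h0 Ψ, Scen tp wt death Wt P kk h0 Ψ → ∀ h A a b c act, h + t = h0 + 7 → h0 ≤ h →
      A < 512 → a ≤ 4 → b ≤ 4 → c ≤ 4 → Inv h0 h act a b c →
      Bd h (fun x => Ψ (ph1 P (eta x) (kk x) h0 t h A a b c act))
        (val tp wt (get u A) (rem P h) a b c)) ?_ 7 ?_ _ h) ?_
  rotate_left 2
  · rintro V ⟨hV, h⟩
    refine ⟨_, h, fun P kk h0 Ψ hS => ?_⟩
    rw [lk_zero hV.1]
    exact hV.2.2 P kk h0 Ψ hS h0 0 0 0 0 _ rfl le_rfl (by norm_num) (by norm_num) (by norm_num)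
      (by norm_num) ⟨Nat.zero_le _, Nat.zero_le _, Nat.zero_le _⟩
  · refine ⟨hV0, fun A _ => by rw [eV0]; exact hd, fun P kk h0 Ψ hS h A a b c act e _ _ ha hb hc _ => ?_⟩
    rw [eV0]
    exact hS.restart h (by omega) a b c ha hb hc
  · rintro t ht u k ⟨hu, su, iu⟩ h
    obtain ⟨Vt, hVt, eVt, h⟩ := zipI_spec _ 9 _ _ _ hu h
    have b1 := hbs (3 * t) (by omega)
    have key : ∀ B < 512, Sm (125 * nt) (bs (3 * t)) (get Vt B) ∧
        (B = 0 → get Vt B = death) ∧ (B ≠ 0 → ∀ t a b c, t < nt → a ≤ 4 → b ≤ 4 → c ≤ 4 →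
          fl (get Vt B) (ix t a b c) =
          if acc3 (min 4 (a + cN B)) (min 4 (b + cE B)) (min 4 (c + cS B)) = true then
            fl (get Wt B) (ix t a b c) else
            fl (get u B) (ix t (min 4 (a + cN B)) (min 4 (b + cE B)) (min 4 (c + cS B)))) := by
      intro B hB
      rw [eVt B hB]
      by_cases e : B = 0
      · subst e
        exact ⟨hd.mono b1.1, fun _ => rfl, fun e => absurd rfl e⟩
      · rw [show Nat.beq B 0 = false from by
          cases B with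
          | zero => exact absurd rfl e
          | succ B => rfl]
        obtain ⟨a1, a2⟩ := hs0 B _ (land_lt (mk (125 * nt) (fun i => !accI i)) (su B hB).1)
        have a3 : ∀ t a b c, t < nt → a ≤ 4 → b ≤ 4 → c ≤ 4 →
            fl (s0 B (Nat.land (get u B) (mk (125 * nt) (fun i => !accI i)))) (ix t a b c) +
            fl (get Wt B) (ix t a b c) =
            if acc3 (min 4 (a + cN B)) (min 4 (b + cE B)) (min 4 (c + cS B)) = true then
            fl (get Wt B) (ix t a b c) else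
            fl (get u B) (ix t (min 4 (a + cN B)) (min 4 (b + cE B)) (min 4 (c + cS B))) := by
          intro t a b c ht ha hb hc
          have m := fun x => min_le_left 4 x
          obtain ⟨-, d1, d2, d3⟩ := ix_dig (tp := t) (m (a + cN B)) (m (b + cE B)) (m (c + cS B))
          rw [a2 t a b c ht ha hb hc, fl_land_mk, accI, d1, d2, d3]
          by_cases hacc : acc3 (min 4 (a + cN B)) (min 4 (b + cE B)) (min 4 (c + cS B)) = true
          · simp [hacc]
          · rw [(hW B hB).2 t a b c ht ha hb hc hacc]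
            simp [hacc, ix_lt ht (m _) (m _) (m _)]
        have a4 : ∀ i < 125 * nt,
            fl (s0 B (Nat.land (get u B) (mk (125 * nt) (fun i => !accI i)))) i +
            fl (get Wt B) i ≤ bs (3 * t) := by
          intro i hi
          obtain ⟨t', a, b, c, h1, h2, h3, h4, rfl⟩ := ix_dec hi
          rw [a3 t' a b c h1 h2 h3 h4]
          split_ifs
          · exact ((hW B hB).1.2 _).trans b1.1
          · exact (su B hB).2 _
        obtain ⟨c1, c2⟩ := add_spec a1 (hW B hB).1.1 (fun i hi =>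
          (a4 i hi).trans_lt (b1.2.trans (by norm_num)))
        refine ⟨Sm.of_lt c1 (fun i hi => ?_), fun e' => absurd e' e, fun _ t a b c ht ha hb hc => ?_⟩
        · exact (c2 i hi).trans_le (a4 i hi)
        · exact (c2 _ (ix_lt ht ha hb hc)).trans (a3 t a b c ht ha hb hc)
    obtain ⟨G0, hG0, eG0, h⟩ := avgK_spec htt hVt b1.2 (fun S hS => (key S hS).1) clo_lt h
    obtain ⟨G1, hG1, sG1, eG1, h⟩ := bit_step hm (j := 3 * t) (by omega) hG0
      (fun S hS => (eG0 S hS).1) (by norm_num) h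
    obtain ⟨G2, hG2, sG2, eG2, h⟩ := bit_step hm (j := 3 * t + 1) (by omega) hG1 sG1
      (by norm_num) h
    obtain ⟨G3, hG3, sG3, eG3, h⟩ := bit_step hm (j := 3 * t + 1 + 1) (by omega) hG2 sG2
      (by norm_num) h
    refine ⟨G3, ⟨hG3, sG3, fun P kk h0 Ψ hS h A a b c act e h1 hA ha hb hc hI => ?_⟩, h⟩
    have hh := hS.hh
    have step := Bd_step (h := h) (by omega)
      (fun om x => Ψ (ph1s (eta x) (kk x) h0 (ph1 P (eta x) (kk x) h0 t) h a b c act
        (clo (ent (P h) A) om)))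
      (fun om => val tp wt (get Vt (clo (ent (P h) A) om)) (rem P (h + 1)) a b c) (by
        intro om hom
        have hB := clo_lt (ent (P h) A) om hom
        generalize clo (ent (P h) A) om = B at hB
        unfold ph1s
        by_cases e0 : B = 0
        · simp only [if_pos e0]
          rw [(key B hB).2.1 e0]
          exact hS.restart _ (by omega) a b c ha hb hc
        · simp only [if_neg e0]
          have e1 := (key B hB).2.2 e0 _ a b c (htp (rem P (h + 1))) ha hb hc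
          unfold val
          rw [e1]
          by_cases hacc : acc3 (min 4 (a + cN B)) (min 4 (b + cE B)) (min 4 (c + cS B)) = true
          · simp only [if_pos hacc]
            exact hS.accept h B a b c act _ h1 (by omega) hB ha hb hc hacc hI
          · simp only [if_neg hacc]
            exact iu P kk h0 Ψ hS (h + 1) B _ _ _ _ (by omega) (by omega) hB (min_le_left _ _)
              (min_le_left _ _) (min_le_left _ _)
              ((hI.step h1 B).mono (min_le_right _ _) (min_le_right _ _) (min_le_right _ _)))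
    refine Bd.mono step ?_
    have l2 := ob_lt (P h 2) (b := 6) (by norm_num) hA
    have l1 := ob_lt (P h 1) (b := 3) (by norm_num) l2
    have l0 := ob_lt (P h 0) (b := 0) (by norm_num) l1
    have f0 := (eG0 _ l0).2 _ (ix_lt (htp (rem P (h + 1))) ha hb hc)
    have f1 := eG1 _ l1 (P h 0) (rem P (h + 1)) a b c ha hb hc
    have f2 := eG2 _ l2 (P h 1) (rem P (h + 1) + (P h 0).toNat) a b c ha hb hc
    have f3 := eG3 _ hA (P h 2) (rem P (h + 1) + (P h 0).toNat + (P h 1).toNat) a b c ha hb hc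
    rw [rem_step hS.hP h, pc, ← add_assoc, ← add_assoc]
    refine le_trans ?_ (f1.trans (f2.trans f3))
    unfold val ent
    rw [← Finset.sum_mul, div_le_iff₀ (by norm_num), mul_right_comm]
    refine mul_le_mul_of_nonneg_right ?_ (hwt _)
    rw [mul_comm]
    exact_mod_cast f0

theorem out_bound {tp : ℕ → ℕ} {wt : ℕ → ℝ} {death X : ℕ} {Wt : BT}
    (hX : ∀ P kk h0 Ψ, Scen tp wt death Wt P kk h0 Ψ →
      Bd h0 (fun x => Ψ (ph1 P (eta x) (kk x) h0 7 h0 0 0 0 0 (fun _ => 0)))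
        (val tp wt X (rem P h0) 0 0 0))
    (hfin : ∀ N a b c, a ≤ 4 → b ≤ 4 → c ≤ 4 → val tp wt X N 0 0 0 ≤ val tp wt death N a b c)
    {P : ℕ → ℕ → Bool} (hP : ∀ i v, 17 ≤ i → P i v = false) {Ψ : Out → ℝ}
    (h0 : ∀ a b c, a ≤ 4 → b ≤ 4 → c ≤ 4 → Ψ none ≤ val tp wt death 0 a b c)
    (hacc : ∀ h0 < 17, ∀ h B a b c act N, h0 ≤ h → h < h0 + 7 → B < 512 → a ≤ 4 → b ≤ 4 → c ≤ 4 →
      acc3 (min 4 (a + cN B)) (min 4 (b + cE B)) (min 4 (c + cS B)) = true → Inv h0 h act a b c →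
      Bd (h + 1) (fun x => Ψ (some (h0, ph2 (eta x) 10 (h + 1) B (update act h B))))
        (val tp wt (get Wt B) N a b c)) (n : ℕ) :
    ∀ h, 17 ≤ n + h → ∀ a b c, a ≤ 4 → b ≤ 4 → c ≤ 4 →
      Bd h (fun x => Ψ (out P (eta x) n h)) (val tp wt death (rem P h) a b c) := by
  have hr : ∀ h, 17 ≤ h → rem P h = 0 := fun h hh => by
    unfold rem; rw [Finset.Ico_eq_empty (by omega)]; rfl
  induction n with
  | zero =>
    intro h hh a b c ha hb hc
    rw [hr h (by omega)]
    exact Bd_of_le (fun x => h0 a b c ha hb hc)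
  | succ n ih =>
    intro h hh a b c ha hb hc
    by_cases e : 17 ≤ h
    · rw [hr h e]
      simp only [out, if_pos e]
      exact Bd_of_le (fun x => h0 a b c ha hb hc)
    · simp only [out, if_neg e]
      exact (hX P (fun x => out P (eta x) n) h Ψ ⟨hP, by omega,
        fun h' hh' => ih h' (by omega), hacc h (by omega)⟩).mono (hfin _ a b c ha hb hc)

/-- the bound for the rejection probability of a tube with `n` entries -/
noncomputable def F (n : ℕ) : ℝ := Ft (min 4 n) / 65536 * yy ^ (n - 4)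

theorem yy_pos : 0 < yy := by unfold yy; norm_num

theorem F_nonneg (n : ℕ) : 0 ≤ F n := by
  unfold F; have := yy_pos; positivity

theorem F_zero : F 0 = 1 := by simp [F, Ft]

theorem F_anti : Antitone F := by
  refine antitone_nat_of_succ_le (fun n => ?_)
  by_cases h : n < 4
  · interval_cases n <;> simp [F, Ft] <;> norm_num
  · unfold F
    rw [min_eq_left (by omega), min_eq_left (by omega), show n + 1 - 4 = (n - 4) + 1 by omega,
      pow_succ]
    have := pow_pos yy_pos (n - 4)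
    have h2 : yy ≤ 1 := by unfold yy; norm_num
    exact mul_le_mul_of_nonneg_left (by nlinarith) (by positivity)

theorem F_le_one (n : ℕ) : F n ≤ 1 := F_zero ▸ F_anti (Nat.zero_le n)

theorem F_eight : F 8 ≤ 2182 / 10000 := by
  simp [F, Ft, yy]; norm_num

theorem rej_bound {P : ℕ → ℕ → Bool} (hP : ∀ i v, 17 ≤ i → P i v = false) :
    Bd 0 (fun x => if out P (eta x) 17 0 = none then 1 else 0) (F (rem P 0)) := by
  have h := check1
  unfold rejChk at h
  obtain ⟨tt, htt, h⟩ := ttK_spec _ _ _ h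
  simp only [fo_eq] at h
  obtain ⟨s0, hs0, h⟩ := s0K_spec (nt := 5) h
  obtain ⟨Wt, -, eW, h⟩ := cstK_spec _ _ _ h
  have hFt : ∀ j, Ft j ≤ 65536 := by
    intro j; unfold Ft
    cases (j == 0) <;> cases (j == 1) <;> cases (j == 2) <;> cases (j == 3) <;> simp
  have hd : ∀ t a b c, t < 5 → a ≤ 4 → b ≤ 4 → c ≤ 4 →
      fl (pk 625 (fun i => Ft (i / 125))) (ix t a b c) = Ft t := by
    intro t a b c ht ha hb hc
    rw [fl_pk (fun i _ => (hFt _).trans_lt (by norm_num)), if_pos (ix_lt ht ha hb hc),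
      (ix_dig ha hb hc).1]
  have hb : ∀ j ≤ 21, 65536 ≤ gb^[j] 65536 ∧ gb^[j] 65536 < 2 ^ 21 := by decide
  refine Exists.elim (ph1K_spec htt (nt := 5) (tp := fun N => min 4 N)
    (wt := fun N => yy ^ (N - 4)) (bs := fun j => gb^[j] 65536) (fun N => by omega)
    (fun N => (pow_pos yy_pos _).le) ?_ (fun j hj => ⟨(hb j hj).1, (hb j hj).2.trans (by norm_num)⟩)
    hs0 (Sm_pk (fun i _ => hFt _) (by norm_num)) (fun B _ => by
      rw [eW]; exact ⟨⟨by positivity, fun i => by simp [fl_def]⟩, fun _ _ _ _ _ _ _ _ _ => by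
        simp [fl_def]⟩) h) ?_
  rotate_left
  · rintro X ⟨hX, H⟩
    have hall := allK_spec _ _ hX
    have := out_bound H (fun N a b c ha hb hc => ?_) hP
      (Ψ := fun o => 65536 * if o = none then 1 else 0) (fun a b c ha hb hc => ?_)
      (fun h0 _ h B a b c act N _ _ _ _ _ _ _ _ => Bd_of_le (fun x => ?_)) 17 0 le_rfl 0 0 0
      (by norm_num) (by norm_num) (by norm_num)
    · intro x
      have h1 := this x
      rw [Ex_mul, val, hd _ _ _ _ (by omega) (by norm_num) (by norm_num) (by norm_num)] at h1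
      unfold F
      linarith
    · unfold val
      rw [hd (min 4 N) _ _ _ (by omega) ha hb hc]
      refine mul_le_mul_of_nonneg_right ?_ (pow_pos yy_pos _).le
      have := Nat.le_of_ble_eq_true (hall (min 4 N) (by omega))
      rw [show ix (min 4 N) 0 0 0 = 125 * min 4 N by unfold ix; omega]
      exact_mod_cast this
    · unfold val
      rw [hd (min 4 0) _ _ _ (by omega) ha hb hc]
      simp [Ft]
    · simp [val, eW, fl_def]
  · intro j hj X Y hX hY
    have b1 := hb j (by omega)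
    have b2 := hb (j + 1) (by omega)
    obtain ⟨j1, j2⟩ := jsh_spec b1.2 hY
    rw [iterate_succ_apply'] at b2
    have hle : gb^[j] 65536 ≤ gb (gb^[j] 65536) := by unfold gb; omega
    obtain ⟨c1, c2⟩ := mx_spec hX.1 j1.1 (fun i _ => (hX.2 i).trans_lt (b1.2.trans (by norm_num)))
      (fun i _ => (j1.2 i).trans_lt (b2.2.trans (by norm_num)))
    refine ⟨Sm.of_lt c1 (fun i hi => ?_), fun N a b c ha hb hc => ⟨?_, ?_⟩⟩ <;> clear c1
    · simp only [iterate_succ_apply']
      rw [c2 i hi]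
      exact max_le ((hX.2 i).trans hle) (j1.2 i)
    · unfold val
      rw [c2 _ (ix_lt (show min 4 N < 5 by omega) ha hb hc)]
      refine mul_le_mul_of_nonneg_right ?_ (pow_pos yy_pos _).le
      exact_mod_cast le_max_left _ _
    · unfold val
      have hi : ix (min 4 (N + 1)) a b c < 125 * 5 := ix_lt (by omega) ha hb hc
      rw [c2 _ hi]
      obtain ⟨k1, k2⟩ := j2 _ hi
      refine le_trans ?_ (mul_le_mul_of_nonneg_right (Nat.cast_le.2 (le_max_right _ _))
        (pow_pos yy_pos _).le)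
      by_cases hN : N < 4
      · have := k1 (by unfold ix; omega)
        rw [show ix (min 4 (N + 1)) a b c - 125 = ix (min 4 N) a b c by unfold ix; omega] at this
        simp only [show N - 4 = 0 by omega, show N + 1 - 4 = 0 by omega, pow_zero, mul_one]
        exact_mod_cast this
      · have := k2 (by unfold ix; omega)
        simp only [show min 4 (N + 1) = 4 by omega, show min 4 N = 4 by omega,
          show N + 1 - 4 = (N - 4) + 1 by omega] at this ⊢
        generalize fl (jsh _ _ _ _ _ Y) _ = z at this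
        have h3 : (fl Y (ix 4 a b c) : ℝ) * 1204 ≤ 1024 * z := by exact_mod_cast this
        rw [pow_succ, mul_comm (yy ^ (N - 4)), ← mul_assoc]
        refine mul_le_mul_of_nonneg_right ?_ (pow_pos yy_pos _).le
        unfold yy
        have : (0 : ℝ) ≤ z := Nat.cast_nonneg z
        linarith

noncomputable def FF (p : Bool) (n : ℕ) : ℝ := if p = true then F n else 1

theorem FF_nonneg (p : Bool) (n : ℕ) : 0 ≤ FF p n := by
  unfold FF; split_ifs
  · exact F_nonneg n
  · norm_num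

theorem FF_anti (p : Bool) : Antitone (FF p) := by
  intro a b h
  unfold FF; split_ifs
  · exact F_anti h
  · exact le_rfl

theorem FF_eq (p : Bool) (n : ℕ) : FF p n = FJ p (min 4 n) / 65536 * rho p ^ (n - 4) := by
  cases p <;> simp [FF, FJ, rho, F]

/-- the functional of the constraints -/
noncomputable def Psi (jN jE jS : Bool) (T : ℝ) : Out → ℝ
  | none => T
  | some r => 2 ^ 20 * (FF jN (∑ i ∈ Finset.Ico r.1 (r.1 + 17), cN (r.2 i)) *
      FF jE (∑ i ∈ Finset.Ico r.1 (r.1 + 17), cE (r.2 i)) *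
      FF jS (∑ i ∈ Finset.Ico r.1 (r.1 + 17), cS (r.2 i)))

theorem con_bound {nt : ℕ} {pN pE pS : ℕ → Bool} {Th : ℕ → ℕ}
    (h : conChk nt pN pE pS Th = true) (hT : ∀ j, Th j ≤ 2 ^ 20) {t0 : ℕ} (ht0 : t0 < nt)
    {P : ℕ → ℕ → Bool} (hP : ∀ i v, 17 ≤ i → P i v = false) :
    Bd 0 (fun x => Psi (pN t0) (pE t0) (pS t0) (Th t0) (out P (eta x) 17 0)) (Th t0) := by
  unfold conChk at h
  obtain ⟨tt, htt, h⟩ := ttK_spec _ _ _ h
  simp only [fo_eq] at h
  obtain ⟨s0, hs0, h⟩ := s0K_spec h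
  obtain ⟨fN, hN, h⟩ := uYK_spec h
  obtain ⟨fE, hE, h⟩ := uYK_spec h
  obtain ⟨fS, hS, h⟩ := uYK_spec h
  obtain ⟨U0, hU0, eU0, h⟩ := cstK_spec _ _ _ h
  have hFJ : ∀ p j, FJ p j ≤ 65536 := by
    intro p j; unfold FJ Ft
    cases p <;> cases (j == 0) <;> cases (j == 1) <;> cases (j == 2) <;> cases (j == 3) <;> simp
  have hpsi : ∀ i, psi pN pE pS i ≤ 2 ^ 20 := by
    intro i
    unfold psi
    have := Nat.mul_le_mul (Nat.mul_le_mul (hFJ (pN (i / 125)) (dig 25 i))
      (hFJ (pE (i / 125)) (dig 5 i))) (hFJ (pS (i / 125)) (dig 1 i))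
    omega
  have m := fun x => min_le_left 4 x
  refine Exists.elim (iterK_spec _ U0 (fun t u => Full 9 u ∧
    (∀ A < 512, Sm (125 * nt) (2 ^ 20) (get u A)) ∧
    ∀ h0 < 17, ∀ h A a b c act, h0 ≤ h → h + t ≤ h0 + 17 → A < 512 → Inv h0 h act a b c →
      Bd h (fun x => Psi (pN t0) (pE t0) (pS t0) (Th t0) (some (h0, ph2 (eta x) t h A act)))
        (valU pN pE pS t0 (get u A) a b c)) ?_ 10 ?_ _ h) ?_
  · refine ⟨hU0, fun A _ => by rw [eU0]; exact Sm_pk (fun i _ => hpsi i) (by norm_num),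
      fun h0 _ h A a b c act h1 h2 _ hI => Bd_of_le (fun x => ?_)⟩
    have sub : Finset.Ico h0 h ⊆ Finset.Ico h0 (h0 + 17) := Finset.Ico_subset_Ico_right (by omega)
    have l1 := FF_anti (pN t0) (hI.1.trans (Finset.sum_le_sum_of_subset sub))
    have l2 := FF_anti (pE t0) (hI.2.1.trans (Finset.sum_le_sum_of_subset sub))
    have l3 := FF_anti (pS t0) (hI.2.2.trans (Finset.sum_le_sum_of_subset sub))
    have l4 := mul_le_mul (mul_le_mul l1 l2 (FF_nonneg _ _) (FF_nonneg _ _)) l3 (FF_nonneg _ _)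
      (mul_nonneg (FF_nonneg _ _) (FF_nonneg _ _))
    refine le_trans (mul_le_mul_of_nonneg_left l4 (by positivity)) ?_
    obtain ⟨d0, d1, d2, d3⟩ := ix_dig (tp := t0) (m a) (m b) (m c)
    rw [eU0, valU, fl_pk (fun i _ => (hpsi i).trans_lt (by norm_num)),
      if_pos (ix_lt ht0 (m a) (m b) (m c)), psi, d0, d1, d2, d3, FF_eq, FF_eq, FF_eq]
    have r := mul_nonneg (mul_nonneg (pow_nonneg (rho_nonneg (pN t0)) (a - 4))
      (pow_nonneg (rho_nonneg (pE t0)) (b - 4))) (pow_nonneg (rho_nonneg (pS t0)) (c - 4))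
    refine le_trans (le_of_eq ?_) (mul_le_mul_of_nonneg_right
      (show ((FJ (pN t0) (min 4 a) * FJ (pE t0) (min 4 b) * FJ (pS t0) (min 4 c) : ℕ) : ℝ) /
        268435456 ≤ _ from ?_) r)
    · push_cast; ring
    · generalize FJ (pN t0) (min 4 a) * FJ (pE t0) (min 4 b) * FJ (pS t0) (min 4 c) = z
      rw [div_le_iff₀ (by norm_num)]
      have : z ≤ (z + 268435455) / 268435456 * 268435456 := by omega
      exact_mod_cast this
  · rintro t ht u k ⟨hu, su, iu⟩ h
    obtain ⟨Vt, hVt, eVt, h⟩ := zipI_spec _ 9 _ _ _ hu h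
    have key := fun B hB => sh3_spec hN hE hS (su B hB) B
    obtain ⟨G, hG, eG, h⟩ := avgK_spec htt hVt (b := 2 ^ 20) (by norm_num)
      (fun S hS => by rw [eVt S hS]; exact (key S hS).1) clo_lt h
    refine ⟨G, ⟨hG, fun S hS => (eG S hS).1, fun h0 hh0 h A a b c act h1 h2 hA hI => ?_⟩, h⟩
    have step := Bd_step (h := h) (by omega)
      (fun om x => Psi (pN t0) (pE t0) (pS t0) (Th t0)
        (some (h0, ph2 (eta x) t (h + 1) (clo A om) (update act h (clo A om)))))
      (fun om => valU pN pE pS t0 (get Vt (clo A om)) a b c) (by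
        intro om hom
        have hB := clo_lt A om hom
        generalize clo A om = B at hB
        rw [eVt B hB]
        exact (iu h0 hh0 (h + 1) B _ _ _ _ (by omega) (by omega) hB (hI.step h1 B)).mono
          ((key B hB).2 t0 ht0 a b c))
    refine Bd.mono step ?_
    have f0 := (eG _ hA).2 _ (ix_lt ht0 (m a) (m b) (m c))
    unfold valU
    rw [← Finset.sum_mul, div_le_iff₀ (by norm_num), mul_right_comm _ _ (512 : ℝ)]
    refine mul_le_mul_of_nonneg_right ?_ (mul_nonneg (mul_nonneg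
      (pow_nonneg (rho_nonneg _) _) (pow_nonneg (rho_nonneg _) _)) (pow_nonneg (rho_nonneg _) _))
    rw [mul_comm]
    exact_mod_cast f0
  rintro U ⟨⟨hU, sU, iU⟩, h⟩
  obtain ⟨Wt, hWt, eW, h⟩ := zipI_spec _ 9 _ _ _ hU h
  have key := fun B hB => sh3_spec hN hE hS (sU B hB) B
  have hW : ∀ B < 512, ∀ t a b c, t < nt → a ≤ 4 → b ≤ 4 → c ≤ 4 →
      fl (get Wt B) (ix t a b c) =
      if acc3 (min 4 (a + cN B)) (min 4 (b + cE B)) (min 4 (c + cS B)) = true then
        fl (sh3 fN fE fS B (get U B)) (ix t a b c) else 0 := by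
    intro B hB t a b c ht ha hb hc
    obtain ⟨-, d1, d2, d3⟩ := ix_dig (tp := t) (m (a + cN B)) (m (b + cE B)) (m (c + cS B))
    rw [eW B hB, fl_land, (hs0 B _ (mk_lt _ _)).2 t a b c ht ha hb hc, fl_mk, accI, d1, d2, d3]
    by_cases hacc : acc3 (min 4 (a + cN B)) (min 4 (b + cE B)) (min 4 (c + cS B)) = true
    · rw [if_pos hacc, if_pos ⟨ix_lt ht (m _) (m _) (m _), hacc⟩]
      exact Nat.and_two_pow_sub_one_of_lt_two_pow (fl_lt _ _)
    · simp [hacc]
  have hd : ∀ t a b c, t < nt → a ≤ 4 → b ≤ 4 → c ≤ 4 →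
      fl (pk (125 * nt) (fun i => Th (i / 125))) (ix t a b c) = Th t := by
    intro t a b c ht ha hb hc
    rw [fl_pk (fun i _ => (hT _).trans_lt (by norm_num)), if_pos (ix_lt ht ha hb hc),
      (ix_dig ha hb hc).1]
  refine Exists.elim (ph1K_spec htt (nt := nt) (tp := fun _ => t0) (wt := fun _ => 1)
    (bs := fun _ => 2 ^ 20) (fun _ => ht0) (fun _ => zero_le_one) ?_
    (fun j hj => ⟨le_rfl, by norm_num⟩) hs0 (Sm_pk (fun i _ => hT _) (by norm_num))
    (fun B hB => ⟨?_, fun t a b c ht ha hb hc hacc => by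
      rw [hW B hB t a b c ht ha hb hc, if_neg hacc]⟩) h) ?_
  · intro j hj X Y hX hY
    obtain ⟨c1, c2⟩ := mx_spec hX.1 hY.1 (fun i _ => (hX.2 i).trans_lt (by norm_num))
      (fun i _ => (hY.2 i).trans_lt (by norm_num))
    refine ⟨Sm.of_lt c1 (fun i hi => ?_), fun N a b c ha hb hc => ⟨?_, ?_⟩⟩
    · rw [c2 i hi]
      exact max_le (hX.2 i) (hY.2 i)
    · unfold val
      rw [c2 _ (ix_lt ht0 ha hb hc), mul_one, mul_one]
      exact_mod_cast le_max_left _ _
    · unfold val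
      rw [c2 _ (ix_lt ht0 ha hb hc), mul_one, mul_one]
      exact_mod_cast le_max_right _ _
  · rw [eW B hB]
    refine ⟨land_lt _ (key B hB).1.1, fun i => ?_⟩
    rw [fl_land]
    exact Nat.and_le_left.trans ((key B hB).1.2 i)
  · rintro X ⟨hX, H⟩
    have hall := allK_spec _ _ hX
    have := out_bound H (fun N a b c ha hb hc => ?_) hP
      (Ψ := Psi (pN t0) (pE t0) (pS t0) (Th t0)) (fun a b c ha hb hc => ?_)
      (fun h0 hh0 h B a b c act N h1 h2 hB ha hb hc hacc hI => ?_) 17 0 le_rfl 0 0 0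
      (by norm_num) (by norm_num) (by norm_num)
    · rwa [val, hd _ _ _ _ ht0 (by norm_num) (by norm_num) (by norm_num), mul_one] at this
    · unfold val
      rw [hd t0 _ _ _ ht0 ha hb hc, mul_one, mul_one]
      have := Nat.le_of_ble_eq_true (hall t0 ht0)
      rw [show ix t0 0 0 0 = 125 * t0 by unfold ix; omega]
      exact_mod_cast this
    · unfold val
      rw [hd t0 _ _ _ ht0 ha hb hc, mul_one]
      exact le_rfl
    · refine (iU h0 hh0 (h + 1) B _ _ _ _ (by omega) (by omega) hB (hI.step h1 B)).mono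
        (((key B hB).2 t0 ht0 a b c).trans (le_of_eq ?_))
      unfold val valU
      rw [hW B hB t0 a b c ht0 ha hb hc, if_pos hacc, min_eq_right ha, min_eq_right hb,
        min_eq_right hc, show a - 4 = 0 by omega, show b - 4 = 0 by omega,
        show c - 4 = 0 by omega]
      simp

noncomputable def c1 : ℝ := 2182 / 10000
noncomputable def c2 : ℝ := 607 / 10000
noncomputable def c3 : ℝ := 1695 / 100000

/-- the constants attached to the sets of children -/
noncomputable def cJ : Bool → Bool → Bool → ℝ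
  | false, false, false => 1
  | true, false, false => c1
  | false, true, false => c1
  | false, false, true => c1
  | true, true, false => c2
  | false, true, true => c2
  | true, false, true => c1 * c1
  | true, true, true => c3

theorem Psi_le (jN jE jS : Bool) {T c : ℝ} (h : T ≤ 2 ^ 20 * c) (o : Out) :
    Psi jN jE jS (2 ^ 20 * c) o ≤ Psi jN jE jS T o + (2 ^ 20 * c - T) := by
  cases o
  · simp [Psi]
  · simp only [Psi]; linarith

theorem con_all (jN jE jS : Bool) {P : ℕ → ℕ → Bool} (hP : ∀ i v, 17 ≤ i → P i v = false) :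
    Bd 0 (fun x => Psi jN jE jS (2 ^ 20 * cJ jN jE jS) (out P (eta x) 17 0))
      (2 ^ 20 * cJ jN jE jS) := by
  have key : ∀ T : ℝ, T ≤ 2 ^ 20 * cJ jN jE jS →
      Bd 0 (fun x => Psi jN jE jS T (out P (eta x) 17 0)) T →
      Bd 0 (fun x => Psi jN jE jS (2 ^ 20 * cJ jN jE jS) (out P (eta x) 17 0))
      (2 ^ 20 * cJ jN jE jS) := by
    intro T hT H x
    have h1 := Ex_mono (R := Up 0) (fun x => Psi_le jN jE jS hT (out P (eta x) 17 0)) x
    rw [Ex_add, Ex_const] at h1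
    have := H x
    linarith
  have k2 := fun t0 ht0 => con_bound check2 (fun _ => by norm_num) (t0 := t0) ht0 hP
  have k3 := fun t0 ht0 => con_bound check3 (fun j => by
    cases (decide (j < 2)) <;> cases (j == 2) <;> simp) (t0 := t0) ht0 hP
  cases jN <;> cases jE <;> cases jS
  · refine Bd_of_le (fun x => ?_)
    cases out P (eta x) 17 0 <;> simp [Psi, FF, cJ]
  · exact key _ (by simp [cJ, c1]; norm_num) (k2 2 (by norm_num))
  · exact key _ (by simp [cJ, c1]; norm_num) (k2 1 (by norm_num))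
  · exact key _ (by simp [cJ, c2]; norm_num) (k3 1 (by norm_num))
  · exact key _ (by simp [cJ, c1]; norm_num) (k2 0 (by norm_num))
  · exact key _ (by simp [cJ, c1]; norm_num) (k3 2 (by norm_num))
  · exact key _ (by simp [cJ, c2]; norm_num) (k3 0 (by norm_num))
  · exact key _ (by simp [cJ, c3]; norm_num) (k3 3 (by norm_num))

end Pool.Agent.P.MP_f475a8_pr
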