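import Pool.Agent.P.MP_f475a8_pr.Sheet

/-! Probability of crossing one slab, and of crossing many parallel slabs. -/

set_option autoImplicit false
open Function Classical

namespace Pool.Agent.P.MP_f475a8_pr

namespace Par
variable {p : Par}

theorem Forced_congr {z0 : ℤ} {i : ℕ} {η η' : P3 → Bool} (h : ∀ v, v.1 < 4 → η v = η' v) :
    p.Forced z0 i η ↔ p.Forced z0 i η' := by
  refine forall₂_congr (fun v hv => ?_)
  rw [h v (mem_box.1 hv).2.1]

theorem Ok.dead_bound (h : p.Ok) (z0 : ℤ) (I : Finset ℕ) (ω : P3 → Bool) (γ : List Cl)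
    (hγ : CL γ) :
    Ex (p.R1 z0) (fun η => if ∀ x ∈ γ, p.dead z0 I η x then 1 else 0) ω ≤ DD γ := by
  have e : ∀ η : P3 → Bool, (∀ a, a ∉ p.R1 z0 → η a = ω a) → p.σ0 z0 I η = p.σ0 z0 I ω := by
    intro η hη
    funext c
    unfold σ0
    simp only [Forced_congr (η := η) (η' := ω) (fun v hv => hη v (fun e => by
      have := (mem_box.1 e).1; omega))]
  have h1 := (sys_hyp z0 p.T p.Bs).dead_bound hγ p.Bs.card (p.σ0 z0 I ω) (p.R1 z0) ω (by
    intro c hc _ v hv
    have := h.h1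
    simp only [sys] at hc hv
    split_ifs at hv
    · rw [mem_cube] at hv
      rw [mem_Bs] at hc
      simp only [R1, mem_box]
      omega
    · simp at hv)
  refine le_trans (le_of_eq (Ex_congr_of (fun η hη => ?_))) (h1.trans ?_)
  · simp only [dead, e η hη]
  · unfold Sys.M
    rw [List.prod_toFinset _ hγ.nodup]
    refine D_init (g := fun x => (sys z0 p.T p.Bs).g (p.σ0 z0 I ω x))
      (fun x => (sys_hyp z0 p.T p.Bs).g0 _) (fun x hx => ?_) (fun x hx => ?_) γ
    · simp only [hx, Sys.g, le_refl]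
    · unfold σ0 at hx ⊢
      split_ifs at hx ⊢
      · refine (F_anti (show 8 ≤ cnt (0, fun _ _ => true) by simp [cnt, pc])).trans F_eight
      · exact absurd rfl hx

theorem band_sep {i j : ℕ} (hij : i + p.G ≤ j ∨ j + p.G ≤ i) (hκ : 1 ≤ p.κ) {a b : ℤ}
    (ha : 0 ≤ a ∧ a ≤ (p.κ + 2 * p.w - 1 : ℕ)) (hb : 0 ≤ b ∧ b ≤ (p.κ + 2 * p.w - 1 : ℕ))
    {x y : ℤ} : ¬ kadj (x, p.κ * i - p.w + a) (y, p.κ * j - p.w + b) := by
  have key : ∀ i j : ℕ, i + p.G ≤ j → (p.κ * i : ℤ) + p.κ + 2 * p.w + 1 ≤ p.κ * j := by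
    intro i j h
    have h1 : p.κ * (i + p.G) ≤ p.κ * j := Nat.mul_le_mul_left _ h
    have h2 : 1 * (2 * p.w + 1) ≤ p.κ * (2 * p.w + 1) := Nat.mul_le_mul_right _ hκ
    have : p.κ * i + p.κ + 2 * p.w + 1 ≤ p.κ * j := by unfold G at h1; nlinarith
    exact_mod_cast this
  simp only [kadj]
  rcases hij with e | e <;> have := key _ _ e <;> omega

noncomputable def q0 (κ : ℕ) : ℝ := (1 / 2) ^ (27 * κ ^ 2)

theorem card_blk (z0 : ℤ) (i : ℕ) : (p.blk z0 i).card = 27 * p.κ ^ 2 := by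
  simp only [blk, box, Finset.card_product, Int.card_Ico, add_sub_cancel_left]
  rw [show (3 * (p.κ : ℤ)).toNat = 3 * p.κ by omega, show (4 - 1 : ℤ).toNat = 3 by rfl]
  ring

theorem Ok.sheet (h : p.Ok) {S : ℤ → ℤ → Prop} {j : ℕ} {I : Finset ℕ}
    (hI : ∀ i ∈ I, i < p.N ∧ p.Sq S i j)
    (hsep : ∀ i ∈ I, ∀ i' ∈ I, i ≠ i' → i + p.G ≤ i' ∨ i' + p.G ≤ i) (ω : P3 → Bool) :
    Ex (p.Rs (3 * (p.κ * j))) (fun η => if p.nn ≤ 2 * ((Finset.range p.nn).filter (fun i =>
      ¬ p.Sq (fun y z => p.Cn S (3 * (p.κ * j)) η (3 * p.T, y, z) p.tt) (p.G * i) j)).card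
      then 1 else 0) ω ≤ (1 - q0 p.κ / 2) ^ I.card + (1 / 16) ^ p.k + (1 / 2) ^ p.nn := by
  have hT := h.T_ge
  have hκ := h.h1
  have hw := h.h2
  obtain ⟨z0, hz⟩ : ∃ z0 : ℤ, z0 = 3 * (p.κ * j) := ⟨_, rfl⟩
  have sub : p.R1 z0 ⊆ p.Rs z0 := fun v hv => by
    simp only [R1, Rs, mem_box] at hv ⊢; omega
  have hB := fun ω => h.dead_bound z0 I ω
  have A1 : Ex (p.Rs z0) (fun η => if ∀ i ∈ I, p.Forced z0 i η → (p.hook i).Blk (p.dead z0 I η)
      then 1 else 0) ω ≤ (1 - q0 p.κ / 2) ^ I.card := by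
    refine (Ex_le_of_sub sub (g := fun x => ∏ i ∈ I, if p.Forced z0 i x then (1 / 16 : ℝ) else 1)
      (fun x => ?_) ω).trans ?_
    · have := multi_blk (hB x) (I.filter (fun i => p.Forced z0 i x)) p.hook (θ := 1 / 16)
        (fun i _ => h.sum (h.hook i) (by simp only [Par.hook]; omega)
          (by simp only [Par.hook]; omega) (by simp only [Par.hook]; omega)) (by
          rintro i hi i' hi' e _ _ ⟨c, hc, rfl⟩ ⟨c', hc', rfl⟩
          exact band_sep (hsep i (Finset.mem_filter.1 hi).1 i' (Finset.mem_filter.1 hi').1 e)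
            (by omega) hc.2.2 hc'.2.2)
      rw [← Finset.prod_filter, Finset.prod_const]
      refine le_trans (le_of_eq (Ex_congr_of (fun η hη => ?_))) this
      simp only [Finset.mem_filter, and_imp, Forced_congr (η := η) (η' := x)
        (fun v hv => hη v (fun e => by have := (mem_box.1 e).1; omega))]
    · refine Ex_le_const_of_sub (A := I.biUnion (p.blk z0)) (fun v hv => ?_) (fun x => ?_) ω
      · obtain ⟨i, hi, hv⟩ := Finset.mem_biUnion.1 hv
        have : p.κ * (i + 1) ≤ p.κ * p.N := Nat.mul_le_mul_left _ (hI i hi).1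
        rw [mul_add, mul_one] at this
        have : (p.κ * i : ℤ) + p.κ ≤ p.κ * p.N := by exact_mod_cast this
        have : (0 : ℤ) ≤ p.κ * i := by positivity
        simp only [blk, Rs, mem_box] at hv ⊢; omega
      · rw [← Finset.prod_const]
        refine Ex_prod_le I _ _ _ (fun i hi i' hi' e => ⟨p.blk z0 i, fun x y hxy => ?_,
          fun v h1 h2 => ?_⟩) (fun i _ x => by split_ifs <;> norm_num) (fun i _ x => ?_) x
        · have : p.Forced z0 i x ↔ p.Forced z0 i y :=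
            forall₂_congr (fun v hv => by rw [hxy v hv])
          simp only [this]
        · have key : ∀ i j : ℕ, i < j → (p.κ * i : ℤ) + p.κ ≤ p.κ * j := by
            intro i j h
            have : p.κ * (i + 1) ≤ p.κ * j := Nat.mul_le_mul_left _ h
            rw [mul_add, mul_one] at this
            exact_mod_cast this
          simp only [blk, Finset.mem_coe, mem_box] at h1 h2
          rcases lt_or_gt_of_ne e with e | e <;> have := key _ _ e <;> omega
        · have e : ∀ y, (if p.Forced z0 i y then (1 / 16 : ℝ) else 1) = 1 + (-15 / 16) *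
              (if ∀ v ∈ p.blk z0 i, y v = (fun _ => true) v then 1 else 0) := by
            intro y
            unfold Forced
            split_ifs <;> norm_num
          simp only [e]
          rw [Ex_add, Ex_mul, Ex_const, Ex_all_eq, card_blk]
          have : 0 ≤ q0 p.κ := by unfold q0; positivity
          unfold q0 at *
          linarith
  have A2 : Ex (p.Rs z0) (fun η => if ∀ j ∈ Finset.range p.k, (p.strip j).Blk (p.dead z0 I η)
      then 1 else 0) ω ≤ (1 / 16) ^ p.k := by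
    refine Ex_le_const_of_sub sub (fun x => ?_) ω
    have := multi_blk (hB x) (Finset.range p.k) p.strip (θ := 1 / 16)
      (fun i _ => h.sum (h.strip i) (by simp only [Par.strip]; omega)
        (by simp only [Par.strip]; omega) (by simp only [Par.strip]; omega)) (by
        rintro i hi i' hi' e _ _ ⟨c, hc, rfl⟩ ⟨c', hc', rfl⟩
        have key : ∀ i j : ℕ, i < j → (i * (p.w + 1) : ℤ) + (p.w + 1) ≤ j * (p.w + 1) := by
          intro i j h
          have : (i + 1) * (p.w + 1) ≤ j * (p.w + 1) := Nat.mul_le_mul_right _ h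
          rw [add_mul, one_mul] at this
          exact_mod_cast this
        simp only [Par.strip, Rc, kadj] at hc hc' ⊢
        rcases lt_or_gt_of_ne e with e | e <;> have := key _ _ e <;> omega)
    rwa [Finset.card_range] at this
  have A3 : Ex (p.Rs z0) (fun η => if (Finset.range p.nn).card ≤ 2 * ((Finset.range p.nn).filter
      (fun i => (p.exit (p.G * i)).Blk (p.dead z0 I η))).card then 1 else 0) ω ≤
      (1 / 2) ^ p.nn := by
    refine Ex_le_const_of_sub sub (fun x => ?_) ω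
    have := half_fail (R := p.R1 z0) (ω := x) (Finset.range p.nn)
      (fun i η => (p.exit (p.G * i)).Blk (p.dead z0 I η)) (θ := 1 / 4) (by norm_num) (by norm_num)
      (fun Z _ => by
        rw [show (1 / 4 : ℝ) ^ 2 = 1 / 16 by norm_num]
        refine multi_blk (hB x) Z (fun i => p.exit (p.G * i))
          (fun i _ => h.sum (h.exit _) (by simp only [Par.exit]; omega)
          (by simp only [Par.exit]; omega) (by simp only [Par.exit]; omega)) ?_
        rintro i hi i' hi' e _ _ ⟨c, hc, rfl⟩ ⟨c', hc', rfl⟩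
        refine band_sep ?_ (by omega) hc.2.2 hc'.2.2
        rcases lt_or_gt_of_ne e with e | e
        · exact Or.inl (Nat.mul_le_mul_left p.G e)
        · exact Or.inr (Nat.mul_le_mul_left p.G e))
    rw [show 2 * (1 / 4 : ℝ) = 1 / 2 by norm_num] at this
    simpa only [Finset.card_range] using this
  refine le_trans ?_ (add_le_add (add_le_add A1 A2) A3)
  rw [← Ex_add, ← Ex_add, ← hz]
  refine Ex_mono (fun η => ?_) ω
  have nn : ∀ (q : Prop) [Decidable q], (0 : ℝ) ≤ if q then 1 else 0 := by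
    intro q _; split_ifs <;> norm_num
  by_cases g : p.nn ≤ 2 * ((Finset.range p.nn).filter (fun i =>
      ¬ p.Sq (fun y z => p.Cn S z0 η (3 * p.T, y, z) p.tt) (p.G * i) j)).card
  swap
  · rw [if_neg g]; exact add_nonneg (add_nonneg (nn _) (nn _)) (nn _)
  rw [if_pos g]
  by_cases a1 : ∀ i ∈ I, p.Forced z0 i η → (p.hook i).Blk (p.dead z0 I η)
  · rw [if_pos a1, add_assoc]; exact le_add_of_nonneg_right (add_nonneg (nn _) (nn _))
  by_cases a2 : ∀ j ∈ Finset.range p.k, (p.strip j).Blk (p.dead z0 I η)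
  · rw [if_pos a2, add_comm _ (1 : ℝ), add_assoc]
    exact le_add_of_nonneg_right (add_nonneg (nn _) (nn _))
  by_cases a3 : (Finset.range p.nn).card ≤ 2 * ((Finset.range p.nn).filter
      (fun i => (p.exit (p.G * i)).Blk (p.dead z0 I η))).card
  · rw [if_pos a3]; exact le_add_of_nonneg_left (add_nonneg (nn _) (nn _))
  exfalso
  push Not at a1 a2
  obtain ⟨i1, hi1, hF, b1⟩ := a1
  obtain ⟨j2, hj2, b2⟩ := a2
  refine a3 ?_
  rw [Finset.card_range]
  refine g.trans (Nat.mul_le_mul_left _ (Finset.card_le_card (fun i hi => ?_)))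
  obtain ⟨g1, g2⟩ := Finset.mem_filter.1 hi
  refine Finset.mem_filter.2 ⟨g1, ?_⟩
  by_contra b3
  subst hz
  refine g2 (h.determ hI hi1 hF b1 (Finset.mem_range.1 hj2) b2 ?_ b3)
  refine lt_of_lt_of_le ?_ h.h4
  exact Nat.mul_lt_mul_of_pos_left (Finset.mem_range.1 g1) (by unfold G; omega)

def Dense (p : Par) (M m N : ℕ) (S : ℤ → ℤ → Prop) : Prop :=
  ∃ J : Finset ℕ, M ≤ J.card ∧ ∀ j ∈ J, j < N ∧ ∃ I : Finset ℕ, m ≤ I.card ∧
    ∀ i ∈ I, i < N ∧ p.Sq S i j

noncomputable def Rst (p : Par) : Finset P3 :=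
  box 1 (3 * p.T + 1) (-3 * p.w) (3 * (p.κ * p.N + p.w)) 0 (3 * (p.κ * p.N))

theorem exists_sep {G r : ℕ} (hG : 0 < G) (I : Finset ℕ) (h : G * r ≤ I.card) :
    ∃ I' ⊆ I, r ≤ I'.card ∧ ∀ i ∈ I', ∀ i' ∈ I', i ≠ i' → i + G ≤ i' ∨ i' + G ≤ i := by
  obtain ⟨c, -, hc⟩ := Finset.exists_le_card_fiber_of_mul_le_card_of_maps_to (s := I)
    (t := Finset.range G) (f := fun i => i % G) (n := r)
    (fun i _ => Finset.mem_range.2 (Nat.mod_lt _ hG)) ⟨0, Finset.mem_range.2 hG⟩
    (by rwa [Finset.card_range])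
  refine ⟨_, Finset.filter_subset _ _, hc, fun i hi i' hi' e => ?_⟩
  have key : ∀ a b : ℕ, a % G = b % G → a < b → a + G ≤ b := by
    intro a b h1 h2
    have := Nat.le_of_dvd (by omega) ((Nat.modEq_iff_dvd' h2.le).1 h1)
    omega
  have h1 := (Finset.mem_filter.1 hi).2.trans (Finset.mem_filter.1 hi').2.symm
  rcases lt_or_gt_of_ne e with e | e
  · exact Or.inl (key _ _ h1 e)
  · exact Or.inr (key _ _ h1.symm e)

theorem double_count {J : Finset ℕ} {n : ℕ} (r : ℕ → ℕ → Prop) (hJ : 0 < J.card)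
    (h : ∀ j ∈ J, n ≤ 2 * ((Finset.range n).filter (fun i => r i j)).card) :
    n ≤ 4 * ((Finset.range n).filter
      (fun i => J.card ≤ 4 * (J.filter (fun j => r i j)).card)).card := by
  have h1 : ∑ i ∈ Finset.range n, (J.filter (fun j => r i j)).card =
      ∑ j ∈ J, ((Finset.range n).filter (fun i => r i j)).card := by
    simp only [Finset.card_filter]
    exact Finset.sum_comm
  have h2 : J.card * n ≤ 2 * ∑ j ∈ J, ((Finset.range n).filter (fun i => r i j)).card := by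
    rw [Finset.mul_sum, ← smul_eq_mul, ← Finset.sum_const]
    exact Finset.sum_le_sum h
  have h3 : 4 * ∑ i ∈ Finset.range n, (J.filter (fun j => r i j)).card ≤
      ∑ i ∈ Finset.range n, (J.card + 4 * J.card *
        if J.card ≤ 4 * (J.filter (fun j => r i j)).card then 1 else 0) := by
    rw [Finset.mul_sum]
    refine Finset.sum_le_sum (fun i _ => ?_)
    have := Finset.card_filter_le J (fun j => r i j)
    split_ifs <;> omega
  rw [Finset.sum_add_distrib, ← Finset.mul_sum, ← Finset.card_filter, Finset.sum_const,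
    Finset.card_range, smul_eq_mul, h1] at h3
  refine Nat.le_of_mul_le_mul_left ?_ hJ
  nlinarith

theorem Ok.stage (h : p.Ok) {M m N0 r M' m' : ℕ} {θ : ℝ} (hN : N0 ≤ p.N) (hr : p.G * r ≤ m)
    (hM : 4 * M' ≤ p.nn) (hm : 8 * m' ≤ M) (θ0 : 0 ≤ θ) (θ1 : θ ≤ 1)
    (hθ : (1 - q0 p.κ / 2) ^ r + (1 / 16) ^ p.k + (1 / 2) ^ p.nn ≤ θ ^ 2)
    {S : ℤ → ℤ → Prop} (hS : p.Dense M m N0 S) (ω : P3 → Bool) :
    Ex p.Rst (fun η => if ¬ p.Dense M' m' p.N (fun a b => Conn adj3
      (fun v => v.1 = 0 ∧ S v.2.1 v.2.2) p.Rst η (3 * p.T, b, a) p.tt) then 1 else 0) ω ≤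
      (2 * θ) ^ M := by
  obtain ⟨J0, h1, h2⟩ := hS
  obtain ⟨J, hJ, rfl⟩ := Finset.exists_subset_card_eq h1
  have G0 : 0 < p.G := by unfold G; omega
  have key : ∀ i j : ℕ, i < j → (p.κ * i : ℤ) + p.κ ≤ p.κ * j := by
    intro i j h
    have : p.κ * (i + 1) ≤ p.κ * j := Nat.mul_le_mul_left _ h
    rw [mul_add, mul_one] at this
    exact_mod_cast this
  have sub : ∀ j ∈ J, p.Rs (3 * (p.κ * j)) ⊆ p.Rst := by
    intro j hj v hv
    have := key j p.N ((h2 j (hJ hj)).1.trans_le hN)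
    have : (0 : ℤ) ≤ p.κ * j := by positivity
    simp only [Rs, Rst, mem_box] at hv ⊢; omega
  obtain ⟨Fl, hFl⟩ : ∃ Fl : ℕ → (P3 → Bool) → Prop, ∀ j η, Fl j η ↔ p.nn ≤ 2 *
      ((Finset.range p.nn).filter (fun i => ¬ p.Sq (fun y z =>
        p.Cn S (3 * (p.κ * j)) η (3 * p.T, y, z) p.tt) (p.G * i) j)).card := ⟨_, fun _ _ => Iff.rfl⟩
  have hf := half_fail (R := p.Rst) (ω := ω) J Fl θ0 θ1 (fun Z hZ => by
    simp only [← Finset.prod_boole]
    refine Ex_le_const_of_sub (A := Z.biUnion (fun j => p.Rs (3 * (p.κ * j))))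
      (Finset.biUnion_subset.2 (fun j hj => sub j (hZ hj))) (fun x => ?_) ω
    rw [← Finset.prod_const]
    refine Ex_prod_le Z _ _ _ (fun j hj j' hj' e => ⟨p.Rs (3 * (p.κ * j)), fun x y hxy => ?_,
      fun v h1 h2 => ?_⟩) (fun i _ x => by split_ifs <;> norm_num) (fun j hj x => ?_) x
    · have : p.Cn S (3 * (p.κ * j)) x = p.Cn S (3 * (p.κ * j)) y := by
        funext v n
        exact propext ⟨Conn.map id (fun _ _ => id) (fun _ => id)
          (fun a ha => ⟨ha, fun e => by rw [id, ← hxy a ha]; exact e⟩),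
          Conn.map id (fun _ _ => id) (fun _ => id)
          (fun a ha => ⟨ha, fun e => by rw [id, hxy a ha]; exact e⟩)⟩
      exact if_congr (by rw [hFl, hFl, this]) rfl rfl
    · simp only [Rs, Finset.mem_coe, mem_box] at h1 h2
      rcases lt_or_gt_of_ne e with e | e <;> have := key _ _ e <;> omega
    · obtain ⟨I, a1, a2⟩ := (h2 j (hJ (hZ hj))).2
      obtain ⟨I', b1, b2, b3⟩ := exists_sep G0 I (hr.trans a1)
      refine le_trans (le_of_eq (Ex_congr_of (fun η _ => if_congr (hFl _ _) rfl rfl)))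
        ((h.sheet (fun i hi => ⟨(a2 i (b1 hi)).1.trans_le hN, (a2 i (b1 hi)).2⟩) b3 x).trans
        (le_trans ?_ hθ))
      have q1 : 0 ≤ q0 p.κ := by unfold q0; positivity
      have q2 : q0 p.κ ≤ 1 := by unfold q0; exact pow_le_one₀ (by norm_num) (by norm_num)
      have := pow_le_pow_of_le_one (a := 1 - q0 p.κ / 2) (by linarith) (by linarith) b2
      linarith)
  refine (Ex_mono (fun η => ?_) ω).trans hf
  by_cases g2 : J.card ≤ 2 * (J.filter (fun i => Fl i η)).card
  · rw [if_pos g2]; split_ifs <;> norm_num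
  rw [if_neg g2, if_neg]
  rw [not_not]
  obtain ⟨r, hr⟩ : ∃ r : ℕ → ℕ → Prop, ∀ i j, r i j ↔
    p.Sq (fun y z => p.Cn S (3 * (p.κ * j)) η (3 * p.T, y, z) p.tt) (p.G * i) j :=
    ⟨_, fun _ _ => Iff.rfl⟩
  obtain ⟨Js, hJs⟩ : ∃ Js, Js = J.filter (fun j => ¬ Fl j η) := ⟨_, rfl⟩
  have c1 := Finset.card_filter_add_card_filter_not (s := J) (fun j => Fl j η)
  rw [← hJs] at c1
  have c2 := double_count (J := Js) (n := p.nn) r (by omega) (fun j hj => by
    have a := Finset.card_filter_add_card_filter_not (s := Finset.range p.nn) (fun i => r i j)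
    rw [Finset.card_range] at a
    rw [hJs] at hj
    have := (Finset.mem_filter.1 hj).2
    rw [hFl] at this
    simp only [← hr] at this
    omega)
  refine ⟨((Finset.range p.nn).filter
      (fun i => Js.card ≤ 4 * (Js.filter (fun j => r i j)).card)).image (fun i => p.G * i), ?_,
    fun a ha => ?_⟩
  · rw [Finset.card_image_of_injective _ (mul_right_injective₀ G0.ne')]
    omega
  · obtain ⟨i, hi, rfl⟩ := Finset.mem_image.1 ha
    obtain ⟨d1, d2⟩ := Finset.mem_filter.1 hi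
    refine ⟨lt_of_lt_of_le ((Nat.mul_lt_mul_left G0).2 (Finset.mem_range.1 d1)) h.h4,
      Js.filter (fun j => r i j), by omega, fun j hj => ?_⟩
    obtain ⟨d3, d4⟩ := Finset.mem_filter.1 hj
    have d5 : j ∈ J := by rw [hJs] at d3; exact (Finset.mem_filter.1 d3).1
    obtain ⟨y, z, e1, e2, e3, e4, e5⟩ := (hr _ _).1 d4
    exact ⟨(h2 j (hJ d5)).1.trans_le hN, z, y, Conn.map id (fun _ _ => id) (fun _ => id)
      (fun a ha => ⟨sub j d5 ha, id⟩) e1, e4, e5, e2, e3⟩

end Par

end Pool.Agent.P.MP_f475a8_pr
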