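import Pool.Agent.P.MP_f475a8_pr.Simd

/-! Specifications of the tree operations. -/

set_option autoImplicit false

namespace Pool.Agent.P.MP_f475a8_pr

def get : BT → ℕ → ℕ
  | BT.lf a, _ => a
  | BT.nd l r, S => if S % 2 = 0 then get l (S / 2) else get r (S / 2)

def Full : ℕ → BT → Prop
  | 0, BT.lf _ => True
  | d + 1, BT.nd l r => Full d l ∧ Full d r
  | _, _ => False

theorem pthK_spec (d : ℕ) : ∀ (B : ℕ) (k : Pth → Bool), pthK d B k = true →
    ∃ p, (∀ t, Full d t → lk p t = get t B) ∧ k p = true := by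
  induction d with
  | zero =>
    intro B k h
    refine ⟨Pth.nil, fun t ht => ?_, h⟩
    cases t with
    | lf a => rfl
    | nd l r => exact ht.elim
  | succ d ih =>
    intro B k h
    change Bool.rec (pthK d (B / 2) (fun p => k (Pth.o p)))
      (pthK d (B / 2) (fun p => k (Pth.z p))) (Nat.beq (B % 2) 0) = true at h
    by_cases hB : B % 2 = 0
    · rw [hB] at h
      obtain ⟨p, h1, h2⟩ := ih _ _ h
      refine ⟨Pth.z p, fun t ht => ?_, h2⟩
      cases t with
      | lf a => exact ht.elim
      | nd l r => rw [get, if_pos hB, ← h1 l ht.1]; rfl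
    · rw [show B % 2 = 1 by omega] at h
      obtain ⟨p, h1, h2⟩ := ih _ _ h
      refine ⟨Pth.o p, fun t ht => ?_, h2⟩
      cases t with
      | lf a => exact ht.elim
      | nd l r => rw [get, if_neg hB, ← h1 r ht.2]; rfl

def TOk : ℕ → (ℕ → ℕ → ℕ) → TT → Prop
  | 0, f, TT.lf p => ∀ t, Full 9 t → lk p t = get t (f 0 0)
  | d + 1, f, TT.nd a b c => TOk d (fun s om => f (2 * s) (2 * om)) a ∧
      TOk d (fun s om => f (2 * s) (2 * om + 1)) b ∧
      TOk d (fun s om => f (2 * s + 1) (2 * om + 1)) c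
  | _, _, _ => False

theorem ttK_spec (d : ℕ) : ∀ (f : ℕ → ℕ → ℕ) (k : TT → Bool), ttK d f k = true →
    ∃ tt, TOk d f tt ∧ k tt = true := by
  induction d with
  | zero =>
    intro f k h
    change fo (f 0 0) (fun B => pthK 9 B (fun p => k (TT.lf p))) = true at h
    rw [fo_eq] at h
    obtain ⟨p, h1, h2⟩ := pthK_spec _ _ _ h
    exact ⟨TT.lf p, h1, h2⟩
  | succ d ih =>
    intro f k h
    obtain ⟨a, ha, h⟩ := ih _ _ h
    obtain ⟨b, hb, h⟩ := ih _ _ h
    obtain ⟨c, hc, h⟩ := ih _ _ h
    exact ⟨TT.nd a b c, ⟨ha, hb, hc⟩, h⟩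

theorem zipK_spec (f : ℕ → ℕ → ℕ) (s : BT) : ∀ (d : ℕ) (t : BT) (k : BT → Bool), Full d s →
    zipK f s t k = true →
    ∃ u, Full d u ∧ (∀ S, get u S = f (get s S) (get t S)) ∧ k u = true := by
  induction s with
  | lf a =>
    intro d t k hd h
    cases t with
    | nd l r => exact absurd h (by simp [zipK])
    | lf b =>
      change fo (f a b) (fun v => k (BT.lf v)) = true at h
      rw [fo_eq] at h
      cases d with
      | zero => exact ⟨BT.lf _, trivial, fun S => rfl, h⟩
      | succ d => exact hd.elim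
  | nd l r ihl ihr =>
    intro d t k hd h
    cases t with
    | lf b => exact absurd h (by simp [zipK])
    | nd l' r' =>
      cases d with
      | zero => exact hd.elim
      | succ d =>
        obtain ⟨x, hx, ex, h⟩ := ihl d l' _ hd.1 h
        obtain ⟨y, hy, ey, h⟩ := ihr d r' _ hd.2 h
        refine ⟨BT.nd x y, ⟨hx, hy⟩, fun S => ?_, h⟩
        simp only [get]
        split_ifs
        · exact ex _
        · exact ey _

theorem zipI_spec (s : BT) : ∀ (d : ℕ) (t : BT) (f : ℕ → ℕ → ℕ → ℕ) (k : BT → Bool), Full d s →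
    zipI s t f k = true →
    ∃ u, Full d u ∧ (∀ S < 2 ^ d, get u S = f S (get s S) (get t S)) ∧ k u = true := by
  induction s with
  | lf a =>
    intro d t f k hd h
    cases t with
    | nd l r => exact absurd h (by simp [zipI])
    | lf b =>
      change fo (f 0 a b) (fun v => k (BT.lf v)) = true at h
      rw [fo_eq] at h
      cases d with
      | zero =>
        refine ⟨BT.lf (f 0 a b), trivial, fun S hS => ?_, h⟩
        obtain rfl : S = 0 := by omega
        rfl
      | succ d => exact hd.elim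
  | nd l r ihl ihr =>
    intro d t f k hd h
    cases t with
    | lf b => exact absurd h (by simp [zipI])
    | nd l' r' =>
      cases d with
      | zero => exact hd.elim
      | succ d =>
        obtain ⟨x, hx, ex, h⟩ := ihl d l' _ _ hd.1 h
        obtain ⟨y, hy, ey, h⟩ := ihr d r' _ _ hd.2 h
        refine ⟨BT.nd x y, ⟨hx, hy⟩, fun S hS => ?_, h⟩
        have hS' : S / 2 < 2 ^ d := by rw [pow_succ] at hS; omega
        simp only [get]
        split_ifs with h2
        · rw [ex _ hS']
          congr 1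
          show 2 * (S / 2) = S
          omega
        · rw [ey _ hS']
          congr 1
          show 2 * (S / 2) + 1 = S
          omega

theorem cstK_spec (d c : ℕ) : ∀ (k : BT → Bool), cstK d c k = true →
    ∃ u, Full d u ∧ (∀ S, get u S = c) ∧ k u = true := by
  induction d with
  | zero => intro k h; exact ⟨BT.lf c, trivial, fun _ => rfl, h⟩
  | succ d ih =>
    intro k h
    obtain ⟨u, h1, h2, h3⟩ := ih _ h
    exact ⟨BT.nd u u, ⟨h1, h1⟩, fun S => by simp [get, h2], h3⟩

theorem sum_range_two_pow_succ {M : Type*} [AddCommMonoid M] (d : ℕ) (g : ℕ → M) :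
    ∑ om ∈ Finset.range (2 ^ (d + 1)), g om =
      ∑ om ∈ Finset.range (2 ^ d), g (2 * om) + ∑ om ∈ Finset.range (2 ^ d), g (2 * om + 1) := by
  rw [pow_succ, mul_comm, ← Finset.sum_add_distrib]
  generalize 2 ^ d = n
  induction n with
  | zero => simp
  | succ n ih =>
    rw [show 2 * (n + 1) = 2 * n + 1 + 1 by ring, Finset.sum_range_succ, Finset.sum_range_succ, ih,
      Finset.sum_range_succ, add_assoc]

theorem and_even (S om : ℕ) : S &&& (2 * om) = 2 * ((S / 2) &&& om) := by
  have h1 : (S &&& (2 * om)) / 2 = (S / 2) &&& om := by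
    rw [Nat.and_div_two, Nat.mul_div_cancel_left _ (by norm_num)]
  have h2 : ¬ (S &&& (2 * om)) % 2 = 1 := by
    rw [Nat.and_mod_two_eq_one]; omega
  omega

theorem and_odd (S om : ℕ) : S &&& (2 * om + 1) = 2 * ((S / 2) &&& om) + S % 2 := by
  have h1 : (S &&& (2 * om + 1)) / 2 = (S / 2) &&& om := by
    rw [Nat.and_div_two, show (2 * om + 1) / 2 = om by omega]
  have h2 : (S &&& (2 * om + 1)) % 2 = 1 ↔ S % 2 = 1 := by
    rw [Nat.and_mod_two_eq_one]; omega
  omega

theorem redK_spec {T : BT} (hT : Full 9 T) (tt : TT) : ∀ (d : ℕ) (f : ℕ → ℕ → ℕ)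
    (k : BT → Bool), TOk d f tt → redK T tt k = true →
    ∃ u, Full d u ∧ (∀ S < 2 ^ d, get u S =
      ∑ om ∈ Finset.range (2 ^ d), get T (f (S &&& om) om)) ∧ k u = true := by
  induction tt with
  | lf p =>
    intro d f k hd h
    change fo (lk p T) (fun v => k (BT.lf v)) = true at h
    rw [fo_eq] at h
    cases d with
    | succ d => exact hd.elim
    | zero =>
      refine ⟨BT.lf (lk p T), trivial, fun S hS => ?_, h⟩
      simp [get, hd T hT]
  | nd a b c iha ihb ihc =>
    intro d f k hd h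
    cases d with
    | zero => exact hd.elim
    | succ d =>
      obtain ⟨x, hx, ex, h⟩ := iha d _ _ hd.1 h
      obtain ⟨y, hy, ey, h⟩ := ihb d _ _ hd.2.1 h
      obtain ⟨z, hz, ez, h⟩ := ihc d _ _ hd.2.2 h
      obtain ⟨u, hu, eu, h⟩ := zipK_spec _ _ d _ _ hx h
      obtain ⟨v, hv, ev, h⟩ := zipK_spec _ _ d _ _ hx h
      refine ⟨BT.nd u v, ⟨hu, hv⟩, fun S hS => ?_, h⟩
      have hS' : S / 2 < 2 ^ d := by rw [pow_succ] at hS; omega
      rw [sum_range_two_pow_succ]
      simp only [get, and_even, and_odd]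
      split_ifs with h2
      · rw [eu, ex _ hS', ey _ hS', h2]; rfl
      · rw [ev, ex _ hS', ez _ hS', show S % 2 = 1 by omega]; rfl

theorem bsK_spec (m : ℕ → ℕ → ℕ) (b : ℕ) : ∀ (d : ℕ) (t : BT) (k : BT → Bool), Full d t →
    bsK m b t k = true →
    ∃ u, Full d u ∧ (∀ S, get u S = m (get t S) (get t (S ||| 2 ^ b))) ∧ k u = true := by
  induction b with
  | zero =>
    intro d t k hd h
    cases t with
    | lf a => exact absurd h (by simp [bsK])
    | nd l r =>
      cases d with
      | zero => exact hd.elim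
      | succ d =>
        obtain ⟨x, hx, ex, h⟩ := zipK_spec _ _ d _ _ hd.1 h
        obtain ⟨y, hy, ey, h⟩ := zipK_spec _ _ d _ _ hd.2 h
        refine ⟨BT.nd x y, ⟨hx, hy⟩, fun S => ?_, h⟩
        have h1 : ¬ (S ||| 2 ^ 0) % 2 = 0 := by
          have : (S ||| 2 ^ 0) % 2 = 1 := by rw [Nat.or_mod_two_eq_one]; simp
          omega
        have h2 : (S ||| 2 ^ 0) / 2 = S / 2 := by rw [Nat.or_div_two]; simp
        simp only [get, h1, h2, if_false]
        split_ifs
        · exact ex _
        · exact ey _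
  | succ b ih =>
    intro d t k hd h
    cases t with
    | lf a => exact absurd h (by simp [bsK])
    | nd l r =>
      cases d with
      | zero => exact hd.elim
      | succ d =>
        obtain ⟨x, hx, ex, h⟩ := ih d _ _ hd.1 h
        obtain ⟨y, hy, ey, h⟩ := ih d _ _ hd.2 h
        refine ⟨BT.nd x y, ⟨hx, hy⟩, fun S => ?_, h⟩
        have h1 : (S ||| 2 ^ (b + 1)) % 2 = 0 ↔ S % 2 = 0 := by
          have : (S ||| 2 ^ (b + 1)) % 2 = 1 ↔ S % 2 = 1 := by
            rw [Nat.or_mod_two_eq_one, pow_succ]; omega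
          omega
        have h2 : (S ||| 2 ^ (b + 1)) / 2 = S / 2 ||| 2 ^ b := by
          rw [Nat.or_div_two, pow_succ, Nat.mul_div_cancel _ (by norm_num)]
        simp only [get, h1, h2]
        split_ifs
        · exact ex _
        · exact ey _

theorem iterK_spec (f : BT → (BT → Bool) → Bool) (t : BT) (I : ℕ → BT → Prop) (h0 : I 0 t)
    (n : ℕ) (hs : ∀ j < n, ∀ u k, I j u → f u k = true → ∃ v, I (j + 1) v ∧ k v = true) :
    ∀ k : BT → Bool, iterK f n t k = true → ∃ u, I n u ∧ k u = true := by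
  induction n with
  | zero => intro k h; exact ⟨t, h0, h⟩
  | succ n ih =>
    intro k h
    obtain ⟨u, hu, h⟩ := ih (fun j hj => hs j (by omega)) _ h
    exact hs n (by omega) u k hu h

theorem allK_spec (p : ℕ → Bool) (n : ℕ) (h : allK n p = true) : ∀ i < n, p i = true := by
  induction n with
  | zero => intro i hi; omega
  | succ n ih =>
    change (p n && allK n p) = true at h
    rw [Bool.and_eq_true] at h
    intro i hi
    rcases Nat.lt_succ_iff_lt_or_eq.1 hi with h1 | rfl
    · exact ih h.2 i h1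
    · exact h.1

theorem lk_zero {t : BT} (h : Full 9 t) : lk (Pth.z (Pth.z (Pth.z (Pth.z (Pth.z (Pth.z (Pth.z
    (Pth.z (Pth.z Pth.nil))))))))) t = get t 0 := by
  have key : ∀ d t, Full d t → lk (Nat.rec Pth.nil (fun _ p => Pth.z p) d) t = get t 0 := by
    intro d
    induction d with
    | zero =>
      intro t ht
      cases t with
      | lf a => rfl
      | nd l r => exact ht.elim
    | succ d ih =>
      intro t ht
      cases t with
      | lf a => exact ht.elim
      | nd l r => rw [get, if_pos (by norm_num), Nat.zero_div, ← ih l ht.1]; rfl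
  exact key 9 t h

theorem avgK_spec {tt : TT} (htt : TOk 9 clo0 tt) {T : BT} (hT : Full 9 T) {n b : ℕ}
    (hb : b < 2 ^ 22) (hs : ∀ S < 512, Sm n b (get T S)) (hc : ∀ s om, om < 512 → clo s om < 512)
    {k : BT → Bool} (h : avgK tt (cst n 511) (cst n 4294966784) T k = true) :
    ∃ u, Full 9 u ∧ (∀ S < 512, Sm n b (get u S) ∧ ∀ i < n,
      ∑ om ∈ Finset.range 512, fl (get T (clo S om)) i ≤ 512 * fl (get u S) i) ∧ k u = true := by
  obtain ⟨x, hx, ex, h⟩ := redK_spec hT tt 9 _ _ htt h
  obtain ⟨u, hu, eu, h⟩ := zipK_spec _ _ 9 _ _ hx h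
  refine ⟨u, hu, fun S hS => ?_, h⟩
  have key : ∀ m ≤ 512, (∑ om ∈ Finset.range m, get T (clo S om)) < 2 ^ (32 * n) ∧
      ∀ i < n, fl (∑ om ∈ Finset.range m, get T (clo S om)) i =
        ∑ om ∈ Finset.range m, fl (get T (clo S om)) i ∧
        ∑ om ∈ Finset.range m, fl (get T (clo S om)) i ≤ m * b := by
    intro m
    induction m with
    | zero => intro _; simp [fl_def]
    | succ m ih =>
      intro hm
      obtain ⟨i1, i2⟩ := ih (by omega)
      have h3 := hs _ (hc S m (by omega))
      have hmb : (m + 1) * b ≤ 512 * b := Nat.mul_le_mul_right _ hm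
      obtain ⟨a1, a2⟩ := add_spec i1 h3.1 (fun i hi => by
        have := h3.2 i
        have := (i2 i hi).2
        rw [(i2 i hi).1]
        nlinarith)
      simp only [Finset.sum_range_succ]
      refine ⟨a1, fun i hi => ⟨?_, ?_⟩⟩
      · rw [← (i2 i hi).1]; exact a2 i hi
      · have := h3.2 i
        have := (i2 i hi).2
        nlinarith
  obtain ⟨k1, k2⟩ := key 512 le_rfl
  have e : get x S = ∑ om ∈ Finset.range 512, get T (clo S om) := ex S hS
  have hR : ∀ i < n, fl (cst n 511) i = 511 := fun i hi => fl_cst (by norm_num) hi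
  obtain ⟨c1, c2⟩ := cdiv_spec (c := 1) (s := 9) (by norm_num) k1 (cst_lt n (c := 511) (by norm_num))
    (fun i hi => by
      have := (k2 i hi).2
      rw [(k2 i hi).1, hR i hi]; omega)
  rw [show 2 ^ 32 - 2 ^ 9 = 4294966784 by norm_num] at c1 c2
  rw [eu, e]
  refine ⟨Sm.of_lt c1 (fun i hi => ?_), fun i hi => ?_⟩
  · have := (k2 i hi).2
    have h5 := c2 i hi
    rw [(k2 i hi).1, hR i hi] at h5
    omega
  · have h5 := c2 i hi
    rw [(k2 i hi).1, hR i hi] at h5
    omega

end Pool.Agent.P.MP_f475a8_pr
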