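import Pool.Agent.P.MP_f475a8_pr.TriMain

/-! In dimension `d ≥ 3`, `d` words along `d` disjoint paths from one vertex. -/

set_option autoImplicit false
open Function Classical MeasureTheory ProbabilityTheory

namespace Pool.Agent.P.MP_f475a8_pr.Tri
open Pool.Agent.P.MP_f475a8_pr

variable {e : ℕ}

/-- the coordinates `i`, `i + 1`, `i - 1` carry `x`, `-y`, `-z` -/
def rot (i : Fin (e + 3)) (q : P3) : Fin (e + 3) → ℤ :=
  Pi.single i q.1 - Pi.single (i + 1) q.2.1 - Pi.single (i - 1) q.2.2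

theorem idx (i : Fin (e + 3)) : i + 1 ≠ i ∧ i - 1 ≠ i ∧ i + 1 ≠ i - 1 := by
  have h1 : (1 : Fin (e + 3)) ≠ 0 := by simp
  have h2 : (1 + 1 : Fin (e + 3)) ≠ 0 := fun h => by
    have := congrArg Fin.val h
    rw [Fin.val_add, Fin.val_one, Fin.val_zero, Nat.mod_eq_of_lt (by omega)] at this
    omega
  exact ⟨fun h => h1 (add_eq_left.1 h), fun h => h1 (sub_eq_self.1 h), fun h => h2 (by
    rw [eq_sub_iff_add_eq, add_assoc] at h; exact add_eq_left.1 h)⟩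

theorem rot_at (i : Fin (e + 3)) (q : P3) :
    rot i q i = q.1 ∧ rot i q (i + 1) = -q.2.1 ∧ rot i q (i - 1) = -q.2.2 ∧
      ∀ j, j ≠ i → j ≠ i + 1 → j ≠ i - 1 → rot i q j = 0 := by
  obtain ⟨a, b, c⟩ := idx i
  refine ⟨?_, ?_, ?_, fun j h1 h2 h3 => ?_⟩ <;> simp [rot, *, a.symm, b.symm, c.symm]

theorem rot_inj (i : Fin (e + 3)) : Injective (rot i) := by
  intro x y h
  have a := rot_at i x
  have b := rot_at i y
  rw [h] at a
  exact Prod.ext (by omega) (Prod.ext (by omega) (by omega))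

theorem rot_adj (i : Fin (e + 3)) {x y : P3} (h : adj3 x y) :
    ∑ j, |rot i y j - rot i x j| = 1 := by
  have key : ∀ (k : Fin (e + 3)) (s : ℤ), |s| = 1 → rot i y - rot i x = Pi.single k s →
      ∑ j, |rot i y j - rot i x j| = 1 := fun k s hs h => by
    rw [← hs, Finset.sum_eq_single k (fun j _ hj => by
      rw [← Pi.sub_apply, h, Pi.single_eq_of_ne hj, abs_zero]) (by simp), ← Pi.sub_apply, h,
      Pi.single_eq_same]
  rcases h with ⟨h, a, b⟩ | ⟨a, h, b⟩ | ⟨a, b, h⟩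
  · refine key i (y.1 - x.1) (by rcases h with h | h <;> rw [h] <;> simp) ?_
    rw [rot, rot, a, b, Pi.single_sub]; abel
  · refine key (i + 1) (x.2.1 - y.2.1) (by rcases h with h | h <;> rw [h] <;> simp) ?_
    rw [rot, rot, a, b, Pi.single_sub]; abel
  · refine key (i - 1) (x.2.2 - y.2.2) (by rcases h with h | h <;> rw [h] <;> simp) ?_
    rw [rot, rot, a, b, Pi.single_sub]; abel

theorem rot_zero (i : Fin (e + 3)) : rot i (0, 0, 0) = 0 := by simp [rot]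

theorem Wc_facts {κ w0 : ℕ} (hκ : 1 ≤ κ) {q : P3} (h : q ∈ Wc κ w0) :
    (Ast q ∧ q.1 ≤ Xp κ w0 0 ∧ q.2.1 ≤ Xp κ w0 0 ∧ -(Xp κ w0 0 : ℤ) ≤ q.2.2) ∨
    ((Xp κ w0 0 : ℤ) < q.1 ∧ -q.1 < q.2.1 ∧ -q.1 < q.2.2) := by
  rcases h with h | ⟨u, h⟩
  · exact Or.inl ⟨h.1, h.2.1, h.2.2.1, h.2.2.2.1⟩
  · have := Rn_pos h
    have := Xp_big hκ w0 u
    have := Xp_mono κ w0 (Nat.zero_le u)
    omega

theorem rot_disj {κ w0 : ℕ} (hκ : 1 ≤ κ) {q q' : P3} (h : q ∈ Wc κ w0) (h' : q' ∈ Wc κ w0)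
    {i j : Fin (e + 3)} (g : rot i q = rot j q') : i = j := by
  have a := Wc_facts hκ h
  have b := Wc_facts hκ h'
  simp only [Ast] at a b
  obtain ⟨c1, c2, c3, c4⟩ := rot_at i q
  obtain ⟨d1, d2, d3, d4⟩ := rot_at j q'
  rw [← g] at d1 d2 d3 d4
  by_contra n0
  by_cases n1 : j = i + 1
  · rw [n1] at d1
    rw [n1, add_sub_cancel_right] at d3
    omega
  by_cases n2 : i = j + 1
  · rw [n2] at c1
    rw [n2, add_sub_cancel_right, ← n2] at c3
    rw [← n2] at c1 d2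
    omega
  have e1 := d4 i n0 n2 (fun g => n1 (by rw [g, sub_add_cancel]))
  have e2 := c4 j (Ne.symm n0) n1 (fun g => n2 (by rw [g, sub_add_cancel]))
  have e3 : rot i q (i + 1) = -q'.2.2 ∨ rot i q (i + 1) = 0 := by
    by_cases n3 : i + 1 = j - 1
    · exact Or.inl (n3 ▸ d3)
    · exact Or.inr (d4 _ (Ne.symm n1) (fun g => n0 (add_right_cancel g)) n3)
  have e4 : rot i q (j + 1) = -q.2.2 ∨ rot i q (j + 1) = 0 := by
    by_cases n3 : j + 1 = i - 1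
    · exact Or.inl (n3 ▸ c3)
    · exact Or.inr (c4 _ (Ne.symm n2) (fun g => n0 (add_right_cancel g).symm) n3)
  omega

noncomputable def Cube (d : ℕ) (X : ℤ) : Finset (Fin d → ℤ) :=
  Fintype.piFinset fun _ => Finset.Icc (-X) X

theorem rot_cube (i : Fin (e + 3)) {X : ℕ} {q : P3} (h : q ∈ Ds X) :
    rot i q ∈ Cube (e + 3) X := by
  simp only [Ds, Ast, Set.mem_ofPred_eq] at h
  obtain ⟨c1, c2, c3, c4⟩ := rot_at i q
  refine Fintype.mem_piFinset.2 fun j => Finset.mem_Icc.2 ?_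
  by_cases n1 : j = i
  · rw [n1]; omega
  by_cases n2 : j = i + 1
  · rw [n2]; omega
  by_cases n3 : j = i - 1
  · rw [n3]; omega
  rw [c4 j n1 n2 n3]; omega

theorem exists_col {κ w0 : ℕ} (hκ : 1 ≤ κ) : ∃ c : (Fin (e + 3) → ℤ) → Bool,
    ∀ i, ∀ q ∈ Ds (Xp κ w0 0), c (rot i q) = col4 q := by
  refine ⟨fun v => if h : ∃ p : Fin (e + 3) × P3, p.2 ∈ Wc κ w0 ∧ rot p.1 p.2 = v then
    col4 h.choose.2 else true, fun i q hq => ?_⟩
  have h : ∃ p : Fin (e + 3) × P3, p.2 ∈ Wc κ w0 ∧ rot p.1 p.2 = rot i q :=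
    ⟨(i, q), Or.inl hq, rfl⟩
  have h1 := h.choose_spec
  have h2 := rot_disj hκ h1.1 (Or.inl hq) h1.2
  rw [h2] at h1
  simp only [dif_pos h, rot_inj i h1.2]

def AllD (ω : (Fin (e + 3) → ℤ) → Bool) : Prop :=
  ∀ ξ : Fin (e + 3) → ℕ → Bool, ∃ γ : Fin (e + 3) → ℕ → Fin (e + 3) → ℤ,
    (∀ i, Injective (γ i) ∧ γ i 0 = 0 ∧ (∀ n, ∑ j, |γ i (n + 1) j - γ i n j| = 1) ∧
      ∀ n, ω (γ i (n + 1)) = ξ i n) ∧ ∀ i j m n, i ≠ j → γ i (m + 1) ≠ γ j (n + 1)

theorem allD_of {κ w0 : ℕ} (hκ : 1 ≤ κ) {ω : (Fin (e + 3) → ℤ) → Bool}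
    (h : ∀ i, AllC κ w0 (ω ∘ rot i)) : AllD ω := by
  intro ξ
  choose γ h1 h2 h3 h4 using fun i => h i (ξ i)
  have h0 : ∀ i n, γ i n ≠ (0, 0, 0) := fun i n g => by
    have := Wc_facts hκ (h4 i n).1
    rw [g] at this
    simp only [Ast] at this
    omega
  refine ⟨fun i n => rot i (Nat.casesOn (motive := fun _ => P3) n (0, 0, 0) (γ i)),
    fun i => ⟨fun m n g => ?_, rot_zero i, fun n => ?_, fun n => (h4 i n).2⟩,
    fun i j m n g g' => g (rot_disj hκ (h4 i m).1 (h4 j n).1 g')⟩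
  · have g' := rot_inj i g
    rcases m with _ | m <;> rcases n with _ | n
    · rfl
    · exact absurd g'.symm (h0 i n)
    · exact absurd g' (h0 i m)
    · rw [h1 i g']
  · cases n with
    | zero => exact rot_adj i (h2 i)
    | succ n => exact rot_adj i (h3 i n)

variable {Ω : Type} [MeasurableSpace Ω] {μ : Measure Ω} [IsProbabilityMeasure μ]
  {X : (Fin (e + 3) → ℤ) → Ω → Bool}

theorem failD (h : Fair μ X) {κ w0 : ℕ} (hκ : 100 ≤ κ) (hb : ∀ u, Big κ (w0 + u))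
    {c : (Fin (e + 3) → ℤ) → Bool} (hc : ∀ i, ∀ q ∈ Ds (Xp κ w0 0), c (rot i q) = col4 q) :
    μ.real {ω | SC (Cube (e + 3) (Xp κ w0 0)) c (fun v => X v ω) ∧ ¬ AllD (fun v => X v ω)} ≤
      2 * (e + 3) * (1 / 2) ^ w0 * (1 / 2) ^ (Cube (e + 3) (Xp κ w0 0)).card := by
  refine le_trans (measureReal_mono (s₂ := ⋃ i : Fin (e + 3),
    {ω | SC (Cube (e + 3) (Xp κ w0 0)) c (fun v => X v ω) ∧
      ¬ AllC κ w0 ((fun v => X v ω) ∘ rot i)}) ?_)
    ((measureReal_iUnion_fintype_le _).trans ((Finset.sum_le_sum (fun i _ =>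
      fail_measureC h (rot_inj i) hκ hb (fun u q hq g => ?_)
        (fun q hq => ⟨rot_cube i hq, hc i q hq⟩))).trans (le_of_eq ?_)))
  · rintro ω ⟨h1, h2⟩
    by_contra hn
    refine h2 (allD_of (κ := κ) (w0 := w0) (by omega) (fun i => ?_))
    by_contra g
    exact hn (Set.mem_iUnion.2 ⟨i, h1, g⟩)
  · have := (Finset.mem_Icc.1 (Fintype.mem_piFinset.1 g i)).2
    have := (rot_at i q).1
    have := (Rn_pos hq).1
    have := Xp_mono κ w0 (Nat.zero_le u)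
    omega
  · simp only [Finset.sum_const, Finset.card_univ, Fintype.card_fin, nsmul_eq_mul]
    push_cast
    ring

theorem none_measureC (h : Fair μ X) (Y I : ℕ) (c : (Fin (e + 3) → ℤ) → Bool) :
    μ.real {ω | ∀ i ∈ Finset.range I, ¬ SC (Cube (e + 3) Y) c
      (fun v => X ((fun _ => (i * (2 * Y + 1) : ℤ)) + v) ω)} ≤
      (1 - (1 / 2) ^ (Cube (e + 3) Y).card) ^ I := by
  obtain ⟨τ, hτ⟩ : ∃ τ : ℕ → (Fin (e + 3) → ℤ) → Fin (e + 3) → ℤ, ∀ i v, τ i v =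
    (fun _ => (i * (2 * Y + 1) : ℤ)) + v := ⟨_, fun _ _ => rfl⟩
  have inj : ∀ i, Injective (τ i) := fun i x y g => by
    rw [hτ, hτ] at g; exact add_left_cancel g
  have dep : ∀ i, ∀ x y : (Fin (e + 3) → ℤ) → Bool,
      (∀ a ∈ (Cube (e + 3) Y).image (τ i), x a = y a) →
      (SC (Cube (e + 3) Y) c (x ∘ τ i) ↔ SC (Cube (e + 3) Y) c (y ∘ τ i)) := fun i x y g =>
    forall₂_congr (fun q hq => by
      rw [comp_apply, comp_apply, g _ (Finset.mem_image_of_mem _ hq)])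
  simp only [← hτ]
  have := measure_eq_Ex μ X h.hm h.hi h.hh
    ((Finset.range I).biUnion (fun i => (Cube (e + 3) Y).image (τ i)))
    (fun x => ∀ i ∈ Finset.range I, ¬ SC (Cube (e + 3) Y) c (x ∘ τ i)) (fun x y g => propext
      (forall₂_congr (fun i hi => not_congr (dep i x y (fun a ha => g a
        (Finset.mem_coe.2 (Finset.mem_biUnion.2 ⟨i, hi, ha⟩))))))) (fun _ => true)
  refine this.trans_le ?_
  simp only [← Finset.prod_boole]
  conv_rhs => rw [← Finset.card_range I, ← Finset.prod_const]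
  refine Ex_prod_le _ _ _ _ (fun i _ j _ g => ⟨(Cube (e + 3) Y).image (τ i), fun x y hxy =>
    if_congr (not_congr (dep i x y hxy)) rfl rfl, fun v h1 h2 => ?_⟩)
    (fun i _ x => by split_ifs <;> norm_num) (fun i _ x => ?_) _
  · obtain ⟨a, ha, rfl⟩ := Finset.mem_image.1 (Finset.mem_coe.1 h1)
    obtain ⟨b, hb, e'⟩ := Finset.mem_image.1 h2
    have a1 := Finset.mem_Icc.1 (Fintype.mem_piFinset.1 ha 0)
    have b1 := Finset.mem_Icc.1 (Fintype.mem_piFinset.1 hb 0)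
    rw [hτ, hτ] at e'
    have e2 := congrFun e' 0
    simp only [Pi.add_apply] at e2
    have key : ∀ i j : ℕ, i < j → (i * (2 * Y + 1) : ℤ) + (2 * Y + 1) ≤ j * (2 * Y + 1) := by
      intro i j h
      have : (i + 1) * (2 * Y + 1) ≤ j * (2 * Y + 1) := Nat.mul_le_mul_right _ h
      rw [add_mul, one_mul] at this
      exact_mod_cast this
    rcases lt_or_gt_of_ne g with g | g <;> have := key _ _ g <;> omega
  · have h1 := Ex_map (inj i) (Cube (e + 3) Y) (fun y => 1 + (-1) *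
      if ∀ q ∈ Cube (e + 3) Y, y q = c q then (1 : ℝ) else 0) x
    rw [Ex_add (Cube (e + 3) Y), Ex_mul, Ex_const, Ex_all_eq] at h1
    refine le_trans (le_of_eq (Ex_congr_of (fun y _ => ?_))) (h1.le.trans (le_of_eq (by ring)))
    by_cases g : SC (Cube (e + 3) Y) c (y ∘ τ i)
    · rw [if_neg (not_not.2 g), if_pos (show ∀ q ∈ Cube (e + 3) Y, (y ∘ τ i) q = c q from g)]; ring
    · rw [if_pos g, if_neg (show ¬ ∀ q ∈ Cube (e + 3) Y, (y ∘ τ i) q = c q from g)]; ring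

theorem mainD (h : Fair μ X) : ∀ᵐ ω ∂μ, ∃ v, AllD (fun q => X (v + q) ω) := by
  obtain ⟨κ0, k1, k2⟩ := exists_kappa
  obtain ⟨κ, hκ⟩ : ∃ κ, κ = κ0 + 100 := ⟨_, rfl⟩
  obtain ⟨w1, hw1⟩ := eventually_big (κ := κ) (by omega) (by
    have := pow_le_pow_of_le_one (a := lam) (by unfold lam; norm_num) (by unfold lam; norm_num)
      (show κ0 - 3 ≤ κ - 3 by omega)
    linarith)
  rw [ae_iff, ← measureReal_eq_zero_iff]
  refine le_antisymm (le_of_forall_pos_le_add (fun ε hε => ?_)) measureReal_nonneg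
  obtain ⟨Λ, hΛ⟩ := exists_nat_gt (2 / ε)
  have Λ0 : (0 : ℝ) < Λ := lt_trans (by positivity) hΛ
  obtain ⟨n, hn⟩ := exists_pow_lt_of_lt_one (x := ε / (4 * (e + 3) * Λ)) (y := (1 / 2 : ℝ))
    (by positivity) (by norm_num)
  obtain ⟨w0, hw0, hw⟩ : ∃ w0, w1 ≤ w0 ∧ (1 / 2 : ℝ) ^ w0 ≤ ε / (4 * (e + 3) * Λ) :=
    ⟨w1 + n, by omega, (pow_le_pow_of_le_one (by norm_num) (by norm_num) (by omega)).trans hn.le⟩
  obtain ⟨c, hc⟩ : ∃ c, c = (Cube (e + 3) (Xp κ w0 0)).card := ⟨_, rfl⟩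
  obtain ⟨cc, hcc⟩ := exists_col (e := e) (κ := κ) (w0 := w0) (by omega)
  have h1 := none_measureC h (Xp κ w0 0) (Λ * 2 ^ c) cc
  have h2 := fun i : ℕ => failD (h.comp (add_right_injective
    (fun _ : Fin (e + 3) => (i * (2 * Xp κ w0 0 + 1) : ℤ)))) (κ := κ) (w0 := w0) (by omega)
    (fun u => hw1 _ (by omega)) hcc
  rw [← hc] at h1 h2
  refine le_trans (measureReal_mono (s₂ := _ ∪ ⋃ i ∈ Finset.range (Λ * 2 ^ c), _) ?_)
    ((measureReal_union_le _ _).trans ((add_le_add h1 ((measureReal_biUnion_finset_le _ _).trans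
      (Finset.sum_le_sum (fun i _ => h2 i)))).trans ?_))
  · intro ω hω
    by_contra g
    rw [Set.mem_union, not_or] at g
    obtain ⟨e1, e2⟩ := g
    simp only [Set.mem_ofPred_eq, not_forall, not_not] at e1
    obtain ⟨i, hi, e1⟩ := e1
    exact e2 (Set.mem_biUnion hi ⟨e1, fun g => hω ⟨_, g⟩⟩)
  · have q : ((Λ * 2 ^ c : ℕ) : ℝ) * (1 / 2) ^ c = Λ := by
      push_cast
      rw [mul_assoc, ← mul_pow]; norm_num
    have q1 : (1 / 2 : ℝ) ^ c ≤ 1 := pow_le_one₀ (by norm_num) (by norm_num)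
    have a1 : (1 - (1 / 2 : ℝ) ^ c) ^ (Λ * 2 ^ c) ≤ ε / 2 := by
      have b1 : 1 - (1 / 2 : ℝ) ^ c ≤ Real.exp (-(1 / 2 : ℝ) ^ c) := by
        have := Real.add_one_le_exp (-(1 / 2 : ℝ) ^ c); linarith
      refine (pow_le_pow_left₀ (by linarith) b1 _).trans ?_
      rw [← Real.exp_nat_mul, mul_neg, q, Real.exp_neg]
      have := Real.add_one_le_exp (Λ : ℝ)
      rw [inv_le_comm₀ (Real.exp_pos _) (by positivity), inv_div]
      linarith
    rw [Finset.sum_const, Finset.card_range, nsmul_eq_mul, zero_add]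
    have a2 : ((Λ * 2 ^ c : ℕ) : ℝ) * (2 * (e + 3) * (1 / 2) ^ w0 * (1 / 2) ^ c) =
        2 * (e + 3) * Λ * (1 / 2) ^ w0 := by
      conv_rhs => rw [← q]
      ring
    rw [le_div_iff₀ (by positivity)] at hw
    rw [a2]
    linarith

theorem unit_vec {d : ℕ} {w : Fin d → ℤ} (h : ∑ j, |w j| = 1) :
    ∃ p : Fin d × Bool, w = Pi.single p.1 (cond p.2 1 (-1)) := by
  obtain ⟨j, -, hj⟩ := Finset.exists_ne_zero_of_sum_ne_zero (h.trans_ne one_ne_zero)
  rw [← Finset.add_sum_erase _ _ (Finset.mem_univ j)] at h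
  have h0 := Finset.sum_nonneg (s := Finset.univ.erase j) (fun i _ => abs_nonneg (w i))
  have h1 := abs_nonneg (w j)
  have h2 := (Finset.sum_eq_zero_iff_of_nonneg (s := Finset.univ.erase j)
    (fun i _ => abs_nonneg (w i))).1 (by omega)
  have h3 : ∀ s, w j = s → w = Pi.single j s := fun s hs => funext fun i => by
    by_cases g : i = j
    · rw [g, Pi.single_eq_same, hs]
    · rw [Pi.single_eq_of_ne g]
      exact abs_eq_zero.1 (h2 i (Finset.mem_erase.2 ⟨g, Finset.mem_univ i⟩))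
  rcases (abs_eq zero_le_one).1 (show |w j| = 1 by omega) with g | g
  · exact ⟨(j, true), h3 _ g⟩
  · exact ⟨(j, false), h3 _ g⟩

theorem words_iff {d : ℕ} (hd : 3 ≤ d) (X : (Fin d → ℤ) → Ω → Bool) (h : Fair μ X) (k : ℕ) :
    (∀ᵐ ω ∂μ, ∃ v : Fin d → ℤ, ∀ ξ : Fin k → ℕ → Bool, ∃ γ : Fin k → ℕ → Fin d → ℤ,
      (∀ i, Injective (γ i) ∧ γ i 0 = v ∧ (∀ n, ∑ j, |γ i (n + 1) j - γ i n j| = 1) ∧
        ∀ n, X (γ i (n + 1)) ω = ξ i n) ∧
      ∀ i j m n, i ≠ j → γ i (m + 1) ≠ γ j (n + 1)) ↔ k ≤ d := by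
  constructor
  · intro hk
    obtain ⟨ω, v, hv⟩ := hk.exists
    choose γ h1 h2 using fun b : Bool => hv (fun _ _ => b)
    choose f hf using fun p : Fin k × Bool =>
      unit_vec (w := γ p.2 p.1 1 - γ p.2 p.1 0) ((h1 p.2 p.1).2.2.1 0)
    have := Fintype.card_le_of_injective f (fun p p' g => by
      have e1 := (hf p).trans (g ▸ (hf p').symm)
      rw [(h1 _ _).2.1, (h1 _ _).2.1, sub_left_inj] at e1
      have eb : p.2 = p'.2 := ((h1 p.2 p.1).2.2.2 0).symm.trans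
        ((congrArg (fun u => X u ω) e1).trans ((h1 p'.2 p'.1).2.2.2 0))
      rw [← eb] at e1
      exact Prod.ext (by_contra fun n => h2 p.2 _ _ 0 0 n e1) eb)
    simp only [Fintype.card_prod, Fintype.card_fin, Fintype.card_bool] at this
    omega
  · intro hk
    obtain ⟨e, rfl⟩ : ∃ e, d = e + 3 := ⟨d - 3, by omega⟩
    refine (mainD h).mono fun ω ⟨v, hv⟩ => ⟨v, fun ξ => ?_⟩
    obtain ⟨γ, h1, h2⟩ := hv (fun i n => if g : i.1 < k then ξ ⟨i.1, g⟩ n else true)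
    refine ⟨fun i n => v + γ (i.castLE hk) n, fun i => ⟨(add_right_injective v).comp (h1 _).1,
      by simp only [(h1 _).2.1, add_zero], fun n => ?_, fun n => ?_⟩,
      fun i j m n g g' => h2 _ _ m n ((Fin.castLE_injective hk).ne g) (add_left_cancel g')⟩
    · simp only [Pi.add_apply, add_sub_add_left_eq_sub]
      exact (h1 _).2.2.1 n
    · exact ((h1 _).2.2.2 n).trans (dif_pos i.2)

end Pool.Agent.P.MP_f475a8_pr.Tri
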