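import Pool.Agent.P.MP_f475a8_pr.TriSwitch

/-! The multi-scale argument inside a region whose rotated copies are disjoint. -/

set_option autoImplicit false
open Function Classical MeasureTheory ProbabilityTheory

namespace Pool.Agent.P.MP_f475a8_pr.Tri
open Pool.Agent.P.MP_f475a8_pr

theorem konigC {V : Type} {adj : V → V → Prop} (hfin : ∀ x, {y | adj x y}.Finite) {v : V}
    {ω : V → Bool} {ξ : ℕ → Bool} {D : Set V} (h : ∀ n, ∃ l x, n ≤ l ∧ Seen adj v ω ξ D x l) :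
    ∃ γ : ℕ → V, Injective γ ∧ adj v (γ 0) ∧ (∀ n, adj (γ n) (γ (n + 1))) ∧
      ∀ n, γ n ∈ D ∧ ω (γ n) = ξ n := by
  choose l x h1 h2 using h
  choose g a1 _ a3 a4 a5 using fun n => (h2 n).path
  have big : ∀ i, ∀ᶠ n in (Filter.hyperfilter ℕ : Filter ℕ), i ≤ l n := fun i =>
    Nat.hyperfilter_le_atTop ((Filter.eventually_ge_atTop i).mono (fun n hn => hn.trans (h1 n)))
  have pick : ∀ (i : ℕ) (y : V), (∀ᶠ n in (Filter.hyperfilter ℕ : Filter ℕ), adj y (g n i)) →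
      ∃ z, ∀ᶠ n in (Filter.hyperfilter ℕ : Filter ℕ), g n i = z := by
    intro i y hy
    have : (⋃ z ∈ {z | adj y z}, {n | g n i = z}) ∈ Filter.hyperfilter ℕ :=
      Filter.mem_of_superset hy (fun n hn => Set.mem_biUnion (x := g n i) hn rfl)
    obtain ⟨z, -, hz⟩ := (Ultrafilter.finite_biUnion_mem_iff (hfin y)).1 this
    exact ⟨z, hz⟩
  have ex : ∀ i, ∃ z, ∀ᶠ n in (Filter.hyperfilter ℕ : Filter ℕ), g n i = z := by
    intro i
    induction i with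
    | zero => exact pick 0 v (Filter.Eventually.of_forall a1)
    | succ i ih =>
      obtain ⟨y, hy⟩ := ih
      exact pick _ y ((hy.and (big (i + 1))).mono (fun n hn => hn.1 ▸ a3 n i hn.2))
  choose γ hγ using ex
  refine ⟨γ, fun i j e => ?_, ?_, fun i => ?_, fun i => ?_⟩
  · obtain ⟨n, ⟨b1, b2⟩, b3, b4⟩ := (((hγ i).and (hγ j)).and ((big i).and (big j))).exists
    rcases lt_trichotomy i j with h | h | h
    · exact absurd (b1.trans (e.trans b2.symm)) (a5 n i j h b4)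
    · exact h
    · exact absurd (b2.trans (e.symm.trans b1.symm)) (a5 n j i h b3)
  · obtain ⟨n, b⟩ := (hγ 0).exists
    exact b ▸ a1 n
  · obtain ⟨n, ⟨b1, b2⟩, b3⟩ := (((hγ i).and (hγ (i + 1))).and (big (i + 1))).exists
    exact b1 ▸ b2 ▸ a3 n i b3
  · obtain ⟨n, b1, b2⟩ := ((hγ i).and (big i)).exists
    exact b1 ▸ a4 n i b2

theorem Rn_pos {κ w0 u : ℕ} {q : P3} (hq : q ∈ Rn κ w0 u) :
    (Xp κ w0 u : ℤ) < q.1 ∧ q.1 ≤ Xp κ w0 (u + 1) ∧ -3 * ((w0 : ℤ) + u) ≤ q.2.1 ∧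
      -3 * ((w0 : ℤ) + u) ≤ q.2.2 := by
  obtain ⟨v, hv, rfl⟩ := Finset.mem_image.1 hq
  simp only [Par.Rst, Par.mem_box] at hv
  simp only [Xp]
  generalize (par κ (w0 + u)).T = T at *
  simp only [par] at hv
  cases par2 u <;> simp only [emb, cond_true, cond_false] <;> omega

theorem Xp_mono (κ w0 : ℕ) {u u' : ℕ} (h : u ≤ u') : Xp κ w0 u ≤ Xp κ w0 u' := by
  induction h with
  | refl => exact le_rfl
  | step _ ih => exact ih.trans (Nat.le_add_right _ _)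

theorem Xp_big {κ : ℕ} (hκ : 1 ≤ κ) (w0 u : ℕ) : 3 * (w0 + u) ≤ Xp κ w0 u := by
  induction u with
  | zero =>
    have := (Nat.le_self_pow (by norm_num : 9 ≠ 0) w0).trans (Nat.le_mul_of_pos_left _ hκ)
    simp only [Xp]; omega
  | succ u ih => simp only [Xp, Par.T]; omega

def RegC (κ w0 u : ℕ) : Set P3 := {q | q ∈ Ds (Xp κ w0 0) ∨ ∃ u' < u, q ∈ Rn κ w0 u'}

def Wc (κ w0 : ℕ) : Set P3 := {q | q ∈ Ds (Xp κ w0 0) ∨ ∃ u, q ∈ Rn κ w0 u}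

theorem RegC_x {κ w0 u : ℕ} {q : P3} (h : q ∈ RegC κ w0 u) : q ∉ Rn κ w0 u := by
  intro e
  have := (Rn_pos e).1
  rcases h with h | ⟨u', h1, h⟩
  · have := h.2.1
    have := Xp_mono κ w0 (Nat.zero_le u)
    omega
  · have := (Rn_pos h).2.1
    have := Xp_mono κ w0 (show u' + 1 ≤ u from h1)
    omega

theorem RegC_mono (κ w0 u : ℕ) : RegC κ w0 u ⊆ RegC κ w0 (u + 1) :=
  fun _ h => h.imp id (fun ⟨u', a, b⟩ => ⟨u', Nat.lt_succ_of_lt a, b⟩)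

def GdC (κ w0 u : ℕ) (ξ : ℕ → Bool) (ω : P3 → Bool) : Prop :=
  (par κ (w0 + u)).Dense ((w0 + u) ^ 9) ((w0 + u) ^ 8) (NN (w0 + u)) (fun y z =>
    ∃ l ≤ (w0 + u) ^ 13, Seen adj3 (0, 0, 0) ω ξ (RegC κ w0 u)
      (emb (Xp κ w0 u) (par2 u) (0, y, z)) l)

theorem GdC.congr {κ w0 u : ℕ} {ξ ξ' : ℕ → Bool} {ω ω' : P3 → Bool} (H : GdC κ w0 u ξ ω)
    (h1 : ∀ y ∈ RegC κ w0 u, ω y = ω' y) (h2 : ∀ i ≤ (w0 + u) ^ 13, ξ i = ξ' i) :
    GdC κ w0 u ξ' ω' :=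
  Dense_mono (fun _ _ ⟨l, a, b⟩ => ⟨l, a, b.congr h1 (fun i hi => h2 i (hi.trans a))⟩) H

theorem GdC.step {κ w0 u : ℕ} (hb : Big κ (w0 + u)) {ξ : ℕ → Bool} {ω0 : P3 → Bool}
    (H : GdC κ w0 u ξ ω0) :
    Ex (Rn κ w0 u) (fun ω => if ¬ GdC κ w0 (u + 1) ξ ω then 1 else 0) ω0 ≤
      (1 / 2) ^ ((w0 + u) ^ 5 * (w0 + u) ^ 9) := by
  have h1 := bfs (adj := adj3) (v := (0, 0, 0)) (ξ := ξ) (R := Rn κ w0 u) (A := RegC κ w0 u)
    (fun x hx => RegC_x hx) ((w0 + u) ^ 13) (par κ (w0 + u)).tt ω0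
    (fun T => (par κ (w0 + u)).Dense ((w0 + u + 1) ^ 9) ((w0 + u + 1) ^ 8) (NN (w0 + u + 1))
      (fun a b => T (emb (Xp κ w0 u) (par2 u) (3 * (par κ (w0 + u)).T, b, a))))
    (fun T T' h => Dense_mono (fun _ _ => h _))
  have h2 := hb.ok.stage (M' := (w0 + u + 1) ^ 9) (m' := (w0 + u + 1) ^ 8)
    (θ := (1 / 2) ^ ((w0 + u) ^ 5 + 1)) (show NN (w0 + u) ≤ NN (w0 + u + 1) from
      Nat.mul_le_mul (Nat.mul_le_mul_left _ (Nat.pow_le_pow_left (by omega) 9)) (by omega))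
    hb.hr le_rfl hb.hm (by positivity) (pow_le_one₀ (by norm_num) (by norm_num)) hb.hθ H
    (ω0 ∘ emb (Xp κ w0 u) (par2 u))
  rw [← Ex_map (emb_inj _ _), show 2 * (1 / 2 : ℝ) ^ ((w0 + u) ^ 5 + 1) = (1 / 2) ^ ((w0 + u) ^ 5)
    by rw [pow_succ]; ring, ← pow_mul] at h2
  refine (Ex_mono (fun ω => ?_) ω0).trans (h1.trans ((Ex_mono (fun η => ?_) ω0).trans h2))
  · refine ite_le_ite_of_imp (fun g e => g ?_)
    refine Dense_mono (fun y z ⟨l, a, b⟩ => ⟨l, a.trans hb.tt, ?_⟩) e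
    have := b.mono (C := RegC κ w0 (u + 1)) (Set.union_subset (RegC_mono κ w0 u)
      (fun q hq => Or.inr ⟨u, Nat.lt_succ_self u, hq⟩))
    rwa [show emb (Xp κ w0 (u + 1)) (par2 (u + 1)) (0, y, z) =
      emb (Xp κ w0 u) (par2 u) (3 * (par κ (w0 + u)).T, z, y) by
        simp only [par2, Xp]
        cases par2 u <;> simp [emb]]
  · refine ite_le_ite_of_imp (fun g e => g ?_)
    refine Dense_mono (fun y z h => ?_) e
    refine Conn.map (emb (Xp κ w0 u) (par2 u)) (emb_adj _ _) (fun x hx => ?_)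
      (fun x hx => ⟨Finset.mem_image_of_mem _ hx, id⟩) h
    rw [show x = (0, x.2.1, x.2.2) from Prod.ext hx.1 rfl]
    exact hx.2

def AllC (κ w0 : ℕ) (ω : P3 → Bool) : Prop :=
  ∀ ξ : ℕ → Bool, ∃ γ : ℕ → P3, Injective γ ∧ adj3 (0, 0, 0) (γ 0) ∧
    (∀ n, adj3 (γ n) (γ (n + 1))) ∧ ∀ n, γ n ∈ Wc κ w0 ∧ ω (γ n) = ξ n

theorem goodC {κ w0 : ℕ} (hκ : 100 ≤ κ) (hb : Big κ w0) {ω : P3 → Bool}
    (h : ∀ q ∈ Ds (Xp κ w0 0), ω q = col4 q) (ξ : ℕ → Bool) : GdC κ w0 0 ξ ω := by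
  have h1 := hb.hX
  have hN : w0 ^ 9 ≤ NN w0 := by unfold NN; nlinarith [Nat.zero_le (w0 ^ 9)]
  have key : ∀ i < w0 ^ 9, (18 : ℤ) ≤ 3 * (κ * i) + 18 ∧
      3 * (κ * i : ℤ) + 18 + 200 ≤ (3 * (κ * w0 ^ 9) : ℕ) := by
    intro i hi
    have : κ * (i + 1) ≤ κ * w0 ^ 9 := Nat.mul_le_mul_left _ hi
    have : 3 * (κ * i) + 18 + 200 ≤ 3 * (κ * w0 ^ 9) := by rw [mul_add] at this; omega
    exact ⟨le_add_of_nonneg_left (by positivity), by exact_mod_cast this⟩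
  refine ⟨Finset.range (w0 ^ 9), by simp, fun j hj => ⟨(Finset.mem_range.1 hj).trans_le hN,
    Finset.range (w0 ^ 9), ?_, fun i hi => ⟨(Finset.mem_range.1 hi).trans_le hN, ?_⟩⟩⟩
  · rw [Finset.card_range]
    exact Nat.pow_le_pow_right hb.pos (by norm_num)
  · obtain ⟨y, z, l, a1, a2, a3, a4, a5, a6⟩ := switchC (X := Xp κ w0 0) (d := 3 * (κ * w0 ^ 9))
      le_rfl h ξ (key i (Finset.mem_range.1 hi)) (key j (Finset.mem_range.1 hj))
    refine ⟨y, z, ⟨l, a1.trans h1, ?_⟩, ?_⟩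
    · simpa [emb, par2] using a6.mono (C := RegC κ w0 0) (fun q hq => Or.inl hq)
    · simp only [par]; omega

theorem allC_of_good {κ w0 : ℕ} (hw : 1 ≤ w0) {ω : P3 → Bool}
    (h : ∀ ξ u, GdC κ w0 u ξ ω) : AllC κ w0 ω := by
  intro ξ
  refine konigC adj3_finite (fun u => ?_)
  obtain ⟨J, h1, h2⟩ := h ξ u
  obtain ⟨j, hj⟩ := Finset.card_pos.1 ((Nat.pow_pos (by omega)).trans_le h1)
  obtain ⟨I, h3, h4⟩ := (h2 j hj).2
  obtain ⟨i, hi⟩ := Finset.card_pos.1 ((Nat.pow_pos (by omega)).trans_le h3)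
  obtain ⟨y, z, ⟨l, -, a⟩, -⟩ := (h4 i hi).2
  refine ⟨l, _, ?_, a.mono (fun q hq => hq.imp id (fun ⟨u', _, b⟩ => ⟨u', b⟩))⟩
  have := a.height (f := fun q => q.1) (fun x y h => by unfold adj3 at h; omega)
  have h5 := Xp_ge κ w0 u
  generalize par2 u = b at this
  cases b <;> simp only [emb, cond_true, cond_false] at this <;> omega

def SC {V : Type} (S : Finset V) (c ω : V → Bool) : Prop := ∀ v ∈ S, ω v = c v

variable {Ω : Type} [MeasurableSpace Ω] {μ : Measure Ω} [IsProbabilityMeasure μ]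
  {V : Type} [DecidableEq V] {X : V → Ω → Bool} {φ : P3 → V} {S : Finset V} {c : V → Bool}

theorem stage_measureC (h : Fair μ X) (hφ : Injective φ) {κ w0 u : ℕ} (hb : Big κ (w0 + u))
    (hS : ∀ q ∈ Rn κ w0 u, φ q ∉ S) (hD : ∀ q ∈ Ds (Xp κ w0 0), φ q ∈ S) (ξ : ℕ → Bool) :
    μ.real {ω | SC S c (fun v => X v ω) ∧ GdC κ w0 u ξ ((fun v => X v ω) ∘ φ) ∧
      ¬ GdC κ w0 (u + 1) ξ ((fun v => X v ω) ∘ φ)} ≤
      (1 / 2) ^ ((w0 + u) ^ 5 * (w0 + u) ^ 9) * (1 / 2) ^ S.card := by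
  have sb : ∀ x y : V → Bool, (∀ q ∈ S, x q = y q) → (SC S c x ↔ SC S c y) :=
    fun x y e => forall₂_congr (fun q hq => by rw [e q hq])
  have gd : ∀ u, ∀ x y : P3 → Bool, (∀ q ∈ RegC κ w0 u, x q = y q) →
      (GdC κ w0 u ξ x ↔ GdC κ w0 u ξ y) := fun u x y e =>
    ⟨fun g => g.congr e (fun _ _ => rfl), fun g => g.congr (fun q hq => (e q hq).symm)
      (fun _ _ => rfl)⟩
  rw [measure_eq_Ex μ X h.hm h.hi h.hh
    (S ∪ (Finset.range (u + 1)).biUnion (fun u' => (Rn κ w0 u').image φ))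
    (fun x => SC S c x ∧ GdC κ w0 u ξ (x ∘ φ) ∧ ¬ GdC κ w0 (u + 1) ξ (x ∘ φ)) (fun x y e => by
      have e' : ∀ q ∈ RegC κ w0 (u + 1), (x ∘ φ) q = (y ∘ φ) q := fun q hq => e _ (Finset.mem_coe.2
        (Finset.mem_union.2 (hq.imp (hD q) (fun ⟨u', a, b⟩ =>
          Finset.mem_biUnion.2 ⟨u', Finset.mem_range.2 a, Finset.mem_image_of_mem _ b⟩))))
      beta_reduce
      rw [sb x y (fun q hq => e q (Finset.mem_coe.2 (Finset.mem_union_left _ hq))),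
        gd u _ _ (fun q hq => e' q (RegC_mono _ _ _ hq)), gd _ _ _ e']) (fun _ => true)]
  refine (Ex_le_of_sub (A := (Rn κ w0 u).image φ) (fun q hq => Finset.mem_union_right _
      (Finset.mem_biUnion.2 ⟨u, Finset.self_mem_range_succ u, hq⟩))
    (g := fun x => (1 / 2) ^ ((w0 + u) ^ 5 * (w0 + u) ^ 9) *
      if ∀ q ∈ S, x q = c q then 1 else 0) (fun x => ?_) _).trans ?_
  · by_cases g : SC S c x ∧ GdC κ w0 u ξ (x ∘ φ)
    · rw [if_pos (show ∀ q ∈ S, x q = c q from g.1), mul_one]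
      exact (Ex_mono (fun η => ite_le_ite_of_imp (fun e => e.2.2)) x).trans
        ((Ex_map hφ (Rn κ w0 u) (fun ω => if ¬ GdC κ w0 (u + 1) ξ ω then 1 else 0) x).trans_le
          (g.2.step hb))
    · refine Ex_le_const (fun η hη => ?_)
      rw [if_neg (fun e => g ⟨(sb _ _ (fun q hq => hη q (fun e => by
          obtain ⟨p, hp, rfl⟩ := Finset.mem_image.1 e
          exact hS p hp hq))).1 e.1, (gd u _ _ (fun q hq => hη _ (fun e => by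
          obtain ⟨p, hp, e⟩ := Finset.mem_image.1 e
          exact RegC_x hq (hφ e ▸ hp)))).1 e.2.1⟩)]
      split_ifs <;> positivity
  · rw [Ex_mul]
    refine mul_le_mul_of_nonneg_left (Ex_le_const_of_sub (A := S)
      Finset.subset_union_left (fun x => ?_) _) (by positivity)
    exact (Ex_all_eq _ _ _).le

theorem words_measureC (h : Fair μ X) (hφ : Injective φ) {κ w0 u : ℕ} (hb : Big κ (w0 + u))
    (hS : ∀ q ∈ Rn κ w0 u, φ q ∉ S) (hD : ∀ q ∈ Ds (Xp κ w0 0), φ q ∈ S) :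
    μ.real {ω | SC S c (fun v => X v ω) ∧ ∃ ξ, GdC κ w0 u ξ ((fun v => X v ω) ∘ φ) ∧
      ¬ GdC κ w0 (u + 1) ξ ((fun v => X v ω) ∘ φ)} ≤
      (1 / 2) ^ (w0 + u) * (1 / 2) ^ S.card := by
  obtain ⟨L, hL⟩ : ∃ L, L = (w0 + u + 1) ^ 13 + 1 := ⟨_, rfl⟩
  obtain ⟨ze, hz⟩ : ∃ ze : (Fin L → Bool) → ℕ → Bool, ∀ ξ : ℕ → Bool, ∀ i < L,
      ze (fun j => ξ j) i = ξ i :=
    ⟨fun σ i => if h : i < L then σ ⟨i, h⟩ else false, fun ξ i hi => by simp [hi]⟩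
  refine le_trans (measureReal_mono (s₂ := ⋃ σ : Fin L → Bool,
    {ω | SC S c (fun v => X v ω) ∧ GdC κ w0 u (ze σ) ((fun v => X v ω) ∘ φ) ∧
      ¬ GdC κ w0 (u + 1) (ze σ) ((fun v => X v ω) ∘ φ)}) ?_) ?_
  · rintro ω ⟨h1, ξ, h2, h3⟩
    have : (w0 + u) ^ 13 ≤ (w0 + u + 1) ^ 13 := Nat.pow_le_pow_left (by omega) 13
    refine Set.mem_iUnion.2 ⟨fun j => ξ j, h1, h2.congr (fun _ _ => rfl)
      (fun i hi => (hz ξ i (by omega)).symm), fun e => h3 (e.congr (fun _ _ => rfl)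
      (fun i hi => hz ξ i (by rw [hL]; exact Nat.lt_succ_of_le hi)))⟩
  · refine (measureReal_iUnion_fintype_le _).trans
      ((Finset.sum_le_sum (fun σ _ => stage_measureC h hφ hb hS hD (ze σ))).trans ?_)
    rw [Finset.sum_const, nsmul_eq_mul, ← mul_assoc]
    refine mul_le_mul_of_nonneg_right ?_ (by positivity)
    have h1 := pow_le_pow_of_le_one (a := (1 / 2 : ℝ)) (by norm_num) (by norm_num) hb.hL
    rw [← hL, pow_add] at h1
    simp only [Finset.card_univ, Fintype.card_fun, Fintype.card_bool, Fintype.card_fin]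
    refine (mul_le_mul_of_nonneg_left h1 (by positivity)).trans (le_of_eq ?_)
    rw [← mul_assoc]
    push_cast
    rw [← mul_pow]; norm_num

theorem fail_measureC (h : Fair μ X) (hφ : Injective φ) {κ w0 : ℕ} (hκ : 100 ≤ κ)
    (hb : ∀ u, Big κ (w0 + u)) (hS : ∀ u, ∀ q ∈ Rn κ w0 u, φ q ∉ S)
    (hD : ∀ q ∈ Ds (Xp κ w0 0), φ q ∈ S ∧ c (φ q) = col4 q) :
    μ.real {ω | SC S c (fun v => X v ω) ∧ ¬ AllC κ w0 ((fun v => X v ω) ∘ φ)} ≤
      2 * (1 / 2) ^ w0 * (1 / 2) ^ S.card := by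
  have hs : HasSum (fun u : ℕ => (1 / 2 : ℝ) ^ (w0 + u) * (1 / 2) ^ S.card)
      (2 * (1 / 2) ^ w0 * (1 / 2) ^ S.card) := by
    have := (hasSum_geometric_two.mul_left ((1 / 2 : ℝ) ^ w0)).mul_right ((1 / 2) ^ S.card)
    simpa only [pow_add, mul_comm _ (2 : ℝ)] using this
  refine ENNReal.toReal_le_of_le_ofReal (by positivity) ?_
  rw [← hs.tsum_eq, ENNReal.ofReal_tsum_of_nonneg (fun _ => by positivity) hs.summable]
  refine le_trans (measure_mono (t := ⋃ u : ℕ, {ω | SC S c (fun v => X v ω) ∧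
    ∃ ξ, GdC κ w0 u ξ ((fun v => X v ω) ∘ φ) ∧ ¬ GdC κ w0 (u + 1) ξ ((fun v => X v ω) ∘ φ)}) ?_)
    ((measure_iUnion_le _).trans (ENNReal.tsum_le_tsum (fun u => ?_)))
  · rintro ω ⟨h1, h2⟩
    by_contra hn
    refine h2 (allC_of_good (κ := κ) (hb 0).pos (fun ξ u => ?_))
    induction u with
    | zero => exact goodC hκ (hb 0) (fun q hq => (h1 _ (hD q hq).1).trans (hD q hq).2) ξ
    | succ u ih =>
      by_contra e
      exact hn (Set.mem_iUnion.2 ⟨u, h1, ξ, ih, e⟩)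
  · rw [← ofReal_measureReal]
    exact ENNReal.ofReal_le_ofReal (words_measureC h hφ (hb u) (hS u) (fun q hq => (hD q hq).1))

end Pool.Agent.P.MP_f475a8_pr.Tri
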