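import Pool.Agent.P.MP_f475a8_pr.Final

/-! Steering inside a quarter space, started next to the origin. -/

set_option autoImplicit false

namespace Pool.Agent.P.MP_f475a8_pr.Tri
open Pool.Agent.P.MP_f475a8_pr

def okw (ok : P3 → Bool) : List Bool → ℕ → P3 → Bool
  | [], _, _ => true
  | _ :: w, code, cur => ok (mv (code % 5) cur) && okw ok w (code / 5) (mv (code % 5) cur)

theorem okw_true (w : List Bool) : ∀ c cur, okw (fun _ => true) w c cur = true := by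
  induction w with
  | nil => intro _ _; rfl
  | cons b w ih => intro c cur; simp only [okw, ih, Bool.and_self]

def chkV (p sz : ℤ) (ok : P3 → Bool) : WT → List Bool → Bool
  | WT.L c, w => w.length ≤ 9 && (chkw p 1 sz w c (0, 0, 0) [] && okw ok w c (0, 0, 0))
  | WT.N a b, w => chkV p sz ok a (w ++ [false]) && chkV p sz ok b (w ++ [true])

def ok1 (c : P3) : Bool := 0 ≤ c.2.1
def ok2 (c : P3) : Bool := 0 ≤ c.2.1 && (1 ≤ c.1 || (0 ≤ c.2.2 && c.2.2 ≤ c.2.1))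

section
open WT

def up0 : WT :=
  (N (N (N (L 9) (N (N (N (L 1159) (L 1784)) (L 534)) (L 34))) (N (N (L 29) (L 49)) (N (N (L
  249) (N (L 2749) (L 874))) (N (L 229) (N (L 854) (N (L 3229) (L 10229))))))) (N (N (L 21) (N
  (N (L 505) (L 546)) (L 46))) (N (N (L 45) (N (L 545) (L 170))) (N (N (L 525) (L 606)) (L
  106)))))

def up1 : WT :=
  (N (N (N (N (N (L 174) (L 530)) (L 49)) (N (N (N (L 2730) (L 855)) (L 230)) (L 105))) (N (N (N
  (L 234) (N (L 3033) (L 2625))) (L 109)) (L 9))) (N (N (N (N (N (L 3026) (L 1151)) (L 526)) (N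
  (N (N (L 5776) (L 8901)) (L 2651)) (N (N (L 13276) (N (L 68901) (L 28901))) (N (L 12651) (L
  13176))))) (N (L 106) (L 101))) (N (N (N (L 246) (N (L 3041) (L 696))) (L 121)) (L 21))))

def up2 : WT :=
  (N (N (N (N (N (L 605) (L 230)) (L 105)) (N (N (N (L 1155) (L 1780)) (L 530)) (N (N (L 2655)
  (N (L 13780) (L 5780))) (N (L 2530) (N (L 8780) (L 15030)))))) (N (L 21) (N (L 106) (N (L 225)
  (L 606))))) (N (N (N (L 49) (N (L 608) (L 174))) (N (N (L 149) (L 249)) (N (N (L 1249) (L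
  1024)) (N (L 1149) (N (L 3524) (N (L 65133) (L 51149))))))) (N (L 9) (N (L 34) (N (L 129) (L
  534))))))

def up3 : WT :=
  (N (N (N (N (N (L 170) (N (N (L 15033) (L 13295)) (L 795))) (L 45)) (N (N (N (L 2650) (L 725))
  (N (N (L 12650) (L 13725)) (L 1225))) (N (L 525) (N (N (L 13150) (L 15525)) (L 3025))))) (N (N
  (N (L 230) (N (N (N (L 28980) (L 44605)) (L 13355)) (L 855))) (L 105)) (N (N (L 530) (N (N (L
  12630) (L 13655)) (L 1155))) (N (L 505) (N (N (L 13130) (L 15505)) (L 3005)))))) (N (N (N (L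
  106) (L 29)) (N (N (L 506) (L 549)) (L 49))) (N (L 21) (N (N (L 526) (L 621)) (L 121)))))

def up4 : WT :=
  (N (N (N (L 21) (N (L 121) (L 106))) (N (N (L 101) (N (N (L 2501) (L 2726)) (L 226))) (N (N (N
  (L 1176) (N (N (L 63776) (L 66276)) (L 4301))) (N (L 2651) (L 2526))) (N (N (L 1776) (L 3026))
  (L 526))))) (N (N (L 9) (N (L 109) (L 34))) (N (N (L 105) (N (N (L 2525) (L 2730)) (L 230)))
  (N (L 49) (N (L 174) (L 530))))))

def up5 : WT :=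
  (N (N (N (N (N (L 606) (L 231)) (L 106)) (N (N (N (L 1156) (L 1781)) (L 531)) (L 29))) (N (N
  (N (L 546) (L 171)) (L 46)) (L 21))) (N (N (N (N (N (L 870) (L 2650)) (L 245)) (N (N (N (L
  13650) (L 4275)) (L 1150)) (L 525))) (N (N (N (L 1170) (N (L 15165) (L 13125))) (L 545)) (L
  45))) (N (N (N (N (N (L 15130) (L 5755)) (L 2630)) (N (N (N (L 28880) (L 44505)) (L 13255)) (N
  (N (L 66380) (N (L 344505) (L 144505))) (N (L 63255) (L 65880))))) (N (L 530) (L 505))) (N (N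
  (N (L 1230) (N (L 15205) (L 3480))) (L 605)) (L 105)))))

def up6 : WT :=
  (N (N (N (N (L 121) (L 46)) (L 21)) (N (N (N (L 231) (L 356)) (L 106)) (N (N (L 531) (N (L
  2756) (L 1156))) (N (L 506) (N (L 1756) (L 3006)))))) (N (N (N (L 109) (L 34)) (L 9)) (N (N (L
  49) (N (L 549) (L 174))) (N (L 45) (N (L 170) (N (L 645) (L 2670)))))))

def up7 : WT :=
  (N (N (N (N (L 34) (N (N (N (L 13250) (L 3625)) (L 2659)) (L 159))) (L 9)) (N (N (N (L 530) (L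
  145)) (N (N (L 2530) (L 2745)) (L 245))) (N (L 105) (N (N (L 2630) (L 3105)) (L 605))))) (N (N
  (N (L 46) (N (N (N (L 5796) (L 8921)) (L 2671)) (L 171))) (L 21)) (N (N (L 106) (N (N (L 2526)
  (L 2731)) (L 231))) (N (L 101) (N (N (L 2626) (L 3101)) (L 601))))))

def upS : WT :=
  (N (N (N (N (N (N (L 2256) (L 1006)) (L 381)) (N (N (N (L 10131) (L 8256)) (L 2006)) (N (N (N
  (L 52131) (L 20881)) (L 5256)) (L 2131)))) (N (L 81) (N (L 406) (L 331)))) (N (N (N (N (L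
  2276) (L 1026)) (L 401)) (N (N (N (L 10151) (L 10001)) (L 2026)) (L 376))) (L 16))) (N (N (N
  (N (N (L 840) (N (L 10215) (L 3200))) (L 215)) (N (N (N (N (L 56900) (L 25650)) (L 10025)) (N
  (N (N (L 253775) (L 250025)) (L 50650)) (L 9400))) (L 400))) (N (N (N (L 2040) (L 790)) (L
  165)) (L 40))) (N (N (N (N (L 2280) (L 1030)) (L 405)) (N (N (N (L 10155) (L 10005)) (L 2030))
  (L 380))) (N (N (N (L 2080) (L 830)) (L 205)) (L 80)))))

end

theorem ups : chkV 0 (-1) ok1 up0 [] = true ∧ chkV 1 (-1) ok1 up1 [] = true ∧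
    chkV 2 (-1) ok1 up2 [] = true ∧ chkV 3 (-1) ok1 up3 [] = true ∧
    chkV 4 (-1) ok1 up4 [] = true ∧ chkV 5 (-1) ok1 up5 [] = true ∧
    chkV 6 (-1) ok1 up6 [] = true ∧ chkV 7 (-1) ok1 up7 [] = true ∧
    chkV 5 1 ok2 upS [] = true := by
  decide +kernel

theorem up_exists {p : ℤ} (h0 : 0 ≤ p) (h8 : p < 8) : ∃ t, chkV p (-1) ok1 t [] = true := by
  obtain ⟨a0, a1, a2, a3, a4, a5, a6, a7, -⟩ := ups
  interval_cases p <;> exact ⟨_, by assumption⟩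

theorem chkV_sound {p sz : ℤ} {ok : P3 → Bool} {ξ : ℕ → Bool} {l : ℕ} (t : WT) :
    ∀ w, chkV p sz ok t w = true → Wd ξ l w → ∃ w c, Wd ξ l w ∧ w.length ≤ 9 ∧
      chkw p 1 sz w c (0, 0, 0) [] = true ∧ okw ok w c (0, 0, 0) = true := by
  induction t with
  | L c =>
    intro w h hw
    simp only [chkV, Bool.and_eq_true, decide_eq_true_eq] at h
    exact ⟨w, c, hw, h.1, h.2⟩
  | N a b iha ihb =>
    intro w h hw
    simp only [chkV, Bool.and_eq_true] at h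
    have := hw.append
    cases e : ξ (l + w.length + 1) <;> rw [e] at this
    · exact iha _ h.1 this
    · exact ihb _ h.2 this

def col4 (q : P3) : Bool := colr (4 + 4 * q.1 + q.2.1 + 2 * q.2.2)

/-- a quarter space with a part of one more plane -/
def Ast (q : P3) : Prop := (1 ≤ q.1 ∧ 0 ≤ q.2.1) ∨ (q.1 = 0 ∧ 0 ≤ q.2.2 ∧ q.2.2 < q.2.1)

def Ds (X : ℤ) : Set P3 := {q | Ast q ∧ q.1 ≤ X ∧ q.2.1 ≤ X ∧ -X ≤ q.2.2 ∧ q.2.2 ≤ X}

theorem walkC {X sy sz : ℤ} {ω : P3 → Bool} (hω : ∀ q ∈ Ds X, ω q = col4 q) {ξ : ℕ → Bool}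
    {o : P3} {ok : P3 → Bool} (hok : ∀ c, ok c = true → 0 ≤ c.1 → -9 ≤ c.2.1 → Ast (o + c))
    (w : List Bool) : ∀ (code : ℕ) (cur : P3) (vis : List P3) (l : ℕ),
    chkw ((4 + 4 * o.1 + o.2.1 + 2 * o.2.2) % 8) sy sz w code cur vis = true →
    okw ok w code cur = true → Wd ξ l w →
    Seen adj3 (0, 0, 0) ω ξ {q | q ∈ Ds X ∧ (q.1 < o.1 ∨ q - o ∈ cur :: vis)} (o + cur) l →
    o.1 + cur.1 < X → 0 ≤ cur.1 → ((0, 0, 0) : P3) ∈ cur :: vis →
    -9 + w.length ≤ cur.2.1 → o.2.1 + cur.2.1 + w.length ≤ X →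
    -X + w.length ≤ o.2.2 + cur.2.2 → o.2.2 + cur.2.2 + w.length ≤ X →
    ∃ (q : P3) (l' : ℕ), l' ≤ l + w.length ∧ q.1 ≤ o.1 + cur.1 + w.length ∧
      o.2.1 + cur.2.1 - w.length ≤ q.2.1 ∧ q.2.1 ≤ o.2.1 + cur.2.1 + w.length ∧
      o.2.2 + cur.2.2 - w.length ≤ q.2.2 ∧ q.2.2 ≤ o.2.2 + cur.2.2 + w.length ∧
      ((q.1 = X ∧ Seen adj3 (0, 0, 0) ω ξ (Ds X) q l') ∨
      (q.1 < X ∧ o.1 < q.1 ∧ 1 ≤ sy * (q.2.1 - o.2.1) ∧ 1 ≤ sz * (q.2.2 - o.2.2) ∧
        Seen adj3 (0, 0, 0) ω ξ {y | y ∈ Ds X ∧ (y.1 < q.1 ∨ y = q)} q l')) := by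
  induction w with
  | nil =>
    intro code cur vis l h _ _ hs h1 h2 h3 _ _ _ _
    simp only [chkw, Bool.and_eq_true, decide_eq_true_eq, List.all_eq_true] at h
    obtain ⟨⟨a1, a2⟩, a3⟩ := h
    refine ⟨o + cur, l, by simp, by simp, by simp, by simp, by simp, by simp,
      Or.inr ⟨h1, ?_, by simpa using a2, by simpa using a3, hs.mono ?_⟩⟩
    · rcases List.mem_cons.1 h3 with e | e
      · rw [← e] at a2; simp at a2
      · simpa using a1 _ e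
    · rintro q ⟨b1, b2 | b2⟩
      · exact ⟨b1, Or.inl (by simp only [Prod.fst_add]; omega)⟩
      · rcases List.mem_cons.1 b2 with e | e
        · exact ⟨b1, Or.inr (by rw [← e]; simp)⟩
        · have := a1 _ e
          exact ⟨b1, Or.inl (by simp only [Prod.fst_add, Prod.fst_sub] at this ⊢; omega)⟩
  | cons b w ih =>
    intro code cur vis l h hk hw hs h1 h2 h3 h4 h5 h6 h7
    simp only [chkw, Bool.and_eq_true, beq_iff_eq, Bool.not_eq_true', List.contains_eq_mem,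
      decide_eq_false_iff_not] at h
    simp only [okw, Bool.and_eq_true] at hk
    obtain ⟨⟨a1, a2⟩, a3⟩ := h
    obtain ⟨k1, k2⟩ := hk
    have hm := mv_cases (code % 5) cur
    generalize mv (code % 5) cur = nx at *
    have hm' : adj3 (o + cur) (o + nx) ∧ cur.1 ≤ nx.1 ∧ nx.1 ≤ cur.1 + 1 ∧
        cur.2.1 - 1 ≤ nx.2.1 ∧ nx.2.1 ≤ cur.2.1 + 1 ∧ cur.2.2 - 1 ≤ nx.2.2 ∧
        nx.2.2 ≤ cur.2.2 + 1 := by
      simp only [adj3, Prod.fst_add, Prod.snd_add]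
      simp only [Prod.ext_iff] at hm
      omega
    simp only [List.length_cons, Nat.cast_add, Nat.cast_one] at h4 h5 h6 h7 ⊢
    have hD : o + nx ∈ Ds X := by
      refine ⟨hok nx k1 (by omega) (by omega), ?_⟩
      simp only [Prod.fst_add, Prod.snd_add]; omega
    have hs' : Seen adj3 (0, 0, 0) ω ξ {q | q ∈ Ds X ∧ (q.1 < o.1 ∨ q - o ∈ nx :: cur :: vis)}
        (o + nx) (l + 1) := by
      refine hs.step (fun q hq => ⟨hq.1, hq.2.imp id (List.mem_cons_of_mem _)⟩)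
        ⟨hD, Or.inr (by simp)⟩ (fun e => ?_) hm'.1 ?_
      · rcases e.2 with e | e
        · simp only [Prod.fst_add] at e; omega
        · exact a2 (by simpa using e)
      · rw [hω _ hD, ← hw.1, ← a1]
        unfold col4 colr
        simp only [Prod.fst_add, Prod.snd_add]
        rw [show (4 + 4 * (o.1 + nx.1) + (o.2.1 + nx.2.1) + 2 * (o.2.2 + nx.2.2)) % 8 =
          ((4 + 4 * o.1 + o.2.1 + 2 * o.2.2) % 8 + 4 * nx.1 + nx.2.1 + 2 * nx.2.2) % 8 by omega]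
    by_cases e : o.1 + nx.1 < X
    · obtain ⟨q, l', b1, b2, b3, b4, b5, b6, b7⟩ := ih _ nx (cur :: vis) (l + 1) a3 k2 hw.2 hs' e
        (by omega) (List.mem_cons_of_mem _ h3) (by omega) (by omega) (by omega) (by omega)
      exact ⟨q, l', by omega, by omega, by omega, by omega, by omega, by omega, b7⟩
    · refine ⟨o + nx, l + 1, by omega, ?_, ?_, ?_, ?_, ?_,
        Or.inl ⟨?_, hs'.mono (fun q hq => hq.1)⟩⟩ <;> simp only [Prod.fst_add, Prod.snd_add] <;>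
        omega

theorem switchC {X d : ℕ} (hX : 9 * d + 19 ≤ X) {ω : P3 → Bool}
    (hω : ∀ q ∈ Ds X, ω q = col4 q) (ξ : ℕ → Bool) {a b : ℤ} (ha : 18 ≤ a ∧ a + 200 ≤ d)
    (hb : 18 ≤ b ∧ b + 200 ≤ d) : ∃ (y z : ℤ) (l : ℕ), l ≤ 9 * X ∧ a - 18 ≤ y ∧ y ≤ a + 18 ∧
      b - 18 ≤ z ∧ z ≤ b + 18 ∧ Seen adj3 (0, 0, 0) ω ξ (Ds X) (X, y, z) l := by
  by_contra hcon
  have key : ∀ j : ℕ, ∃ (q : P3) (l : ℕ), q.1 < X ∧ j ≤ q.1 ∧ q.1 ≤ 9 * j + 1 ∧ l ≤ 9 * j ∧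
      ((1 ≤ q.1 ∧ 0 ≤ q.2.1) ∨ (q.1 = 0 ∧ q.2.1 = 1 ∧ q.2.2 = 0)) ∧
      ((j ≤ 9 ∧ j ≤ q.2.1 ∧ q.2.1 ≤ 9 * j + 1 ∧ -9 * j ≤ q.2.2 ∧ q.2.2 ≤ 9 * j) ∨ (9 ≤ q.2.1 ∧
      ((a - 9 ≤ q.2.1 ∧ q.2.1 ≤ a + 9) ∨ (a - (d - j) ≤ q.2.1 ∧ q.2.1 ≤ a + (d - j))) ∧
      ((b - 9 ≤ q.2.2 ∧ q.2.2 ≤ b + 9) ∨ (b - (d - j) ≤ q.2.2 ∧ q.2.2 ≤ b + (d - j))))) ∧
      Seen adj3 (0, 0, 0) ω ξ {y | y ∈ Ds X ∧ (y.1 < q.1 ∨ y = q)} q l := by
    intro j
    induction j with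
    | zero =>
      have hD : ((0, 1, 0) : P3) ∈ Ds X ∧ ((1, 0, 0) : P3) ∈ Ds X := by
        constructor <;> simp [Ds, Ast] <;> omega
      cases e : ξ 0
      · refine ⟨(0, 1, 0), 0, by simp only; omega, by simp, by simp, by simp, by simp, by simp,
          Seen.base (by simp [adj3]) ⟨hD.1, Or.inr rfl⟩ ?_⟩
        rw [hω _ hD.1, e]; decide
      · refine ⟨(1, 0, 0), 0, by simp only; omega, by simp, by simp, by simp, by simp, by simp,
          Seen.base (by simp [adj3]) ⟨hD.2, Or.inr rfl⟩ ?_⟩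
        rw [hω _ hD.2, e]; decide
    | succ j ih =>
      obtain ⟨o, l, h1, h2, h3, h4, h5, h6, h7⟩ := ih
      obtain ⟨sy, sz, ok, w, c, w1, w2, w3, w4, hok, hs⟩ : ∃ (sy sz : ℤ) (ok : P3 → Bool)
          (w : List Bool) (c : ℕ), Wd ξ l w ∧ w.length ≤ 9 ∧
          chkw ((4 + 4 * o.1 + o.2.1 + 2 * o.2.2) % 8) sy sz w c (0, 0, 0) [] = true ∧
          okw ok w c (0, 0, 0) = true ∧
          (∀ c, ok c = true → 0 ≤ c.1 → -9 ≤ c.2.1 → Ast (o + c)) ∧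
          ((o.2.1 < 9 ∧ sy = 1) ∨ (9 ≤ o.2.1 ∧
            ((sy = 1 ∧ o.2.1 ≤ a) ∨ (sy = -1 ∧ a < o.2.1)) ∧
            ((sz = 1 ∧ o.2.2 ≤ b) ∨ (sz = -1 ∧ b < o.2.2)))) := by
        by_cases e9 : o.2.1 < 9
        · rcases h5 with h5 | h5
          · obtain ⟨t, ht⟩ := up_exists (p := (4 + 4 * o.1 + o.2.1 + 2 * o.2.2) % 8) (by omega)
              (by omega)
            obtain ⟨w, c, w1, w2, w3, w4⟩ := chkV_sound (ξ := ξ) (l := l) t [] ht trivial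
            refine ⟨1, -1, ok1, w, c, w1, w2, w3, w4, fun c k1 k2 _ => ?_, Or.inl ⟨e9, rfl⟩⟩
            simp only [ok1, decide_eq_true_eq] at k1
            simp only [Ast, Prod.fst_add, Prod.snd_add]; omega
          · obtain ⟨w, c, w1, w2, w3, w4⟩ := chkV_sound (ξ := ξ) (l := l) upS []
              ups.2.2.2.2.2.2.2.2 trivial
            refine ⟨1, 1, ok2, w, c, w1, w2, ?_, w4, fun c k1 k2 _ => ?_, Or.inl ⟨e9, rfl⟩⟩
            · rwa [show (4 + 4 * o.1 + o.2.1 + 2 * o.2.2) % 8 = 5 by omega]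
            · simp only [ok2, Bool.and_eq_true, Bool.or_eq_true, decide_eq_true_eq] at k1
              simp only [Ast, Prod.fst_add, Prod.snd_add]; omega
        · obtain ⟨sy, hy⟩ : ∃ s : ℤ, (s = 1 ∧ o.2.1 ≤ a) ∨ (s = -1 ∧ a < o.2.1) := by
            by_cases e : o.2.1 ≤ a
            · exact ⟨1, Or.inl ⟨rfl, e⟩⟩
            · exact ⟨-1, Or.inr ⟨rfl, by omega⟩⟩
          obtain ⟨sz, hz⟩ : ∃ s : ℤ, (s = 1 ∧ o.2.2 ≤ b) ∨ (s = -1 ∧ b < o.2.2) := by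
            by_cases e : o.2.2 ≤ b
            · exact ⟨1, Or.inl ⟨rfl, e⟩⟩
            · exact ⟨-1, Or.inr ⟨rfl, by omega⟩⟩
          obtain ⟨t, ht⟩ := cert_exists (p := (4 + 4 * o.1 + o.2.1 + 2 * o.2.2) % 8) (sy := sy)
            (sz := sz) (by omega) (by omega) (by omega) (by omega)
          obtain ⟨w, c, w1, w2, w3⟩ := chkT_sound (ξ := ξ) (l := l) t [] ht trivial
          refine ⟨sy, sz, fun _ => true, w, c, w1, w2, w3, okw_true _ _ _, fun c _ k2 k3 => ?_,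
            Or.inr ⟨by omega, hy, hz⟩⟩
          simp only [Ast, Prod.fst_add, Prod.snd_add]; omega
      obtain ⟨q, l', b1, b2, b3, b4, b5, b6, b7⟩ := walkC hω (o := o) hok w c (0, 0, 0) [] l
        w3 w4 w1 (by
          rw [show o + (0, 0, 0) = o from add_zero o]
          refine h7.mono (fun q hq => ⟨hq.1, hq.2.imp id (fun e => ?_)⟩)
          rw [e, sub_self]; exact List.mem_cons_self) (by simp only; omega) le_rfl
        List.mem_cons_self (by simp only; omega) (by simp only; omega) (by simp only; omega)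
        (by simp only; omega)
      simp only [add_zero] at b2 b3 b4 b5 b6
      rcases b7 with ⟨c1, c2⟩ | ⟨c1, c2, c3, c4, c5⟩
      · refine absurd ⟨q.2.1, q.2.2, l', by omega, by omega, by omega, by omega, by omega, ?_⟩ hcon
        exact (show q = ((X : ℤ), q.2.1, q.2.2) from Prod.ext c1 rfl) ▸ c2
      · refine ⟨q, l', c1, by omega, by omega, by omega, ?_, ?_, c5⟩
        · rcases hs with ⟨e, rfl⟩ | ⟨e, ⟨rfl, e1⟩ | ⟨rfl, e1⟩, -⟩ <;> omega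
        · rcases hs with ⟨e, rfl⟩ | ⟨e, hy, hz⟩
          · left; omega
          · refine Or.inr ⟨?_, ?_, ?_⟩
            · rcases hy with ⟨rfl, e1⟩ | ⟨rfl, e1⟩ <;> omega
            · rcases hy with ⟨rfl, e1⟩ | ⟨rfl, e1⟩ <;> omega
            · rcases hz with ⟨rfl, e1⟩ | ⟨rfl, e1⟩ <;> omega
  obtain ⟨q, l, h1, h2, -⟩ := key X
  omega

end Pool.Agent.P.MP_f475a8_pr.Tri
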