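import Pool.Agent.P.MP_f475a8_pr.Tree

/-! The shifts of the capped counters. -/

set_option autoImplicit false

namespace Pool.Agent.P.MP_f475a8_pr

def ix (tp a b c : ℕ) : ℕ := tp * 125 + a * 25 + b * 5 + c

theorem ix_dec {nt i : ℕ} (hi : i < 125 * nt) :
    ∃ tp a b c, tp < nt ∧ a ≤ 4 ∧ b ≤ 4 ∧ c ≤ 4 ∧ i = ix tp a b c :=
  ⟨i / 125, i / 25 % 5, i / 5 % 5, i % 5, by omega, by omega, by omega, by omega, by
    unfold ix; omega⟩

theorem ix_lt {nt tp a b c : ℕ} (h : tp < nt) (ha : a ≤ 4) (hb : b ≤ 4) (hc : c ≤ 4) :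
    ix tp a b c < 125 * nt := by unfold ix; omega

theorem ix_dig {tp a b c : ℕ} (ha : a ≤ 4) (hb : b ≤ 4) (hc : c ≤ 4) :
    ix tp a b c / 125 = tp ∧ dig 25 (ix tp a b c) = a ∧ dig 5 (ix tp a b c) = b ∧
      dig 1 (ix tp a b c) = c := by unfold ix dig; omega

def tgt (st i j : ℕ) : ℕ := i + st * (min 4 (dig st i + j) - dig st i)

theorem tgt_lt {st i : ℕ} (hst : st = 25 ∨ st = 5 ∨ st = 1) (h : dig st i < 4) (j nt : ℕ) :
    dig st (i + st) = dig st i + 1 ∧ (i + st) / 125 = i / 125 ∧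
      (i < 125 * nt → i + st < 125 * nt) ∧ tgt st (i + st) j = tgt st i (j + 1) := by
  unfold tgt dig at *
  rcases hst with rfl | rfl | rfl <;> omega

theorem tgt_eq {st i : ℕ} (h : ¬ dig st i < 4) (j : ℕ) : tgt st i j = i ∧ dig st i = 4 := by
  have : dig st i = 4 := by unfold dig at *; omega
  unfold tgt
  rw [this]
  simp

theorem tgt_zero (st i : ℕ) : tgt st i 0 = i := by
  have : dig st i ≤ 4 := by unfold dig at *; omega
  unfold tgt
  rw [add_zero, min_eq_right this]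
  simp

theorem ush0_spec {n st X : ℕ} (q : ℕ → Bool) (hq : ∀ i, q i = true → ¬ dig st i < 4)
    (hX : X < 2 ^ (32 * n)) :
    ush0 (32 * st) (mk n (fun i => dig st i < 4)) (mk n q) X < 2 ^ (32 * n) ∧
      ∀ i < n, fl (ush0 (32 * st) (mk n (fun i => dig st i < 4)) (mk n q) X) i =
        if dig st i < 4 then fl X (i + st) else if q i = true then fl X i else 0 := by
  have h1 : ∀ i < n, fl (Nat.land (Nat.shiftRight X (32 * st)) (mk n (fun i => dig st i < 4))) i +
      fl (Nat.land X (mk n q)) i =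
      if dig st i < 4 then fl X (i + st) else if q i = true then fl X i else 0 := by
    intro i hi
    rw [fl_land_mk, fl_land_mk, fl_shr]
    by_cases h : dig st i < 4
    · have : ¬ q i = true := fun e => hq i e h
      simp [h, hi, this]
    · simp [h, hi]
  obtain ⟨a1, a2⟩ := add_spec
    (land_lt' (Nat.shiftRight X (32 * st)) (mk_lt n (fun i => dig st i < 4)))
    (land_lt (mk n q) hX) (fun i hi => by
      rw [h1 i hi]
      split_ifs
      · exact fl_lt _ _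
      · exact fl_lt _ _
      · positivity)
  exact ⟨a1, fun i hi => (a2 i hi).trans (h1 i hi)⟩

theorem itn0_spec {nt st X : ℕ} (hst : st = 25 ∨ st = 5 ∨ st = 1)
    (hX : X < 2 ^ (32 * (125 * nt))) (j : ℕ) :
    itn (ush0 (32 * st) (mk (125 * nt) (fun i => dig st i < 4))
      (mk (125 * nt) (fun i => !(dig st i < 4)))) j X < 2 ^ (32 * (125 * nt)) ∧
    ∀ i < 125 * nt, fl (itn (ush0 (32 * st) (mk (125 * nt) (fun i => dig st i < 4))
      (mk (125 * nt) (fun i => !(dig st i < 4)))) j X) i = fl X (tgt st i j) := by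
  induction j with
  | zero => exact ⟨hX, fun i _ => by rw [tgt_zero]; rfl⟩
  | succ j ih =>
    obtain ⟨a1, a2⟩ := ush0_spec (st := st) (fun i => !(dig st i < 4)) (by simp) ih.1
    refine ⟨a1, fun i hi => (a2 i hi).trans ?_⟩
    by_cases h : dig st i < 4
    · obtain ⟨-, -, h3, h4⟩ := tgt_lt hst h j nt
      rw [if_pos h, ih.2 _ (h3 hi), h4]
    · rw [if_neg h, if_pos (by simp [h]), ih.2 _ hi, (tgt_eq h _).1, (tgt_eq h _).1]

theorem tgt_ix {tp a b c : ℕ} (ha : a ≤ 4) (hb : b ≤ 4) (hc : c ≤ 4) (j : ℕ) :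
    tgt 25 (ix tp a b c) j = ix tp (min 4 (a + j)) b c ∧
    tgt 5 (ix tp a b c) j = ix tp a (min 4 (b + j)) c ∧
    tgt 1 (ix tp a b c) j = ix tp a b (min 4 (c + j)) := by
  obtain ⟨-, h1, h2, h3⟩ := ix_dig (tp := tp) ha hb hc
  unfold tgt
  rw [h1, h2, h3]
  unfold ix
  omega

def S0ok (nt : ℕ) (s0 : ℕ → ℕ → ℕ) : Prop :=
  ∀ B X, X < 2 ^ (32 * (125 * nt)) → s0 B X < 2 ^ (32 * (125 * nt)) ∧
    ∀ tp a b c, tp < nt → a ≤ 4 → b ≤ 4 → c ≤ 4 → fl (s0 B X) (ix tp a b c) =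
      fl X (ix tp (min 4 (a + cN B)) (min 4 (b + cE B)) (min 4 (c + cS B)))

theorem s0K_spec {nt : ℕ} {k : (ℕ → ℕ → ℕ) → Bool} (h : s0K (125 * nt) k = true) :
    ∃ s0, S0ok nt s0 ∧ k s0 = true := by
  unfold s0K at h
  simp only [fo_eq] at h
  refine ⟨_, fun B X hX => ?_, h⟩
  obtain ⟨a1, a2⟩ := itn0_spec (st := 25) (by simp) hX (cN B)
  obtain ⟨b1, b2⟩ := itn0_spec (st := 5) (by simp) a1 (cE B)
  obtain ⟨c1, c2⟩ := itn0_spec (st := 1) (by simp) b1 (cS B)
  refine ⟨c1, fun tp a b c ht ha hb hc => (c2 _ (ix_lt ht ha hb hc)).trans ?_⟩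
  rw [(tgt_ix ha hb hc _).2.2, b2 _ (ix_lt ht ha hb (min_le_left _ _)),
    (tgt_ix ha hb (min_le_left _ _) _).2.1,
    a2 _ (ix_lt ht ha (min_le_left _ _) (min_le_left _ _)),
    (tgt_ix ha (min_le_left _ _) (min_le_left _ _) _).1]

/-- the decay factor of the rejection bound -/
noncomputable def yy : ℝ := 1742 / 2048

noncomputable def rho (p : Bool) : ℝ := if p = true then yy else 1

theorem rho_nonneg (p : Bool) : 0 ≤ rho p := by
  unfold rho yy; split_ifs <;> norm_num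

def UYok (nt st : ℕ) (p : ℕ → Bool) (f : ℕ → ℕ) : Prop :=
  ∀ X, Sm (125 * nt) (2 ^ 20) X → Sm (125 * nt) (2 ^ 20) (f X) ∧ ∀ i < 125 * nt,
    (if dig st i < 4 then (fl X (i + st) : ℝ) else rho (p (i / 125)) * fl X i) ≤ fl (f X) i

theorem uYK_spec {nt st : ℕ} {p : ℕ → Bool} {k : (ℕ → ℕ) → Bool}
    (h : uYK (125 * nt) st p k = true) : ∃ f, UYok nt st p f ∧ k f = true := by
  unfold uYK at h
  simp only [fo_eq] at h
  refine ⟨_, fun X hX => ?_, h⟩
  generalize 125 * nt = n at *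
  obtain ⟨a1, a2⟩ := ush0_spec (st := st) (fun i => !(dig st i < 4) && !p (i / 125))
    (by simp; tauto) hX.1
  have hR := fl_pk (n := n) (x := fun i => cond (!(dig st i < 4) && p (i / 125)) 2047 0)
    (fun i _ => by cases (!(dig st i < 4) && p (i / 125)) <;> simp)
  have hRl := pk_lt (n := n) (x := fun i => cond (!(dig st i < 4) && p (i / 125)) 2047 0)
    (fun i _ => by cases (!(dig st i < 4) && p (i / 125)) <;> simp)
  obtain ⟨b1, b2⟩ := cdiv_spec (c := 1742) (s := 11) (by norm_num)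
    (land_lt (mk n (fun i => !(dig st i < 4) && p (i / 125))) hX.1) hRl (fun i hi => by
      have := hX.2 i
      rw [fl_land_mk, hR, if_pos hi]
      cases (!(dig st i < 4) && p (i / 125)) <;> simp [hi]
      omega)
  rw [show 2 ^ 32 - 2 ^ 11 = 4294965248 by norm_num] at b1 b2
  have key : ∀ i < n, fl (ush0 (32 * st) (mk n (fun i => dig st i < 4))
      (mk n (fun i => !(dig st i < 4) && !p (i / 125))) X) i +
      fl (cdiv (pk n (fun i => cond (!(dig st i < 4) && p (i / 125)) 2047 0)) (cst n 4294965248)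
        1742 11 (Nat.land X (mk n (fun i => !(dig st i < 4) && p (i / 125))))) i =
      if dig st i < 4 then fl X (i + st) else
        if p (i / 125) = true then (fl X i * 1742 + 2047) / 2048 else fl X i := by
    intro i hi
    rw [a2 i hi, b2 i hi, fl_land_mk, hR, if_pos hi]
    by_cases h1 : dig st i < 4
    · simp [h1]
    · cases p (i / 125) <;> simp [h1, hi]
  have kb : ∀ i, (if dig st i < 4 then fl X (i + st) else
        if p (i / 125) = true then (fl X i * 1742 + 2047) / 2048 else fl X i) ≤ 2 ^ 20 := by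
    intro i
    have := hX.2 i
    have := hX.2 (i + st)
    split_ifs <;> omega
  obtain ⟨c1, c2⟩ := add_spec a1 b1 (fun i hi => by
    rw [key i hi]; exact (kb i).trans_lt (by norm_num))
  unfold ushY
  refine ⟨Sm.of_lt c1 (fun i hi => by rw [c2 i hi, key i hi]; exact kb i), fun i hi => ?_⟩
  rw [c2 i hi, key i hi]
  unfold rho yy
  split_ifs
  · exact le_rfl
  · have : fl X i * 1742 ≤ 2048 * ((fl X i * 1742 + 2047) / 2048) := by omega
    have : (fl X i : ℝ) * 1742 ≤ 2048 * ((fl X i * 1742 + 2047) / 2048 : ℕ) := by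
      exact_mod_cast this
    linarith
  · simp

theorem itnY_spec {nt st : ℕ} {p : ℕ → Bool} {f : ℕ → ℕ} (hst : st = 25 ∨ st = 5 ∨ st = 1)
    (hf : UYok nt st p f) {X : ℕ} (hX : Sm (125 * nt) (2 ^ 20) X) (j : ℕ) :
    Sm (125 * nt) (2 ^ 20) (itn f j X) ∧ ∀ i < 125 * nt,
      fl X (tgt st i j) * rho (p (i / 125)) ^ (dig st i + j - 4) ≤ fl (itn f j X) i := by
  induction j with
  | zero =>
    refine ⟨hX, fun i _ => ?_⟩
    rw [tgt_zero, show dig st i + 0 - 4 = 0 by unfold dig; omega, pow_zero, mul_one]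
    exact le_rfl
  | succ j ih =>
    obtain ⟨a1, a2⟩ := hf _ ih.1
    refine ⟨a1, fun i hi => le_trans ?_ (a2 i hi)⟩
    by_cases h : dig st i < 4
    · obtain ⟨h1, h2, h3, h4⟩ := tgt_lt hst h j nt
      have := ih.2 _ (h3 hi)
      rw [h1, h2, h4] at this
      rw [if_pos h, show dig st i + (j + 1) = dig st i + 1 + j by ring]
      exact this
    · have := ih.2 _ hi
      rw [(tgt_eq h _).1, (tgt_eq h 0).2] at this
      rw [if_neg h, (tgt_eq h _).1, (tgt_eq h 0).2, show 4 + (j + 1) - 4 = (4 + j - 4) + 1 by omega,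
        pow_succ, ← mul_assoc, mul_comm]
      exact mul_le_mul_of_nonneg_left this (rho_nonneg _)

/-- the value attached to uncapped counters -/
noncomputable def valU (pN pE pS : ℕ → Bool) (tp X a b c : ℕ) : ℝ :=
  fl X (ix tp (min 4 a) (min 4 b) (min 4 c)) *
    (rho (pN tp) ^ (a - 4) * rho (pE tp) ^ (b - 4) * rho (pS tp) ^ (c - 4))

theorem sh3_spec {nt : ℕ} {pN pE pS : ℕ → Bool} {fN fE fS : ℕ → ℕ} (hN : UYok nt 25 pN fN)
    (hE : UYok nt 5 pE fE) (hS : UYok nt 1 pS fS) {X : ℕ} (hX : Sm (125 * nt) (2 ^ 20) X)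
    (B : ℕ) : Sm (125 * nt) (2 ^ 20) (sh3 fN fE fS B X) ∧ ∀ tp < nt, ∀ a b c,
      valU pN pE pS tp X (a + cN B) (b + cE B) (c + cS B) ≤
        valU pN pE pS tp (sh3 fN fE fS B X) a b c := by
  obtain ⟨a1, a2⟩ := itnY_spec (by simp) hN hX (cN B)
  obtain ⟨b1, b2⟩ := itnY_spec (by simp) hE a1 (cE B)
  obtain ⟨c1, c2⟩ := itnY_spec (by simp) hS b1 (cS B)
  refine ⟨c1, fun tp ht a b c => ?_⟩
  have m := fun x => min_le_left 4 x
  have c3 := c2 _ (ix_lt ht (m a) (m b) (m c))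
  rw [(tgt_ix (m a) (m b) (m c) _).2.2, (ix_dig (m a) (m b) (m c)).1,
    (ix_dig (m a) (m b) (m c)).2.2.2] at c3
  have b3 := b2 _ (ix_lt ht (m a) (m b) (m (min 4 c + cS B)))
  rw [(tgt_ix (m a) (m b) (m _) _).2.1, (ix_dig (m a) (m b) (m _)).1,
    (ix_dig (m a) (m b) (m _)).2.2.1] at b3
  have a3 := a2 _ (ix_lt ht (m a) (m (min 4 b + cE B)) (m (min 4 c + cS B)))
  rw [(tgt_ix (m a) (m _) (m _) _).1, (ix_dig (m a) (m _) (m _)).1,
    (ix_dig (m a) (m _) (m _)).2.1] at a3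
  unfold valU sh3
  have e1 : ∀ x j, min 4 (x + j) = min 4 (min 4 x + j) := by intro x j; omega
  have e2 : ∀ x j, x + j - 4 = (min 4 x + j - 4) + (x - 4) := by intro x j; omega
  rw [e1 a, e1 b, e1 c, e2 a, e2 b, e2 c, pow_add, pow_add, pow_add]
  have r1 := pow_nonneg (rho_nonneg (pN tp))
  have r2 := pow_nonneg (rho_nonneg (pE tp))
  have r3 := pow_nonneg (rho_nonneg (pS tp))
  have h1 := mul_le_mul_of_nonneg_right a3 (r2 (min 4 b + cE B - 4))
  have h2 := mul_le_mul_of_nonneg_right (h1.trans b3) (r3 (min 4 c + cS B - 4))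
  have h3 := mul_le_mul_of_nonneg_right (h2.trans c3)
    (mul_nonneg (mul_nonneg (r1 (a - 4)) (r2 (b - 4))) (r3 (c - 4)))
  refine le_trans (le_of_eq ?_) h3
  ring

/-- growth of the bound in one entry step -/
def gb (b : ℕ) : ℕ := (b * 1204 + 1023) / 1024

theorem shl_lt {n m X : ℕ} (h : X < 2 ^ (32 * n)) :
    Nat.shiftLeft X (32 * m) < 2 ^ (32 * (n + m)) := by
  rw [Nat.shiftLeft_eq', Nat.shiftLeft_eq, mul_add, pow_add]
  exact Nat.mul_lt_mul_of_pos_right h (by positivity)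

theorem jsh_spec {b Y : ℕ} (hb : b < 2 ^ 21) (hY : Sm 625 b Y) :
    Sm 625 (gb b) (jsh (cst 625 2147483648) (pk 625 (fun i => cond (500 ≤ i) 1023 0))
      (cst 625 4294966272) (mk 500 (fun _ => true)) (mk 625 (fun i => 500 ≤ i)) Y) ∧
    ∀ i < 625, (125 ≤ i → fl Y (i - 125) ≤ fl (jsh (cst 625 2147483648)
      (pk 625 (fun i => cond (500 ≤ i) 1023 0))
      (cst 625 4294966272) (mk 500 (fun _ => true)) (mk 625 (fun i => 500 ≤ i)) Y) i) ∧
      (500 ≤ i → fl Y i * 1204 ≤ 1024 * fl (jsh (cst 625 2147483648)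
      (pk 625 (fun i => cond (500 ≤ i) 1023 0))
      (cst 625 4294966272) (mk 500 (fun _ => true)) (mk 625 (fun i => 500 ≤ i)) Y) i) := by
  have hR := fl_pk (n := 625) (x := fun i => cond (500 ≤ i) 1023 0)
    (fun i _ => by cases (decide (500 ≤ i)) <;> simp)
  have hRl := pk_lt (n := 625) (x := fun i => cond (500 ≤ i) 1023 0)
    (fun i _ => by cases (decide (500 ≤ i)) <;> simp)
  obtain ⟨b1, b2⟩ := cdiv_spec (c := 1204) (s := 10) (by norm_num)
    (land_lt (mk 625 (fun i => 500 ≤ i)) hY.1) hRl (fun i hi => by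
      have := hY.2 i
      rw [fl_land_mk, hR, if_pos hi]
      cases (decide (500 ≤ i)) <;> simp [hi]
      omega)
  rw [show 2 ^ 32 - 2 ^ 10 = 4294966272 by norm_num] at b1 b2
  have b3 : ∀ i < 625, fl (cdiv (pk 625 (fun i => cond (500 ≤ i) 1023 0)) (cst 625 4294966272)
      1204 10 (Nat.land Y (mk 625 (fun i => 500 ≤ i)))) i =
      if 500 ≤ i then (fl Y i * 1204 + 1023) / 1024 else 0 := by
    intro i hi
    rw [b2 i hi, fl_land_mk, hR, if_pos hi]
    by_cases h : 500 ≤ i <;> simp [h, hi]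
  have a1 : Nat.shiftLeft (Nat.land Y (mk 500 (fun _ => true))) (32 * 125) < 2 ^ (32 * 625) :=
    shl_lt (n := 500) (m := 125) (land_lt' Y (mk_lt 500 _))
  have a2 : ∀ i < 625, fl (Nat.shiftLeft (Nat.land Y (mk 500 (fun _ => true))) (32 * 125)) i =
      if i < 125 then 0 else fl Y (i - 125) := by
    intro i hi
    rw [fl_shl, fl_land_mk, if_pos (show i - 125 < 500 ∧ true = true from ⟨by omega, rfl⟩)]
  rw [show 32 * 125 = 4000 by norm_num] at a1 a2
  obtain ⟨c1, c2⟩ := mx_spec a1 b1 (fun i hi => by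
    have := hY.2 (i - 125)
    rw [a2 i hi]; split_ifs <;> omega) (fun i hi => by
    have := hY.2 i
    rw [b3 i hi]; split_ifs <;> omega)
  unfold jsh
  refine ⟨Sm.of_lt c1 (fun i hi => ?_), fun i hi => ?_⟩
  · have := hY.2 (i - 125)
    have := hY.2 i
    rw [c2 i hi, a2 i hi, b3 i hi]
    unfold gb
    split_ifs <;> omega
  · rw [c2 i hi, a2 i hi, b3 i hi]
    split_ifs <;> omega

end Pool.Agent.P.MP_f475a8_pr
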